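import Mathlib
import Pool.Agent.H772R2.NSR.Gal

/-!
Abstract frame for the axisymmetric Navier-Stokes equations with viscosity localised by an operator
`P`, and Galerkin trajectories.
-/

set_option linter.unusedSectionVars false

open MeasureTheory Set Filter Topology Metric
open scoped InnerProductSpace NNReal

namespace H772R2.NAX

open H772R2.NSR (Visc gradE exists_global)

variable {H K : Type*} [NormedAddCommGroup H] [InnerProductSpace ℝ H] [CompleteSpace H]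
  [NormedAddCommGroup K] [InnerProductSpace ℝ K] [CompleteSpace K]

/-- The abstract frame. -/
structure AFrame (W : Submodule ℝ (H × K)) (m : H → K) (P : K →L[ℝ] K) (C : ℝ) : Prop where
  C0 : 0 < C
  closedW : IsClosed (W : Set (H × K))
  uniq : ∀ p ∈ W, p.1 = 0 → p.2 = 0
  sym : ∀ y w : K, ⟪P y, w⟫_ℝ = ⟪y, P w⟫_ℝ
  le : ∀ y : K, ‖P y‖ ≤ ‖y‖
  ortho : ∀ p ∈ W, ⟪m p.1, p.2⟫_ℝ = 0
  anti : ∀ p ∈ W, ∀ q ∈ W, ⟪m p.1 - m q.1, p.2 - q.2⟫_ℝ = -⟪m (p.1 - q.1), q.2⟫_ℝ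
  lips : ∀ p ∈ W, ∀ q ∈ W, ‖m p.1 - m q.1‖ ^ 4
    ≤ C * (‖p.1 - q.1‖ * ‖p.2 - q.2‖ ^ 3 * ((‖p.1‖ + ‖q.1‖) * (‖p.2‖ + ‖q.2‖) ^ 3))
  axis : ∀ p ∈ W, ∀ y : K, |⟪m p.1, y⟫_ℝ|
    ≤ C * (‖P y‖ * Real.sqrt (‖p.1‖ * (‖P p.2‖ + ‖p.1‖) ^ 3) + ‖y‖ * (‖p.1‖ * ‖p.2‖))

/-- the right-hand side. -/
noncomputable def rh (P : K →L[ℝ] K) (m : H → K) (μ : ℝ → ℝ) (ν : ℝ) (x : H) (z : K) : K :=
  -(ν • z) - μ ‖P z‖ • P (P z) + m x

/-- A Galerkin trajectory in the finite dimensional space `E`. -/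
structure ATraj (W : Submodule ℝ (H × K)) (m : H → K) (P : K →L[ℝ] K) (μ : ℝ → ℝ) (ν T : ℝ)
    (E : Submodule ℝ H) (x x' : ℝ → H) (z : ℝ → K) : Prop where
  mem : ∀ t ∈ Icc 0 T, (x t, z t) ∈ W
  memE : ∀ t ∈ Icc 0 T, x t ∈ E
  memE' : ∀ t ∈ Icc 0 T, x' t ∈ E
  deriv : ∀ t ∈ Icc 0 T, HasDerivWithinAt x (x' t) (Icc 0 T) t
  contx' : ContinuousOn x' (Icc 0 T)
  contz : ContinuousOn z (Icc 0 T)
  eqn : ∀ t ∈ Icc 0 T, ∀ φ ∈ E, ∀ ψ, (φ, ψ) ∈ W →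
    ⟪x' t, φ⟫_ℝ = ⟪rh P m μ ν (x t) (z t), ψ⟫_ℝ

variable {W : Submodule ℝ (H × K)} {m : H → K} {P : K →L[ℝ] K} {C : ℝ} {E : Submodule ℝ H}

/-- Lipschitz bound for the stress. -/
theorem astress_lip {ν A M : ℝ} {μ : ℝ → ℝ} (V : Visc ν μ A M) (Fr : AFrame W m P C) (z w : K)
    {R : ℝ} (hz : ‖z‖ ≤ R) (hw : ‖w‖ ≤ R) :
    ‖μ ‖P z‖ • P (P z) - μ ‖P w‖ • P (P w)‖ ≤ (μ R + M * R) * ‖z - w‖ := by
  have e1 : μ ‖P z‖ • P (P z) - μ ‖P w‖ • P (P w)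
      = μ ‖P z‖ • P (P (z - w)) + (μ ‖P z‖ - μ ‖P w‖) • P (P w) := by
    simp only [smul_sub, sub_smul, map_sub]; abel
  have h0 : 0 ≤ μ ‖P z‖ := V.nonneg _ (norm_nonneg _)
  have h1 : μ ‖P z‖ ≤ μ R := V.mono _ _ (norm_nonneg _) ((Fr.le z).trans hz)
  have h3 : |μ ‖P z‖ - μ ‖P w‖| ≤ M * ‖z - w‖ := by
    refine (V.lip _ _ (norm_nonneg _) (norm_nonneg _)).trans
      (mul_le_mul_of_nonneg_left ?_ V.M0)
    refine (abs_norm_sub_norm_le _ _).trans ?_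
    rw [← map_sub]
    exact Fr.le _
  have hM := V.M0
  have hR : 0 ≤ R := (norm_nonneg _).trans hz
  have h4 : ‖P (P (z - w))‖ ≤ ‖z - w‖ := (Fr.le _).trans (Fr.le _)
  have h5 : ‖P (P w)‖ ≤ R := ((Fr.le _).trans (Fr.le _)).trans hw
  have hμR : 0 ≤ μ R := V.nonneg R hR
  rw [e1]
  calc ‖μ ‖P z‖ • P (P (z - w)) + (μ ‖P z‖ - μ ‖P w‖) • P (P w)‖
      ≤ μ ‖P z‖ * ‖P (P (z - w))‖ + |μ ‖P z‖ - μ ‖P w‖| * ‖P (P w)‖ := by
        refine (norm_add_le _ _).trans (le_of_eq ?_)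
        rw [norm_smul, norm_smul, Real.norm_eq_abs, Real.norm_eq_abs, abs_of_nonneg h0]
    _ ≤ μ R * ‖z - w‖ + (M * ‖z - w‖) * R := by gcongr
    _ = _ := by ring

theorem agradE_mem (Fr : AFrame W m P C) [FiniteDimensional ℝ E]
    (hE : E ≤ W.map (LinearMap.fst ℝ H K)) (x : E) : ((x : H), gradE W E hE x) ∈ W :=
  Submodule.mem_graph_toLinearPMap (fun p hp h => Fr.uniq p hp h) (Submodule.inclusion hE x)

theorem agrad_unique (Fr : AFrame W m P C) {v : H} {z z' : K} (h : (v, z) ∈ W)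
    (h' : (v, z') ∈ W) : z = z' := by
  have h1 : ((0 : H), z - z') ∈ W := by
    have := W.sub_mem h h'
    simpa using this
  exact sub_eq_zero.mp (Fr.uniq _ h1 rfl)

theorem am_lip (Fr : AFrame W m P C) [FiniteDimensional ℝ E]
    (hE : E ≤ W.map (LinearMap.fst ℝ H K)) (R : ℝ) (hR : 0 ≤ R) :
    ∃ c : ℝ, 0 ≤ c ∧ ∀ x y : E, ‖x‖ ≤ R → ‖y‖ ≤ R → ‖m x - m y‖ ≤ c * ‖x - y‖ := by
  set L := gradE W E hE with hL
  set c4 : ℝ := C * (‖L‖ ^ 3 * ((2 * R) * (2 * (‖L‖ * R)) ^ 3)) with hc4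
  have hc40 : 0 ≤ c4 := by have := Fr.C0; positivity
  refine ⟨Real.sqrt (Real.sqrt c4), Real.sqrt_nonneg _, ?_⟩
  intro x y hx hy
  have h1 := Fr.lips _ (agradE_mem Fr hE x) _ (agradE_mem Fr hE y)
  simp only at h1
  have e1 : gradE W E hE x - gradE W E hE y = L (x - y) := by rw [map_sub]
  rw [e1] at h1
  have e2 : ‖(x : H) - y‖ = ‖x - y‖ := by rw [← Submodule.coe_sub]; rfl
  rw [e2] at h1
  have h2 : ‖L (x - y)‖ ≤ ‖L‖ * ‖x - y‖ := L.le_opNorm _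
  have h3 : ‖L x‖ ≤ ‖L‖ * R := (L.le_opNorm _).trans (by gcongr)
  have h4 : ‖L y‖ ≤ ‖L‖ * R := (L.le_opNorm _).trans (by gcongr)
  have hx' : ‖(x : H)‖ ≤ R := hx
  have hy' : ‖(y : H)‖ ≤ R := hy
  have hC := Fr.C0
  have h5 : ‖m x - m y‖ ^ 4 ≤ c4 * ‖x - y‖ ^ 4 := by
    calc ‖m x - m y‖ ^ 4
        ≤ C * (‖x - y‖ * ‖L (x - y)‖ ^ 3 * ((‖(x : H)‖ + ‖(y : H)‖) * (‖L x‖ + ‖L y‖) ^ 3)) := h1
      _ ≤ C * (‖x - y‖ * (‖L‖ * ‖x - y‖) ^ 3 * ((R + R) * (‖L‖ * R + ‖L‖ * R) ^ 3)) := by gcongr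
      _ = c4 * ‖x - y‖ ^ 4 := by rw [hc4]; ring
  have h6 : (Real.sqrt (Real.sqrt c4)) ^ 4 = c4 := by
    have : (Real.sqrt (Real.sqrt c4)) ^ 4 = ((Real.sqrt (Real.sqrt c4)) ^ 2) ^ 2 := by ring
    rw [this, Real.sq_sqrt (Real.sqrt_nonneg _), Real.sq_sqrt hc40]
  have h7 : ‖m x - m y‖ ^ 4 ≤ (Real.sqrt (Real.sqrt c4) * ‖x - y‖) ^ 4 := by
    rw [mul_pow, h6]; exact h5
  exact (pow_le_pow_iff_left₀ (norm_nonneg _) (by positivity) (by norm_num)).mp h7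

/-- The Galerkin vector field. -/
noncomputable def avf (W : Submodule ℝ (H × K)) (m : H → K) (P : K →L[ℝ] K) (μ : ℝ → ℝ) (ν : ℝ)
    (E : Submodule ℝ H) [FiniteDimensional ℝ E] (hE : E ≤ W.map (LinearMap.fst ℝ H K))
    (x : E) : E :=
  (gradE W E hE).adjoint (rh P m μ ν x (gradE W E hE x))

theorem avf_lip (Fr : AFrame W m P C) {ν A M : ℝ} {μ : ℝ → ℝ} (V : Visc ν μ A M) (hν : 0 < ν)
    [FiniteDimensional ℝ E] (hE : E ≤ W.map (LinearMap.fst ℝ H K)) (R : ℝ) :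
    ∃ C : ℝ≥0, LipschitzOnWith C (avf W m P μ ν E hE) (closedBall 0 R) := by
  set L := gradE W E hE with hL
  rcases lt_or_ge R 0 with hR | hR
  · refine ⟨0, ?_⟩
    rw [closedBall_eq_empty.mpr hR]
    exact LipschitzOnWith.of_dist_le_mul (fun x hx => absurd hx (notMem_empty _))
  obtain ⟨c, hc0, hc⟩ := am_lip Fr hE R hR
  set RL := ‖L‖ * R with hRL
  have hRL0 : 0 ≤ RL := by positivity
  have hμR : 0 ≤ μ RL := V.nonneg _ hRL0
  have hM := V.M0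
  set c1 : ℝ := ‖L.adjoint‖ * ((ν + (μ RL + M * RL)) * ‖L‖ + c) with hc1
  have hc10 : 0 ≤ c1 := by positivity
  refine ⟨Real.toNNReal c1, LipschitzOnWith.of_dist_le_mul ?_⟩
  intro x hx y hy
  rw [Real.coe_toNNReal _ hc10, dist_eq_norm, dist_eq_norm]
  rw [mem_closedBall_zero_iff] at hx hy
  have e1 : avf W m P μ ν E hE x - avf W m P μ ν E hE y
      = L.adjoint (-(ν • (L x - L y)) - (μ ‖P (L x)‖ • P (P (L x)) - μ ‖P (L y)‖ • P (P (L y)))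
        + (m x - m y)) := by
    simp only [avf, rh, ← hL]
    rw [← map_sub]
    congr 1
    simp only [smul_sub]
    abel
  have h1 : ‖μ ‖P (L x)‖ • P (P (L x)) - μ ‖P (L y)‖ • P (P (L y))‖
      ≤ (μ RL + M * RL) * (‖L‖ * ‖x - y‖) := by
    refine (astress_lip V Fr (L x) (L y) (R := RL) ((L.le_opNorm _).trans (by rw [hRL]; gcongr))
      ((L.le_opNorm _).trans (by rw [hRL]; gcongr))).trans ?_
    rw [← map_sub]
    gcongr
    exact L.le_opNorm _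
  have h2 : ‖ν • (L x - L y)‖ ≤ ν * (‖L‖ * ‖x - y‖) := by
    rw [norm_smul, Real.norm_eq_abs, abs_of_pos hν, ← map_sub]
    gcongr
    exact L.le_opNorm _
  rw [e1]
  calc ‖L.adjoint (-(ν • (L x - L y)) - (μ ‖P (L x)‖ • P (P (L x)) - μ ‖P (L y)‖ • P (P (L y)))
        + (m x - m y))‖
      ≤ ‖L.adjoint‖ * ‖-(ν • (L x - L y)) - (μ ‖P (L x)‖ • P (P (L x))
          - μ ‖P (L y)‖ • P (P (L y))) + (m x - m y)‖ := ContinuousLinearMap.le_opNorm _ _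
    _ ≤ ‖L.adjoint‖ * (ν * (‖L‖ * ‖x - y‖) + (μ RL + M * RL) * (‖L‖ * ‖x - y‖) + c * ‖x - y‖) := by
        gcongr
        refine (norm_add_le _ _).trans (add_le_add ?_ (hc x y hx hy))
        refine (norm_sub_le _ _).trans ?_
        rw [norm_neg]
        exact add_le_add h2 h1
    _ = c1 * ‖x - y‖ := by rw [hc1]; ring

theorem avf_inner (Fr : AFrame W m P C) {ν A M : ℝ} {μ : ℝ → ℝ} (V : Visc ν μ A M) (hν : 0 < ν)
    [FiniteDimensional ℝ E] (hE : E ≤ W.map (LinearMap.fst ℝ H K)) (x : E) :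
    ⟪avf W m P μ ν E hE x, x⟫_ℝ ≤ 0 := by
  set L := gradE W E hE with hL
  have hadj : ⟪avf W m P μ ν E hE x, x⟫_ℝ = ⟪rh P m μ ν x (L x), L x⟫_ℝ :=
    ContinuousLinearMap.adjoint_inner_left _ _ _
  rw [hadj]
  have h1 : ⟪m x, L x⟫_ℝ = 0 := Fr.ortho _ (agradE_mem Fr hE x)
  unfold rh
  rw [inner_add_left, h1, add_zero, inner_sub_left, inner_neg_left, real_inner_smul_left,
    real_inner_smul_left, real_inner_self_eq_norm_sq, Fr.sym (P (L x)), real_inner_self_eq_norm_sq]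
  have h3 : 0 ≤ μ ‖P (L x)‖ * ‖P (L x)‖ ^ 2 :=
    mul_nonneg (V.nonneg _ (norm_nonneg _)) (by positivity)
  have h4 : 0 ≤ ν * ‖L x‖ ^ 2 := by positivity
  linarith

theorem exists_atraj (Fr : AFrame W m P C) {ν A M : ℝ} {μ : ℝ → ℝ} (V : Visc ν μ A M)
    (hν : 0 < ν) [FiniteDimensional ℝ E]
    (hE : E ≤ W.map (LinearMap.fst ℝ H K)) {x0 : H} (hx0 : x0 ∈ E) :
    ∃ (x x' : ℝ → H) (z : ℝ → K), (∀ T, 0 ≤ T → ATraj W m P μ ν T E x x' z) ∧ x 0 = x0 := by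
  set L := gradE W E hE with hL
  have hLmem : ∀ x : E, ((x : H), L x) ∈ W := fun x => agradE_mem Fr hE x
  have hadj : ∀ (x y : E), ⟪avf W m P μ ν E hE x, y⟫_ℝ = ⟪rh P m μ ν x (L x), L y⟫_ℝ := by
    intro x y
    exact ContinuousLinearMap.adjoint_inner_left _ _ _
  -- solutions on bounded intervals
  have hex : ∀ n : ℕ, ∃ x : ℝ → E, x 0 = ⟨x0, hx0⟩ ∧
      (∀ t ∈ Icc (0 : ℝ) n, HasDerivWithinAt x (avf W m P μ ν E hE (x t)) (Icc (0 : ℝ) n) t) ∧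
      ∀ t ∈ Icc (0 : ℝ) n, ‖x t‖ ^ 2 ≤ ‖(⟨x0, hx0⟩ : E)‖ ^ 2 + 2 * 0 * t := by
    intro n
    exact exists_global (fun _ => avf W m P μ ν E hE) (Nat.cast_nonneg n)
      (fun R => by
        obtain ⟨C', h⟩ := avf_lip Fr V hν hE R
        exact ⟨C', fun _ _ => h⟩)
      (fun x => continuousOn_const) ⟨x0, hx0⟩ le_rfl (fun t _ x => avf_inner Fr V hν hE x)
  choose y hy0 hy1 hy2 using hex
  have hyb : ∀ n : ℕ, ∀ t ∈ Icc (0 : ℝ) n, ‖y n t‖ ≤ ‖x0‖ := by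
    intro n t ht
    have h := hy2 n t ht
    rw [mul_zero, zero_mul, add_zero] at h
    have e : ‖(⟨x0, hx0⟩ : E)‖ = ‖x0‖ := rfl
    rw [e] at h
    exact (pow_le_pow_iff_left₀ (norm_nonneg _) (norm_nonneg _) (by norm_num)).mp h
  obtain ⟨Cl, hCl⟩ := avf_lip Fr V hν hE ‖x0‖
  -- consistency
  have hcons : ∀ n k : ℕ, n ≤ k → ∀ t ∈ Icc (0 : ℝ) n, y n t = y k t := by
    intro n k hnk t ht
    have hnk' : (n : ℝ) ≤ k := by exact_mod_cast hnk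
    have hsub : Icc (0 : ℝ) n ⊆ Icc (0 : ℝ) k := Icc_subset_Icc_right hnk'
    have hd : ∀ s ∈ Ico (0 : ℝ) n, HasDerivWithinAt (y n) (avf W m P μ ν E hE (y n s)) (Ici s) s :=
      fun s hs => (hy1 n s (Ico_subset_Icc_self hs)).mono_of_mem_nhdsWithin
        (Icc_mem_nhdsGE_of_mem hs)
    have hd' : ∀ s ∈ Ico (0 : ℝ) n, HasDerivWithinAt (y k) (avf W m P μ ν E hE (y k s)) (Ici s) s :=
      fun s hs => (hy1 k s (hsub (Ico_subset_Icc_self hs))).mono_of_mem_nhdsWithin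
        (Icc_mem_nhdsGE_of_mem ⟨hs.1, hs.2.trans_le hnk'⟩)
    have := ODE_solution_unique_of_mem_Icc_right (v := fun _ => avf W m P μ ν E hE)
      (s := fun _ => closedBall (0 : E) ‖x0‖) (K := Cl) (f := y n) (g := y k) (a := 0) (b := n)
      (fun s _ => hCl)
      (fun s hs => (hy1 n s hs).continuousWithinAt) hd
      (fun s hs => mem_closedBall_zero_iff.mpr (hyb n s (Ico_subset_Icc_self hs)))
      (fun s hs => ((hy1 k s (hsub hs)).continuousWithinAt).mono hsub) hd'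
      (fun s hs => mem_closedBall_zero_iff.mpr (hyb k s (hsub (Ico_subset_Icc_self hs))))
      (by rw [hy0, hy0])
    exact this ht
  let x : ℝ → E := fun t => y (⌈t⌉₊ + 1) t
  have hxy : ∀ n : ℕ, ∀ t ∈ Icc (0 : ℝ) n, x t = y n t := by
    intro n t ht
    show y (⌈t⌉₊ + 1) t = y n t
    have h1 : t ∈ Icc (0 : ℝ) ((⌈t⌉₊ + 1 : ℕ) : ℝ) := by
      refine ⟨ht.1, ?_⟩
      push_cast
      linarith [Nat.le_ceil t]
    rcases le_total (⌈t⌉₊ + 1) n with h | h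
    · exact hcons _ _ h t h1
    · exact (hcons _ _ h t ht).symm
  have hx0' : x 0 = ⟨x0, hx0⟩ := by rw [hxy 0 0 ⟨le_rfl, by simp⟩, hy0]
  have hxd : ∀ T, 0 ≤ T → ∀ t ∈ Icc 0 T, HasDerivWithinAt x (avf W m P μ ν E hE (x t)) (Icc 0 T) t := by
    intro T hT t ht
    have hTn : T ≤ (⌈T⌉₊ : ℝ) := Nat.le_ceil T
    have hsub : Icc (0 : ℝ) T ⊆ Icc (0 : ℝ) (⌈T⌉₊ : ℝ) := Icc_subset_Icc_right hTn
    have h1 := (hy1 ⌈T⌉₊ t (hsub ht)).mono hsub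
    rw [← hxy _ t (hsub ht)] at h1
    exact h1.congr (fun s hs => hxy _ s (hsub hs)) (hxy _ t (hsub ht))
  refine ⟨fun t => x t, fun t => avf W m P μ ν E hE (x t), fun t => L (x t), ?_, ?_⟩
  · intro T hT
    have hxc : ContinuousOn x (Icc 0 T) := fun t ht => (hxd T hT t ht).continuousWithinAt
    constructor
    · intro t _; exact hLmem (x t)
    · intro t _; exact (x t).2
    · intro t _; exact (avf W m P μ ν E hE (x t)).2
    · intro t ht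
      exact (E.subtypeL.hasFDerivAt.comp_hasDerivWithinAt t (hxd T hT t ht))
    · have h1 : ContinuousOn (fun t => avf W m P μ ν E hE (x t)) (Icc 0 T) := by
        refine hCl.continuousOn.comp hxc ?_
        intro s hs
        have hTn : T ≤ (⌈T⌉₊ : ℝ) := Nat.le_ceil T
        have hs' : s ∈ Icc (0 : ℝ) (⌈T⌉₊ : ℝ) := ⟨hs.1, hs.2.trans hTn⟩
        rw [mem_closedBall_zero_iff, hxy _ s hs']
        exact hyb _ s hs'
      exact E.subtypeL.continuous.comp_continuousOn h1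
    · exact L.continuous.comp_continuousOn hxc
    · intro t ht φ hφ ψ hψ
      have h1 := hadj (x t) ⟨φ, hφ⟩
      have h2 : L ⟨φ, hφ⟩ = ψ := agrad_unique Fr (hLmem ⟨φ, hφ⟩) hψ
      rw [h2] at h1
      exact h1
  · show ((x 0 : E) : H) = x0
    rw [hx0']

end H772R2.NAX
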