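import Mathlib
import Pool.Agent.H772R2.NAX.Gal
import Pool.Agent.H772R2.NSR.Est2

/-!
Uniform estimates for Galerkin trajectories with localised viscosity.
-/

set_option linter.unusedSectionVars false

open MeasureTheory Set Filter Topology Metric
open scoped InnerProductSpace NNReal

namespace H772R2.NAX

open H772R2.NSR (Visc young4 stress_mono int_le int_ge int_eq gron ii_of_cont ii_mono ii_nonneg)

variable {H K : Type*} [NormedAddCommGroup H] [InnerProductSpace ℝ H] [CompleteSpace H]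
  [NormedAddCommGroup K] [InnerProductSpace ℝ K] [CompleteSpace K]

variable {W : Submodule ℝ (H × K)} {m : H → K} {P : K →L[ℝ] K} {C : ℝ} {E : Submodule ℝ H}
  {ν A M T : ℝ} {μ : ℝ → ℝ} {x x' : ℝ → H} {z : ℝ → K}

/-- a constant. -/
noncomputable def c00 (ν C A : ℝ) (μ : ℝ → ℝ) : ℝ := ν + μ 1 + 1 + 512 * C ^ 4 * A + C ^ 2 / ν

/-- the constant in the Gronwall inequality. -/
noncomputable def c0 (ν C A : ℝ) (μ : ℝ → ℝ) : ℝ := 2 * c00 ν C A μ + |8 * C / ν ^ 3|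

theorem c00_pos (V : Visc ν μ A M) (hν : 0 < ν) : 0 < c00 ν C A μ := by
  have h1 := V.nonneg 1 (by norm_num)
  have hA := V.A0
  unfold c00
  have : 0 ≤ 512 * C ^ 4 * A := by positivity
  have : 0 ≤ C ^ 2 / ν := by positivity
  linarith

theorem c0_pos (V : Visc ν μ A M) (hν : 0 < ν) : 0 < c0 ν C A μ := by
  have h1 := c00_pos (C := C) V hν
  unfold c0
  have := abs_nonneg (8 * C / ν ^ 3)
  linarith

/-- an auxiliary coefficient. -/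
noncomputable def btf0 (P : K →L[ℝ] K) (ν C A : ℝ) (μ : ℝ → ℝ) (y : K) : ℝ :=
  c00 ν C A μ * (1 + μ ‖P y‖ * ‖P y‖ ^ 2 + ‖y‖ ^ 2)

/-- the coefficient in the Gronwall inequality. -/
noncomputable def btf (P : K →L[ℝ] K) (ν C A : ℝ) (μ : ℝ → ℝ) (y : K) : ℝ :=
  c0 ν C A μ * (μ ‖P y‖ * ‖P y‖ ^ 2 + ‖y‖ ^ 2)

theorem btf_nonneg (V : Visc ν μ A M) (hν : 0 < ν) (y : K) : 0 ≤ btf P ν C A μ y := by
  have h1 := c0_pos (C := C) V hν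
  have h2 := V.nonneg _ (norm_nonneg (P y))
  unfold btf
  positivity

theorem mu_le (V : Visc ν μ A M) {s : ℝ} (hs : 0 ≤ s) : μ s ≤ μ 1 + μ s * s ^ 2 := by
  have h0 := V.nonneg s hs
  have h1 := V.nonneg 1 (by norm_num)
  rcases le_total s 1 with h | h
  · have := V.mono s 1 hs h
    have h2 : 0 ≤ μ s * s ^ 2 := by positivity
    linarith
  · have h2 : 1 ≤ s ^ 2 := by nlinarith
    nlinarith

/-- a first estimate of the convective term. -/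
theorem conv_est0 (Fr : AFrame W m P C) (V : Visc ν μ A M) (hν : 0 < ν) {w : H} {ζ y : K}
    (hw : (w, ζ) ∈ W) :
    |⟪m w, y⟫_ℝ| ≤ ν / 2 * ‖ζ‖ ^ 2 + μ ‖P y‖ / 4 * ‖P ζ‖ ^ 2 + btf0 P ν C A μ y * ‖w‖ ^ 2 := by
  have hC := Fr.C0
  have hA := V.A0
  set q := ‖P y‖ with hq
  have hq0 : 0 ≤ q := norm_nonneg _
  have hμ : 0 ≤ μ q := V.nonneg _ hq0
  have hax := Fr.axis _ hw y
  simp only at hax
  set X := ‖P ζ‖ with hX
  have hX0 : 0 ≤ X := norm_nonneg _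
  have hw0 := norm_nonneg w
  -- the near part
  have hpos : 0 ≤ ‖w‖ * (X + ‖w‖) ^ 3 := by positivity
  have h1 : C * (q * Real.sqrt (‖w‖ * (X + ‖w‖) ^ 3))
      ≤ (ν + μ q) / 8 * (2 * (X ^ 2 + ‖w‖ ^ 2)) + (C ^ 4 * q ^ 4) * ‖w‖ ^ 2 / ((ν + μ q) / 8) ^ 3 := by
    refine young4 (by positivity) (by positivity) (by positivity) (by positivity)
      (by positivity) ?_
    have e1 : (C * (q * Real.sqrt (‖w‖ * (X + ‖w‖) ^ 3))) ^ 4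
        = C ^ 4 * q ^ 4 * ((Real.sqrt (‖w‖ * (X + ‖w‖) ^ 3)) ^ 2) ^ 2 := by ring
    rw [e1, Real.sq_sqrt hpos]
    have e2 : (X + ‖w‖) ^ 2 ≤ 2 * (X ^ 2 + ‖w‖ ^ 2) := by nlinarith [sq_nonneg (X - ‖w‖)]
    calc C ^ 4 * q ^ 4 * (‖w‖ * (X + ‖w‖) ^ 3) ^ 2
        = C ^ 4 * q ^ 4 * ((X + ‖w‖) ^ 2) ^ 3 * ‖w‖ ^ 2 := by ring
      _ ≤ C ^ 4 * q ^ 4 * (2 * (X ^ 2 + ‖w‖ ^ 2)) ^ 3 * ‖w‖ ^ 2 := by gcongr
  have h2 : (C ^ 4 * q ^ 4) * ‖w‖ ^ 2 / ((ν + μ q) / 8) ^ 3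
      ≤ 512 * C ^ 4 * A * (1 + μ q * q ^ 2) * ‖w‖ ^ 2 := by
    have hk := V.key _ hq0
    have hp3 : 0 < (ν + μ q) ^ 3 := by positivity
    have e : (C ^ 4 * q ^ 4) * ‖w‖ ^ 2 / ((ν + μ q) / 8) ^ 3
        = 512 * C ^ 4 * ‖w‖ ^ 2 * (q ^ 4 / (ν + μ q) ^ 3) := by
      field_simp; ring
    rw [e]
    have h7 : q ^ 4 / (ν + μ q) ^ 3 ≤ A * (1 + μ q * q ^ 2) := by
      rw [div_le_iff₀ hp3]
      calc q ^ 4 ≤ _ := hk
        _ = _ := by ring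
    calc 512 * C ^ 4 * ‖w‖ ^ 2 * (q ^ 4 / (ν + μ q) ^ 3)
        ≤ 512 * C ^ 4 * ‖w‖ ^ 2 * (A * (1 + μ q * q ^ 2)) := by gcongr
      _ = _ := by ring
  -- the far part
  have h3 : C * (‖y‖ * (‖w‖ * ‖ζ‖)) ≤ ν / 4 * ‖ζ‖ ^ 2 + C ^ 2 / ν * ‖y‖ ^ 2 * ‖w‖ ^ 2 := by
    have h : 0 ≤ (ν * ‖ζ‖ / 2 - C * ‖y‖ * ‖w‖) ^ 2 / ν := by positivity
    have e : (ν * ‖ζ‖ / 2 - C * ‖y‖ * ‖w‖) ^ 2 / ν
        = ν / 4 * ‖ζ‖ ^ 2 - C * (‖y‖ * (‖w‖ * ‖ζ‖)) + C ^ 2 / ν * ‖y‖ ^ 2 * ‖w‖ ^ 2 := by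
      field_simp; ring
    linarith
  have h4 : X ≤ ‖ζ‖ := Fr.le ζ
  have h5 : X ^ 2 ≤ ‖ζ‖ ^ 2 := by gcongr
  have h6 := mu_le V hq0
  have hμ1 := V.nonneg 1 (by norm_num)
  have hw2 : 0 ≤ ‖w‖ ^ 2 := by positivity
  have hn : (ν + μ q) / 8 * (2 * (X ^ 2 + ‖w‖ ^ 2))
      ≤ ν / 4 * ‖ζ‖ ^ 2 + μ q / 4 * X ^ 2 + (ν + μ 1 + μ q * q ^ 2) * ‖w‖ ^ 2 := by
    have k1 : (ν + μ q) / 8 * (2 * (X ^ 2 + ‖w‖ ^ 2))
        = ν / 4 * X ^ 2 + μ q / 4 * X ^ 2 + (ν + μ q) / 4 * ‖w‖ ^ 2 := by ring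
    have k2 : ν / 4 * X ^ 2 ≤ ν / 4 * ‖ζ‖ ^ 2 := by gcongr
    have k3 : (ν + μ q) / 4 ≤ ν + μ 1 + μ q * q ^ 2 := by linarith
    have k4 : (ν + μ q) / 4 * ‖w‖ ^ 2 ≤ (ν + μ 1 + μ q * q ^ 2) * ‖w‖ ^ 2 := by gcongr
    linarith
  have hb : (ν + μ 1 + μ q * q ^ 2) * ‖w‖ ^ 2 + 512 * C ^ 4 * A * (1 + μ q * q ^ 2) * ‖w‖ ^ 2
      + C ^ 2 / ν * ‖y‖ ^ 2 * ‖w‖ ^ 2 ≤ btf0 P ν C A μ y * ‖w‖ ^ 2 := by
    unfold btf0 c00
    rw [← hq, ← add_mul, ← add_mul]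
    refine mul_le_mul_of_nonneg_right ?_ hw2
    have a1 : 0 ≤ μ q * q ^ 2 := by positivity
    have a2 : 0 ≤ ‖y‖ ^ 2 := by positivity
    have a3 : 0 ≤ 512 * C ^ 4 * A := by positivity
    have a4 : 0 ≤ C ^ 2 / ν := by positivity
    have b1 : 0 ≤ (ν + μ 1) * (μ q * q ^ 2) := by positivity
    have b2 : 0 ≤ (ν + μ 1 + 1) * ‖y‖ ^ 2 := by positivity
    have b3 : 0 ≤ 512 * C ^ 4 * A * ‖y‖ ^ 2 := by positivity
    have b4 : 0 ≤ C ^ 2 / ν * (1 + μ q * q ^ 2) := by positivity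
    nlinarith
  linarith

theorem m_plain (Fr : AFrame W m P C) {w : H} {ζ : K} (hw : (w, ζ) ∈ W) :
    ‖m w‖ ^ 4 ≤ C * (‖w‖ ^ 2 * (‖ζ‖ ^ 2) ^ 3) := by
  have h0 : m 0 = 0 := by
    have h := Fr.axis _ W.zero_mem (m 0)
    simp only [Prod.fst_zero, Prod.snd_zero, norm_zero, map_zero, zero_add, mul_zero,
      Real.sqrt_zero, add_zero, zero_mul] at h
    rw [real_inner_self_eq_norm_sq] at h
    have h2 := (abs_nonneg _).antisymm h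
    have h3 : ‖m 0‖ ^ 2 = 0 := abs_eq_zero.mp h2.symm
    exact norm_eq_zero.mp (pow_eq_zero_iff (two_ne_zero)|>.mp h3)
  have h := Fr.lips _ hw _ W.zero_mem
  simp only [Prod.fst_zero, Prod.snd_zero, h0, sub_zero, norm_zero, add_zero] at h
  refine h.trans (le_of_eq ?_)
  ring

/-- the estimate of the convective term. -/
theorem conv_est (Fr : AFrame W m P C) (V : Visc ν μ A M) (hν : 0 < ν) {w : H} {ζ y : K}
    (hw : (w, ζ) ∈ W) :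
    |⟪m w, y⟫_ℝ| ≤ ν / 2 * ‖ζ‖ ^ 2 + μ ‖P y‖ / 4 * ‖P ζ‖ ^ 2 + btf P ν C A μ y * ‖w‖ ^ 2 := by
  have hC := Fr.C0
  have hc00 := c00_pos (C := C) V hν
  have hμ : 0 ≤ μ ‖P y‖ := V.nonneg _ (norm_nonneg _)
  have ha := abs_nonneg (8 * C / ν ^ 3)
  have hw2 : 0 ≤ ‖w‖ ^ 2 := by positivity
  rcases le_or_gt 1 ‖y‖ with hy | hy
  · refine (conv_est0 Fr V hν hw (y := y)).trans ?_
    have hy2 : 1 ≤ ‖y‖ ^ 2 := by nlinarith
    have h1 : btf0 P ν C A μ y ≤ btf P ν C A μ y := by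
      unfold btf0 btf c0
      have h2 : 0 ≤ μ ‖P y‖ * ‖P y‖ ^ 2 := by positivity
      have h3 : 0 ≤ |8 * C / ν ^ 3| * (μ ‖P y‖ * ‖P y‖ ^ 2 + ‖y‖ ^ 2) := by positivity
      nlinarith
    have h2 : btf0 P ν C A μ y * ‖w‖ ^ 2 ≤ btf P ν C A μ y * ‖w‖ ^ 2 := by gcongr
    linarith
  · have h1 : |⟪m w, y⟫_ℝ| ≤ ‖m w‖ * ‖y‖ := abs_real_inner_le_norm _ _
    have h2 : ‖m w‖ * ‖y‖ ≤ (ν / 2) * (‖ζ‖ ^ 2) + (C * ‖y‖ ^ 4) * ‖w‖ ^ 2 / (ν / 2) ^ 3 := by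
      refine young4 (by positivity) (by positivity) (by positivity) (by positivity)
        (by positivity) ?_
      have h3 := m_plain Fr hw
      calc (‖m w‖ * ‖y‖) ^ 4 = ‖m w‖ ^ 4 * ‖y‖ ^ 4 := by ring
        _ ≤ (C * (‖w‖ ^ 2 * (‖ζ‖ ^ 2) ^ 3)) * ‖y‖ ^ 4 := by gcongr
        _ = _ := by ring
    have h3 : (C * ‖y‖ ^ 4) * ‖w‖ ^ 2 / (ν / 2) ^ 3 ≤ btf P ν C A μ y * ‖w‖ ^ 2 := by
      have e : (C * ‖y‖ ^ 4) * ‖w‖ ^ 2 / (ν / 2) ^ 3 = (8 * C / ν ^ 3) * ‖y‖ ^ 4 * ‖w‖ ^ 2 := by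
        field_simp; ring
      rw [e]
      have h4 : ‖y‖ ^ 4 ≤ ‖y‖ ^ 2 := pow_le_pow_of_le_one (norm_nonneg _) hy.le (by norm_num)
      have h5 : 0 ≤ μ ‖P y‖ * ‖P y‖ ^ 2 := by positivity
      have h6 : (8 * C / ν ^ 3) * ‖y‖ ^ 4 ≤ btf P ν C A μ y := by
        have h7 : 0 ≤ 8 * C / ν ^ 3 := by positivity
        unfold btf c0
        rw [abs_of_nonneg h7]
        calc (8 * C / ν ^ 3) * ‖y‖ ^ 4 ≤ (8 * C / ν ^ 3) * ‖y‖ ^ 2 := by gcongr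
          _ ≤ (2 * c00 ν C A μ + 8 * C / ν ^ 3) * (μ ‖P y‖ * ‖P y‖ ^ 2 + ‖y‖ ^ 2) := by
            have : 0 ≤ ‖y‖ ^ 2 := by positivity
            gcongr
            · linarith
            · linarith
      gcongr
    have h4 : 0 ≤ μ ‖P y‖ / 4 * ‖P ζ‖ ^ 2 := by positivity
    linarith

theorem astress_mono (V : Visc ν μ A M) (Fr : AFrame W m P C) (z w : K) :
    μ ‖P w‖ / 2 * ‖P (z - w)‖ ^ 2
      ≤ ⟪μ ‖P z‖ • P (P z) - μ ‖P w‖ • P (P w), z - w⟫_ℝ := by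
  have h1 := stress_mono V (P z) (P w)
  have e1 : ⟪(ν + μ ‖P z‖) • P z - (ν + μ ‖P w‖) • P w, P z - P w⟫_ℝ
      = ν * ‖P z - P w‖ ^ 2 + ⟪μ ‖P z‖ • P z - μ ‖P w‖ • P w, P z - P w⟫_ℝ := by
    have : (ν + μ ‖P z‖) • P z - (ν + μ ‖P w‖) • P w
        = ν • (P z - P w) + (μ ‖P z‖ • P z - μ ‖P w‖ • P w) := by
      simp only [add_smul, smul_sub]; abel
    rw [this, inner_add_left, real_inner_smul_left, real_inner_self_eq_norm_sq]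
  have e2 : ⟪μ ‖P z‖ • P (P z) - μ ‖P w‖ • P (P w), z - w⟫_ℝ
      = ⟪μ ‖P z‖ • P z - μ ‖P w‖ • P w, P z - P w⟫_ℝ := by
    rw [inner_sub_left, inner_sub_left, real_inner_smul_left, real_inner_smul_left,
      Fr.sym (P z) (z - w), Fr.sym (P w) (z - w),
      real_inner_smul_left, real_inner_smul_left, map_sub]
  rw [e2, map_sub]
  rw [e1] at h1
  have e3 : (ν + μ ‖P w‖ / 2) * ‖P z - P w‖ ^ 2
      = ν * ‖P z - P w‖ ^ 2 + μ ‖P w‖ / 2 * ‖P z - P w‖ ^ 2 := by ring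
  linarith

/-- The difference of a Galerkin trajectory at two times. -/
theorem ATraj.diff (Fr : AFrame W m P C) (V : Visc ν μ A M) (hν : 0 < ν)
    (S : ATraj W m P μ ν T E x x' z) {a b : ℝ} (ha : a ∈ Icc 0 T) (hb : b ∈ Icc 0 T) :
    ⟪x' a - x' b, x a - x b⟫_ℝ + ν / 2 * ‖z a - z b‖ ^ 2
      ≤ btf P ν C A μ (z b) * ‖x a - x b‖ ^ 2 := by
  set w := x a - x b with hw
  set ζ := z a - z b with hζ
  have hwζ : (w, ζ) ∈ W := W.sub_mem (S.mem a ha) (S.mem b hb)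
  have hwE : w ∈ E := E.sub_mem (S.memE a ha) (S.memE b hb)
  have e1 := S.eqn a ha w hwE ζ hwζ
  have e2 := S.eqn b hb w hwE ζ hwζ
  have e3 : ⟪x' a - x' b, w⟫_ℝ = -(ν * ‖ζ‖ ^ 2)
      - ⟪μ ‖P (z a)‖ • P (P (z a)) - μ ‖P (z b)‖ • P (P (z b)), ζ⟫_ℝ
      + ⟪m (x a) - m (x b), ζ⟫_ℝ := by
    rw [inner_sub_left, e1, e2]
    unfold rh
    have : ν * ‖ζ‖ ^ 2 = ⟪ν • z a, ζ⟫_ℝ - ⟪ν • z b, ζ⟫_ℝ := by
      rw [← inner_sub_left, ← smul_sub, real_inner_smul_left, ← hζ, real_inner_self_eq_norm_sq]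
    rw [this]
    simp only [inner_sub_left, inner_add_left, inner_neg_left]
    ring
  have e4 : ⟪m (x a) - m (x b), ζ⟫_ℝ = -⟪m w, z b⟫_ℝ := Fr.anti _ (S.mem a ha) _ (S.mem b hb)
  have h1 := astress_mono V Fr (z a) (z b)
  rw [← hζ] at h1
  have h2 := conv_est Fr V hν hwζ (y := z b)
  have h3 := neg_abs_le ⟪m w, z b⟫_ℝ
  have hμ : 0 ≤ μ ‖P (z b)‖ := V.nonneg _ (norm_nonneg _)
  have h4 : 0 ≤ μ ‖P (z b)‖ / 4 * ‖P ζ‖ ^ 2 := by positivity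
  rw [e3, e4]
  linarith

/-- the power balance. -/
theorem ATraj.power (Fr : AFrame W m P C) (S : ATraj W m P μ ν T E x x' z) {t : ℝ}
    (ht : t ∈ Icc 0 T) :
    ⟪x' t, x t⟫_ℝ = -(ν * ‖z t‖ ^ 2 + μ ‖P (z t)‖ * ‖P (z t)‖ ^ 2) := by
  rw [S.eqn t ht _ (S.memE t ht) _ (S.mem t ht)]
  unfold rh
  rw [inner_add_left, inner_sub_left, inner_neg_left,
    Fr.ortho _ (S.mem t ht), real_inner_smul_left, real_inner_self_eq_norm_sq,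
    real_inner_smul_left, Fr.sym, real_inner_self_eq_norm_sq]
  ring

theorem ATraj.μcont (V : Visc ν μ A M) (S : ATraj W m P μ ν T E x x' z) :
    ContinuousOn (fun t => μ ‖P (z t)‖) (Icc 0 T) := by
  have hc : ContinuousOn (fun t => P (z t)) (Icc 0 T) := P.continuous.comp_continuousOn S.contz
  intro t ht
  rw [ContinuousWithinAt, tendsto_iff_norm_sub_tendsto_zero]
  have h1 : Tendsto (fun s => M * ‖P (z s) - P (z t)‖) (𝓝[Icc 0 T] t) (𝓝 (M * 0)) :=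
    ((tendsto_iff_norm_sub_tendsto_zero.mp (hc t ht))).const_mul M
  rw [mul_zero] at h1
  refine squeeze_zero' (Eventually.of_forall fun s => norm_nonneg _) ?_ h1
  filter_upwards [self_mem_nhdsWithin] with s hs
  exact (V.lip _ _ (norm_nonneg _) (norm_nonneg _)).trans
    (mul_le_mul_of_nonneg_left (abs_norm_sub_norm_le _ _) V.M0)

theorem ATraj.contx (S : ATraj W m P μ ν T E x x' z) : ContinuousOn x (Icc 0 T) :=
  fun t ht => (S.deriv t ht).continuousWithinAt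

theorem ATraj.contP (S : ATraj W m P μ ν T E x x' z) :
    ContinuousOn (fun t => ‖P (z t)‖) (Icc 0 T) :=
  (P.continuous.comp_continuousOn S.contz).norm

theorem ATraj.contD (V : Visc ν μ A M) (S : ATraj W m P μ ν T E x x' z) :
    ContinuousOn (fun s => ν * ‖z s‖ ^ 2 + μ ‖P (z s)‖ * ‖P (z s)‖ ^ 2) (Icc 0 T) :=
  (continuousOn_const.mul (S.contz.norm.pow 2)).add ((S.μcont V).mul (S.contP.pow 2))

/-- the energy equality. -/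
theorem ATraj.energy (Fr : AFrame W m P C) (V : Visc ν μ A M)
    (S : ATraj W m P μ ν T E x x' z) {t : ℝ} (ht : t ∈ Icc 0 T) :
    ‖x t‖ ^ 2 / 2 + ∫ s in (0 : ℝ)..t, (ν * ‖z s‖ ^ 2 + μ ‖P (z s)‖ * ‖P (z s)‖ ^ 2)
      = ‖x 0‖ ^ 2 / 2 := by
  have hsub : Icc 0 t ⊆ Icc 0 T := Icc_subset_Icc_right ht.2
  have h1 := int_eq ht.1 (q := fun s => -(‖x s‖ ^ 2 / 2))
    (g := fun s => ν * ‖z s‖ ^ 2 + μ ‖P (z s)‖ * ‖P (z s)‖ ^ 2)
    (fun s hs => by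
      have := (((S.deriv s (hsub hs)).mono hsub).norm_sq.div_const 2).neg
      have hp := S.power Fr (hsub hs)
      convert! this using 1
      rw [real_inner_comm] at hp
      rw [hp]; ring)
    ((S.contD V).mono hsub)
  rw [h1]
  ring

theorem ATraj.dissip (Fr : AFrame W m P C) (V : Visc ν μ A M) (hT : 0 ≤ T)
    (S : ATraj W m P μ ν T E x x' z) :
    ∫ s in (0 : ℝ)..T, (ν * ‖z s‖ ^ 2 + μ ‖P (z s)‖ * ‖P (z s)‖ ^ 2) ≤ ‖x 0‖ ^ 2 / 2 := by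
  have h1 := S.energy Fr V (t := T) ⟨hT, le_rfl⟩
  have : 0 ≤ ‖x T‖ ^ 2 / 2 := by positivity
  linarith

theorem ATraj.xbound (Fr : AFrame W m P C) (V : Visc ν μ A M) (hν : 0 < ν)
    (S : ATraj W m P μ ν T E x x' z) {t : ℝ} (ht : t ∈ Icc 0 T) : ‖x t‖ ≤ ‖x 0‖ := by
  have h1 := S.energy Fr V ht
  have h2 : 0 ≤ ∫ s in (0 : ℝ)..t, (ν * ‖z s‖ ^ 2 + μ ‖P (z s)‖ * ‖P (z s)‖ ^ 2) := by
    refine intervalIntegral.integral_nonneg ht.1 (fun s _ => ?_)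
    have := V.nonneg _ (norm_nonneg (P (z s)))
    positivity
  have h3 : ‖x t‖ ^ 2 ≤ ‖x 0‖ ^ 2 := by linarith
  exact (pow_le_pow_iff_left₀ (norm_nonneg _) (norm_nonneg _) (by norm_num)).mp h3

/-- the Gronwall constant. -/
noncomputable def gcA (ν C A : ℝ) (μ : ℝ → ℝ) (e : ℝ) : ℝ :=
  Real.exp (2 * c0 ν C A μ * (e + e / ν))

/-- The shifted trajectory. -/
theorem ATraj.shift (Fr : AFrame W m P C) (V : Visc ν μ A M) (hν : 0 < ν) (hT : 0 ≤ T)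
    (S : ATraj W m P μ ν T E x x' z) {h : ℝ} (hh : 0 < h)
    (hhT : h < T) {t : ℝ} (ht : t ∈ Icc 0 (T - h)) :
    ‖x (t + h) - x t‖ ^ 2 + ∫ s in (0 : ℝ)..t, ν * ‖z (s + h) - z s‖ ^ 2
      ≤ gcA ν C A μ (‖x 0‖ ^ 2 / 2) * ‖x h - x 0‖ ^ 2 := by
  have hμc := S.μcont V
  have hTh : 0 ≤ T - h := by linarith
  have hs0 : Icc 0 (T - h) ⊆ Icc 0 T := Icc_subset_Icc_right (by linarith)
  have hs1 : MapsTo (fun s => s + h) (Icc 0 (T - h)) (Icc 0 T) :=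
    fun s hs => ⟨by linarith [hs.1], by linarith [hs.2]⟩
  have hzs : ContinuousOn (fun s => z (s + h)) (Icc 0 (T - h)) :=
    S.contz.comp (by fun_prop) hs1
  have hbc' : ContinuousOn (fun s => 2 * btf P ν C A μ (z s)) (Icc 0 T) := by
    unfold btf
    exact continuousOn_const.mul (continuousOn_const.mul
      ((hμc.mul (S.contP.pow 2)).add (S.contz.norm.pow 2)))
  have hbc : ContinuousOn (fun s => 2 * btf P ν C A μ (z s)) (Icc 0 (T - h)) := hbc'.mono hs0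
  have hbn : ∀ s, 0 ≤ btf P ν C A μ (z s) := fun s => btf_nonneg V hν _
  have hg := gron hTh (q := fun s => ‖x (s + h) - x s‖ ^ 2)
    (q' := fun s => 2 * ⟪x (s + h) - x s, x' (s + h) - x' s⟫_ℝ)
    (β := fun s => 2 * btf P ν C A μ (z s)) (p := fun _ => 0)
    (r := fun s => ν * ‖z (s + h) - z s‖ ^ 2)
    (fun s hs => by
      have d1 : HasDerivWithinAt (fun s => x (s + h)) (x' (s + h)) (Icc 0 (T - h)) s := by
        have := (S.deriv (s + h) (hs1 hs)).scomp s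
          ((hasDerivWithinAt_id s (Icc 0 (T - h))).add_const h) hs1
        rw [one_smul] at this
        exact this
      exact (d1.sub ((S.deriv s (hs0 hs)).mono hs0)).norm_sq)
    (fun s _ => by positivity) hbc (fun s _ => by have := hbn s; positivity)
    continuousOn_const
    (fun s _ => le_rfl)
    (continuousOn_const.mul (((hzs.sub (S.contz.mono hs0)).norm).pow 2))
    (fun s _ => by positivity)
    (fun s hs => by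
      have := S.diff Fr V hν (hs1 hs) (hs0 hs)
      rw [real_inner_comm] at this
      rw [add_zero]
      linarith) t ht
  simp only [zero_add, intervalIntegral.integral_zero, add_zero] at hg
  refine hg.trans ?_
  have hI : ∫ s in (0 : ℝ)..(T - h), 2 * btf P ν C A μ (z s)
      ≤ 2 * c0 ν C A μ * (‖x 0‖ ^ 2 / 2 + ‖x 0‖ ^ 2 / 2 / ν) := by
    have h1 := ii_mono hbc' (fun s _ => by have := hbn s; positivity) (t := T - h)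
      ⟨hTh, by linarith⟩
    have i1 : IntervalIntegrable (fun s => μ ‖P (z s)‖ * ‖P (z s)‖ ^ 2) volume 0 T :=
      ii_of_cont (hμc.mul (S.contP.pow 2)) le_rfl hT le_rfl
    have i2 : IntervalIntegrable (fun s => ‖z s‖ ^ 2) volume 0 T :=
      ii_of_cont (S.contz.norm.pow 2) le_rfl hT le_rfl
    have h2 : ∫ s in (0 : ℝ)..T, 2 * btf P ν C A μ (z s)
        = 2 * c0 ν C A μ * ((∫ s in (0 : ℝ)..T, μ ‖P (z s)‖ * ‖P (z s)‖ ^ 2)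
          + ∫ s in (0 : ℝ)..T, ‖z s‖ ^ 2) := by
      have e : (fun s => 2 * btf P ν C A μ (z s))
          = fun s => 2 * c0 ν C A μ * (μ ‖P (z s)‖ * ‖P (z s)‖ ^ 2 + ‖z s‖ ^ 2) := by
        funext s; unfold btf; ring
      rw [e, intervalIntegral.integral_const_mul, intervalIntegral.integral_add i1 i2]
    have h3 := S.dissip Fr V hT
    rw [intervalIntegral.integral_add (i2.const_mul ν) i1, intervalIntegral.integral_const_mul]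
      at h3
    have h4 : 0 ≤ ∫ s in (0 : ℝ)..T, μ ‖P (z s)‖ * ‖P (z s)‖ ^ 2 :=
      intervalIntegral.integral_nonneg hT (fun s _ =>
        mul_nonneg (V.nonneg _ (norm_nonneg _)) (by positivity))
    have h5 : 0 ≤ ∫ s in (0 : ℝ)..T, ‖z s‖ ^ 2 :=
      intervalIntegral.integral_nonneg hT (fun s _ => by positivity)
    have h6 : ∫ s in (0 : ℝ)..T, ‖z s‖ ^ 2 ≤ ‖x 0‖ ^ 2 / 2 / ν := by
      rw [le_div_iff₀ hν]; linarith
    have h7 : 0 ≤ ν * ∫ s in (0 : ℝ)..T, ‖z s‖ ^ 2 := by positivity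
    have h8 : ∫ s in (0 : ℝ)..T, μ ‖P (z s)‖ * ‖P (z s)‖ ^ 2 ≤ ‖x 0‖ ^ 2 / 2 := by linarith
    rw [h2] at h1
    refine h1.trans ?_
    have := c0_pos (C := C) V hν
    gcongr
  unfold gcA
  gcongr

/-- The velocity bound. -/
theorem ATraj.vel (Fr : AFrame W m P C) (V : Visc ν μ A M) (hν : 0 < ν) (hT : 0 < T)
    (S : ATraj W m P μ ν T E x x' z) {t : ℝ} (ht : t ∈ Icc 0 T) :
    ‖x' t‖ ^ 2 ≤ gcA ν C A μ (‖x 0‖ ^ 2 / 2) * ‖x' 0‖ ^ 2 := by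
  have hslope : ∀ t ∈ Ico 0 T, Tendsto (fun h : ℝ => ‖x (t + h) - x t‖ ^ 2 / h ^ 2) (𝓝[>] 0)
      (𝓝 (‖x' t‖ ^ 2)) := by
    intro t ht
    have h1 : HasDerivWithinAt x (x' t) (Ioi t) t :=
      (S.deriv t (Ico_subset_Icc_self ht)).mono_of_mem_nhdsWithin (Icc_mem_nhdsGT_of_mem ht)
    have h2 : Tendsto (slope x t) (𝓝[>] t) (𝓝 (x' t)) :=
      (hasDerivWithinAt_iff_tendsto_slope' (by simp)).mp h1
    have h3 : Tendsto (fun h : ℝ => t + h) (𝓝[>] 0) (𝓝[>] t) := by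
      refine tendsto_nhdsWithin_of_tendsto_nhds_of_eventually_within _ ?_ ?_
      · have : Tendsto (fun h : ℝ => t + h) (𝓝 0) (𝓝 (t + 0)) := by
          exact (continuous_const.add continuous_id).tendsto 0
        rw [add_zero] at this
        exact this.mono_left nhdsWithin_le_nhds
      · filter_upwards [self_mem_nhdsWithin] with h hh
        simp only [mem_Ioi] at hh ⊢
        linarith
    have h4 := ((h2.comp h3).norm.pow 2)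
    refine h4.congr' ?_
    filter_upwards [self_mem_nhdsWithin] with h hh
    have hh' : (0 : ℝ) < h := hh
    simp only [Function.comp, _root_.slope, vsub_eq_sub, add_sub_cancel_left, norm_smul, norm_inv,
      Real.norm_eq_abs, abs_of_pos hh']
    rw [mul_pow, inv_pow]
    ring
  -- on the half-open interval
  have hIco : ∀ t ∈ Ico 0 T, ‖x' t‖ ^ 2
      ≤ gcA ν C A μ (‖x 0‖ ^ 2 / 2) * ‖x' 0‖ ^ 2 := by
    intro t ht
    have l1 := hslope t ht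
    have l2 : Tendsto (fun h : ℝ => gcA ν C A μ (‖x 0‖ ^ 2 / 2)
        * (‖x (0 + h) - x 0‖ ^ 2 / h ^ 2)) (𝓝[>] 0)
        (𝓝 (gcA ν C A μ (‖x 0‖ ^ 2 / 2) * ‖x' 0‖ ^ 2)) :=
      (hslope 0 ⟨le_rfl, hT⟩).const_mul _
    refine le_of_tendsto_of_tendsto l1 l2 ?_
    have hlt : ∀ᶠ h : ℝ in 𝓝[>] 0, h < T - t := by
      have : Iio (T - t) ∈ 𝓝 (0 : ℝ) := Iio_mem_nhds (by linarith [ht.2])
      exact mem_nhdsWithin_of_mem_nhds this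
    filter_upwards [hlt, self_mem_nhdsWithin] with h hh1 hh2
    have hh : (0 : ℝ) < h := hh2
    have hhT : h < T := by linarith [ht.1]
    have k1 := S.shift Fr V hν hT.le hh hhT (t := t) ⟨ht.1, by linarith⟩
    have k2 : 0 ≤ ∫ s in (0 : ℝ)..t, ν * ‖z (s + h) - z s‖ ^ 2 :=
      intervalIntegral.integral_nonneg ht.1 (fun s _ => by positivity)
    rw [zero_add, div_le_iff₀ (by positivity)]
    calc ‖x (t + h) - x t‖ ^ 2
        ≤ gcA ν C A μ (‖x 0‖ ^ 2 / 2) * ‖x h - x 0‖ ^ 2 := by linarith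
      _ = gcA ν C A μ (‖x 0‖ ^ 2 / 2) * (‖x h - x 0‖ ^ 2 / h ^ 2) * h ^ 2 := by
          field_simp
  rcases eq_or_lt_of_le ht.2 with h | h
  · subst h
    have hc : Tendsto (fun s => ‖x' s‖ ^ 2) (𝓝[<] t) (𝓝 (‖x' t‖ ^ 2)) := by
      have := (S.contx' t ⟨hT.le, le_rfl⟩).norm.pow 2
      exact this.mono_left (nhdsWithin_le_of_mem (Icc_mem_nhdsLT hT))
    refine le_of_tendsto hc ?_
    filter_upwards [Ioo_mem_nhdsLT hT] with s hs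
    exact hIco s ⟨hs.1.le, hs.2⟩
  · exact hIco t ⟨ht.1, h⟩

theorem ATraj.vel0 (hE : E ≤ W.map (LinearMap.fst ℝ H K)) (hT : 0 ≤ T)
    (S : ATraj W m P μ ν T E x x' z) {h0 : H}
    (hc : ∀ p ∈ W, ⟪rh P m μ ν (x 0) (z 0), p.2⟫_ℝ = ⟪h0, p.1⟫_ℝ) :
    ‖x' 0‖ ≤ ‖h0‖ := by
  have h0T : (0 : ℝ) ∈ Icc 0 T := ⟨le_rfl, hT⟩
  obtain ⟨p, hp, hp1⟩ := hE (S.memE' 0 h0T)
  have hp1' : p.1 = x' 0 := hp1
  have h1 := S.eqn 0 h0T (x' 0) (S.memE' 0 h0T) p.2 (by rw [← hp1']; exact hp)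
  rw [hc p hp, hp1', real_inner_self_eq_norm_sq] at h1
  have h2 : ⟪h0, x' 0⟫_ℝ ≤ ‖h0‖ * ‖x' 0‖ := real_inner_le_norm _ _
  rcases eq_or_lt_of_le (norm_nonneg (x' 0)) with h | h
  · rw [← h]; exact norm_nonneg _
  · have : ‖x' 0‖ * ‖x' 0‖ ≤ ‖h0‖ * ‖x' 0‖ := by nlinarith
    exact le_of_mul_le_mul_right this h

theorem ATraj.zbound (Fr : AFrame W m P C) (V : Visc ν μ A M) (hν : 0 < ν)
    (S : ATraj W m P μ ν T E x x' z) {t c1 X0 : ℝ} (ht : t ∈ Icc 0 T)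
    (h1 : ‖x' t‖ ≤ c1) (h2 : ‖x t‖ ≤ X0) : ‖z t‖ ^ 2 ≤ c1 * X0 / ν := by
  have hp := S.power Fr ht
  have k2 : -(c1 * X0) ≤ ⟪x' t, x t⟫_ℝ := by
    have := abs_real_inner_le_norm (x' t) (x t)
    have h3 : ‖x' t‖ * ‖x t‖ ≤ c1 * X0 := by
      have : 0 ≤ c1 := (norm_nonneg _).trans h1
      gcongr
    have h4 := neg_abs_le ⟪x' t, x t⟫_ℝ
    linarith
  have k3 : 0 ≤ μ ‖P (z t)‖ * ‖P (z t)‖ ^ 2 :=
    mul_nonneg (V.nonneg _ (norm_nonneg _)) (by positivity)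
  rw [le_div_iff₀ hν]
  linarith

theorem ATraj.lipx (S : ATraj W m P μ ν T E x x' z) {c1 : ℝ} (h1 : ∀ t ∈ Icc 0 T, ‖x' t‖ ≤ c1)
    {a b : ℝ} (ha : a ∈ Icc 0 T) (hb : b ∈ Icc 0 T) : ‖x a - x b‖ ≤ c1 * |a - b| := by
  wlog hab : b ≤ a generalizing a b
  · rw [norm_sub_rev, abs_sub_comm]
    exact this hb ha (le_of_not_ge hab)
  have hsub : Icc b a ⊆ Icc 0 T := Icc_subset_Icc hb.1 ha.2
  have := norm_image_sub_le_of_norm_deriv_le_segment' (f := x) (f' := x') (C := c1)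
    (fun s hs => (S.deriv s (hsub hs)).mono hsub) (fun s hs => h1 s (hsub (Ico_subset_Icc_self hs)))
    a ⟨hab, le_rfl⟩
  rwa [abs_of_nonneg (by linarith)]

theorem btf_le (Fr : AFrame W m P C) (V : Visc ν μ A M) (hν : 0 < ν) {y : K} {s : ℝ}
    (h : ‖y‖ ≤ s) : btf P ν C A μ y ≤ c0 ν C A μ * (μ s * s ^ 2 + s ^ 2) := by
  have h1 := c0_pos (C := C) V hν
  have h2 : ‖P y‖ ≤ s := (Fr.le y).trans h
  have h3 := V.mono _ _ (norm_nonneg _) h2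
  have h4 := V.nonneg _ (norm_nonneg (P y))
  unfold btf
  gcongr
  exact h4.trans h3

/-- Equicontinuity of the gradient. -/
theorem ATraj.holder (Fr : AFrame W m P C) (V : Visc ν μ A M) (hν : 0 < ν)
    (S : ATraj W m P μ ν T E x x' z) {c1 s1 : ℝ} (h1 : ∀ t ∈ Icc 0 T, ‖x' t‖ ≤ c1)
    (h2 : ∀ t ∈ Icc 0 T, ‖z t‖ ≤ s1) {a b : ℝ} (ha : a ∈ Icc 0 T) (hb : b ∈ Icc 0 T) :
    ‖z a - z b‖ ^ 2 ≤ 2 / ν * (c0 ν C A μ * (μ s1 * s1 ^ 2 + s1 ^ 2) * (c1 * |a - b|) ^ 2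
      + 2 * c1 * (c1 * |a - b|)) := by
  have hd := S.diff Fr V hν ha hb
  have hl := S.lipx h1 ha hb
  have k1 : btf P ν C A μ (z b) * ‖x a - x b‖ ^ 2
      ≤ c0 ν C A μ * (μ s1 * s1 ^ 2 + s1 ^ 2) * (c1 * |a - b|) ^ 2 := by
    have hb1 := btf_le Fr V hν (h2 b hb)
    have hb0 : 0 ≤ btf P ν C A μ (z b) := btf_nonneg V hν _
    have hb2 := hb0.trans hb1
    gcongr
  have hc1 : 0 ≤ c1 := (norm_nonneg _).trans (h1 a ha)
  have k2 : -(2 * c1 * (c1 * |a - b|)) ≤ ⟪x' a - x' b, x a - x b⟫_ℝ := by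
    have h3 := neg_abs_le ⟪x' a - x' b, x a - x b⟫_ℝ
    have h4 := abs_real_inner_le_norm (x' a - x' b) (x a - x b)
    have h5 : ‖x' a - x' b‖ ≤ 2 * c1 := by
      have := norm_sub_le (x' a) (x' b)
      linarith [h1 a ha, h1 b hb]
    have h6 : ‖x' a - x' b‖ * ‖x a - x b‖ ≤ 2 * c1 * (c1 * |a - b|) := by gcongr
    linarith
  have e : 2 / ν * (c0 ν C A μ * (μ s1 * s1 ^ 2 + s1 ^ 2) * (c1 * |a - b|) ^ 2
      + 2 * c1 * (c1 * |a - b|)) = (c0 ν C A μ * (μ s1 * s1 ^ 2 + s1 ^ 2)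
      * (c1 * |a - b|) ^ 2 + 2 * c1 * (c1 * |a - b|)) / (ν / 2) := by field_simp
  rw [e, le_div_iff₀ (by positivity)]
  linarith

/-- Time regularity of the gradient. -/
theorem ATraj.zshift (Fr : AFrame W m P C) (V : Visc ν μ A M) (hν : 0 < ν) (hT : 0 < T)
    (S : ATraj W m P μ ν T E x x' z) {c1 : ℝ} (h1 : ∀ t ∈ Icc 0 T, ‖x' t‖ ≤ c1)
    {h : ℝ} (hh : 0 < h) (hhT : h < T) :
    ∫ s in (0 : ℝ)..(T - h), ‖z (s + h) - z s‖ ^ 2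
      ≤ gcA ν C A μ (‖x 0‖ ^ 2 / 2) * c1 ^ 2 / ν * h ^ 2 := by
  have hgc : 0 < gcA ν C A μ (‖x 0‖ ^ 2 / 2) := Real.exp_pos _
  have k1 := S.shift Fr V hν hT.le hh hhT (t := T - h) ⟨by linarith, le_rfl⟩
  have k3 : ‖x h - x 0‖ ^ 2 ≤ (c1 * h) ^ 2 := by
    have := S.lipx h1 (a := h) (b := 0) ⟨hh.le, hhT.le⟩ ⟨le_rfl, hT.le⟩
    rw [sub_zero, abs_of_pos hh] at this
    gcongr
  rw [intervalIntegral.integral_const_mul] at k1
  have k4 : ν * ∫ s in (0 : ℝ)..(T - h), ‖z (s + h) - z s‖ ^ 2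
      ≤ gcA ν C A μ (‖x 0‖ ^ 2 / 2) * (c1 * h) ^ 2 := by
    have h2 : 0 ≤ ‖x (T - h + h) - x (T - h)‖ ^ 2 := by positivity
    calc ν * ∫ s in (0 : ℝ)..(T - h), ‖z (s + h) - z s‖ ^ 2
        ≤ gcA ν C A μ (‖x 0‖ ^ 2 / 2) * ‖x h - x 0‖ ^ 2 := by linarith
      _ ≤ _ := by gcongr
  have e : gcA ν C A μ (‖x 0‖ ^ 2 / 2) * c1 ^ 2 / ν * h ^ 2
      = gcA ν C A μ (‖x 0‖ ^ 2 / 2) * (c1 * h) ^ 2 / ν := by ring
  rw [e, le_div_iff₀ hν]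
  linarith

end H772R2.NAX
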