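import Mathlib
import Pool.Agent.H772R2.NAX.Est
import Pool.Agent.H772R2.NSR.Lim
import Pool.Agent.H772R2.NSR.Joint
import Pool.Agent.H772R2.NSR.Exist
import Pool.Agent.H772R2.NSR.Deriv

/-!
The weak limit of Galerkin trajectories with localised viscosity.
-/

set_option linter.unusedSectionVars false

open MeasureTheory Set Filter Topology Metric
open scoped InnerProductSpace NNReal

namespace H772R2.NAX

open H772R2.NSR (Visc exists_weak_limit mem_of_weak_limit joint_of_equi joint_cont joint_int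
  ii_of_cont int_eq μ_tendsto)

variable {H K : Type*} [NormedAddCommGroup H] [InnerProductSpace ℝ H] [CompleteSpace H]
  [NormedAddCommGroup K] [InnerProductSpace ℝ K] [CompleteSpace K] {ι : Type*}

variable {W : Submodule ℝ (H × K)} {m : H → K} {P : K →L[ℝ] K} {C : ℝ} {E : ι → Submodule ℝ H}
  {ν A M : ℝ} {μ : ℝ → ℝ} {X X' : ι → ℝ → H} {Z : ι → ℝ → K} {x0 : H} {c1 s1 : ℝ}

/-- local compactness. -/
def LC (W : Submodule ℝ (H × K)) (m : H → K) (core : Set (H × K)) : Prop :=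
  core ⊆ (W : Set (H × K)) ∧ (W : Set (H × K)) ⊆ closure core ∧
  ∀ p ∈ core, ∃ (B : H →L[ℝ] H) (c : ℝ),
    (∀ R : ℝ, TotallyBounded (B '' {v | ∃ z, (v, z) ∈ W ∧ ‖v‖ ≤ R ∧ ‖z‖ ≤ R})) ∧
    ∀ v w : H, ∀ z y : K, (v, z) ∈ W → (w, y) ∈ W →
      |⟪m v - m w, p.2⟫_ℝ| ≤ c * ((‖v‖ + ‖w‖) * ‖B (v - w)‖)

/-- A family of global Galerkin trajectories with uniform bounds. -/
structure AFam (W : Submodule ℝ (H × K)) (m : H → K) (P : K →L[ℝ] K) (μ : ℝ → ℝ) (ν : ℝ)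
    (E : ι → Submodule ℝ H) (X X' : ι → ℝ → H) (Z : ι → ℝ → K) (x0 : H) (c1 s1 : ℝ) :
    Prop where
  traj : ∀ i, ∀ T, 0 ≤ T → ATraj W m P μ ν T (E i) (X i) (X' i) (Z i)
  vel : ∀ i, ∀ T, ∀ t ∈ Icc 0 T, ‖X' i t‖ ≤ c1
  zb : ∀ i, ∀ T, ∀ t ∈ Icc 0 T, ‖Z i t‖ ≤ s1
  xb : ∀ i, ∀ t, 0 ≤ t → ‖X i t‖ ≤ ‖x0‖
  init : ∀ i, X i 0 = x0

/-- limits of bounded real functions. -/
theorem exists_ulim (U : Ultrafilter ι) {f : ι → ℝ → ℝ} {T R : ℝ}
    (hb : ∀ i, ∀ s ∈ Icc 0 T, f i s ∈ Icc 0 R) :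
    ∃ g : ℝ → ℝ, ∀ s ∈ Icc 0 T, g s ∈ Icc 0 R ∧ Tendsto (fun i => f i s) U (𝓝 (g s)) := by
  have h : ∀ s : ℝ, ∃ l : ℝ, s ∈ Icc 0 T → l ∈ Icc 0 R ∧ Tendsto (fun i => f i s) U (𝓝 l) := by
    intro s
    by_cases hs : s ∈ Icc 0 T
    · obtain ⟨l, hl, hl'⟩ := (isCompact_Icc (a := (0 : ℝ)) (b := R)).ultrafilter_le_nhds
        (U.map (fun i => f i s)) (by
          rw [le_principal_iff]
          show _ ∈ Filter.map (fun i => f i s) (U : Filter ι)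
          rw [Filter.mem_map]
          exact Filter.univ_mem' (fun i => hb i s hs))
      exact ⟨l, fun _ => ⟨hl, hl'⟩⟩
    · exact ⟨0, fun h => absurd h hs⟩
  choose g hg using h
  exact ⟨g, fun s hs => hg s hs⟩

/-- equicontinuity -/
def Equi {Y : Type*} [NormedAddCommGroup Y] (f : ι → ℝ → Y) (T : ℝ) : Prop :=
  ∀ ε : ℝ, 0 < ε → ∃ δ : ℝ, 0 < δ ∧ ∀ i, ∀ a ∈ Icc 0 T, ∀ b ∈ Icc 0 T, |a - b| < δ →
    ‖f i a - f i b‖ ≤ ε

theorem Equi.mono {Y Y' : Type*} [NormedAddCommGroup Y] [NormedAddCommGroup Y'] {f : ι → ℝ → Y}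
    {g : ι → ℝ → Y'} {T : ℝ} (h : Equi f T) (c : ℝ) (hc : 0 ≤ c)
    (hg : ∀ i, ∀ a ∈ Icc 0 T, ∀ b ∈ Icc 0 T, ‖g i a - g i b‖ ≤ c * ‖f i a - f i b‖) :
    Equi g T := by
  intro ε hε
  obtain ⟨δ, hδ, h1⟩ := h (ε / (c + 1)) (by positivity)
  refine ⟨δ, hδ, fun i a ha b hb hab => ?_⟩
  have h2 := h1 i a ha b hb hab
  calc ‖g i a - g i b‖ ≤ c * ‖f i a - f i b‖ := hg i a ha b hb
    _ ≤ c * (ε / (c + 1)) := by gcongr
    _ ≤ (c + 1) * (ε / (c + 1)) := by gcongr; linarith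
    _ = ε := by field_simp

theorem Equi.cont {Y : Type*} [NormedAddCommGroup Y] {f : ι → ℝ → Y} {T : ℝ} (h : Equi f T)
    (i : ι) : ContinuousOn (f i) (Icc 0 T) := by
  intro t ht
  rw [Metric.continuousWithinAt_iff]
  intro ε hε
  obtain ⟨δ, hδ, h1⟩ := h (ε / 2) (by positivity)
  refine ⟨δ, hδ, fun s hs hst => ?_⟩
  rw [dist_eq_norm]
  rw [Real.dist_eq] at hst
  have := h1 i s hs t ht hst
  linarith

theorem AFam.equiX (S : AFam W m P μ ν E X X' Z x0 c1 s1) {T : ℝ} (hT : 0 ≤ T)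
    (hc1 : 0 ≤ c1) : Equi X T := by
  intro ε hε
  refine ⟨ε / (c1 + 1), by positivity, ?_⟩
  intro i a ha b hb hab
  have h1 := (S.traj i T hT).lipx (S.vel i T) ha hb
  rw [lt_div_iff₀ (by positivity)] at hab
  nlinarith [abs_nonneg (a - b)]

theorem AFam.equiZu (Fr : AFrame W m P C) (V : Visc ν μ A M) (hν : 0 < ν)
    (S : AFam W m P μ ν E X X' Z x0 c1 s1) (ε : ℝ) (hε : 0 < ε) : ∃ δ : ℝ, 0 < δ ∧
      ∀ T, 0 ≤ T → ∀ i, ∀ a ∈ Icc 0 T, ∀ b ∈ Icc 0 T, |a - b| < δ → ‖Z i a - Z i b‖ ≤ ε := by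
  have hcont : Continuous (fun r : ℝ => 2 / ν * (c0 ν C A μ * (μ s1 * s1 ^ 2 + s1 ^ 2)
      * (c1 * r) ^ 2 + 2 * c1 * (c1 * r))) := by fun_prop
  have h0 := hcont.tendsto 0
  have h1 := (Metric.tendsto_nhds.mp h0) (ε ^ 2) (by positivity)
  obtain ⟨δ, hδ, h2⟩ := Metric.eventually_nhds_iff.mp h1
  refine ⟨δ, hδ, ?_⟩
  intro T hT i a ha b hb hab
  have k1 := (S.traj i T hT).holder Fr V hν (S.vel i T) (S.zb i T) ha hb
  have k3 := @h2 |a - b| (by rw [Real.dist_eq, sub_zero, abs_abs]; exact hab)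
  simp only [Real.dist_eq] at k3
  have k4 := (le_abs_self _).trans_lt k3
  have k5 : ‖Z i a - Z i b‖ ^ 2 ≤ ε ^ 2 := by
    simp at k4
    linarith
  exact (pow_le_pow_iff_left₀ (norm_nonneg _) hε.le (by norm_num)).mp k5

theorem AFam.equiZ (Fr : AFrame W m P C) (V : Visc ν μ A M) (hν : 0 < ν)
    (S : AFam W m P μ ν E X X' Z x0 c1 s1) {T : ℝ} (hT : 0 ≤ T) : Equi Z T := by
  intro ε hε
  obtain ⟨δ, hδ, h⟩ := S.equiZu Fr V hν ε hε
  exact ⟨δ, hδ, h T hT⟩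

/-- modulus of continuity of `m`. -/
theorem m_diff (Fr : AFrame W m P C) {v w : H} {z y : K} (hv : (v, z) ∈ W) (hw : (w, y) ∈ W)
    {N s : ℝ} (h1 : ‖v‖ ≤ N) (h2 : ‖w‖ ≤ N) (h3 : ‖z‖ ≤ s) (h4 : ‖y‖ ≤ s) :
    ‖m v - m w‖ ≤ Real.sqrt (Real.sqrt (C * (‖v - w‖ * (2 * s) ^ 3 * ((2 * N) * (2 * s) ^ 3)))) := by
  have hC := Fr.C0
  have hN : 0 ≤ N := (norm_nonneg _).trans h1
  have hs : 0 ≤ s := (norm_nonneg _).trans h3
  have h := Fr.lips _ hv _ hw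
  simp only at h
  have k : ‖m v - m w‖ ^ 4 ≤ C * (‖v - w‖ * (2 * s) ^ 3 * ((2 * N) * (2 * s) ^ 3)) := by
    refine h.trans ?_
    have e1 : ‖z - y‖ ≤ 2 * s := (norm_sub_le _ _).trans (by linarith)
    have e2 : ‖v‖ + ‖w‖ ≤ 2 * N := by linarith
    have e3 : ‖z‖ + ‖y‖ ≤ 2 * s := by linarith
    gcongr
  refine Real.le_sqrt_of_sq_le (Real.le_sqrt_of_sq_le ?_)
  calc (‖m v - m w‖ ^ 2) ^ 2 = ‖m v - m w‖ ^ 4 := by ring
    _ ≤ _ := k

theorem AFam.equiM (Fr : AFrame W m P C) (S : AFam W m P μ ν E X X' Z x0 c1 s1) {T : ℝ}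
    (hT : 0 ≤ T) (hc1 : 0 ≤ c1) : Equi (fun i s => m (X i s)) T := by
  intro ε hε
  have hcont : Continuous (fun r : ℝ => Real.sqrt (Real.sqrt (C * ((c1 * r) * (2 * s1) ^ 3
      * ((2 * ‖x0‖) * (2 * s1) ^ 3))))) := by fun_prop
  have h0 := hcont.tendsto 0
  have h1 := (Metric.tendsto_nhds.mp h0) ε (by positivity)
  obtain ⟨δ, hδ, h2⟩ := Metric.eventually_nhds_iff.mp h1
  refine ⟨δ, hδ, ?_⟩
  intro i a ha b hb hab
  have hC := Fr.C0
  have k0 := (S.traj i T hT).lipx (S.vel i T) ha hb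
  have k1 := m_diff Fr ((S.traj i T hT).mem a ha) ((S.traj i T hT).mem b hb) (S.xb i a ha.1)
    (S.xb i b hb.1) (S.zb i T a ha) (S.zb i T b hb)
  have hs : 0 ≤ s1 := (norm_nonneg _).trans (S.zb i T a ha)
  have k3 := @h2 |a - b| (by rw [Real.dist_eq, sub_zero, abs_abs]; exact hab)
  simp only [Real.dist_eq] at k3
  have k4 := (le_abs_self _).trans_lt k3
  simp only [mul_zero, zero_mul, Real.sqrt_zero, sub_zero] at k4
  refine k1.trans (le_trans ?_ k4.le)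
  gcongr

/-- the weak continuity of `m`. -/
theorem weak_m {core : Set (H × K)} (hL : LC W m core) {p : H × K} (hp : p ∈ core)
    (U : Ultrafilter ι) {v : ι → H} {z : ι → K} {v0 : H} {z0 : K} {R : ℝ}
    (hW : ∀ i, (v i, z i) ∈ W) (hv : ∀ i, ‖v i‖ ≤ R) (hz : ∀ i, ‖z i‖ ≤ R)
    (h0 : (v0, z0) ∈ W) (hlim : ∀ y : H, Tendsto (fun i => ⟪v i, y⟫_ℝ) U (𝓝 ⟪v0, y⟫_ℝ)) :
    Tendsto (fun i => ⟪m (v i), p.2⟫_ℝ) U (𝓝 ⟪m v0, p.2⟫_ℝ) := by
  obtain ⟨B, c, hB, hc⟩ := hL.2.2 p hp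
  have hK : IsCompact (closure (B '' {v | ∃ z, (v, z) ∈ W ∧ ‖v‖ ≤ R ∧ ‖z‖ ≤ R})) :=
    isCompact_iff_totallyBounded_isComplete.mpr
      ⟨(hB R).closure, isClosed_closure.isComplete⟩
  obtain ⟨y, -, hy⟩ := hK.ultrafilter_le_nhds (U.map (fun i => B (v i))) (by
    rw [le_principal_iff]
    show _ ∈ Filter.map (fun i => B (v i)) (U : Filter ι)
    rw [Filter.mem_map]
    refine Filter.univ_mem' (fun i => ?_)
    exact subset_closure ⟨v i, ⟨z i, hW i, hv i, hz i⟩, rfl⟩)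
  have hy' : Tendsto (fun i => B (v i)) U (𝓝 y) := hy
  have hBy : y = B v0 := by
    refine ext_inner_right ℝ (fun w => ?_)
    have l1 : Tendsto (fun i => ⟪B (v i), w⟫_ℝ) U (𝓝 ⟪y, w⟫_ℝ) := hy'.inner tendsto_const_nhds
    have l2 : Tendsto (fun i => ⟪B (v i), w⟫_ℝ) U (𝓝 ⟪B v0, w⟫_ℝ) := by
      have := hlim (B.adjoint w)
      simp only [ContinuousLinearMap.adjoint_inner_right] at this
      exact this
    exact tendsto_nhds_unique l1 l2
  rw [hBy] at hy'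
  have h1 : Tendsto (fun i => |c| * ((R + ‖v0‖) * ‖B (v i) - B v0‖)) U (𝓝 0) := by
    have := ((tendsto_iff_norm_sub_tendsto_zero.mp hy').const_mul (R + ‖v0‖)).const_mul |c|
    simpa using this
  rw [tendsto_iff_norm_sub_tendsto_zero]
  refine squeeze_zero (fun i => norm_nonneg _) (fun i => ?_) h1
  rw [Real.norm_eq_abs, ← inner_sub_left]
  refine (hc _ _ _ _ (hW i) h0).trans ?_
  rw [← map_sub]
  calc c * ((‖v i‖ + ‖v0‖) * ‖B (v i - v0)‖) ≤ |c| * ((‖v i‖ + ‖v0‖) * ‖B (v i - v0)‖) := by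
        gcongr; exact le_abs_self c
    _ ≤ |c| * ((R + ‖v0‖) * ‖B (v i - v0)‖) := by
        gcongr; exact hv i

/-- weak lower semicontinuity of the norm -/
theorem wl {Y : Type*} [NormedAddCommGroup Y] [InnerProductSpace ℝ Y] {U : Ultrafilter ι}
    {f : ι → Y} {y : Y} {c : ℝ} (hf : ∀ w, Tendsto (fun i => ⟪f i, w⟫_ℝ) U (𝓝 ⟪y, w⟫_ℝ))
    (hc : ∀ i, ‖f i‖ ≤ c) : ‖y‖ ≤ c := by
  obtain ⟨i0⟩ : Nonempty ι := (U : Filter ι).nonempty_of_neBot
  have hc0 : 0 ≤ c := (norm_nonneg _).trans (hc i0)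
  have l1 := hf y
  rw [real_inner_self_eq_norm_sq] at l1
  have l2 : ‖y‖ ^ 2 ≤ c * ‖y‖ := by
    refine le_of_tendsto l1 (Eventually.of_forall fun i => ?_)
    exact (real_inner_le_norm _ _).trans (by gcongr; exact hc i)
  rcases eq_or_lt_of_le (norm_nonneg y) with h | h
  · rw [← h]; exact hc0
  · have : ‖y‖ * ‖y‖ ≤ c * ‖y‖ := by nlinarith
    exact le_of_mul_le_mul_right this h

theorem wl2 {Y : Type*} [NormedAddCommGroup Y] [InnerProductSpace ℝ Y] {U : Ultrafilter ι}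
    {f : ι → Y} {y : Y} {l : ℝ} (hf : ∀ w, Tendsto (fun i => ⟪f i, w⟫_ℝ) U (𝓝 ⟪y, w⟫_ℝ))
    (hc : Tendsto (fun i => ‖f i‖) U (𝓝 l)) : ‖y‖ ≤ l := by
  have hl0 : 0 ≤ l := ge_of_tendsto hc (Eventually.of_forall fun i => norm_nonneg _)
  have l1 := hf y
  rw [real_inner_self_eq_norm_sq] at l1
  have l2 : ‖y‖ ^ 2 ≤ l * ‖y‖ := by
    refine le_of_tendsto_of_tendsto l1 (hc.mul_const ‖y‖) (Eventually.of_forall fun i => ?_)
    exact real_inner_le_norm _ _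
  rcases eq_or_lt_of_le (norm_nonneg y) with h | h
  · rw [← h]; exact hl0
  · have : ‖y‖ * ‖y‖ ≤ l * ‖y‖ := by nlinarith
    exact le_of_mul_le_mul_right this h

/-- the right-hand side with given viscosity. -/
noncomputable def rhq (P : K →L[ℝ] K) (m : H → K) (ν h : ℝ) (x : H) (z : K) : K :=
  -(ν • z) - h • P (P z) + m x

/-- The limit solution. -/
structure ASln (W : Submodule ℝ (H × K)) (m : H → K) (P : K →L[ℝ] K) (μ : ℝ → ℝ) (ν : ℝ)
    (x0 : H) (z0 : K) (u : ℝ → H) (z : ℝ → K) (q b : ℝ → ℝ) : Prop where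
  init : u 0 = x0
  mem : ∀ t, 0 ≤ t → (u t, z t) ∈ W
  lipu : ∃ c, ∀ a, 0 ≤ a → ∀ b, 0 ≤ b → ‖u a - u b‖ ≤ c * |a - b|
  zbd : ∃ s, ∀ t, 0 ≤ t → ‖z t‖ ≤ s
  zeq : ∀ ε : ℝ, 0 < ε → ∃ δ : ℝ, 0 < δ ∧ ∀ a, 0 ≤ a → ∀ b, 0 ≤ b → |a - b| < δ →
    ‖z a - z b‖ ≤ ε
  zc : ∀ T, 0 ≤ T → ContinuousOn z (Icc 0 T)
  mc : ∀ T, 0 ≤ T → ContinuousOn (fun s => m (u s)) (Icc 0 T)
  qc : ∀ T, 0 ≤ T → ContinuousOn q (Icc 0 T)
  bc : ∀ T, 0 ≤ T → ContinuousOn b (Icc 0 T)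
  qz : ∀ t, 0 ≤ t → ‖P (z t)‖ ≤ q t
  bz : ∀ t, 0 ≤ t → ‖z t‖ ≤ b t
  bq : ∀ t, 0 ≤ t → b t = ‖z t‖ → q t = ‖P (z t)‖
  een : ∀ t, 0 ≤ t → ‖u t‖ ^ 2 / 2 + ∫ s in (0 : ℝ)..t, (ν * b s ^ 2 + μ (q s) * q s ^ 2)
    ≤ ‖x0‖ ^ 2 / 2
  q0 : q 0 = ‖P z0‖
  weak : ∀ p ∈ W, ∀ a b, 0 ≤ a → a ≤ b →
    ⟪u b - u a, p.1⟫_ℝ = ∫ s in a..b, ⟪rhq P m ν (μ (q s)) (u s) (z s), p.2⟫_ℝ
  zshift : ∃ c2, ∀ T, 0 < T → ∀ h, 0 < h → h < T →
    ∫ s in (0 : ℝ)..(T - h), ‖z (s + h) - z s‖ ^ 2 ≤ c2 * h ^ 2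
  dis1 : ∀ T, 0 ≤ T → ∫ s in (0 : ℝ)..T, μ (q s) * q s ^ 2 ≤ ‖x0‖ ^ 2 / 2
  dis2 : ∀ T, 0 ≤ T → ∫ s in (0 : ℝ)..T, q s ^ 2 ≤ ‖x0‖ ^ 2 / 2 / ν

theorem AFam.limit (Fr : AFrame W m P C) (V : Visc ν μ A M) (hν : 0 < ν)
    (S : AFam W m P μ ν E X X' Z x0 c1 s1) (U : Ultrafilter ι)
    (hE : ∀ p ∈ W, ∀ᶠ i in U, p.1 ∈ E i) {core : Set (H × K)} (hL : LC W m core)
    {z0 : K} (h0 : (x0, z0) ∈ W) :
    ∃ (u : ℝ → H) (z : ℝ → K) (q b : ℝ → ℝ), ASln W m P μ ν x0 z0 u z q b := by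
  obtain ⟨i0⟩ : Nonempty ι := (U : Filter ι).nonempty_of_neBot
  have hc1 : ∀ T : ℝ, 0 ≤ T → 0 ≤ c1 := fun T hT =>
    (norm_nonneg _).trans (S.vel i0 T 0 ⟨le_rfl, hT⟩)
  have hs1 : ∀ T : ℝ, 0 ≤ T → 0 ≤ s1 := fun T hT =>
    (norm_nonneg _).trans (S.zb i0 T 0 ⟨le_rfl, hT⟩)
  -- pointwise limits
  have hex : ∀ t : ℝ, ∃ (u : H) (z : K) (q b : ℝ), 0 ≤ t → ((u, z) ∈ W ∧
      (∀ y, Tendsto (fun i => ⟪X i t, y⟫_ℝ) U (𝓝 ⟪u, y⟫_ℝ)) ∧
      (∀ y, Tendsto (fun i => ⟪Z i t, y⟫_ℝ) U (𝓝 ⟪z, y⟫_ℝ)) ∧ ‖u‖ ≤ ‖x0‖ ∧ ‖z‖ ≤ s1 ∧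
      Tendsto (fun i => ‖P (Z i t)‖) U (𝓝 q) ∧ 0 ≤ q ∧
      Tendsto (fun i => ‖Z i t‖) U (𝓝 b)) := by
    intro t
    by_cases ht : 0 ≤ t
    · obtain ⟨u, hu0, hu⟩ := exists_weak_limit U (fun i => X i t) ‖x0‖
        (Eventually.of_forall fun i => S.xb i t ht)
      obtain ⟨z, hz0, hz⟩ := exists_weak_limit U (fun i => Z i t) s1
        (Eventually.of_forall fun i => S.zb i t t ⟨ht, le_rfl⟩)
      obtain ⟨q, hq⟩ := exists_ulim U (f := fun i s => ‖P (Z i t)‖) (T := 0) (R := s1)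
        (fun i s _ => ⟨norm_nonneg _, (Fr.le _).trans (S.zb i t t ⟨ht, le_rfl⟩)⟩)
      have hq' := hq 0 ⟨le_rfl, le_rfl⟩
      obtain ⟨b, hb⟩ := exists_ulim U (f := fun i s => ‖Z i t‖) (T := 0) (R := s1)
        (fun i s _ => ⟨norm_nonneg _, S.zb i t t ⟨ht, le_rfl⟩⟩)
      have hb' := hb 0 ⟨le_rfl, le_rfl⟩
      refine ⟨u, z, q 0, b 0, fun _ => ⟨?_, hu, hz, hu0, hz0, hq'.2, hq'.1.1, hb'.2⟩⟩
      exact mem_of_weak_limit W Fr.closedW (U : Filter ι) (fun i => X i t)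
        (fun i => Z i t) u z (Eventually.of_forall fun i => (S.traj i t ht).mem t ⟨ht, le_rfl⟩)
        hu hz
    · exact ⟨0, 0, 0, 0, fun h => absurd h ht⟩
  choose u z q b h using hex
  have hPw : ∀ t, 0 ≤ t → ∀ w, Tendsto (fun i => ⟪P (Z i t), w⟫_ℝ) U (𝓝 ⟪P (z t), w⟫_ℝ) := by
    intro t ht w
    have := (h t ht).2.2.1 (P w)
    rw [Fr.sym]
    refine this.congr fun i => ?_
    rw [Fr.sym]
  have hPPw : ∀ t, 0 ≤ t → ∀ w, Tendsto (fun i => ⟪P (P (Z i t)), w⟫_ℝ) U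
      (𝓝 ⟪P (P (z t)), w⟫_ℝ) := by
    intro t ht w
    have := hPw t ht (P w)
    rw [Fr.sym]
    refine this.congr fun i => ?_
    rw [← Fr.sym]
  have hlip : ∀ T, 0 ≤ T → ∀ a ∈ Icc 0 T, ∀ b ∈ Icc 0 T, ‖u a - u b‖ ≤ c1 * |a - b| := by
    intro T hT a ha b hb
    refine wl (U := U) (f := fun i => X i a - X i b) ?_ (fun i => (S.traj i T hT).lipx (S.vel i T) ha hb)
    intro w
    simp only [inner_sub_left]
    exact ((h a ha.1).2.1 w).sub ((h b hb.1).2.1 w)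
  have hzb : ∀ T, ∀ t ∈ Icc 0 T, ‖z t‖ ≤ s1 := fun T t ht =>
    wl (U := U) (h t ht.1).2.2.1 (fun i => S.zb i T t ht)
  have hequiZ : ∀ T, 0 ≤ T → ∀ ε : ℝ, 0 < ε → ∃ δ : ℝ, 0 < δ ∧ ∀ a ∈ Icc 0 T, ∀ b ∈ Icc 0 T,
      |a - b| < δ → ‖z a - z b‖ ≤ ε := by
    intro T hT ε hε
    obtain ⟨δ, hδ, h1⟩ := S.equiZ Fr V hν hT ε hε
    refine ⟨δ, hδ, fun a ha b hb hab => ?_⟩
    refine wl (U := U) (f := fun i => Z i a - Z i b) ?_ (fun i => h1 i a ha b hb hab)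
    intro w
    simp only [inner_sub_left]
    exact ((h a ha.1).2.2.1 w).sub ((h b hb.1).2.2.1 w)
  have hzc : ∀ T, 0 ≤ T → ContinuousOn z (Icc 0 T) := fun T hT =>
    Equi.cont (f := fun _ : Unit => z) (fun ε hε => by
      obtain ⟨δ, hδ, h1⟩ := hequiZ T hT ε hε
      exact ⟨δ, hδ, fun _ => h1⟩) ()
  -- equicontinuity of derived families
  have eQ : ∀ T, 0 ≤ T → Equi (fun i s => ‖P (Z i s)‖) T := fun T hT =>
    (S.equiZ Fr V hν hT).mono 1 zero_le_one (fun i a _ b _ => by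
      rw [Real.norm_eq_abs, one_mul]
      refine (abs_norm_sub_norm_le _ _).trans ?_
      rw [← map_sub]; exact Fr.le _)
  have jQ : ∀ T, 0 ≤ T → ∀ t ∈ Icc 0 T, Tendsto (fun p : ι × ℝ => ‖P (Z p.1 p.2)‖)
      (U ×ˢ 𝓝[Icc 0 T] t) (𝓝 (q t)) :=
    fun T hT t ht => joint_of_equi (f := fun i s => ‖P (Z i s)‖) (eQ T hT) ht (h t ht.1).2.2.2.2.2.1
  have hqc : ∀ T, 0 ≤ T → ContinuousOn q (Icc 0 T) := fun T hT =>
    joint_cont (f := fun i s => ‖P (Z i s)‖) (jQ T hT)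
  have eN : ∀ T, 0 ≤ T → Equi (fun i s => ‖Z i s‖) T := fun T hT =>
    (S.equiZ Fr V hν hT).mono 1 zero_le_one (fun i a _ b _ => by
      rw [Real.norm_eq_abs, one_mul]
      exact abs_norm_sub_norm_le _ _)
  have jN : ∀ T, 0 ≤ T → ∀ t ∈ Icc 0 T, Tendsto (fun p : ι × ℝ => ‖Z p.1 p.2‖)
      (U ×ˢ 𝓝[Icc 0 T] t) (𝓝 (b t)) :=
    fun T hT t ht => joint_of_equi (f := fun i s => ‖Z i s‖) (eN T hT) ht
      (h t ht.1).2.2.2.2.2.2.2
  have hbc : ∀ T, 0 ≤ T → ContinuousOn b (Icc 0 T) := fun T hT =>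
    joint_cont (f := fun i s => ‖Z i s‖) (jN T hT)
  have jμ : ∀ T, 0 ≤ T → ∀ t ∈ Icc 0 T, Tendsto (fun p : ι × ℝ => μ ‖P (Z p.1 p.2)‖)
      (U ×ˢ 𝓝[Icc 0 T] t) (𝓝 (μ (q t))) := fun T hT t ht =>
    μ_tendsto V (h t ht.1).2.2.2.2.2.2.1 (fun p => norm_nonneg _) (jQ T hT t ht)
  have hmc : ∀ T, 0 ≤ T → ContinuousOn (fun s => m (u s)) (Icc 0 T) := by
    intro T hT t ht
    rw [ContinuousWithinAt, tendsto_iff_norm_sub_tendsto_zero]
    have hcont : Continuous (fun r : ℝ => Real.sqrt (Real.sqrt (C * ((c1 * r) * (2 * s1) ^ 3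
        * ((2 * ‖x0‖) * (2 * s1) ^ 3))))) := by fun_prop
    have h1 : Tendsto (fun s : ℝ => |s - t|) (𝓝[Icc 0 T] t) (𝓝 0) := by
      have : Continuous (fun s : ℝ => |s - t|) := by fun_prop
      have h2 := this.tendsto t
      simp only [sub_self, abs_zero] at h2
      exact h2.mono_left nhdsWithin_le_nhds
    have h2 := (hcont.tendsto 0).comp h1
    simp only [mul_zero, zero_mul, Real.sqrt_zero] at h2
    refine squeeze_zero' (Eventually.of_forall fun s => norm_nonneg _) ?_ h2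
    filter_upwards [self_mem_nhdsWithin] with s hs
    have hC := Fr.C0
    have k0 := hlip T hT s hs t ht
    refine (m_diff Fr (h s hs.1).1 (h t ht.1).1 (h s hs.1).2.2.2.1 (h t ht.1).2.2.2.1
      (hzb T s hs) (hzb T t ht)).trans ?_
    simp only [Function.comp]
    have := hs1 T hT
    gcongr
  refine ⟨u, z, q, b, ?_⟩
  constructor
  · -- initial value
    refine ext_inner_right ℝ (fun w => ?_)
    refine tendsto_nhds_unique ((h 0 le_rfl).2.1 w) ?_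
    simp only [S.init]
    exact tendsto_const_nhds
  · exact fun t ht => (h t ht).1
  · refine ⟨c1, fun a ha b hb => ?_⟩
    exact hlip (max a b) (ha.trans (le_max_left _ _)) a ⟨ha, le_max_left _ _⟩ b
      ⟨hb, le_max_right _ _⟩
  · exact ⟨s1, fun t ht => hzb t t ⟨ht, le_rfl⟩⟩
  · intro ε hε
    obtain ⟨δ, hδ, h1⟩ := S.equiZu Fr V hν ε hε
    refine ⟨δ, hδ, fun a ha b hb hab => ?_⟩
    refine wl (U := U) (f := fun i => Z i a - Z i b) ?_ (fun i =>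
      h1 (max a b) (ha.trans (le_max_left _ _)) i a ⟨ha, le_max_left _ _⟩ b
      ⟨hb, le_max_right _ _⟩ hab)
    intro w
    simp only [inner_sub_left]
    exact ((h a ha).2.2.1 w).sub ((h b hb).2.2.1 w)
  · exact hzc
  · exact hmc
  · exact hqc
  · exact hbc
  · exact fun t ht => wl2 (hPw t ht) (h t ht).2.2.2.2.2.1
  · exact fun t ht => wl2 (h t ht).2.2.1 (h t ht).2.2.2.2.2.2.2
  · -- strong convergence
    intro t ht hbt
    have l1 : Tendsto (fun i => ‖Z i t - z t‖ ^ 2) U (𝓝 0) := by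
      have k1 := (h t ht).2.2.2.2.2.2.2.pow 2
      have k2 := (h t ht).2.2.1 (z t)
      have k3 := (k1.sub (k2.const_mul 2)).add_const (‖z t‖ ^ 2)
      rw [real_inner_self_eq_norm_sq, hbt] at k3
      have e : ‖z t‖ ^ 2 - 2 * ‖z t‖ ^ 2 + ‖z t‖ ^ 2 = 0 := by ring
      rw [e] at k3
      refine k3.congr fun i => ?_
      rw [norm_sub_sq_real]
    have l2 : Tendsto (fun i => Z i t) U (𝓝 (z t)) := by
      rw [tendsto_iff_norm_sub_tendsto_zero]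
      have k1 := (Real.continuous_sqrt.tendsto 0).comp l1
      rw [Real.sqrt_zero] at k1
      refine k1.congr fun i => ?_
      simp only [Function.comp]
      rw [Real.sqrt_sq (norm_nonneg _)]
    have l3 : Tendsto (fun i => ‖P (Z i t)‖) U (𝓝 ‖P (z t)‖) :=
      ((P.continuous.tendsto _).comp l2).norm
    exact tendsto_nhds_unique (h t ht).2.2.2.2.2.1 l3
  · -- energy inequality
    intro t ht
    have l1 := joint_int (F := (U : Filter ι)) ht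
      (f := fun i s => ν * ‖Z i s‖ ^ 2 + μ ‖P (Z i s)‖ * ‖P (Z i s)‖ ^ 2)
      (g := fun s => ν * b s ^ 2 + μ (q s) * q s ^ 2)
      (fun r hr => (((jN t ht r hr).pow 2).const_mul ν).add
        ((jμ t ht r hr).mul ((jQ t ht r hr).pow 2)))
      (fun i => (S.traj i t ht).contD V)
    have l2 : Tendsto (fun i => ‖X i t‖ ^ 2) U (𝓝 (‖x0‖ ^ 2
        - 2 * ∫ s in (0 : ℝ)..t, (ν * b s ^ 2 + μ (q s) * q s ^ 2))) := by
      refine ((l1.const_mul 2).const_sub (‖x0‖ ^ 2)).congr fun i => ?_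
      have := (S.traj i t ht).energy Fr V (t := t) ⟨ht, le_rfl⟩
      rw [S.init i] at this
      linarith
    have l3 := (Real.continuous_sqrt.tendsto _).comp l2
    have l4 : Tendsto (fun i => ‖X i t‖) U (𝓝 (Real.sqrt (‖x0‖ ^ 2
        - 2 * ∫ s in (0 : ℝ)..t, (ν * b s ^ 2 + μ (q s) * q s ^ 2)))) := by
      refine l3.congr fun i => ?_
      simp only [Function.comp]
      rw [Real.sqrt_sq (norm_nonneg _)]
    have l5 := wl2 (h t ht).2.1 l4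
    have l6 : 0 ≤ ‖x0‖ ^ 2 - 2 * ∫ s in (0 : ℝ)..t, (ν * b s ^ 2 + μ (q s) * q s ^ 2) :=
      ge_of_tendsto l2 (Eventually.of_forall fun i => by positivity)
    have l7 : ‖u t‖ ^ 2 ≤ ‖x0‖ ^ 2
        - 2 * ∫ s in (0 : ℝ)..t, (ν * b s ^ 2 + μ (q s) * q s ^ 2) := by
      calc ‖u t‖ ^ 2 ≤ (Real.sqrt (‖x0‖ ^ 2
        - 2 * ∫ s in (0 : ℝ)..t, (ν * b s ^ 2 + μ (q s) * q s ^ 2))) ^ 2 := by gcongr
        _ = _ := Real.sq_sqrt l6
    linarith
  · have hz0 : ∀ i, Z i 0 = z0 := fun i => agrad_unique Fr (by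
      have := (S.traj i 0 le_rfl).mem 0 ⟨le_rfl, le_rfl⟩
      rwa [S.init i] at this) h0
    refine tendsto_nhds_unique (h 0 le_rfl).2.2.2.2.2.1 ?_
    simp only [hz0]
    exact tendsto_const_nhds
  · -- weak formulation
    intro p hp a b ha hab
    have hb0 : 0 ≤ b := ha.trans hab
    have hIab : Icc a b ⊆ Icc 0 b := Icc_subset_Icc_left ha
    have hGc : ContinuousOn (fun s => rhq P m ν (μ (q s)) (u s) (z s)) (Icc 0 b) := by
      unfold rhq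
      have hμq : ContinuousOn (fun s => μ (q s)) (Icc 0 b) :=
        joint_cont (f := fun i s => μ ‖P (Z i s)‖) (g := fun s => μ (q s)) (jμ b hb0)
      exact (((hzc b hb0).const_smul ν).neg.sub (hμq.smul
        (P.continuous.comp_continuousOn (P.continuous.comp_continuousOn (hzc b hb0))))).add
        (hmc b hb0)
    have hGi : IntervalIntegrable (fun s => rhq P m ν (μ (q s)) (u s) (z s)) volume a b :=
      ContinuousOn.intervalIntegrable (by rw [uIcc_of_le hab]; exact hGc.mono hIab)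
    have hform : ∀ y : K, ∫ s in a..b, ⟪rhq P m ν (μ (q s)) (u s) (z s), y⟫_ℝ
        = ⟪∫ s in a..b, rhq P m ν (μ (q s)) (u s) (z s), y⟫_ℝ := by
      intro y
      have h1 := ((innerSL ℝ y)).intervalIntegral_comp_comm hGi
      simp only [innerSL_apply_apply] at h1
      rw [real_inner_comm, ← h1]
      refine intervalIntegral.integral_congr (fun s _ => ?_)
      exact real_inner_comm _ _
    have hcore : ∀ p ∈ core, ⟪u b - u a, p.1⟫_ℝ
        = ⟪∫ s in a..b, rhq P m ν (μ (q s)) (u s) (z s), p.2⟫_ℝ := by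
      intro p hpc
      have hpW : p ∈ W := hL.1 hpc
      rw [← hform]
      have l1 : Tendsto (fun i => ⟪X i b - X i a, p.1⟫_ℝ) U (𝓝 ⟪u b - u a, p.1⟫_ℝ) := by
        simp only [inner_sub_left]
        exact ((h b hb0).2.1 p.1).sub ((h a ha).2.1 p.1)
      have eA : Equi (fun i s => ⟪Z i s, p.2⟫_ℝ) b :=
        (S.equiZ Fr V hν hb0).mono ‖p.2‖ (norm_nonneg _) (fun i s _ r _ => by
          rw [← inner_sub_left, mul_comm]; exact norm_inner_le_norm _ _)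
      have eB : Equi (fun i s => ⟪P (P (Z i s)), p.2⟫_ℝ) b :=
        (S.equiZ Fr V hν hb0).mono ‖p.2‖ (norm_nonneg _) (fun i s _ r _ => by
          rw [← inner_sub_left, mul_comm, ← map_sub, ← map_sub]
          refine (norm_inner_le_norm _ _).trans ?_
          gcongr
          exact (Fr.le _).trans (Fr.le _))
      have eM : Equi (fun i s => ⟪m (X i s), p.2⟫_ℝ) b :=
        (S.equiM Fr hb0 (hc1 b hb0)).mono ‖p.2‖ (norm_nonneg _) (fun i s _ r _ => by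
          rw [← inner_sub_left, mul_comm]; exact norm_inner_le_norm _ _)
      have jA : ∀ t ∈ Icc 0 b, Tendsto (fun p' : ι × ℝ => ⟪Z p'.1 p'.2, p.2⟫_ℝ)
          (U ×ˢ 𝓝[Icc 0 b] t) (𝓝 ⟪z t, p.2⟫_ℝ) :=
        fun t ht => joint_of_equi (f := fun i s => ⟪Z i s, p.2⟫_ℝ) (g := fun s => ⟪z s, p.2⟫_ℝ)
          eA ht ((h t ht.1).2.2.1 p.2)
      have jB : ∀ t ∈ Icc 0 b, Tendsto (fun p' : ι × ℝ => ⟪P (P (Z p'.1 p'.2)), p.2⟫_ℝ)
          (U ×ˢ 𝓝[Icc 0 b] t) (𝓝 ⟪P (P (z t)), p.2⟫_ℝ) :=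
        fun t ht => joint_of_equi (f := fun i s => ⟪P (P (Z i s)), p.2⟫_ℝ)
          (g := fun s => ⟪P (P (z s)), p.2⟫_ℝ) eB ht (hPPw t ht.1 p.2)
      have jM : ∀ t ∈ Icc 0 b, Tendsto (fun p' : ι × ℝ => ⟪m (X p'.1 p'.2), p.2⟫_ℝ)
          (U ×ˢ 𝓝[Icc 0 b] t) (𝓝 ⟪m (u t), p.2⟫_ℝ) := by
        intro t ht
        refine joint_of_equi (f := fun i s => ⟪m (X i s), p.2⟫_ℝ)
          (g := fun s => ⟪m (u s), p.2⟫_ℝ) eM ht ?_
        exact weak_m hL hpc U (R := max ‖x0‖ s1)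
          (fun i => (S.traj i b hb0).mem t ht)
          (fun i => (S.xb i t ht.1).trans (le_max_left _ _))
          (fun i => (S.zb i b t ht).trans (le_max_right _ _)) (h t ht.1).1 (h t ht.1).2.1
      have hform2 : ∀ (r : ℝ) (x : H) (y : K), ⟪-(ν • y) - r • P (P y) + m x, p.2⟫_ℝ
          = -(ν * ⟪y, p.2⟫_ℝ) - r * ⟪P (P y), p.2⟫_ℝ + ⟪m x, p.2⟫_ℝ := by
        intro r x y
        simp only [inner_add_left, inner_sub_left, inner_neg_left, real_inner_smul_left]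
      have jall : ∀ t ∈ Icc 0 b, Tendsto (fun p' : ι × ℝ =>
          ⟪rh P m μ ν (X p'.1 p'.2) (Z p'.1 p'.2), p.2⟫_ℝ)
          (U ×ˢ 𝓝[Icc 0 b] t) (𝓝 ⟪rhq P m ν (μ (q t)) (u t) (z t), p.2⟫_ℝ) := by
        intro t ht
        unfold rhq rh
        simp only [hform2]
        exact (((jA t ht).const_mul ν).neg.sub ((jμ b hb0 t ht).mul (jB t ht))).add (jM t ht)
      have l2 := joint_int (F := (U : Filter ι)) hab
        (f := fun i s => ⟪rh P m μ ν (X i s) (Z i s), p.2⟫_ℝ)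
        (g := fun s => ⟪rhq P m ν (μ (q s)) (u s) (z s), p.2⟫_ℝ)
        (fun t ht => (jall t (hIab ht)).mono_left
          (Filter.prod_mono le_rfl (nhdsWithin_mono _ hIab))) (fun i => ?_)
      · refine tendsto_nhds_unique l1 (l2.congr' ?_)
        filter_upwards [hE p hpW] with i hi
        have e1 : ∀ t ∈ Icc a b, HasDerivWithinAt (fun s => ⟪X i s, p.1⟫_ℝ) ⟪X' i t, p.1⟫_ℝ
            (Icc a b) t := by
          intro t ht
          have := (((S.traj i b hb0).deriv t (hIab ht)).mono hIab).inner ℝ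
            (hasDerivWithinAt_const t (Icc a b) p.1)
          simpa using this
        have e2 := int_eq hab e1 (((S.traj i b hb0).contx'.mono hIab).inner continuousOn_const)
        rw [inner_sub_left, ← e2]
        refine intervalIntegral.integral_congr (fun s hs => ?_)
        rw [uIcc_of_le hab] at hs
        exact ((S.traj i b hb0).eqn s (hIab hs) p.1 hi p.2 hpW).symm
      · -- continuity
        have k1 := (S.traj i b hb0).μcont V
        have k2 := (S.equiM Fr hb0 (hc1 b hb0)).cont i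
        have k3 := (S.traj i b hb0).contz
        unfold rh
        exact (((((k3.const_smul ν).neg.sub (k1.smul
          (P.continuous.comp_continuousOn (P.continuous.comp_continuousOn k3)))).add
          k2)).inner continuousOn_const).mono hIab
    rw [hform]
    have hcl : IsClosed {p : H × K | ⟪u b - u a, p.1⟫_ℝ
        = ⟪∫ s in a..b, rhq P m ν (μ (q s)) (u s) (z s), p.2⟫_ℝ} :=
      isClosed_eq (by fun_prop) (by fun_prop)
    exact closure_minimal (fun p hp => hcore p hp) hcl (hL.2.1 hp)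
  · -- time shifts
    refine ⟨gcA ν C A μ (‖x0‖ ^ 2 / 2) * c1 ^ 2 / ν, ?_⟩
    intro T hT r hr hrT
    have hTr : 0 ≤ T - r := by linarith
    have hsh : ∀ s ∈ Icc 0 (T - r), s + r ∈ Icc 0 T :=
      fun s hs => ⟨by linarith [hs.1], by linarith [hs.2]⟩
    have hsub : Icc 0 (T - r) ⊆ Icc 0 T := Icc_subset_Icc_right (by linarith)
    obtain ⟨d, hd⟩ := exists_ulim U (f := fun i s => ‖Z i (s + r) - Z i s‖) (T := T - r)
      (R := 2 * s1) (fun i s hs => ⟨norm_nonneg _, by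
        have k1 := S.zb i T (s + r) (hsh s hs)
        have k2 := S.zb i T s (hsub hs)
        exact (norm_sub_le _ _).trans (by linarith)⟩)
    have eD : Equi (fun i s => ‖Z i (s + r) - Z i s‖) (T - r) := by
      intro ε hε
      obtain ⟨δ, hδ, h1⟩ := S.equiZ Fr V hν hT.le (ε / 2) (by positivity)
      refine ⟨δ, hδ, fun i a ha b hb hab => ?_⟩
      have k1 := h1 i a (hsub ha) b (hsub hb) hab
      have k2 := h1 i (a + r) (hsh a ha) (b + r) (hsh b hb) (by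
        rwa [show a + r - (b + r) = a - b by ring])
      rw [Real.norm_eq_abs]
      refine (abs_norm_sub_norm_le _ _).trans ?_
      calc ‖Z i (a + r) - Z i a - (Z i (b + r) - Z i b)‖
          = ‖(Z i (a + r) - Z i (b + r)) - (Z i a - Z i b)‖ := by congr 1; abel
        _ ≤ ‖Z i (a + r) - Z i (b + r)‖ + ‖Z i a - Z i b‖ := norm_sub_le _ _
        _ ≤ ε := by linarith
    have jD : ∀ t ∈ Icc 0 (T - r), Tendsto (fun p : ι × ℝ => ‖Z p.1 (p.2 + r) - Z p.1 p.2‖)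
        (U ×ˢ 𝓝[Icc 0 (T - r)] t) (𝓝 (d t)) := fun t ht =>
      joint_of_equi (f := fun i s => ‖Z i (s + r) - Z i s‖) eD ht (hd t ht).2
    have l1 := joint_int (F := (U : Filter ι)) hTr
      (f := fun i s => ‖Z i (s + r) - Z i s‖ ^ 2) (g := fun s => d s ^ 2)
      (fun t ht => (jD t ht).pow 2) (fun i => (eD.cont i).pow 2)
    have hzs : ContinuousOn (fun s => z (s + r)) (Icc 0 (T - r)) :=
      (hzc T hT.le).comp (by fun_prop) hsh
    have hdc : ContinuousOn d (Icc 0 (T - r)) :=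
      joint_cont (f := fun i s => ‖Z i (s + r) - Z i s‖) jD
    have i1 : IntervalIntegrable (fun s => ‖z (s + r) - z s‖ ^ 2) volume 0 (T - r) :=
      ContinuousOn.intervalIntegrable (by
        rw [uIcc_of_le hTr]
        exact ((hzs.sub ((hzc T hT.le).mono hsub)).norm).pow 2)
    have i2 : IntervalIntegrable (fun s => d s ^ 2) volume 0 (T - r) :=
      ContinuousOn.intervalIntegrable (by rw [uIcc_of_le hTr]; exact hdc.pow 2)
    have l2 : ∫ s in (0 : ℝ)..(T - r), ‖z (s + r) - z s‖ ^ 2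
        ≤ ∫ s in (0 : ℝ)..(T - r), d s ^ 2 := by
      refine intervalIntegral.integral_mono_on hTr i1 i2 (fun s hs => ?_)
      have k : ‖z (s + r) - z s‖ ≤ d s := by
        refine wl2 (U := U) (f := fun i => Z i (s + r) - Z i s) (fun w => ?_) (hd s hs).2
        simp only [inner_sub_left]
        exact ((h (s + r) (hsh s hs).1).2.2.1 w).sub ((h s hs.1).2.2.1 w)
      gcongr
    refine l2.trans (le_of_tendsto l1 (Eventually.of_forall fun i => ?_))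
    have := (S.traj i T hT.le).zshift Fr V hν hT (S.vel i T) hr hrT
    rwa [S.init i] at this
  · intro T hT
    have l1 := joint_int (F := (U : Filter ι)) hT
      (f := fun i s => μ ‖P (Z i s)‖ * ‖P (Z i s)‖ ^ 2) (g := fun s => μ (q s) * q s ^ 2)
      (fun t ht => (jμ T hT t ht).mul ((jQ T hT t ht).pow 2))
      (fun i => ((S.traj i T hT).μcont V).mul ((S.traj i T hT).contP.pow 2))
    refine le_of_tendsto l1 (Eventually.of_forall fun i => ?_)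
    have k1 := (S.traj i T hT).dissip Fr V hT
    rw [S.init i] at k1
    refine le_trans ?_ k1
    refine intervalIntegral.integral_mono_on hT
      (ii_of_cont (((S.traj i T hT).μcont V).mul ((S.traj i T hT).contP.pow 2)) le_rfl hT le_rfl)
      (ii_of_cont ((S.traj i T hT).contD V) le_rfl hT le_rfl) (fun s _ => ?_)
    have : 0 ≤ ν * ‖Z i s‖ ^ 2 := by positivity
    linarith
  · intro T hT
    have l1 := joint_int (F := (U : Filter ι)) hT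
      (f := fun i s => ‖P (Z i s)‖ ^ 2) (g := fun s => q s ^ 2)
      (fun t ht => ((jQ T hT t ht).pow 2))
      (fun i => ((S.traj i T hT).contP.pow 2))
    refine le_of_tendsto l1 (Eventually.of_forall fun i => ?_)
    have k1 := (S.traj i T hT).dissip Fr V hT
    rw [S.init i] at k1
    rw [le_div_iff₀ hν, mul_comm, ← intervalIntegral.integral_const_mul]
    refine le_trans ?_ k1
    refine intervalIntegral.integral_mono_on hT
      (ii_of_cont (continuousOn_const.mul ((S.traj i T hT).contP.pow 2)) le_rfl hT le_rfl)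
      (ii_of_cont ((S.traj i T hT).contD V) le_rfl hT le_rfl) (fun s _ => ?_)
    have k2 : 0 ≤ μ ‖P (Z i s)‖ * ‖P (Z i s)‖ ^ 2 :=
      mul_nonneg (V.nonneg _ (norm_nonneg _)) (by positivity)
    have k3 : ‖P (Z i s)‖ ^ 2 ≤ ‖Z i s‖ ^ 2 := by gcongr; exact Fr.le _
    nlinarith

end H772R2.NAX
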