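import Mathlib
import Pool.Agent.H772R2.NAX.Lim
import Pool.Agent.H772R2.NSR.Abs

/-!
The abstract theorem for the localised viscosity.
-/

set_option linter.unusedSectionVars false

open MeasureTheory Set Filter Topology Metric
open scoped InnerProductSpace NNReal

namespace H772R2.NAX

open H772R2.NSR (stress_mono young4 gron Visc GalSp mem_dom exists_galSp int_eq ii_of_cont clip clip_mem clip_of_mem
  clip_cont exists_weak_deriv' ae_deriv_of_prim memLp_ii muf muf_nonneg muf_zero visc_muf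
  cost5 cost53 exists_kappa)

variable {H K : Type*} [NormedAddCommGroup H] [InnerProductSpace ℝ H] [CompleteSpace H]
  [NormedAddCommGroup K] [InnerProductSpace ℝ K] [CompleteSpace K]

variable {W : Submodule ℝ (H × K)} {m : H → K} {P : K →L[ℝ] K} {C : ℝ}
  {ν A M : ℝ} {μ : ℝ → ℝ} {x0 : H} {z0 : K}

theorem exists_asln (Fr : AFrame W m P C) (V : Visc ν μ A M) (hν : 0 < ν)
    {core : Set (H × K)} (hL : LC W m core) (h0 : (x0, z0) ∈ W) {g0 : H}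
    (hc : ∀ p ∈ W, ⟪rh P m μ ν x0 z0, p.2⟫_ℝ = ⟪g0, p.1⟫_ℝ) :
    ∃ (u : ℝ → H) (z : ℝ → K) (q b : ℝ → ℝ), ASln W m P μ ν x0 z0 u z q b := by
  have hdom : x0 ∈ W.map (LinearMap.fst ℝ H K) := mem_dom h0
  have hex : ∀ i : GalSp W x0, ∃ (x x' : ℝ → H) (z : ℝ → K),
      (∀ T, 0 ≤ T → ATraj W m P μ ν T i.1 x x' z) ∧ x 0 = x0 := by
    rintro ⟨E, h1, h2, h3⟩
    have := h1
    exact exists_atraj Fr V hν h2 h3
  choose X X' Z hS hX0 using hex
  have : Nonempty (GalSp W x0) := ⟨(exists_galSp hdom hdom).choose⟩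
  set U : Ultrafilter (GalSp W x0) := Ultrafilter.of atTop with hU
  have hE : ∀ p ∈ W, ∀ᶠ i in U, p.1 ∈ (i : GalSp W x0).1 := by
    intro p hp
    obtain ⟨E0, hE0⟩ := exists_galSp (x0 := x0) hdom (mem_dom hp)
    have h1 : ∀ᶠ i in (atTop : Filter (GalSp W x0)), E0 ≤ i := eventually_ge_atTop E0
    have h2 : ∀ᶠ i in U, E0 ≤ i := (Ultrafilter.of_le atTop) h1
    filter_upwards [h2] with i hi
    exact hi hE0
  let e : ℝ := ‖x0‖ ^ 2 / 2
  let c1 : ℝ := Real.sqrt (gcA ν C A μ e * ‖g0‖ ^ 2)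
  have hxb : ∀ i, ∀ t, 0 ≤ t → ‖X i t‖ ≤ ‖x0‖ := by
    intro i t ht
    have := (hS i t ht).xbound Fr V hν ⟨ht, le_rfl⟩
    rwa [hX0 i] at this
  have hvel : ∀ i, ∀ T, ∀ t ∈ Icc 0 T, ‖X' i t‖ ≤ c1 := by
    intro i T t ht
    have hT : 0 < T + 1 := by linarith [ht.1, ht.2]
    have k1 := (hS i (T + 1) hT.le).vel Fr V hν hT (t := t) ⟨ht.1, by linarith [ht.2]⟩
    rw [hX0 i] at k1
    have hz : Z i 0 = z0 := agrad_unique Fr (by
      have := (hS i 0 le_rfl).mem 0 ⟨le_rfl, le_rfl⟩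
      rwa [hX0 i] at this) h0
    have k2 : ‖X' i 0‖ ≤ ‖g0‖ := (hS i 0 le_rfl).vel0 i.2.2.1 le_rfl (by rw [hz, hX0 i]; exact hc)
    have hgc : 0 < gcA ν C A μ e := Real.exp_pos _
    refine Real.le_sqrt_of_sq_le (k1.trans ?_)
    gcongr
  have hc10 : 0 ≤ c1 := Real.sqrt_nonneg _
  let s1 : ℝ := Real.sqrt (c1 * ‖x0‖ / ν)
  have hzb : ∀ i, ∀ T, ∀ t ∈ Icc 0 T, ‖Z i t‖ ≤ s1 := by
    intro i T t ht
    exact Real.le_sqrt_of_sq_le ((hS i T (ht.1.trans ht.2)).zbound Fr V hν ht (hvel i T t ht)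
      (hxb i t ht.1))
  have hfam : AFam W m P μ ν (fun i : GalSp W x0 => i.1) X X' Z x0 c1 s1 :=
    ⟨hS, hvel, hzb, hxb, hX0⟩
  exact hfam.limit Fr V hν U hE hL h0

variable {u : ℝ → H} {z : ℝ → K} {q b : ℝ → ℝ}

theorem ASln.qnn (S : ASln W m P μ ν x0 z0 u z q b) {t : ℝ} (ht : 0 ≤ t) : 0 ≤ q t :=
  (norm_nonneg _).trans (S.qz t ht)

theorem ASln.μqc (V : Visc ν μ A M) (S : ASln W m P μ ν x0 z0 u z q b) {T : ℝ} (hT : 0 ≤ T) :
    ContinuousOn (fun s => μ (q s)) (Icc 0 T) := by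
  intro t ht
  rw [ContinuousWithinAt, tendsto_iff_norm_sub_tendsto_zero]
  have h1 : Tendsto (fun s => M * ‖q s - q t‖) (𝓝[Icc 0 T] t) (𝓝 (M * 0)) :=
    ((tendsto_iff_norm_sub_tendsto_zero.mp (S.qc T hT t ht))).const_mul M
  rw [mul_zero] at h1
  refine squeeze_zero' (Eventually.of_forall fun s => norm_nonneg _) ?_ h1
  filter_upwards [self_mem_nhdsWithin] with s hs
  exact V.lip _ _ (S.qnn hs.1) (S.qnn ht.1)

theorem ASln.Gc (V : Visc ν μ A M) (S : ASln W m P μ ν x0 z0 u z q b) {T : ℝ} (hT : 0 ≤ T) :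
    ContinuousOn (fun s => rhq P m ν (μ (q s)) (u s) (z s)) (Icc 0 T) := by
  unfold rhq
  exact (((S.zc T hT).const_smul ν).neg.sub ((S.μqc V hT).smul
    (P.continuous.comp_continuousOn (P.continuous.comp_continuousOn (S.zc T hT))))).add
    (S.mc T hT)

/-- the derivative of half the square of the norm. -/
theorem sq_deriv {T : ℝ} (hT : 0 ≤ T) {G : ℝ → K} (hmem : ∀ t ∈ Icc 0 T, (u t, z t) ∈ W)
    (hzc : ContinuousOn z (Icc 0 T)) (hGc : ContinuousOn G (Icc 0 T))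
    (hw : ∀ p ∈ W, ∀ a b, 0 ≤ a → a ≤ b → b ≤ T →
      ⟪u b - u a, p.1⟫_ℝ = ∫ s in a..b, ⟪G s, p.2⟫_ℝ) :
    ∀ a ∈ Icc 0 T, HasDerivWithinAt (fun s => ‖u s‖ ^ 2 / 2) ⟪G a, z a⟫_ℝ (Icc 0 T) a := by
  set G' : ℝ → K := fun s => G (clip T s) with hG'
  have hG'c : Continuous G' := clip_cont hT hGc
  have hdiff : ∀ a ∈ Icc 0 T, ∀ b ∈ Icc 0 T, a ≤ b →
      ‖u b‖ ^ 2 / 2 - ‖u a‖ ^ 2 / 2 = ⟪∫ s in a..b, G' s, (1 / 2 : ℝ) • (z b + z a)⟫_ℝ := by
    intro a ha b hb hab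
    have hp : ((1 / 2 : ℝ) • (u b + u a), (1 / 2 : ℝ) • (z b + z a)) ∈ W :=
      W.smul_mem _ (W.add_mem (hmem b hb) (hmem a ha))
    have h1 := hw _ hp a b ha.1 hab hb.2
    simp only at h1
    have h2 : ⟪u b - u a, (1 / 2 : ℝ) • (u b + u a)⟫_ℝ = ‖u b‖ ^ 2 / 2 - ‖u a‖ ^ 2 / 2 := by
      rw [real_inner_smul_right, inner_sub_left, inner_add_right, inner_add_right,
        real_inner_self_eq_norm_sq, real_inner_self_eq_norm_sq, real_inner_comm (u b) (u a)]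
      ring
    rw [h2] at h1
    rw [h1]
    have h3 := ((innerSL ℝ ((1 / 2 : ℝ) • (z b + z a)))).intervalIntegral_comp_comm
      (hG'c.intervalIntegrable (μ := volume) a b)
    simp only [innerSL_apply_apply] at h3
    rw [real_inner_comm, ← h3]
    refine intervalIntegral.integral_congr (fun s hs => ?_)
    rw [uIcc_of_le hab] at hs
    simp only [hG']
    rw [clip_of_mem ⟨ha.1.trans hs.1, hs.2.trans hb.2⟩]
    exact real_inner_comm _ _
  have hdiff' : ∀ a ∈ Icc 0 T, ∀ b ∈ Icc 0 T,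
      ‖u b‖ ^ 2 / 2 - ‖u a‖ ^ 2 / 2 = ⟪∫ s in a..b, G' s, (1 / 2 : ℝ) • (z b + z a)⟫_ℝ := by
    intro a ha b hb
    rcases le_total a b with h | h
    · exact hdiff a ha b hb h
    · have h1 := hdiff b hb a ha h
      rw [intervalIntegral.integral_symm, inner_neg_left, add_comm (z b) (z a), ← h1]
      ring
  intro a ha
  have hΦ : HasDerivAt (fun b => ∫ s in a..b, G' s) (G' a) a :=
    intervalIntegral.integral_hasDerivAt_right (hG'c.intervalIntegrable _ _)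
      (hG'c.stronglyMeasurableAtFilter _ _) hG'c.continuousAt
  have hΦ2 := (hasDerivWithinAt_iff_tendsto_slope (s := Icc 0 T)).mp hΦ.hasDerivWithinAt
  rw [hasDerivWithinAt_iff_tendsto_slope]
  have hz1 : Tendsto (fun b => (1 / 2 : ℝ) • (z b + z a)) (𝓝[Icc 0 T \ {a}] a)
      (𝓝 ((1 / 2 : ℝ) • (z a + z a))) :=
    (((hzc a ha).mono_left (nhdsWithin_mono _ sdiff_subset)).add_const _).const_smul _
  have hz2 : (1 / 2 : ℝ) • (z a + z a) = z a := by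
    rw [← two_smul ℝ (z a), smul_smul]; norm_num
  rw [hz2] at hz1
  have h3 := Filter.Tendsto.inner (𝕜 := ℝ) hΦ2 hz1
  have h4 : G' a = G a := by simp only [hG']; rw [clip_of_mem ha]
  rw [h4] at h3
  refine h3.congr' ?_
  filter_upwards [self_mem_nhdsWithin] with b hb
  simp only [slope_def_module, intervalIntegral.integral_same, sub_zero, real_inner_smul_left]
  rw [hdiff' a ha b hb.1, smul_eq_mul]

/-- the energy equality for the limit. -/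
theorem ASln.energy (Fr : AFrame W m P C) (V : Visc ν μ A M)
    (S : ASln W m P μ ν x0 z0 u z q b) {t : ℝ} (ht : 0 ≤ t) :
    ‖u t‖ ^ 2 / 2 + ∫ s in (0 : ℝ)..t, (ν * ‖z s‖ ^ 2 + μ (q s) * ‖P (z s)‖ ^ 2)
      = ‖x0‖ ^ 2 / 2 := by
  set G : ℝ → K := fun s => rhq P m ν (μ (q s)) (u s) (z s) with hG
  have hGc := S.Gc V ht
  have hzc := S.zc t ht
  have hval : ∀ s ∈ Icc 0 t, ⟪G s, z s⟫_ℝ = -(ν * ‖z s‖ ^ 2 + μ (q s) * ‖P (z s)‖ ^ 2) := by
    intro s hs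
    have o := Fr.ortho _ (S.mem s hs.1)
    simp only at o
    simp only [hG, rhq, inner_add_left, inner_sub_left, inner_neg_left, real_inner_smul_left, o]
    rw [Fr.sym, real_inner_self_eq_norm_sq, real_inner_self_eq_norm_sq]
    ring
  have hder := sq_deriv ht (fun s hs => S.mem s hs.1) hzc hGc
    (fun p hp a b ha hab _ => S.weak p hp a b ha hab)
  have hgc : ContinuousOn (fun s => ⟪G s, z s⟫_ℝ) (Icc 0 t) := hGc.inner hzc
  have h5 := int_eq ht hder hgc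
  have h6 : ∫ s in (0 : ℝ)..t, ⟪G s, z s⟫_ℝ
      = -∫ s in (0 : ℝ)..t, (ν * ‖z s‖ ^ 2 + μ (q s) * ‖P (z s)‖ ^ 2) := by
    rw [← intervalIntegral.integral_neg]
    refine intervalIntegral.integral_congr (fun s hs => ?_)
    rw [uIcc_of_le ht] at hs
    exact hval s hs
  rw [h6, S.init] at h5
  linarith

/-- the closed loop law is satisfied exactly. -/
theorem ASln.q_eq (Fr : AFrame W m P C) (V : Visc ν μ A M) (hν : 0 < ν)
    (S : ASln W m P μ ν x0 z0 u z q b) {t : ℝ} (ht : 0 ≤ t) : q t = ‖P (z t)‖ := by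
  refine S.bq t ht ?_
  by_contra hne
  have ht1 : (0 : ℝ) ≤ t + 1 := by linarith
  have h1 := S.energy Fr V ht1
  have h2 := S.een (t + 1) ht1
  have hμc := S.μqc V ht1
  have hqc := S.qc (t + 1) ht1
  have hbc := S.bc (t + 1) ht1
  have hzc := S.zc (t + 1) ht1
  have hPc : ContinuousOn (fun s => ‖P (z s)‖) (Icc 0 (t + 1)) :=
    (P.continuous.comp_continuousOn hzc).norm
  have c1 : ContinuousOn (fun s => ν * b s ^ 2 + μ (q s) * q s ^ 2) (Icc 0 (t + 1)) :=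
    (continuousOn_const.mul (hbc.pow 2)).add (hμc.mul (hqc.pow 2))
  have c2 : ContinuousOn (fun s => ν * ‖z s‖ ^ 2 + μ (q s) * ‖P (z s)‖ ^ 2) (Icc 0 (t + 1)) :=
    (continuousOn_const.mul (hzc.norm.pow 2)).add (hμc.mul (hPc.pow 2))
  have hlt : ∫ s in (0 : ℝ)..(t + 1), (ν * ‖z s‖ ^ 2 + μ (q s) * ‖P (z s)‖ ^ 2)
      < ∫ s in (0 : ℝ)..(t + 1), (ν * b s ^ 2 + μ (q s) * q s ^ 2) := by
    refine intervalIntegral.integral_lt_integral_of_continuousOn_of_le_of_exists_lt (by linarith)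
      c2 c1 (fun s hs => ?_) ⟨t, ⟨ht, by linarith⟩, ?_⟩
    · have k1 := S.bz s hs.1.le
      have k2 := S.qz s hs.1.le
      have k3 := V.nonneg _ (S.qnn hs.1.le)
      gcongr
    · have k1 := lt_of_le_of_ne (S.bz t ht) (Ne.symm hne)
      have k2 := S.qz t ht
      have k3 := V.nonneg _ (S.qnn ht)
      have k4 : μ (q t) * ‖P (z t)‖ ^ 2 ≤ μ (q t) * q t ^ 2 := by gcongr
      have k5 : ν * ‖z t‖ ^ 2 < ν * b t ^ 2 := by gcongr
      linarith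
  linarith

/-- the gradient tends to zero. -/
theorem ASln.decay (Fr : AFrame W m P C) (V : Visc ν μ A M) (hν : 0 < ν)
    (S : ASln W m P μ ν x0 z0 u z q b) {r : ℝ} (hr : 0 < r) :
    ∃ T2, 0 ≤ T2 ∧ ∀ t, T2 ≤ t → ‖z t‖ < r := by
  obtain ⟨δ, hδ, hu⟩ := S.zeq (r / 2) (by positivity)
  set Φ : ℝ → ℝ := fun T => ∫ s in (0 : ℝ)..T, ‖z s‖ ^ 2 with hΦ
  have hi : ∀ a c, 0 ≤ a → a ≤ c → IntervalIntegrable (fun s => ‖z s‖ ^ 2) volume a c :=
    fun a c ha hac => ii_of_cont ((S.zc c (ha.trans hac)).norm.pow 2) ha hac le_rfl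
  have hbd : ∀ T, 0 ≤ T → Φ T ≤ ‖x0‖ ^ 2 / 2 / ν := by
    intro T hT
    have h1 := S.energy Fr V hT
    have h2 : ν * Φ T ≤ ∫ s in (0 : ℝ)..T, (ν * ‖z s‖ ^ 2 + μ (q s) * ‖P (z s)‖ ^ 2) := by
      rw [hΦ]
      simp only
      rw [← intervalIntegral.integral_const_mul]
      refine intervalIntegral.integral_mono_on hT ((hi 0 T le_rfl hT).const_mul ν)
        (ii_of_cont ((continuousOn_const.mul ((S.zc T hT).norm.pow 2)).add ((S.μqc V hT).mul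
          ((P.continuous.comp_continuousOn (S.zc T hT)).norm.pow 2))) le_rfl hT le_rfl)
        (fun s hs => ?_)
      have : 0 ≤ μ (q s) * ‖P (z s)‖ ^ 2 :=
        mul_nonneg (V.nonneg _ (S.qnn hs.1)) (by positivity)
      linarith
    have h3 : 0 ≤ ‖u T‖ ^ 2 / 2 := by positivity
    rw [le_div_iff₀ hν]
    linarith
  set η : ℝ := (r / 2) ^ 2 * (δ / 2) with hη
  have hη0 : 0 < η := by positivity
  set Y : Set ℝ := Φ '' Ici 0 with hY
  have hYne : Y.Nonempty := ⟨Φ 0, 0, mem_Ici.mpr le_rfl, rfl⟩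
  have hYb : BddAbove Y := ⟨_, by rintro _ ⟨T, hT, rfl⟩; exact hbd T hT⟩
  obtain ⟨_, ⟨T2, hT2, rfl⟩, hlt⟩ := exists_lt_of_lt_csSup hYne
    (show sSup Y - η < sSup Y by linarith)
  have hT20 : (0 : ℝ) ≤ T2 := hT2
  refine ⟨T2, hT20, fun t ht => ?_⟩
  by_contra hcon
  rw [not_lt] at hcon
  have ht0 : 0 ≤ t := hT20.trans ht
  have h1 : Φ (t + δ / 2) ≤ sSup Y := le_csSup hYb ⟨t + δ / 2, by
    show (0 : ℝ) ≤ t + δ / 2
    positivity, rfl⟩
  have e1 : Φ T2 + ∫ s in T2..t, ‖z s‖ ^ 2 = Φ t :=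
    intervalIntegral.integral_add_adjacent_intervals (hi 0 T2 le_rfl hT20) (hi T2 t hT20 ht)
  have e2 : Φ t + ∫ s in t..(t + δ / 2), ‖z s‖ ^ 2 = Φ (t + δ / 2) :=
    intervalIntegral.integral_add_adjacent_intervals (hi 0 t le_rfl ht0)
      (hi t (t + δ / 2) ht0 (by linarith))
  have h2 : 0 ≤ ∫ s in T2..t, ‖z s‖ ^ 2 :=
    intervalIntegral.integral_nonneg ht (fun s _ => by positivity)
  have h3 : η ≤ ∫ s in t..(t + δ / 2), ‖z s‖ ^ 2 := by
    have h4 : ∫ _s in t..(t + δ / 2), (r / 2) ^ 2 = η := by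
      rw [intervalIntegral.integral_const, smul_eq_mul, hη]; ring
    rw [← h4]
    refine intervalIntegral.integral_mono_on (by linarith) intervalIntegrable_const
      (hi t (t + δ / 2) ht0 (by linarith)) (fun s hs => ?_)
    have h5 := hu t ht0 s (ht0.trans hs.1) (by
      rw [abs_sub_comm, abs_of_nonneg (by linarith [hs.1])]
      linarith [hs.2])
    have h6 : ‖z t‖ ≤ ‖z s‖ + ‖z t - z s‖ := by
      calc ‖z t‖ = ‖z s + (z t - z s)‖ := by congr 1; abel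
        _ ≤ _ := norm_add_le _ _
    have h7 : r / 2 ≤ ‖z s‖ := by linarith
    gcongr
  linarith

/-- uniqueness of strong solutions. -/
theorem ax_uniq (Fr : AFrame W m P C) (hν : 0 < ν) {T : ℝ} (hT : 0 ≤ T) {v : ℝ → H} {y : ℝ → K}
    (h0 : u 0 = v 0)
    (hmu : ∀ t ∈ Icc 0 T, (u t, z t) ∈ W) (hmv : ∀ t ∈ Icc 0 T, (v t, y t) ∈ W)
    (hzc : ContinuousOn z (Icc 0 T)) (hyc : ContinuousOn y (Icc 0 T))
    (hcu : ContinuousOn (fun s => m (u s)) (Icc 0 T))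
    (hcv : ContinuousOn (fun s => m (v s)) (Icc 0 T))
    (hwu : ∀ p ∈ W, ∀ a b, 0 ≤ a → a ≤ b → b ≤ T →
      ⟪u b - u a, p.1⟫_ℝ = ∫ s in a..b, ⟪-(ν • z s) + m (u s), p.2⟫_ℝ)
    (hwv : ∀ p ∈ W, ∀ a b, 0 ≤ a → a ≤ b → b ≤ T →
      ⟪v b - v a, p.1⟫_ℝ = ∫ s in a..b, ⟪-(ν • y s) + m (v s), p.2⟫_ℝ) :
    ∀ t ∈ Icc 0 T, u t = v t := by
  set G : ℝ → K := fun s => (-(ν • z s) + m (u s)) - (-(ν • y s) + m (v s)) with hG
  have cu : ContinuousOn (fun s => -(ν • z s) + m (u s)) (Icc 0 T) :=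
    ((hzc.const_smul ν).neg).add hcu
  have cv : ContinuousOn (fun s => -(ν • y s) + m (v s)) (Icc 0 T) :=
    ((hyc.const_smul ν).neg).add hcv
  have hGc : ContinuousOn G (Icc 0 T) := cu.sub cv
  have hmem : ∀ t ∈ Icc 0 T, (u t - v t, z t - y t) ∈ W := fun t ht =>
    W.sub_mem (hmu t ht) (hmv t ht)
  have hder := sq_deriv (u := fun t => u t - v t) (z := fun t => z t - y t) hT hmem
    (hzc.sub hyc) hGc (by
      intro p hp a b ha hab hb
      have e1 : u b - v b - (u a - v a) = (u b - u a) - (v b - v a) := by abel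
      rw [e1, inner_sub_left, hwu p hp a b ha hab hb, hwv p hp a b ha hab hb,
        ← intervalIntegral.integral_sub]
      · refine intervalIntegral.integral_congr fun s _ => ?_
        simp only [hG]
        rw [← inner_sub_left]
      · exact ii_of_cont (cu.inner continuousOn_const) ha hab hb
      · exact ii_of_cont (cv.inner continuousOn_const) ha hab hb)
  obtain ⟨Yb, hYb⟩ := isCompact_Icc.exists_bound_of_continuousOn hyc
  have hC := Fr.C0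
  have hY0 : 0 ≤ Yb := (norm_nonneg _).trans (hYb 0 ⟨le_rfl, hT⟩)
  set c : ℝ := 2 * (C * Yb ^ 4 / ν ^ 3) with hc
  have hc0 : 0 ≤ c := by positivity
  have hg := gron hT (q := fun s => ‖u s - v s‖ ^ 2)
    (q' := fun s => 2 * ⟪G s, z s - y s⟫_ℝ) (β := fun _ => c) (p := fun _ => 0) (r := fun _ => 0)
    (fun s hs => by
      have := (hder s hs).const_mul 2
      refine this.congr (fun r _ => by ring) (by ring))
    (fun s _ => by positivity) continuousOn_const (fun s _ => hc0) continuousOn_const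
    (fun s _ => le_rfl) continuousOn_const (fun s _ => le_rfl) (fun s hs => by
      have k1 := Fr.anti _ (hmu s hs) _ (hmv s hs)
      simp only at k1
      have k2 : ⟪G s, z s - y s⟫_ℝ = -(ν * ‖z s - y s‖ ^ 2) - ⟪m (u s - v s), y s⟫_ℝ := by
        have e1 : G s = -(ν • (z s - y s)) + (m (u s) - m (v s)) := by
          simp only [hG, smul_sub]; abel
        rw [e1, inner_add_left, inner_neg_left, real_inner_smul_left,
          real_inner_self_eq_norm_sq, k1]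
        ring
      have k3 := neg_abs_le ⟪m (u s - v s), y s⟫_ℝ
      have k4 : |⟪m (u s - v s), y s⟫_ℝ| ≤ ‖m (u s - v s)‖ * ‖y s‖ := abs_real_inner_le_norm _ _
      have k5 : ‖m (u s - v s)‖ * ‖y s‖ ≤ ν * (‖z s - y s‖ ^ 2)
          + (C * ‖y s‖ ^ 4) * ‖u s - v s‖ ^ 2 / ν ^ 3 := by
        refine young4 (by positivity) (by positivity) (by positivity) (by positivity)
          (by positivity) ?_
        have h3 := m_plain Fr (hmem s hs)
        calc (‖m (u s - v s)‖ * ‖y s‖) ^ 4 = ‖m (u s - v s)‖ ^ 4 * ‖y s‖ ^ 4 := by ring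
          _ ≤ (C * (‖u s - v s‖ ^ 2 * (‖z s - y s‖ ^ 2) ^ 3)) * ‖y s‖ ^ 4 := by gcongr
          _ = _ := by ring
      have k6 : (C * ‖y s‖ ^ 4) * ‖u s - v s‖ ^ 2 / ν ^ 3 ≤ c / 2 * ‖u s - v s‖ ^ 2 := by
        have e : (C * ‖y s‖ ^ 4) * ‖u s - v s‖ ^ 2 / ν ^ 3
            = C * ‖y s‖ ^ 4 / ν ^ 3 * ‖u s - v s‖ ^ 2 := by ring
        rw [e, hc]
        have := hYb s hs
        have e2 : 2 * (C * Yb ^ 4 / ν ^ 3) / 2 = C * Yb ^ 4 / ν ^ 3 := by ring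
        rw [e2]
        gcongr
      show 2 * ⟪G s, z s - y s⟫_ℝ + 0 ≤ c * ‖u s - v s‖ ^ 2 + 0
      linarith)
  intro t ht
  have h1 := hg t ht
  simp only [h0, sub_self, norm_zero, intervalIntegral.integral_zero, add_zero, ne_eq,
    OfNat.ofNat_ne_zero, not_false_eq_true, zero_pow, mul_zero] at h1
  have h2 : ‖u t - v t‖ ^ 2 = 0 := le_antisymm h1 (by positivity)
  exact sub_eq_zero.mp (norm_eq_zero.mp (pow_eq_zero_iff (two_ne_zero)|>.mp h2))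

/-- derivatives in time. -/
theorem exists_derivs (hW : IsClosed (W : Set (H × K))) {T : ℝ} (hT : 0 < T) {c1 c2 : ℝ}
    (hmem : ∀ t, 0 ≤ t → (u t, z t) ∈ W)
    (hlip : ∀ a ∈ Icc 0 T, ∀ b ∈ Icc 0 T, ‖u a - u b‖ ≤ c1 * |a - b|)
    (hzc : ContinuousOn z (Icc 0 T))
    (hzs : ∀ h, 0 < h → h < T → ∫ s in (0 : ℝ)..(T - h), ‖z (s + h) - z s‖ ^ 2 ≤ c2 * h ^ 2) :
    ∃ (u1 : ℝ → H) (z1 : ℝ → K),
      MemLp u1 2 (volume.restrict (Ioc 0 T)) ∧ MemLp z1 2 (volume.restrict (Ioc 0 T)) ∧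
      (∀ a b, 0 ≤ a → a ≤ b → b ≤ T → u b - u a = ∫ s in a..b, u1 s) ∧
      (∀ a b, 0 ≤ a → a ≤ b → b ≤ T → z b - z a = ∫ s in a..b, z1 s) ∧
      ∀ᵐ s ∂(volume.restrict (Ioc 0 T)), (u1 s, z1 s) ∈ W ∧ ‖u1 s‖ ≤ c1 := by
  have hu : ContinuousOn u (Icc 0 T) := by
    refine LipschitzOnWith.continuousOn (K := c1.toNNReal) ?_
    refine LipschitzOnWith.of_dist_le_mul fun a ha b hb => ?_
    rw [dist_eq_norm, Real.dist_eq]
    refine (hlip a ha b hb).trans ?_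
    gcongr
    exact Real.le_coe_toNNReal c1
  have hc10 : 0 ≤ c1 := by
    have := hlip T ⟨hT.le, le_rfl⟩ 0 ⟨le_rfl, hT.le⟩
    rw [sub_zero, abs_of_pos hT] at this
    have h2 := (norm_nonneg _).trans this
    by_contra hcon
    have := mul_neg_of_neg_of_pos (not_le.mp hcon) hT
    linarith
  obtain ⟨u1, hu1, hu1'⟩ := exists_weak_deriv' hT hu (c := c1 ^ 2 * T) (by
    intro h hh hhT
    have hTh : 0 ≤ T - h := by linarith
    have hs0 : Icc 0 (T - h) ⊆ Icc 0 T := Icc_subset_Icc_right (by linarith)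
    have hs1 : MapsTo (fun s => s + h) (Icc 0 (T - h)) (Icc 0 T) :=
      fun s hs => ⟨by linarith [hs.1], by linarith [hs.2]⟩
    have hus : ContinuousOn (fun s => u (s + h)) (Icc 0 (T - h)) :=
      hu.comp (by fun_prop) hs1
    have hi : IntervalIntegrable (fun s => ‖u (s + h) - u s‖ ^ 2) volume 0 (T - h) := by
      refine ContinuousOn.intervalIntegrable ?_
      rw [uIcc_of_le hTh]
      exact ((hus.sub (hu.mono hs0)).norm).pow 2
    calc ∫ s in (0 : ℝ)..(T - h), ‖u (s + h) - u s‖ ^ 2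
        ≤ ∫ s in (0 : ℝ)..(T - h), (c1 * h) ^ 2 := by
          refine intervalIntegral.integral_mono_on hTh hi intervalIntegrable_const ?_
          intro s hs
          have k1 := hlip (s + h) (hs1 hs) s (hs0 hs)
          rw [show s + h - s = h by ring, abs_of_pos hh] at k1
          gcongr
      _ = (T - h) * (c1 * h) ^ 2 := by
          rw [intervalIntegral.integral_const, smul_eq_mul, sub_zero]
      _ ≤ T * (c1 * h) ^ 2 := by gcongr; linarith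
      _ = c1 ^ 2 * T * h ^ 2 := by ring)
  obtain ⟨z1, hz1, hz1'⟩ := exists_weak_deriv' hT hzc hzs
  refine ⟨u1, z1, hu1, hz1, hu1', hz1', ?_⟩
  have k1 := ae_deriv_of_prim hT (memLp_ii hT.le hu1) hu1'
  have k2 := ae_deriv_of_prim hT (memLp_ii hT.le hz1) hz1'
  have hne : ∀ᵐ s ∂(volume.restrict (Ioc 0 T)), s ≠ T := by
    refine ae_restrict_of_ae ?_
    simp [ae_iff, measure_singleton]
  filter_upwards [k1, k2, ae_restrict_mem measurableSet_Ioc, hne] with s h1 h2 h3 h4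
  have hs : s ∈ Ioo 0 T := ⟨h3.1, lt_of_le_of_ne h3.2 h4⟩
  have hcl : IsClosed {p : H × K | p ∈ W ∧ ‖p.1‖ ≤ c1} :=
    hW.inter (isClosed_le (continuous_fst.norm : Continuous fun p : H × K => ‖p.1‖)
      continuous_const)
  have h5 : HasDerivAt (fun t => (u t, z t)) (u1 s, z1 s) s := h1.prodMk h2
  have h6 := (hasDerivAt_iff_tendsto_slope.mp h5)
  refine hcl.mem_of_tendsto h6 ?_
  have h7 : ∀ᶠ t in 𝓝[≠] s, t ∈ Icc 0 T := mem_nhdsWithin_of_mem_nhds (Icc_mem_nhds hs.1 hs.2)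
  filter_upwards [h7, self_mem_nhdsWithin] with t ht hts
  have hts' : t ≠ s := hts
  have hsI : s ∈ Icc 0 T := Ioo_subset_Icc_self hs
  refine ⟨?_, ?_⟩
  · rw [slope_def_module]
    exact W.smul_mem _ (W.sub_mem (hmem t ht.1) (hmem s hsI.1))
  · rw [slope_def_module]
    have k3 := hlip t ht s hsI
    have hpos : 0 < |t - s| := abs_pos.mpr (sub_ne_zero.mpr hts')
    show ‖(t - s)⁻¹ • (u t - u s)‖ ≤ c1
    rw [norm_smul, norm_inv, Real.norm_eq_abs, inv_mul_le_iff₀ hpos]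
    linarith

/-- monotonicity of the stress. -/
theorem stress_mono' (V : Visc ν μ A M) {P : K →L[ℝ] K} (hsym : ∀ y w : K, ⟪P y, w⟫_ℝ = ⟪y, P w⟫_ℝ)
    (z w : K) : 0 ≤ ⟪μ ‖P z‖ • P (P z) - μ ‖P w‖ • P (P w), z - w⟫_ℝ := by
  have h1 := stress_mono V (P z) (P w)
  have e1 : ⟪(ν + μ ‖P z‖) • P z - (ν + μ ‖P w‖) • P w, P z - P w⟫_ℝ
      = ν * ‖P z - P w‖ ^ 2 + ⟪μ ‖P z‖ • P z - μ ‖P w‖ • P w, P z - P w⟫_ℝ := by
    have : (ν + μ ‖P z‖) • P z - (ν + μ ‖P w‖) • P w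
        = ν • (P z - P w) + (μ ‖P z‖ • P z - μ ‖P w‖ • P w) := by
      simp only [add_smul, smul_sub]; abel
    rw [this, inner_add_left, real_inner_smul_left, real_inner_self_eq_norm_sq]
  have e2 : ⟪μ ‖P z‖ • P (P z) - μ ‖P w‖ • P (P w), z - w⟫_ℝ
      = ⟪μ ‖P z‖ • P z - μ ‖P w‖ • P w, P z - P w⟫_ℝ := by
    rw [inner_sub_left, inner_sub_left, real_inner_smul_left, real_inner_smul_left,
      hsym (P z) (z - w), hsym (P w) (z - w),
      real_inner_smul_left, real_inner_smul_left, map_sub]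
  rw [e2]
  rw [e1] at h1
  have e3 : (ν + μ ‖P w‖ / 2) * ‖P z - P w‖ ^ 2
      = ν * ‖P z - P w‖ ^ 2 + μ ‖P w‖ / 2 * ‖P z - P w‖ ^ 2 := by ring
  have h2 : 0 ≤ μ ‖P w‖ / 2 * ‖P z - P w‖ ^ 2 := by
    have := V.nonneg _ (norm_nonneg (P w))
    positivity
  linarith

/-- uniqueness of strong solutions of the closed loop system. -/
theorem law_uniq {P' : K →L[ℝ] K} (Fr : AFrame W m P' C) (hν : 0 < ν) (V : Visc ν μ A M)
    {P : K →L[ℝ] K} (hsym : ∀ y w : K, ⟪P y, w⟫_ℝ = ⟪y, P w⟫_ℝ)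
    {T : ℝ} (hT : 0 ≤ T) {v : ℝ → H} {y : ℝ → K}
    (h0 : u 0 = v 0)
    (hmu : ∀ t ∈ Icc 0 T, (u t, z t) ∈ W) (hmv : ∀ t ∈ Icc 0 T, (v t, y t) ∈ W)
    (hyc : ContinuousOn y (Icc 0 T)) (hzc : ContinuousOn z (Icc 0 T))
    (cu : ContinuousOn (fun s => -(ν • z s) - μ ‖P (z s)‖ • P (P (z s)) + m (u s)) (Icc 0 T))
    (cv : ContinuousOn (fun s => -(ν • y s) - μ ‖P (y s)‖ • P (P (y s)) + m (v s)) (Icc 0 T))
    (hwu : ∀ p ∈ W, ∀ a b, 0 ≤ a → a ≤ b → b ≤ T → ⟪u b - u a, p.1⟫_ℝ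
      = ∫ s in a..b, ⟪-(ν • z s) - μ ‖P (z s)‖ • P (P (z s)) + m (u s), p.2⟫_ℝ)
    (hwv : ∀ p ∈ W, ∀ a b, 0 ≤ a → a ≤ b → b ≤ T → ⟪v b - v a, p.1⟫_ℝ
      = ∫ s in a..b, ⟪-(ν • y s) - μ ‖P (y s)‖ • P (P (y s)) + m (v s), p.2⟫_ℝ) :
    ∀ t ∈ Icc 0 T, u t = v t := by
  set G : ℝ → K := fun s => (-(ν • z s) - μ ‖P (z s)‖ • P (P (z s)) + m (u s))
    - (-(ν • y s) - μ ‖P (y s)‖ • P (P (y s)) + m (v s)) with hG
  have hGc : ContinuousOn G (Icc 0 T) := cu.sub cv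
  have hmem : ∀ t ∈ Icc 0 T, (u t - v t, z t - y t) ∈ W := fun t ht =>
    W.sub_mem (hmu t ht) (hmv t ht)
  have hder := sq_deriv (u := fun t => u t - v t) (z := fun t => z t - y t) hT hmem
    (hzc.sub hyc) hGc (by
      intro p hp a b ha hab hb
      have e1 : u b - v b - (u a - v a) = (u b - u a) - (v b - v a) := by abel
      rw [e1, inner_sub_left, hwu p hp a b ha hab hb, hwv p hp a b ha hab hb,
        ← intervalIntegral.integral_sub]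
      · refine intervalIntegral.integral_congr fun s _ => ?_
        simp only [hG]
        rw [← inner_sub_left]
      · exact ii_of_cont (cu.inner continuousOn_const) ha hab hb
      · exact ii_of_cont (cv.inner continuousOn_const) ha hab hb)
  obtain ⟨Yb, hYb⟩ := isCompact_Icc.exists_bound_of_continuousOn hyc
  have hC := Fr.C0
  have hY0 : 0 ≤ Yb := (norm_nonneg _).trans (hYb 0 ⟨le_rfl, hT⟩)
  set c : ℝ := 2 * (C * Yb ^ 4 / ν ^ 3) with hc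
  have hc0 : 0 ≤ c := by positivity
  have hg := gron hT (q := fun s => ‖u s - v s‖ ^ 2)
    (q' := fun s => 2 * ⟪G s, z s - y s⟫_ℝ) (β := fun _ => c) (p := fun _ => 0) (r := fun _ => 0)
    (fun s hs => by
      have := (hder s hs).const_mul 2
      refine this.congr (fun r _ => by ring) (by ring))
    (fun s _ => by positivity) continuousOn_const (fun s _ => hc0) continuousOn_const
    (fun s _ => le_rfl) continuousOn_const (fun s _ => le_rfl) (fun s hs => by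
      have k1 := Fr.anti _ (hmu s hs) _ (hmv s hs)
      simp only at k1
      have k0 := stress_mono' V hsym (z s) (y s)
      have k2 : ⟪G s, z s - y s⟫_ℝ = -(ν * ‖z s - y s‖ ^ 2)
          - ⟪μ ‖P (z s)‖ • P (P (z s)) - μ ‖P (y s)‖ • P (P (y s)), z s - y s⟫_ℝ
          - ⟪m (u s - v s), y s⟫_ℝ := by
        have e1 : G s = -(ν • (z s - y s))
            - (μ ‖P (z s)‖ • P (P (z s)) - μ ‖P (y s)‖ • P (P (y s)))
            + (m (u s) - m (v s)) := by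
          simp only [hG, smul_sub]; abel
        rw [e1, inner_add_left, inner_sub_left, inner_neg_left, real_inner_smul_left,
          real_inner_self_eq_norm_sq, k1]
        ring
      have k3 := neg_abs_le ⟪m (u s - v s), y s⟫_ℝ
      have k4 : |⟪m (u s - v s), y s⟫_ℝ| ≤ ‖m (u s - v s)‖ * ‖y s‖ := abs_real_inner_le_norm _ _
      have k5 : ‖m (u s - v s)‖ * ‖y s‖ ≤ ν * (‖z s - y s‖ ^ 2)
          + (C * ‖y s‖ ^ 4) * ‖u s - v s‖ ^ 2 / ν ^ 3 := by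
        refine young4 (by positivity) (by positivity) (by positivity) (by positivity)
          (by positivity) ?_
        have h3 := m_plain Fr (hmem s hs)
        calc (‖m (u s - v s)‖ * ‖y s‖) ^ 4 = ‖m (u s - v s)‖ ^ 4 * ‖y s‖ ^ 4 := by ring
          _ ≤ (C * (‖u s - v s‖ ^ 2 * (‖z s - y s‖ ^ 2) ^ 3)) * ‖y s‖ ^ 4 := by gcongr
          _ = _ := by ring
      have k6 : (C * ‖y s‖ ^ 4) * ‖u s - v s‖ ^ 2 / ν ^ 3 ≤ c / 2 * ‖u s - v s‖ ^ 2 := by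
        have e : (C * ‖y s‖ ^ 4) * ‖u s - v s‖ ^ 2 / ν ^ 3
            = C * ‖y s‖ ^ 4 / ν ^ 3 * ‖u s - v s‖ ^ 2 := by ring
        rw [e, hc]
        have := hYb s hs
        have e2 : 2 * (C * Yb ^ 4 / ν ^ 3) / 2 = C * Yb ^ 4 / ν ^ 3 := by ring
        rw [e2]
        gcongr
      show 2 * ⟪G s, z s - y s⟫_ℝ + 0 ≤ c * ‖u s - v s‖ ^ 2 + 0
      linarith)
  intro t ht
  have h1 := hg t ht
  simp only [h0, sub_self, norm_zero, intervalIntegral.integral_zero, add_zero, ne_eq,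
    OfNat.ofNat_ne_zero, not_false_eq_true, zero_pow, mul_zero] at h1
  have h2 : ‖u t - v t‖ ^ 2 = 0 := le_antisymm h1 (by positivity)
  exact sub_eq_zero.mp (norm_eq_zero.mp (pow_eq_zero_iff (two_ne_zero)|>.mp h2))

/-- The abstract theorem. -/
theorem ax_abs (Fr : AFrame W m P C) (hν : 0 < ν) {core : Set (H × K)} (hL : LC W m core)
    (h0 : (x0, z0) ∈ W) {g0 : H}
    (hc : ∀ p ∈ W, ⟪-(ν • z0) + m x0, p.2⟫_ℝ = ⟪g0, p.1⟫_ℝ)
    {κ S : ℝ} (hκ0 : 0 < κ) (hS0 : 0 < S) (hSz : ‖P z0‖ ≤ S) :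
    ∃ (u : ℝ → H) (z : ℝ → K), u 0 = x0 ∧
      (∀ t, 0 ≤ t → (u t, z t) ∈ W) ∧
      (∀ T, 0 ≤ T → ContinuousOn z (Icc 0 T)) ∧
      (∀ T, 0 ≤ T → ContinuousOn (fun t => muf κ S ‖P (z t)‖) (Icc 0 T)) ∧
      (∃ T2, ∀ t, T2 ≤ t → muf κ S ‖P (z t)‖ = 0) ∧ (∃ c, ∀ t, 0 ≤ t → ‖z t‖ ≤ c) ∧
      (∀ r : ℝ, 0 < r → ∃ T2, ∀ t, T2 ≤ t → ‖z t‖ < r) ∧
      (∀ p ∈ W, ∀ t, 0 ≤ t → ⟪u t, p.1⟫_ℝ - ⟪x0, p.1⟫_ℝ
        = ∫ s in (0 : ℝ)..t, ⟪-(ν • z s) - muf κ S ‖P (z s)‖ • P (P (z s)) + m (u s), p.2⟫_ℝ) ∧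
      (∀ t, 0 ≤ t → ‖u t‖ ^ 2 / 2 + ∫ s in (0 : ℝ)..t,
        (ν * ‖z s‖ ^ 2 + muf κ S ‖P (z s)‖ * ‖P (z s)‖ ^ 2) = ‖x0‖ ^ 2 / 2) ∧
      volume {t | 0 ≤ t ∧ muf κ S ‖P (z t)‖ ≠ 0} ≤ ENNReal.ofReal (‖x0‖ ^ 2 / (2 * ν * S ^ 2)) ∧
      (∀ T, 0 ≤ T → ∫ t in (0 : ℝ)..T, muf κ S ‖P (z t)‖ ^ 5 ≤ κ ^ 4 * (‖x0‖ ^ 2 / 2)) ∧
      (∀ T, 0 ≤ T → ∫ t in (0 : ℝ)..T,
        ‖muf κ S ‖P (z t)‖ • P (P (z t))‖ ^ (5 / 3 : ℝ) ≤ κ ^ (2 / 3 : ℝ) * (‖x0‖ ^ 2 / 2)) ∧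
      ∃ c, ∀ T, 0 < T → ∃ (u1 : ℝ → H) (z1 : ℝ → K),
        MemLp u1 2 (volume.restrict (Ioc 0 T)) ∧ MemLp z1 2 (volume.restrict (Ioc 0 T)) ∧
        (∀ a b, 0 ≤ a → a ≤ b → b ≤ T → u b - u a = ∫ s in a..b, u1 s) ∧
        (∀ a b, 0 ≤ a → a ≤ b → b ≤ T → z b - z a = ∫ s in a..b, z1 s) ∧
        ∀ᵐ s ∂(volume.restrict (Ioc 0 T)), (u1 s, z1 s) ∈ W ∧ ‖u1 s‖ ≤ c := by
  set e : ℝ := ‖x0‖ ^ 2 / 2 with he
  have he0 : 0 ≤ e := by positivity
  have V := visc_muf (ν := ν) hκ0 hS0 hν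
  have hμ0 : muf κ S ‖P z0‖ = 0 := muf_zero hSz
  obtain ⟨u, z, q, b, Sl⟩ := exists_asln Fr V hν hL h0 (g0 := g0) (by
    intro p hp
    unfold rh
    rw [hμ0, zero_smul, sub_zero]
    exact hc p hp)
  have hqe : ∀ t, 0 ≤ t → q t = ‖P (z t)‖ := fun t ht => Sl.q_eq Fr V hν ht
  have hPc : ∀ T, 0 ≤ T → ContinuousOn (fun t => ‖P (z t)‖) (Icc 0 T) := fun T hT =>
    (P.continuous.comp_continuousOn (Sl.zc T hT)).norm
  have hhc : ∀ T, 0 ≤ T → ContinuousOn (fun t => muf κ S ‖P (z t)‖) (Icc 0 T) :=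
    fun T hT => (Sl.μqc V hT).congr (fun t ht => by simp only; rw [hqe t ht.1])
  have hnn : ∀ t, 0 ≤ muf κ S ‖P (z t)‖ := fun t => muf_nonneg hκ0.le _
  have hdc : ∀ T, 0 ≤ T → ContinuousOn (fun t => muf κ S ‖P (z t)‖ * ‖P (z t)‖ ^ 2) (Icc 0 T) :=
    fun T hT => (hhc T hT).mul ((hPc T hT).pow 2)
  have hd1 : ∀ T, 0 ≤ T → ∫ t in (0 : ℝ)..T, muf κ S ‖P (z t)‖ * ‖P (z t)‖ ^ 2 ≤ e := by
    intro T hT
    refine le_trans (le_of_eq ?_) (Sl.dis1 T hT)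
    refine intervalIntegral.integral_congr fun s hs => ?_
    rw [uIcc_of_le hT] at hs
    rw [hqe s hs.1]
  have hd2 : ∀ T, 0 ≤ T → ∫ t in (0 : ℝ)..T, ‖P (z t)‖ ^ 2 ≤ e / ν := by
    intro T hT
    refine le_trans (le_of_eq ?_) (Sl.dis2 T hT)
    refine intervalIntegral.integral_congr fun s hs => ?_
    rw [uIcc_of_le hT] at hs
    rw [hqe s hs.1]
  refine ⟨u, z, Sl.init, Sl.mem, Sl.zc, hhc, ?_, Sl.zbd, ?_, ?_, ?_, ?_, ?_, ?_, ?_⟩
  · obtain ⟨T2, -, h2⟩ := Sl.decay Fr V hν hS0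
    exact ⟨T2, fun t ht => muf_zero ((Fr.le _).trans (h2 t ht).le)⟩
  · intro r hr
    obtain ⟨T2, -, h2⟩ := Sl.decay Fr V hν hr
    exact ⟨T2, h2⟩
  · intro p hp t ht
    have h1 := Sl.weak p hp 0 t le_rfl ht
    rw [Sl.init, inner_sub_left] at h1
    rw [h1]
    refine intervalIntegral.integral_congr fun s hs => ?_
    rw [uIcc_of_le ht] at hs
    simp only [rhq]
    rw [hqe s hs.1]
  · intro t ht
    refine Eq.trans ?_ (Sl.energy Fr V ht)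
    congr 1
    refine intervalIntegral.integral_congr fun s hs => ?_
    rw [uIcc_of_le ht] at hs
    rw [hqe s hs.1]
  · -- measure
    have hsub : {t | 0 ≤ t ∧ muf κ S ‖P (z t)‖ ≠ 0}
        ⊆ ⋃ n : ℕ, {t | t ∈ Icc (0 : ℝ) n ∧ S ≤ ‖P (z t)‖} := by
      rintro t ⟨ht, hne⟩
      rw [mem_iUnion]
      refine ⟨⌈t⌉₊, ⟨ht, Nat.le_ceil t⟩, ?_⟩
      by_contra hcon
      exact hne (muf_zero (not_le.mp hcon).le)
    refine (measure_mono hsub).trans ?_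
    have hmono : Monotone (fun n : ℕ => {t | t ∈ Icc (0 : ℝ) n ∧ S ≤ ‖P (z t)‖}) := by
      intro n k hnk t ht
      have : (n : ℝ) ≤ k := by exact_mod_cast hnk
      exact ⟨⟨ht.1.1, ht.1.2.trans this⟩, ht.2⟩
    rw [hmono.measure_iUnion]
    refine iSup_le fun n => ?_
    have hn0 : (0 : ℝ) ≤ n := Nat.cast_nonneg n
    have hqc := hPc n hn0
    have hqi : IntegrableOn (fun t => ‖P (z t)‖ ^ 2) (Icc (0 : ℝ) n) :=
      (hqc.pow 2).integrableOn_Icc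
    have hset : {t | t ∈ Icc (0 : ℝ) n ∧ S ≤ ‖P (z t)‖}
        = Icc (0 : ℝ) n ∩ (fun t => ‖P (z t)‖) ⁻¹' Ici S := rfl
    have hmeas : MeasurableSet {t | t ∈ Icc (0 : ℝ) n ∧ S ≤ ‖P (z t)‖} := by
      rw [hset]
      exact (hqc.preimage_isClosed_of_isClosed isClosed_Icc isClosed_Ici).measurableSet
    have h1 : S ^ 2 * (volume {t | t ∈ Icc (0 : ℝ) n ∧ S ≤ ‖P (z t)‖}).toReal ≤ e / ν := by
      calc S ^ 2 * (volume {t | t ∈ Icc (0 : ℝ) n ∧ S ≤ ‖P (z t)‖}).toReal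
          = ∫ _t in {t | t ∈ Icc (0 : ℝ) n ∧ S ≤ ‖P (z t)‖}, S ^ 2 := by
            rw [setIntegral_const, smul_eq_mul, mul_comm]; rfl
        _ ≤ ∫ t in {t | t ∈ Icc (0 : ℝ) n ∧ S ≤ ‖P (z t)‖}, ‖P (z t)‖ ^ 2 := by
            refine setIntegral_mono_on ?_ (hqi.mono_set (fun t ht => ht.1)) hmeas
              (fun t ht => by gcongr; exact ht.2)
            refine integrableOn_const ?_
            exact ((measure_mono (fun t ht => ht.1)).trans_lt measure_Icc_lt_top).ne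
        _ ≤ ∫ t in Icc (0 : ℝ) n, ‖P (z t)‖ ^ 2 := by
            refine setIntegral_mono_set hqi (Eventually.of_forall fun t => by positivity) ?_
            exact LE.le.eventuallyLE (fun t ht => ht.1)
        _ = ∫ t in (0 : ℝ)..n, ‖P (z t)‖ ^ 2 := by
            rw [intervalIntegral.integral_of_le hn0, integral_Icc_eq_integral_Ioc]
        _ ≤ e / ν := hd2 n hn0
    have hfin : volume {t | t ∈ Icc (0 : ℝ) n ∧ S ≤ ‖P (z t)‖} ≠ ⊤ :=
      ((measure_mono (fun t ht => ht.1)).trans_lt measure_Icc_lt_top).ne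
    rw [← ENNReal.ofReal_toReal hfin]
    refine ENNReal.ofReal_le_ofReal ?_
    set v := (volume {t | t ∈ Icc (0 : ℝ) n ∧ S ≤ ‖P (z t)‖}).toReal with hv
    have hv0 : 0 ≤ v := ENNReal.toReal_nonneg
    have hS2pos : 0 < S ^ 2 := by positivity
    have h3 : S ^ 2 * v ≤ S ^ 2 * (‖x0‖ ^ 2 / (2 * ν * S ^ 2)) := by
      have e1 : S ^ 2 * (‖x0‖ ^ 2 / (2 * ν * S ^ 2)) = e / ν := by
        rw [he]; field_simp
      linarith
    exact le_of_mul_le_mul_left h3 hS2pos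
  · -- fifth power
    intro T hT
    calc ∫ t in (0 : ℝ)..T, muf κ S ‖P (z t)‖ ^ 5
        ≤ ∫ t in (0 : ℝ)..T, κ ^ 4 * (muf κ S ‖P (z t)‖ * ‖P (z t)‖ ^ 2) := by
          refine intervalIntegral.integral_mono_on hT
            (ii_of_cont ((hhc T hT).pow 5) le_rfl hT le_rfl)
            (ii_of_cont (continuousOn_const.mul (hdc T hT)) le_rfl hT le_rfl)
            (fun s hs => cost5 hκ0 (norm_nonneg _))
      _ = κ ^ 4 * ∫ t in (0 : ℝ)..T, muf κ S ‖P (z t)‖ * ‖P (z t)‖ ^ 2 := by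
          rw [intervalIntegral.integral_const_mul]
      _ ≤ κ ^ 4 * e := by gcongr; exact hd1 T hT
  · intro T hT
    have hPc' : ContinuousOn (fun t => ‖muf κ S ‖P (z t)‖ • P (P (z t))‖ ^ (5 / 3 : ℝ))
        (Icc 0 T) := by
      refine ContinuousOn.rpow_const ?_ (fun _ _ => Or.inr (by norm_num))
      exact ((hhc T hT).smul (P.continuous.comp_continuousOn
        (P.continuous.comp_continuousOn (Sl.zc T hT)))).norm
    calc ∫ t in (0 : ℝ)..T, ‖muf κ S ‖P (z t)‖ • P (P (z t))‖ ^ (5 / 3 : ℝ)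
        ≤ ∫ t in (0 : ℝ)..T, κ ^ (2 / 3 : ℝ) * (muf κ S ‖P (z t)‖ * ‖P (z t)‖ ^ 2) := by
          refine intervalIntegral.integral_mono_on hT
            (ii_of_cont hPc' le_rfl hT le_rfl)
            (ii_of_cont (continuousOn_const.mul (hdc T hT)) le_rfl hT le_rfl)
            (fun s hs => ?_)
          refine le_trans ?_ (cost53 (S := S) hκ0 (norm_nonneg _))
          refine Real.rpow_le_rpow (norm_nonneg _) ?_ (by norm_num)
          rw [norm_smul, Real.norm_eq_abs, abs_of_nonneg (hnn s)]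
          gcongr
          · exact hnn s
          · exact Fr.le _
      _ = κ ^ (2 / 3 : ℝ) * ∫ t in (0 : ℝ)..T, muf κ S ‖P (z t)‖ * ‖P (z t)‖ ^ 2 := by
          rw [intervalIntegral.integral_const_mul]
      _ ≤ κ ^ (2 / 3 : ℝ) * e := by gcongr; exact hd1 T hT
  · obtain ⟨c1, h1⟩ := Sl.lipu
    obtain ⟨c2, h2⟩ := Sl.zshift
    refine ⟨c1, fun T hT => ?_⟩
    exact exists_derivs Fr.closedW hT Sl.mem
      (fun a ha b hb => h1 a ha.1 b hb.1) (Sl.zc T hT.le) (h2 T hT)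

end H772R2.NAX
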