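import Mathlib
import Pool.Agent.H772R2.NS.Space3

/-!
Rotations about the third axis, acting on vectors and on matrices.
-/

set_option linter.unusedSectionVars false

open MeasureTheory Set Filter Topology Metric
open scoped InnerProductSpace NNReal ENNReal ContDiff

namespace H772R2.NAX

open H772R2.NS

/-- The rotation by the angle `θ` about the third axis. -/
noncomputable def rotC (θ : ℝ) : E3 →L[ℝ] E3 :=
  LinearMap.toContinuousLinearMap
    { toFun := fun x => WithLp.toLp 2 ![Real.cos θ * x 0 - Real.sin θ * x 1,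
        Real.sin θ * x 0 + Real.cos θ * x 1, x 2]
      map_add' := fun x y => by
        ext i; fin_cases i <;> simp <;> ring
      map_smul' := fun c x => by
        ext i; fin_cases i <;> simp <;> ring }

theorem rotC_zero' (θ : ℝ) (x : E3) : rotC θ x 0 = Real.cos θ * x 0 - Real.sin θ * x 1 := rfl
theorem rotC_one' (θ : ℝ) (x : E3) : rotC θ x 1 = Real.sin θ * x 0 + Real.cos θ * x 1 := rfl
theorem rotC_two' (θ : ℝ) (x : E3) : rotC θ x 2 = x 2 := rfl

theorem ext3 {x y : E3} (h0 : x 0 = y 0) (h1 : x 1 = y 1) (h2 : x 2 = y 2) : x = y := by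
  ext i; fin_cases i
  · exact h0
  · exact h1
  · exact h2

theorem rotC_zero (x : E3) : rotC 0 x = x :=
  ext3 (by rw [rotC_zero']; simp) (by rw [rotC_one']; simp) (rotC_two' 0 x)

theorem rotC_add (a b : ℝ) (x : E3) : rotC (a + b) x = rotC a (rotC b x) := by
  refine ext3 ?_ ?_ ?_
  · rw [rotC_zero', rotC_zero', rotC_zero', rotC_one', Real.cos_add, Real.sin_add]; ring
  · rw [rotC_one', rotC_one', rotC_zero', rotC_one', Real.cos_add, Real.sin_add]; ring
  · rw [rotC_two', rotC_two', rotC_two']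

theorem norm_rotC (θ : ℝ) (x : E3) : ‖rotC θ x‖ = ‖x‖ := by
  have h : ‖rotC θ x‖ ^ 2 = ‖x‖ ^ 2 := by
    rw [norm_sq_E3, norm_sq_E3, Fin.sum_univ_three, Fin.sum_univ_three, rotC_zero', rotC_one',
      rotC_two']
    have := Real.cos_sq_add_sin_sq θ
    linear_combination (x 0 ^ 2 + x 1 ^ 2) * this
  exact (pow_left_inj₀ (norm_nonneg _) (norm_nonneg _) (by norm_num)).mp h

/-- rotation of the columns -/
noncomputable def lact (θ : ℝ) : M3 →L[ℝ] M3 :=
  LinearMap.toContinuousLinearMap
    { toFun := fun M => WithLp.toLp 2 fun p => rotC θ (WithLp.toLp 2 fun k => M (k, p.2)) p.1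
      map_add' := fun x y => by
        ext p
        have : (WithLp.toLp 2 fun k => (x + y) (k, p.2) : E3)
            = (WithLp.toLp 2 fun k => x (k, p.2)) + WithLp.toLp 2 fun k => y (k, p.2) := by
          ext k; simp
        simp only [this, map_add]
        rfl
      map_smul' := fun c x => by
        ext p
        have : (WithLp.toLp 2 fun k => (c • x) (k, p.2) : E3)
            = c • (WithLp.toLp 2 fun k => x (k, p.2)) := by
          ext k; simp
        simp only [this, map_smul]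
        rfl }

/-- rotation of the rows -/
noncomputable def ract (θ : ℝ) : M3 →L[ℝ] M3 :=
  LinearMap.toContinuousLinearMap
    { toFun := fun M => WithLp.toLp 2 fun p => rotC θ (WithLp.toLp 2 fun k => M (p.1, k)) p.2
      map_add' := fun x y => by
        ext p
        have : (WithLp.toLp 2 fun k => (x + y) (p.1, k) : E3)
            = (WithLp.toLp 2 fun k => x (p.1, k)) + WithLp.toLp 2 fun k => y (p.1, k) := by
          ext k; simp
        simp only [this, map_add]
        rfl
      map_smul' := fun c x => by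
        ext p
        have : (WithLp.toLp 2 fun k => (c • x) (p.1, k) : E3)
            = c • (WithLp.toLp 2 fun k => x (p.1, k)) := by
          ext k; simp
        simp only [this, map_smul]
        rfl }

theorem lact_apply (θ : ℝ) (M : M3) (i j : Fin 3) :
    lact θ M (i, j) = rotC θ (WithLp.toLp 2 fun k => M (k, j)) i := rfl

theorem ract_apply (θ : ℝ) (M : M3) (i j : Fin 3) :
    ract θ M (i, j) = rotC θ (WithLp.toLp 2 fun k => M (i, k)) j := rfl

theorem norm_lact (θ : ℝ) (M : M3) : ‖lact θ M‖ = ‖M‖ := by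
  have h : ‖lact θ M‖ ^ 2 = ‖M‖ ^ 2 := by
    rw [norm_sq_M3, norm_sq_M3, Finset.sum_comm, Finset.sum_comm (f := fun i j => M (i, j) ^ 2)]
    refine Finset.sum_congr rfl fun j _ => ?_
    have h1 := norm_sq_E3 (rotC θ (WithLp.toLp 2 fun k => M (k, j)))
    have h2 := norm_sq_E3 (WithLp.toLp 2 fun k => M (k, j))
    rw [norm_rotC] at h1
    rw [h1] at h2
    exact h2
  exact (pow_left_inj₀ (norm_nonneg _) (norm_nonneg _) (by norm_num)).mp h

theorem norm_ract (θ : ℝ) (M : M3) : ‖ract θ M‖ = ‖M‖ := by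
  have h : ‖ract θ M‖ ^ 2 = ‖M‖ ^ 2 := by
    rw [norm_sq_M3, norm_sq_M3]
    refine Finset.sum_congr rfl fun i _ => ?_
    have h1 := norm_sq_E3 (rotC θ (WithLp.toLp 2 fun k => M (i, k)))
    have h2 := norm_sq_E3 (WithLp.toLp 2 fun k => M (i, k))
    rw [norm_rotC] at h1
    rw [h1] at h2
    exact h2
  exact (pow_left_inj₀ (norm_nonneg _) (norm_nonneg _) (by norm_num)).mp h

/-- the action on matrices -/
noncomputable def rotM (θ : ℝ) : M3 →L[ℝ] M3 := (lact θ).comp (ract θ)

theorem rotM_apply (θ : ℝ) (M : M3) : rotM θ M = lact θ (ract θ M) := rfl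

theorem norm_rotM (θ : ℝ) (M : M3) : ‖rotM θ M‖ = ‖M‖ := by
  rw [rotM_apply, norm_lact, norm_ract]

theorem lact_add (a b : ℝ) (M : M3) : lact (a + b) M = lact a (lact b M) := by
  ext ⟨i, j⟩
  rw [lact_apply, lact_apply, rotC_add]
  rfl

theorem ract_add (a b : ℝ) (M : M3) : ract (a + b) M = ract a (ract b M) := by
  ext ⟨i, j⟩
  rw [ract_apply, ract_apply, rotC_add]
  rfl

theorem lr_comm (a b : ℝ) (M : M3) : lact a (ract b M) = ract b (lact a M) := by
  ext ⟨i, j⟩
  rw [lact_apply, ract_apply]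
  fin_cases i <;> fin_cases j <;>
    simp only [Fin.zero_eta, Fin.mk_one, Fin.reduceFinMk, rotC_zero', rotC_one', rotC_two',
      lact_apply, ract_apply] <;> ring

theorem rotM_add (a b : ℝ) (M : M3) : rotM (a + b) M = rotM a (rotM b M) := by
  rw [rotM_apply, rotM_apply, rotM_apply, lact_add, ract_add, lr_comm b a]

theorem rotM_zero (M : M3) : rotM 0 M = M := by
  rw [rotM_apply]
  ext ⟨i, j⟩
  rw [lact_apply, rotC_zero]
  show ract 0 M (i, j) = M (i, j)
  rw [ract_apply, rotC_zero]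

/-- a smooth orthogonal representation of the group of rotations. -/
structure Rep {V : Type} [NormedAddCommGroup V] [InnerProductSpace ℝ V] (ρ : ℝ → V →L[ℝ] V) :
    Prop where
  zero : ∀ v, ρ 0 v = v
  add : ∀ a b v, ρ (a + b) v = ρ a (ρ b v)
  norm : ∀ a v, ‖ρ a v‖ = ‖v‖
  smooth : ContDiff ℝ ∞ ρ
  per : ∀ v, ρ (2 * Real.pi) v = v

theorem rotC_per (v : E3) : rotC (2 * Real.pi) v = v := by
  refine ext3 ?_ ?_ ?_
  · rw [rotC_zero']; simp
  · rw [rotC_one']; simp
  · rw [rotC_two']

theorem contDiff_rotC : ContDiff ℝ ∞ rotC := by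
  rw [contDiff_clm_apply_iff]
  intro x
  rw [contDiff_euclidean]
  intro i
  have hc : ContDiff ℝ ∞ Real.cos := Real.contDiff_cos
  have hs : ContDiff ℝ ∞ Real.sin := Real.contDiff_sin
  fin_cases i
  · exact (hc.mul contDiff_const).sub (hs.mul contDiff_const)
  · exact (hs.mul contDiff_const).add (hc.mul contDiff_const)
  · exact contDiff_const

theorem rep_rotC : Rep rotC where
  zero := rotC_zero
  add := rotC_add
  norm := norm_rotC
  smooth := contDiff_rotC
  per := rotC_per

theorem rep_rotM : Rep rotM where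
  zero := rotM_zero
  add := rotM_add
  norm := norm_rotM
  smooth := by
    have h : ∀ (f : ℝ → M3 →L[ℝ] M3), (∀ M i j, ContDiff ℝ ∞ fun θ => f θ M (i, j)) →
        ContDiff ℝ ∞ f := by
      intro f hf
      rw [contDiff_clm_apply_iff]
      intro M
      rw [contDiff_euclidean]
      rintro ⟨i, j⟩
      exact hf M i j
    have h1 : ∀ (x : E3) (i : Fin 3), ContDiff ℝ ∞ fun θ => rotC θ x i := fun x i =>
      (contDiff_euclidean.mp ((contDiff_clm_apply_iff.mp contDiff_rotC) x)) i
    have hl : ContDiff ℝ ∞ lact := h lact (fun M i j => h1 _ i)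
    have hr : ContDiff ℝ ∞ ract := h ract (fun M i j => h1 _ j)
    exact hl.clm_comp hr
  per := fun M => by
    rw [rotM_apply]
    ext ⟨i, j⟩
    rw [lact_apply, rotC_per]
    show ract _ M (i, j) = M (i, j)
    rw [ract_apply, rotC_per]

section rep

variable {V : Type} [NormedAddCommGroup V] [InnerProductSpace ℝ V] {ρ : ℝ → V →L[ℝ] V}

theorem Rep.neg_left (R : Rep ρ) (a : ℝ) (v : V) : ρ (-a) (ρ a v) = v := by
  rw [← R.add, neg_add_cancel, R.zero]

theorem Rep.neg_right (R : Rep ρ) (a : ℝ) (v : V) : ρ a (ρ (-a) v) = v := by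
  rw [← R.add, add_neg_cancel, R.zero]

theorem Rep.inner (R : Rep ρ) (a : ℝ) (v w : V) : ⟪ρ a v, ρ a w⟫_ℝ = ⟪v, w⟫_ℝ := by
  have h1 := real_inner_eq_norm_mul_self_add_norm_mul_self_sub_norm_sub_mul_self_div_two (ρ a v)
    (ρ a w)
  have h2 := real_inner_eq_norm_mul_self_add_norm_mul_self_sub_norm_sub_mul_self_div_two v w
  rw [h1, h2, ← map_sub, R.norm, R.norm, R.norm]

theorem Rep.inner' (R : Rep ρ) (a : ℝ) (v w : V) : ⟪ρ (-a) v, w⟫_ℝ = ⟪v, ρ a w⟫_ℝ := by
  rw [← R.inner a (ρ (-a) v) w, R.neg_right]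

end rep

/-- the rotation as an isometry -/
noncomputable def rotL (θ : ℝ) : E3 ≃ₗᵢ[ℝ] E3 where
  toFun := rotC θ
  invFun := rotC (-θ)
  map_add' := map_add _
  map_smul' := map_smul _
  left_inv := fun x => rep_rotC.neg_left θ x
  right_inv := fun x => rep_rotC.neg_right θ x
  norm_map' := fun x => norm_rotC θ x

theorem mp_rot (θ : ℝ) : MeasurePreserving (rotC θ) (volume : Measure E3) volume :=
  (rotL θ).measurePreserving

theorem rotC_ev (θ : ℝ) : rotC θ (ev 0) = Real.cos θ • ev 0 + Real.sin θ • ev 1 ∧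
    rotC θ (ev 1) = -Real.sin θ • ev 0 + Real.cos θ • ev 1 ∧ rotC θ (ev 2) = ev 2 := by
  refine ⟨?_, ?_, ?_⟩
  · refine ext3 ?_ ?_ ?_
    · rw [rotC_zero']; simp
    · rw [rotC_one']; simp
    · rw [rotC_two']; simp
  · refine ext3 ?_ ?_ ?_
    · rw [rotC_zero']; simp
    · rw [rotC_one']; simp
    · rw [rotC_two']; simp
  · refine ext3 ?_ ?_ ?_
    · rw [rotC_zero']; simp
    · rw [rotC_one']; simp
    · rw [rotC_two']

/-- the gradient of a rotated field. -/
theorem jac_rot {φ : E3 → E3} (hφ : Differentiable ℝ φ) (θ : ℝ) (x : E3) :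
    jac (fun x => rotC (-θ) (φ (rotC θ x))) x = rotM (-θ) (jac φ (rotC θ x)) := by
  have hd : HasFDerivAt (fun x => rotC (-θ) (φ (rotC θ x)))
      ((rotC (-θ)).comp ((fderiv ℝ φ (rotC θ x)).comp (rotC θ))) x :=
    (rotC (-θ)).hasFDerivAt.comp x (((hφ _).hasFDerivAt).comp x (rotC θ).hasFDerivAt)
  have key : ∀ j : Fin 3, (WithLp.toLp 2 fun k => ract (-θ) (jac φ (rotC θ x)) (k, j) : E3)
      = fderiv ℝ φ (rotC θ x) (rotC θ (ev j)) := by
    intro j
    obtain ⟨h0, h1, h2⟩ := rotC_ev θ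
    ext k
    show ract (-θ) (jac φ (rotC θ x)) (k, j) = _
    rw [ract_apply]
    fin_cases j
    · simp only [Fin.zero_eta, h0, rotC_zero', map_add, map_smul, PiLp.add_apply, PiLp.smul_apply,
        smul_eq_mul, jac_apply, Real.cos_neg, Real.sin_neg]
      ring
    · simp only [Fin.mk_one, h1, rotC_one', map_add, map_smul, PiLp.add_apply, PiLp.smul_apply,
        smul_eq_mul, jac_apply, Real.cos_neg, Real.sin_neg]
    · simp only [Fin.reduceFinMk, h2, rotC_two', jac_apply]
  ext ⟨i, j⟩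
  rw [jac_apply, hd.fderiv, rotM_apply, lact_apply, key j]
  rfl

end H772R2.NAX
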