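import Mathlib
import Pool.Agent.H772R2.NAX.Rot

/-!
Averages over the rotations about the axis.
-/

set_option linter.unusedSectionVars false

open MeasureTheory Set Filter Topology Metric
open scoped InnerProductSpace NNReal ENNReal ContDiff

namespace H772R2.NAX

open H772R2.NS

/-- smoothness of parameter integrals (after helper254) -/
theorem cd_param {E : Type} [NormedAddCommGroup E] [NormedSpace ℝ E]
    [FiniteDimensional ℝ E] (a b : ℝ) (m : ℕ) : ∀ (G : Type) [NormedAddCommGroup G]
    [NormedSpace ℝ G] [CompleteSpace G] (F : E → ℝ → G),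
    ContDiff ℝ m (fun p : E × ℝ => F p.1 p.2) → ContDiff ℝ m (fun x => ∫ t in a..b, F x t) := by
  have hproper : ProperSpace E := FiniteDimensional.proper_real E
  induction m with
  | zero =>
    intro G _ _ _ F hF
    have h0 : Continuous (Function.uncurry F) := hF.continuous
    have h1 := intervalIntegral.continuous_parametric_intervalIntegral_of_continuous'
      (μ := volume) h0 a b
    exact contDiff_zero.mpr h1
  | succ m ih =>
    intro G _ _ _ F hF
    have hF' : ContDiff ℝ ((m : WithTop ℕ∞) + 1) (fun p : E × ℝ => F p.1 p.2) := by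
      exact_mod_cast hF
    have hcF : Continuous (fun p : E × ℝ => F p.1 p.2) := hF'.continuous
    set D : E → ℝ → (E →L[ℝ] G) := fun x t =>
      (fderiv ℝ (fun p : E × ℝ => F p.1 p.2) (x, t)).comp (ContinuousLinearMap.inl ℝ E ℝ) with hD
    have hDc : ContDiff ℝ m (fun p : E × ℝ => D p.1 p.2) := by
      have h1 : ContDiff ℝ m (fderiv ℝ (fun p : E × ℝ => F p.1 p.2)) :=
        hF'.fderiv_right le_rfl
      exact h1.clm_comp contDiff_const
    have hDcont : Continuous (fun p : E × ℝ => D p.1 p.2) := hDc.continuous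
    have hder : ∀ x t, HasFDerivAt (fun x => F x t) (D x t) x := by
      intro x t
      have h1 : HasFDerivAt (fun p : E × ℝ => F p.1 p.2)
          (fderiv ℝ (fun p : E × ℝ => F p.1 p.2) (x, t)) (x, t) :=
        (hF'.differentiable (by simp) (x, t)).hasFDerivAt
      have h2 : HasFDerivAt (𝕜 := ℝ) (fun e : E => (e, t)) (ContinuousLinearMap.inl ℝ E ℝ) x :=
        hasFDerivAt_prodMk_left x t
      exact HasFDerivAt.comp (g := fun p : E × ℝ => F p.1 p.2) (f := fun e : E => (e, t)) x h1 h2
    have key : ContDiff ℝ ((m : WithTop ℕ∞) + 1) (fun x => ∫ t in a..b, F x t) := by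
      rw [contDiff_succ_iff_hasFDerivAt]
      refine ⟨fun x => ∫ t in a..b, D x t, ih (E →L[ℝ] G) D hDc, fun x => ?_⟩
      obtain ⟨C, hC⟩ := ((isCompact_closedBall x 1).prod (isCompact_uIcc (a := a) (b := b))
        ).exists_bound_of_continuousOn hDcont.continuousOn
      refine intervalIntegral.hasFDerivAt_integral_of_dominated_of_fderiv_le
        (s := Metric.closedBall x 1) (bound := fun _ => C)
        (Metric.closedBall_mem_nhds x one_pos) ?_ ?_ ?_ ?_ ?_ ?_
      · refine Eventually.of_forall fun y => ?_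
        exact (hcF.comp (continuous_const.prodMk continuous_id)).aestronglyMeasurable
      · exact (hcF.comp (continuous_const.prodMk continuous_id)).intervalIntegrable _ _
      · exact (hDcont.comp (continuous_const.prodMk continuous_id)).aestronglyMeasurable
      · refine Eventually.of_forall fun t ht y hy => ?_
        exact hC (y, t) ⟨hy, uIoc_subset_uIcc ht⟩
      · exact intervalIntegrable_const
      · exact Eventually.of_forall fun t _ y _ => hder y t
    exact_mod_cast key

/-- the derivative of a parameter integral. -/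
theorem fderiv_param {E : Type} [NormedAddCommGroup E] [NormedSpace ℝ E]
    [FiniteDimensional ℝ E] (a b : ℝ) {G : Type} [NormedAddCommGroup G]
    [NormedSpace ℝ G] [CompleteSpace G] (F : E → ℝ → G)
    (hF : ContDiff ℝ 1 (fun p : E × ℝ => F p.1 p.2)) (x : E) :
    HasFDerivAt (fun x => ∫ t in a..b, F x t) (∫ t in a..b, fderiv ℝ (fun y => F y t) x) x := by
  have hproper : ProperSpace E := FiniteDimensional.proper_real E
  have hcF : Continuous (fun p : E × ℝ => F p.1 p.2) := hF.continuous
  set D : E → ℝ → (E →L[ℝ] G) := fun x t =>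
    (fderiv ℝ (fun p : E × ℝ => F p.1 p.2) (x, t)).comp (ContinuousLinearMap.inl ℝ E ℝ) with hD
  have hDcont : Continuous (fun p : E × ℝ => D p.1 p.2) := by
    have h1 : Continuous (fderiv ℝ (fun p : E × ℝ => F p.1 p.2)) :=
      hF.continuous_fderiv one_ne_zero
    exact h1.clm_comp continuous_const
  have hder : ∀ x t, HasFDerivAt (fun x => F x t) (D x t) x := by
    intro x t
    have h1 : HasFDerivAt (fun p : E × ℝ => F p.1 p.2)
        (fderiv ℝ (fun p : E × ℝ => F p.1 p.2) (x, t)) (x, t) :=
      (hF.differentiable one_ne_zero (x, t)).hasFDerivAt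
    have h2 : HasFDerivAt (𝕜 := ℝ) (fun e : E => (e, t)) (ContinuousLinearMap.inl ℝ E ℝ) x :=
      hasFDerivAt_prodMk_left x t
    exact HasFDerivAt.comp (g := fun p : E × ℝ => F p.1 p.2) (f := fun e : E => (e, t)) x h1 h2
  have e : (fun t => fderiv ℝ (fun y => F y t) x) = fun t => D x t := by
    funext t
    exact (hder x t).fderiv
  rw [e]
  obtain ⟨C, hC⟩ := ((isCompact_closedBall x 1).prod (isCompact_uIcc (a := a) (b := b))
    ).exists_bound_of_continuousOn hDcont.continuousOn
  refine intervalIntegral.hasFDerivAt_integral_of_dominated_of_fderiv_le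
    (s := Metric.closedBall x 1) (bound := fun _ => C)
    (Metric.closedBall_mem_nhds x one_pos) ?_ ?_ ?_ ?_ ?_ ?_
  · refine Eventually.of_forall fun y => ?_
    exact (hcF.comp (continuous_const.prodMk continuous_id)).aestronglyMeasurable
  · exact (hcF.comp (continuous_const.prodMk continuous_id)).intervalIntegrable _ _
  · exact (hDcont.comp (continuous_const.prodMk continuous_id)).aestronglyMeasurable
  · refine Eventually.of_forall fun t ht y hy => ?_
    exact hC (y, t) ⟨hy, uIoc_subset_uIcc ht⟩
  · exact intervalIntegrable_const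
  · exact Eventually.of_forall fun t _ y _ => hder y t

section avg

variable {V : Type} [NormedAddCommGroup V] [InnerProductSpace ℝ V] [FiniteDimensional ℝ V]
  {ρ : ℝ → V →L[ℝ] V} {f : E3 → V}

/-- the rotated field -/
noncomputable def rotf (ρ : ℝ → V →L[ℝ] V) (θ : ℝ) (f : E3 → V) : E3 → V := fun x => ρ (-θ) (f (rotC θ x))

/-- the average -/
noncomputable def avg (ρ : ℝ → V →L[ℝ] V) (f : E3 → V) : E3 → V :=
  fun x => (2 * Real.pi)⁻¹ • ∫ θ in (0 : ℝ)..(2 * Real.pi), rotf ρ θ f x

theorem joint_smooth (R : Rep ρ) (hf : ContDiff ℝ ∞ f) :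
    ContDiff ℝ ∞ (fun p : E3 × ℝ => rotf ρ p.2 f p.1) :=
  (R.smooth.comp contDiff_snd.neg).clm_apply
    (hf.comp ((contDiff_rotC.comp contDiff_snd).clm_apply contDiff_fst))

theorem joint_c (R : Rep ρ) (hf : Continuous f) :
    Continuous (fun p : E3 × ℝ => rotf ρ p.2 f p.1) :=
  (R.smooth.continuous.comp continuous_snd.neg).clm_apply
    (hf.comp ((contDiff_rotC.continuous.comp continuous_snd).clm_apply continuous_fst))

theorem rotf_cont (R : Rep ρ) (hf : Continuous f) (x : E3) : Continuous fun θ => rotf ρ θ f x := by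
  have h := joint_c R hf
  have h2 : Continuous fun θ : ℝ => ((x, θ) : E3 × ℝ) := continuous_const.prodMk continuous_id
  exact h.comp h2

theorem avg_smooth (R : Rep ρ) (hf : ContDiff ℝ ∞ f) : ContDiff ℝ ∞ (avg ρ f) := by
  have : CompleteSpace V := FiniteDimensional.complete ℝ V
  rw [contDiff_infty]
  intro m
  exact contDiff_const.smul (cd_param 0 (2 * Real.pi) m V (fun x θ => rotf ρ θ f x)
    ((joint_smooth R hf).of_le (by exact_mod_cast le_top)))

theorem Rep.per' (R : Rep ρ) (v : V) : ρ (-(2 * Real.pi)) v = v := by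
  conv_lhs => rw [← R.per v]
  rw [R.neg_left]

theorem rotf_periodic (R : Rep ρ) (x : E3) :
    Function.Periodic (fun θ => rotf ρ θ f x) (2 * Real.pi) := by
  intro θ
  simp only [rotf]
  rw [rotC_add, rotC_per, neg_add, R.add, R.per']

theorem avg_inv (R : Rep ρ) (α : ℝ) (x : E3) : avg ρ f (rotC α x) = ρ α (avg ρ f x) := by
  have : CompleteSpace V := FiniteDimensional.complete ℝ V
  have h1 : ∀ θ, rotf ρ θ f (rotC α x) = ρ α (rotf ρ (θ + α) f x) := by
    intro θ
    simp only [rotf]
    rw [← rotC_add, ← R.add]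
    congr 2
    ring
  set L : V ≃L[ℝ] V := ContinuousLinearEquiv.equivOfInverse (ρ α) (ρ (-α))
    (fun v => R.neg_left α v) (fun v => R.neg_right α v) with hL
  unfold avg
  simp_rw [h1]
  rw [map_smul]
  congr 1
  have h2 : ∫ θ in (0 : ℝ)..(2 * Real.pi), ρ α (rotf ρ (θ + α) f x)
      = ρ α (∫ θ in (0 : ℝ)..(2 * Real.pi), rotf ρ (θ + α) f x) := by
    rw [intervalIntegral.integral_of_le (by positivity),
      intervalIntegral.integral_of_le (by positivity)]
    exact L.integral_comp_comm _
  rw [h2, intervalIntegral.integral_comp_add_right (fun θ => rotf ρ θ f x)]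
  congr 1
  have h3 := (rotf_periodic (f := f) R x).intervalIntegral_add_eq α 0
  rw [zero_add] at h3
  rw [zero_add, ← h3, add_comm]

theorem avg_zero_off {R : ℝ} (hR : ∀ x, R < ‖x‖ → f x = 0) (x : E3)
    (hx : R < ‖x‖) : avg ρ f x = 0 := by
  unfold avg
  have h1 : ∀ θ, rotf ρ θ f x = 0 := by
    intro θ
    simp only [rotf]
    rw [hR _ (by rw [norm_rotC]; exact hx), map_zero]
  simp_rw [h1]
  simp

theorem exists_rad (hc : HasCompactSupport f) : ∃ R : ℝ, 0 ≤ R ∧ ∀ x, R < ‖x‖ → f x = 0 := by
  obtain ⟨M, hM⟩ := hc.isCompact.isBounded.subset_closedBall (0 : E3)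
  refine ⟨max M 0, le_max_right _ _, fun x hx => ?_⟩
  by_contra h
  have h1 : x ∈ tsupport f := subset_tsupport f h
  have h2 := hM h1
  rw [mem_closedBall_zero_iff] at h2
  exact absurd hx (not_lt.mpr (h2.trans (le_max_left _ _)))

theorem avg_compact (hc : HasCompactSupport f) : HasCompactSupport (avg ρ f) := by
  obtain ⟨R, hR0, hR⟩ := exists_rad hc
  refine HasCompactSupport.intro (isCompact_closedBall (0 : E3) R) fun x hx => ?_
  apply avg_zero_off hR x
  rw [mem_closedBall_zero_iff, not_le] at hx
  exact hx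

/-- `∫⟪Af, w⟫` is the mean of `∫⟪f_θ, w⟫`. -/
theorem avg_fub (R : Rep ρ) (hf : Continuous f) (hc : HasCompactSupport f) {μ : Measure E3}
    [SFinite μ] [IsFiniteMeasureOnCompacts μ] {w : E3 → V} (hw : MemLp w 2 μ) :
    ∫ x, ⟪avg ρ f x, w x⟫_ℝ ∂μ
      = (2 * Real.pi)⁻¹ * ∫ θ in (0 : ℝ)..(2 * Real.pi), ∫ x, ⟪rotf ρ θ f x, w x⟫_ℝ ∂μ := by
  have : CompleteSpace V := FiniteDimensional.complete ℝ V
  have hpi : (0 : ℝ) ≤ 2 * Real.pi := by positivity
  obtain ⟨r, hr0, hr⟩ := exists_rad hc
  obtain ⟨M, hM⟩ := hf.bounded_above_of_compact_support hc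
  have hM0 : 0 ≤ M := (norm_nonneg _).trans (hM 0)
  rw [intervalIntegral.integral_of_le hpi]
  have hj := joint_c R hf
  have h1 : ∀ x, ⟪avg ρ f x, w x⟫_ℝ
      = (2 * Real.pi)⁻¹ * ∫ θ in Ioc (0 : ℝ) (2 * Real.pi), ⟪rotf ρ θ f x, w x⟫_ℝ := by
    intro x
    unfold avg
    rw [real_inner_smul_left, intervalIntegral.integral_of_le hpi, real_inner_comm,
      ← integral_inner]
    · congr 1
      refine integral_congr_ae (Eventually.of_forall fun θ => ?_)
      exact real_inner_comm _ _
    · have h2 : Continuous fun θ => rotf ρ θ f x := rotf_cont R hf x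
      exact (h2.intervalIntegrable 0 (2 * Real.pi)).1
  simp_rw [h1]
  rw [integral_const_mul]
  congr 1
  refine integral_integral_swap (f := fun x θ => ⟪rotf ρ θ f x, w x⟫_ℝ) ?_
  have hb : Integrable (fun x => (closedBall (0 : E3) r).indicator (fun x => ‖w x‖) x) μ := by
    rw [integrable_indicator_iff measurableSet_closedBall]
    have : IsFiniteMeasure (μ.restrict (closedBall (0 : E3) r)) :=
      ⟨by rw [Measure.restrict_apply_univ]; exact (isCompact_closedBall _ _).measure_lt_top⟩
    exact ((hw.restrict _).integrable (by norm_num)).norm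
  have hb2 : Integrable (fun p : E3 × ℝ =>
      ((closedBall (0 : E3) r).indicator (fun x => ‖w x‖) p.1) * M)
      (μ.prod (volume.restrict (Ioc 0 (2 * Real.pi)))) :=
    Integrable.mul_prod hb (integrable_const M)
  refine hb2.mono' ?_ (Eventually.of_forall fun p => ?_)
  · exact (hj.aestronglyMeasurable).inner hw.1.comp_fst
  · simp only [Function.uncurry]
    by_cases hp : p.1 ∈ closedBall (0 : E3) r
    · rw [indicator_of_mem hp]
      refine (norm_inner_le_norm _ _).trans ?_
      rw [mul_comm]
      gcongr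
      simp only [rotf]
      rw [R.norm]
      exact hM _
    · have : rotf ρ p.2 f p.1 = 0 := by
        simp only [rotf]
        rw [hr, map_zero]
        rw [norm_rotC]
        rw [mem_closedBall_zero_iff, not_le] at hp
        exact hp
      rw [this, inner_zero_left, norm_zero, indicator_of_notMem hp, zero_mul]

end avg

/-- the trace -/
noncomputable def trc (M : M3) : ℝ := ∑ i, M (i, i)

theorem trc_rotM (θ : ℝ) (M : M3) : trc (rotM θ M) = trc M := by
  have := Real.cos_sq_add_sin_sq θ
  unfold trc
  rw [Fin.sum_univ_three, Fin.sum_univ_three]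
  simp only [rotM_apply, lact_apply, ract_apply, rotC_zero', rotC_one', rotC_two']
  linear_combination (M (0, 0) + M (1, 1)) * this

/-- the Jacobian matrix of a derivative -/
noncomputable def JJ : (E3 →L[ℝ] E3) →L[ℝ] M3 :=
  LinearMap.toContinuousLinearMap
    { toFun := fun L => WithLp.toLp 2 fun p => L (ev p.2) p.1
      map_add' := fun x y => by ext p; simp
      map_smul' := fun c x => by ext p; simp }

theorem jac_eq (φ : E3 → E3) (x : E3) : jac φ x = JJ (fderiv ℝ φ x) := rfl

/-- the gradient of the average. -/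
theorem jac_avg {φ : E3 → E3} (hφ : ContDiff ℝ ∞ φ) (x : E3) :
    jac (avg rotC φ) x = avg rotM (jac φ) x := by
  have hd : Differentiable ℝ φ := hφ.differentiable (by simp)
  have hj := joint_smooth rep_rotC hφ
  have h1 := (fderiv_param 0 (2 * Real.pi) (fun x θ => rotf rotC θ φ x)
    (hj.of_le (by exact_mod_cast le_top)) x).const_smul ((2 * Real.pi)⁻¹)
  have h2 : fderiv ℝ (avg rotC φ) x = (2 * Real.pi)⁻¹ •
      ∫ t in (0 : ℝ)..(2 * Real.pi), fderiv ℝ (fun y => rotf rotC t φ y) x := h1.fderiv
  rw [jac_eq, h2, map_smul]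
  unfold avg
  congr 1
  have h3 : ∀ θ, rotf rotM θ (jac φ) x = JJ (fderiv ℝ (fun y => rotf rotC θ φ y) x) := by
    intro θ
    exact (jac_rot hd θ x).symm
  simp_rw [h3]
  symm
  apply ContinuousLinearMap.intervalIntegral_comp_comm
  have hc : Continuous fun t => fderiv ℝ (fun y => rotf rotC t φ y) x := by
    have h4 : ∀ t, fderiv ℝ (fun y => rotf rotC t φ y) x
        = (rotC (-t)).comp ((fderiv ℝ φ (rotC t x)).comp (rotC t)) := by
      intro t
      exact ((rotC (-t)).hasFDerivAt.comp x
        (((hd _).hasFDerivAt).comp x (rotC t).hasFDerivAt)).fderiv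
    simp_rw [h4]
    have c1 : Continuous rotC := contDiff_rotC.continuous
    have c2 : Continuous (fderiv ℝ φ) := hφ.continuous_fderiv (by simp)
    exact (c1.comp continuous_neg).clm_comp
      ((c2.comp (c1.clm_apply continuous_const)).clm_comp c1)
  exact hc.intervalIntegrable _ _

/-- axisymmetric test fields -/
def AxTest (φ : E3 → E3) : Prop := IsTest univ φ ∧ ∀ θ x, φ (rotC θ x) = rotC θ (φ x)

/-- the average of a test field is an axisymmetric test field. -/
theorem avg_test {φ : E3 → E3} (h : IsTest univ φ) : AxTest (avg rotC φ) := by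
  refine ⟨⟨avg_smooth rep_rotC h.smooth, avg_compact h.compact, subset_univ _, ?_⟩,
    fun θ x => avg_inv rep_rotC θ x⟩
  intro x
  show trc (jac (avg rotC φ) x) = 0
  rw [jac_avg h.smooth]
  set T : M3 →L[ℝ] ℝ := LinearMap.toContinuousLinearMap
    { toFun := trc
      map_add' := fun x y => by simp [trc, Finset.sum_add_distrib]
      map_smul' := fun c x => by simp [trc, Finset.mul_sum] } with hT
  have h1 : ∀ M, trc M = T M := fun M => rfl
  rw [h1]
  unfold avg
  rw [map_smul]
  have hc : Continuous fun θ => rotf rotM θ (jac φ) x :=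
    rotf_cont rep_rotM (continuous_jac h.smooth) x
  rw [← ContinuousLinearMap.intervalIntegral_comp_comm _ (hc.intervalIntegrable _ _)]
  have h2 : ∀ θ, T (rotf rotM θ (jac φ) x) = 0 := by
    intro θ
    rw [← h1]
    unfold rotf
    rw [trc_rotM]
    exact h.divfree _
  simp_rw [h2]
  simp

/-- the rotated test field is a test field. -/
theorem rotf_test {φ : E3 → E3} (h : IsTest univ φ) (θ : ℝ) : IsTest univ (rotf rotC θ φ) := by
  refine ⟨?_, ?_, subset_univ _, ?_⟩
  · exact (rotC (-θ)).contDiff.comp (h.smooth.comp (rotC θ).contDiff)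
  · obtain ⟨R, hR0, hR⟩ := exists_rad h.compact
    refine HasCompactSupport.intro (isCompact_closedBall (0 : E3) R) fun x hx => ?_
    rw [mem_closedBall_zero_iff, not_le] at hx
    unfold rotf
    rw [hR _ (by rw [norm_rotC]; exact hx), map_zero]
  · intro x
    show trc (jac (rotf rotC θ φ) x) = 0
    have := jac_rot (h.smooth.differentiable (by simp)) θ x
    unfold rotf
    rw [this, trc_rotM]
    exact h.divfree _

end H772R2.NAX
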