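import Mathlib
import Pool.Agent.H772R2.NAX.Rot

/-!
Cylindrical integration (after helper789) and the two dimensional Ladyzhenskaya inequality for
axisymmetric functions away from the axis.
-/

set_option linter.unusedSectionVars false

open MeasureTheory Set Filter Topology Metric
open scoped InnerProductSpace NNReal ENNReal ContDiff

namespace H772R2.NAX

open H772R2.NS

/-- the point with given cylindrical coordinates. -/
noncomputable def cylp (r α z : ℝ) : E3 := !₂[r * Real.cos α, r * Real.sin α, z]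

theorem measurable_vec3 : Measurable fun p : ℝ × ℝ × ℝ => (!₂[p.1, p.2.1, p.2.2] : E3) := by
  apply Measurable.comp (WithLp.measurable_toLp 2 _)
  rw [measurable_pi_iff]
  intro i
  fin_cases i
  · exact measurable_fst
  · exact measurable_fst.comp measurable_snd
  · exact measurable_snd.comp measurable_snd

theorem cart_lint (F : E3 → ℝ≥0∞) (hF : Measurable F) :
    ∫⁻ x, F x = ∫⁻ a : ℝ, ∫⁻ b : ℝ, ∫⁻ z : ℝ, F !₂[a, b, z] := by
  have h1 : ∫⁻ x : E3, F x = ∫⁻ y : Fin 3 → ℝ, F (WithLp.toLp 2 y) :=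
    ((PiLp.volume_preserving_toLp (Fin 3)).lintegral_comp hF).symm
  have hG : Measurable fun y : Fin 3 → ℝ => F (WithLp.toLp 2 y) :=
    hF.comp (WithLp.measurable_toLp 2 _)
  have h2 := (volume_preserving_piFinSuccAbove (fun _ : Fin 3 => ℝ) 0).symm
  have h3 := (volume_preserving_finTwoArrow ℝ).symm
  have hGc : Measurable fun p : ℝ × (Fin 2 → ℝ) =>
      F (WithLp.toLp 2 ((MeasurableEquiv.piFinSuccAbove (fun _ : Fin 3 => ℝ) 0).symm p)) :=
    hG.comp h2.measurable
  rw [h1, ← h2.lintegral_comp hG, Measure.volume_eq_prod, lintegral_prod _ hGc.aemeasurable]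
  apply lintegral_congr
  intro a
  have hGa : Measurable fun y : Fin 2 → ℝ =>
      F (WithLp.toLp 2 ((MeasurableEquiv.piFinSuccAbove (fun _ : Fin 3 => ℝ) 0).symm (a, y))) :=
    (hG.comp h2.measurable).comp measurable_prodMk_left
  have h4 : ∫⁻ y : Fin 2 → ℝ,
      F (WithLp.toLp 2 ((MeasurableEquiv.piFinSuccAbove (fun _ : Fin 3 => ℝ) 0).symm (a, y))) =
      ∫⁻ q : ℝ × ℝ, F !₂[a, q.1, q.2] := by
    rw [← h3.lintegral_comp hGa]
    apply lintegral_congr
    intro q
    congr 1
    ext i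
    fin_cases i <;> rfl
  refine Eq.trans h4 ?_
  rw [Measure.volume_eq_prod, lintegral_prod]
  apply Measurable.aemeasurable
  exact hF.comp (measurable_vec3.comp measurable_prodMk_left)

theorem cyl_lint (F : E3 → ℝ≥0∞) (hF : Measurable F) :
    ∫⁻ x, F x = ∫⁻ r in Ioi (0 : ℝ), ∫⁻ α in Ioo (-Real.pi) Real.pi, ∫⁻ z : ℝ,
      ENNReal.ofReal r * F (cylp r α z) := by
  rw [cart_lint F hF]
  have hm : Measurable fun p : (ℝ × ℝ) × ℝ => F !₂[p.1.1, p.1.2, p.2] :=
    hF.comp (measurable_vec3.comp ((measurable_fst.comp measurable_fst).prodMk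
      ((measurable_snd.comp measurable_fst).prodMk measurable_snd)))
  have hg : Measurable fun p : ℝ × ℝ => ∫⁻ z : ℝ, F !₂[p.1, p.2, z] := hm.lintegral_prod_right
  have h1 : ∫⁻ a : ℝ, ∫⁻ b : ℝ, ∫⁻ z : ℝ, F !₂[a, b, z] =
      ∫⁻ p : ℝ × ℝ, ∫⁻ z : ℝ, F !₂[p.1, p.2, z] := by
    rw [Measure.volume_eq_prod, lintegral_prod _ hg.aemeasurable]
  rw [h1, ← lintegral_comp_polarCoord_symm, polarCoord_target, Measure.volume_eq_prod,
    setLIntegral_prod]
  · apply lintegral_congr
    intro r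
    apply lintegral_congr
    intro α
    rw [smul_eq_mul, ← lintegral_const_mul]
    · rfl
    · exact hF.comp (measurable_vec3.comp (measurable_const.prodMk
        (measurable_const.prodMk measurable_id)))
  · apply Measurable.aemeasurable
    apply Measurable.mul
    · exact measurable_fst.ennreal_ofReal
    · refine hg.comp ?_
      exact ((measurable_fst.mul (Real.measurable_cos.comp measurable_snd)).prodMk
        (measurable_fst.mul (Real.measurable_sin.comp measurable_snd)))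

/-- the distance from the axis -/
noncomputable def rad (x : E3) : ℝ := Real.sqrt (x 0 ^ 2 + x 1 ^ 2)

theorem rad_rot (θ : ℝ) (x : E3) : rad (rotC θ x) = rad x := by
  unfold rad
  rw [rotC_zero', rotC_one']
  congr 1
  have := Real.cos_sq_add_sin_sq θ
  linear_combination (x 0 ^ 2 + x 1 ^ 2) * this

theorem continuous_rad : Continuous rad := by
  unfold rad
  have h0 : Continuous fun x : E3 => x 0 := (EuclideanSpace.proj (𝕜 := ℝ) (0 : Fin 3)).continuous
  have h1 : Continuous fun x : E3 => x 1 := (EuclideanSpace.proj (𝕜 := ℝ) (1 : Fin 3)).continuous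
  exact ((h0.pow 2).add (h1.pow 2)).sqrt

/-- the half plane point -/
noncomputable def hp (r z : ℝ) : E3 := !₂[r, 0, z]

theorem cylp_eq (r α z : ℝ) : cylp r α z = rotC α (hp r z) := by
  refine ext3 ?_ ?_ ?_
  · rw [rotC_zero']; simp [cylp, hp, mul_comm]
  · rw [rotC_one']; simp [cylp, hp, mul_comm]
  · rw [rotC_two']; simp [cylp, hp]

theorem rad_hp {r : ℝ} (hr : 0 ≤ r) (z : ℝ) : rad (hp r z) = r := by
  unfold rad hp
  simp [Real.sqrt_sq hr]

theorem hp_eq (r z : ℝ) : hp r z = r • ev 0 + z • ev 2 := by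
  refine ext3 ?_ ?_ ?_ <;> simp [hp]

theorem measurable_hp : Measurable fun p : ℝ × ℝ => hp p.1 p.2 :=
  measurable_vec3.comp (measurable_fst.prodMk (measurable_const.prodMk measurable_snd))

/-- the half plane integral -/
noncomputable def LL (F : E3 → ℝ≥0∞) : ℝ≥0∞ :=
  ∫⁻ r in Ioi (0 : ℝ), ∫⁻ z : ℝ, ENNReal.ofReal r * F (hp r z)

theorem lint_inv {F : E3 → ℝ≥0∞} (hF : Measurable F) (hi : ∀ θ x, F (rotC θ x) = F x) :
    ∫⁻ x, F x = ENNReal.ofReal (2 * Real.pi) * LL F := by
  rw [cyl_lint F hF]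
  have h1 : ∀ r : ℝ, ∫⁻ α in Ioo (-Real.pi) Real.pi, ∫⁻ z : ℝ, ENNReal.ofReal r * F (cylp r α z)
      = ENNReal.ofReal (2 * Real.pi) * ∫⁻ z : ℝ, ENNReal.ofReal r * F (hp r z) := by
    intro r
    have h2 : ∀ α : ℝ, ∫⁻ z : ℝ, ENNReal.ofReal r * F (cylp r α z)
        = ∫⁻ z : ℝ, ENNReal.ofReal r * F (hp r z) := by
      intro α
      refine lintegral_congr fun z => ?_
      rw [cylp_eq, hi]
    simp_rw [h2]
    rw [setLIntegral_const, Real.volume_Ioo, mul_comm]
    congr 2
    ring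
  simp_rw [h1]
  unfold LL
  rw [lintegral_const_mul]
  have : Measurable fun p : ℝ × ℝ => ENNReal.ofReal p.1 * F (hp p.1 p.2) :=
    measurable_fst.ennreal_ofReal.mul (hF.comp measurable_hp)
  exact this.lintegral_prod_right

theorem ii_line {f : E3 → ℝ} (hf : ContDiff ℝ 1 f) (hc : HasCompactSupport f) (a v : E3)
    (hv : ‖v‖ = 1) (s : ℝ) :
    ‖f (a + s • v)‖ₑ ≤ ∫⁻ t in Ioi s, ‖fderiv ℝ f (a + t • v)‖ₑ := by
  set g : ℝ → ℝ := fun t => f (a + t • v) with hg
  have hline : ContDiff ℝ 1 fun t : ℝ => a + t • v :=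
    contDiff_const.add (contDiff_id.smul contDiff_const)
  have hg1 : ContDiff ℝ 1 g := hf.comp hline
  have hgc : HasCompactSupport g := by
    obtain ⟨M, hM⟩ := hc.isCompact.isBounded.subset_closedBall (0 : E3)
    refine HasCompactSupport.intro (isCompact_Icc (a := -(M + ‖a‖)) (b := M + ‖a‖)) ?_
    intro t ht
    have hn : a + t • v ∉ tsupport f := by
      intro hcon
      have h1 := hM hcon
      rw [mem_closedBall_zero_iff] at h1
      apply ht
      have h2 : |t| ≤ M + ‖a‖ := by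
        calc |t| = ‖t • v‖ := by rw [norm_smul, hv, mul_one, Real.norm_eq_abs]
          _ = ‖(a + t • v) - a‖ := by congr 1; abel
          _ ≤ ‖a + t • v‖ + ‖a‖ := norm_sub_le _ _
          _ ≤ M + ‖a‖ := by linarith
      exact abs_le.mp h2
    show f (a + t • v) = 0
    exact image_eq_zero_of_notMem_tsupport hn
  have h1 := HasCompactSupport.integral_Ioi_deriv_eq hg1 hgc s
  have hd : ∀ t, deriv g t = fderiv ℝ f (a + t • v) v := by
    intro t
    have hl : HasDerivAt (fun t : ℝ => a + t • v) v t := by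
      have := ((hasDerivAt_id t).smul_const v).const_add a
      simpa using this
    have h2 : HasFDerivAt f (fderiv ℝ f (a + t • v)) (a + t • v) :=
      (hf.differentiable one_ne_zero _).hasFDerivAt
    exact (h2.comp_hasDerivAt t hl).deriv
  have h3 : ‖g s‖ₑ = ‖∫ x in Ioi s, deriv g x‖ₑ := by rw [h1, enorm_neg]
  show ‖g s‖ₑ ≤ _
  rw [h3]
  refine (enorm_integral_le_lintegral_enorm _).trans ?_
  refine lintegral_mono fun t => ?_
  rw [hd]
  have h4 : ‖fderiv ℝ f (a + t • v) v‖ ≤ ‖fderiv ℝ f (a + t • v)‖ := by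
    have := (fderiv ℝ f (a + t • v)).le_opNorm v
    rwa [hv, mul_one] at this
  exact enorm_le_iff_norm_le.mpr h4

/-- The inequality away from the axis. -/
theorem far_scalar {f : E3 → ℝ} (hf : ContDiff ℝ 1 f) (hc : HasCompactSupport f)
    (hi : ∀ θ x, f (rotC θ x) = f x) {δ : ℝ} (hδ : 0 < δ) :
    ∫⁻ x in {x | δ ≤ rad x}, ‖f x‖ₑ ^ 2
      ≤ ENNReal.ofReal δ⁻¹ * (∫⁻ x, ‖fderiv ℝ f x‖ₑ) ^ 2 := by
  have hfc : Continuous (fderiv ℝ f) := hf.continuous_fderiv one_ne_zero
  have hm : MeasurableSet {x : E3 | δ ≤ rad x} :=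
    (isClosed_le continuous_const continuous_rad).measurableSet
  set G : E3 → ℝ≥0∞ := fun x => ‖fderiv ℝ f x‖ₑ with hG
  have hGm : Measurable G := hfc.enorm.measurable
  have hGi : ∀ θ x, G (rotC θ x) = G x := by
    intro θ x
    have e1 : f = fun y => f (rotC θ y) := by funext y; rw [hi]
    have h1 : fderiv ℝ f x = (fderiv ℝ f (rotC θ x)).comp (rotC θ) := by
      conv_lhs => rw [e1]
      exact (((hf.differentiable one_ne_zero _).hasFDerivAt).comp x (rotC θ).hasFDerivAt).fderiv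
    have h2 : ‖fderiv ℝ f x‖ = ‖fderiv ℝ f (rotC θ x)‖ := by
      apply le_antisymm
      · rw [h1]
        refine ContinuousLinearMap.opNorm_le_bound _ (norm_nonneg _) fun v => ?_
        refine ((fderiv ℝ f (rotC θ x)).le_opNorm _).trans ?_
        show _ * ‖rotC θ v‖ ≤ _
        exact le_of_eq (by rw [norm_rotC])
      · refine ContinuousLinearMap.opNorm_le_bound _ (norm_nonneg _) fun v => ?_
        have e2 : fderiv ℝ f (rotC θ x) v = fderiv ℝ f x (rotC (-θ) v) := by
          rw [h1]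
          show _ = fderiv ℝ f (rotC θ x) (rotC θ (rotC (-θ) v))
          rw [rep_rotC.neg_right]
        rw [e2]
        refine ((fderiv ℝ f x).le_opNorm _).trans ?_
        rw [norm_rotC]
    show ‖_‖ₑ = ‖_‖ₑ
    rw [← ofReal_norm, ← ofReal_norm, h2]
  set F : E3 → ℝ≥0∞ := ({x | δ ≤ rad x}).indicator fun x => ‖f x‖ₑ ^ 2 with hF
  have hFm : Measurable F := (hf.continuous.enorm.measurable.pow_const 2).indicator hm
  have hFi : ∀ θ x, F (rotC θ x) = F x := by
    intro θ x
    simp only [hF, indicator, mem_ofPred_eq, rad_rot, hi]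
  rw [← lintegral_indicator hm]
  have e1 := lint_inv hFm hFi
  have e2 := lint_inv hGm hGi
  rw [e1, e2]
  -- the pointwise bounds
  set a : ℝ → ℝ≥0∞ := fun z => ∫⁻ s in Ioi (0 : ℝ), ENNReal.ofReal s * G (hp s z) with ha
  set b : ℝ → ℝ≥0∞ := fun r => ∫⁻ z : ℝ, ENNReal.ofReal r * G (hp r z) with hb
  have hGp : Measurable fun p : ℝ × ℝ => ENNReal.ofReal p.1 * G (hp p.1 p.2) :=
    measurable_fst.ennreal_ofReal.mul (hGm.comp measurable_hp)
  have hbm : Measurable b := hGp.lintegral_prod_right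
  have ham : Measurable a := by
    have : Measurable fun p : ℝ × ℝ => ENNReal.ofReal p.2 * G (hp p.2 p.1) :=
      measurable_snd.ennreal_ofReal.mul (hGm.comp (measurable_hp.comp measurable_swap))
    exact this.lintegral_prod_right (ν := volume.restrict (Ioi 0))
  have hn0 : ‖ev 0‖ = 1 := by simp
  have hn2 : ‖ev 2‖ = 1 := by simp
  have k1 : ∀ r z, δ ≤ r → ‖f (hp r z)‖ₑ ≤ ENNReal.ofReal δ⁻¹ * a z := by
    intro r z hr
    have h1 := ii_line hf hc (z • ev 2) (ev 0) hn0 r
    have e3 : ∀ t : ℝ, z • ev 2 + t • ev 0 = hp t z := fun t => by rw [hp_eq, add_comm]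
    simp only [e3] at h1
    refine h1.trans ?_
    rw [ha, ← lintegral_const_mul]
    · calc ∫⁻ t in Ioi r, ‖fderiv ℝ f (hp t z)‖ₑ
          ≤ ∫⁻ t in Ioi r, ENNReal.ofReal δ⁻¹ * (ENNReal.ofReal t * G (hp t z)) := by
            refine setLIntegral_mono' measurableSet_Ioi fun t ht => ?_
            have ht' : r < t := ht
            rw [← mul_assoc, ← ENNReal.ofReal_mul (by positivity)]
            have h2 : 1 ≤ δ⁻¹ * t := by
              rw [inv_mul_eq_div, le_div_iff₀ hδ]; linarith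
            calc ‖fderiv ℝ f (hp t z)‖ₑ = 1 * G (hp t z) := by rw [one_mul]
              _ ≤ ENNReal.ofReal (δ⁻¹ * t) * G (hp t z) := by
                  gcongr
                  rw [← ENNReal.ofReal_one]
                  exact ENNReal.ofReal_le_ofReal h2
        _ ≤ _ := lintegral_mono_set (Ioi_subset_Ioi (by linarith))
    · exact measurable_id.ennreal_ofReal.mul (hGm.comp (measurable_hp.comp
        (measurable_id.prodMk measurable_const)))
  have k2 : ∀ r z, ENNReal.ofReal r * ‖f (hp r z)‖ₑ ≤ b r := by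
    intro r z
    have h1 := ii_line hf hc (r • ev 0) (ev 2) hn2 z
    have e3 : ∀ t : ℝ, r • ev 0 + t • ev 2 = hp r t := fun t => (hp_eq r t).symm
    simp only [e3] at h1
    have hGr : Measurable fun z : ℝ => G (hp r z) :=
      hGm.comp (measurable_hp.comp (measurable_const.prodMk measurable_id))
    show _ ≤ ∫⁻ z : ℝ, ENNReal.ofReal r * G (hp r z)
    rw [lintegral_const_mul _ hGr]
    gcongr
    exact h1.trans (setLIntegral_le_lintegral _ _)
  have k3 : LL F ≤ ENNReal.ofReal δ⁻¹ * (LL G) ^ 2 := by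
    have h1 : LL F ≤ ∫⁻ r in Ioi (0 : ℝ), ∫⁻ z : ℝ, b r * (ENNReal.ofReal δ⁻¹ * a z) := by
      unfold LL
      refine setLIntegral_mono' measurableSet_Ioi fun r hr => ?_
      refine lintegral_mono fun z => ?_
      have hr' : (0 : ℝ) < r := hr
      by_cases h : δ ≤ r
      · have : F (hp r z) = ‖f (hp r z)‖ₑ ^ 2 := by
          simp only [hF, indicator, mem_ofPred_eq, rad_hp hr'.le, h, if_true]
        simp only
        rw [this, sq, ← mul_assoc]
        exact mul_le_mul' (k2 r z) (k1 r z h)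
      · have : F (hp r z) = 0 := by
          simp only [hF, indicator, mem_ofPred_eq, rad_hp hr'.le, h, if_false]
        simp only
        rw [this, mul_zero]
        exact zero_le
    refine h1.trans (le_of_eq ?_)
    have h2 : ∀ r, ∫⁻ z : ℝ, b r * (ENNReal.ofReal δ⁻¹ * a z)
        = b r * (ENNReal.ofReal δ⁻¹ * ∫⁻ z : ℝ, a z) := by
      intro r
      rw [lintegral_const_mul _ (ham.const_mul _), lintegral_const_mul _ ham]
    simp_rw [h2]
    rw [lintegral_mul_const _ hbm]
    have h3 : ∫⁻ r in Ioi (0 : ℝ), b r = LL G := rfl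
    have h4 : ∫⁻ z : ℝ, a z = LL G := by
      rw [ha]
      unfold LL
      rw [lintegral_lintegral_swap]
      have : Measurable fun p : ℝ × ℝ => ENNReal.ofReal p.2 * G (hp p.2 p.1) :=
        measurable_snd.ennreal_ofReal.mul (hGm.comp (measurable_hp.comp measurable_swap))
      exact this.aemeasurable
    rw [h3, h4]
    ring
  have hpi : (1 : ℝ≥0∞) ≤ ENNReal.ofReal (2 * Real.pi) := by
    rw [← ENNReal.ofReal_one]
    exact ENNReal.ofReal_le_ofReal (by linarith [Real.pi_gt_three])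
  calc ENNReal.ofReal (2 * Real.pi) * LL F
      ≤ ENNReal.ofReal (2 * Real.pi) * (ENNReal.ofReal δ⁻¹ * (LL G) ^ 2) := by gcongr
    _ = 1 * (ENNReal.ofReal (2 * Real.pi) * (ENNReal.ofReal δ⁻¹ * (LL G) ^ 2)) := by rw [one_mul]
    _ ≤ ENNReal.ofReal (2 * Real.pi) * (ENNReal.ofReal (2 * Real.pi)
        * (ENNReal.ofReal δ⁻¹ * (LL G) ^ 2)) := by gcongr
    _ = ENNReal.ofReal δ⁻¹ * (ENNReal.ofReal (2 * Real.pi) * LL G) ^ 2 := by ring

end H772R2.NAX
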