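import Mathlib
import Pool.Agent.H772R2.NS.Space3

/-!
Multiplication operators in `L²`.
-/

set_option linter.unusedSectionVars false

open MeasureTheory Set Filter Topology Metric
open scoped InnerProductSpace NNReal ENNReal

namespace H772R2.NAX

open H772R2.NS

variable {V : Type*} [NormedAddCommGroup V] [InnerProductSpace ℝ V] {μ : Measure E3}

theorem memLp_mul {σ : E3 → ℝ} (hm : Measurable σ) (hb : ∀ x, |σ x| ≤ 1) (v : Lp V 2 μ) :
    MemLp (fun x => σ x • v x) 2 μ := by
  refine (Lp.memLp v).of_le (hm.aestronglyMeasurable.smul (Lp.aestronglyMeasurable v)) ?_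
  refine Eventually.of_forall fun x => ?_
  rw [norm_smul, Real.norm_eq_abs]
  calc |σ x| * ‖v x‖ ≤ 1 * ‖v x‖ := by gcongr; exact hb x
    _ = ‖v x‖ := one_mul _

/-- multiplication by a bounded function. -/
noncomputable def mulL (V : Type*) [NormedAddCommGroup V] [InnerProductSpace ℝ V] (μ : Measure E3)
    (σ : E3 → ℝ) (hm : Measurable σ) (hb : ∀ x, |σ x| ≤ 1) : Lp V 2 μ →L[ℝ] Lp V 2 μ :=
  LinearMap.mkContinuous
    { toFun := fun v => (memLp_mul hm hb v).toLp _
      map_add' := fun v w => by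
        apply Lp.ext
        have h1 := (memLp_mul hm hb (v + w)).coeFn_toLp
        have h2 := (memLp_mul hm hb v).coeFn_toLp
        have h3 := (memLp_mul hm hb w).coeFn_toLp
        have h4 := Lp.coeFn_add ((memLp_mul hm hb v).toLp _) ((memLp_mul hm hb w).toLp _)
        have h5 := Lp.coeFn_add v w
        filter_upwards [h1, h2, h3, h4, h5] with x a1 a2 a3 a4 a5
        rw [a1, a4, Pi.add_apply, a2, a3, a5, Pi.add_apply, smul_add]
      map_smul' := fun c v => by
        apply Lp.ext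
        have h1 := (memLp_mul hm hb (c • v)).coeFn_toLp
        have h2 := (memLp_mul hm hb v).coeFn_toLp
        have h4 := Lp.coeFn_smul c ((memLp_mul hm hb v).toLp _)
        have h5 := Lp.coeFn_smul c v
        filter_upwards [h1, h2, h4, h5] with x a1 a2 a4 a5
        simp only [RingHom.id_apply]
        rw [a1, a4, Pi.smul_apply, a2, a5, Pi.smul_apply, smul_comm] } 1 (by
    intro v
    rw [one_mul]
    show ‖(memLp_mul hm hb v).toLp _‖ ≤ ‖v‖
    refine Lp.norm_le_norm_of_ae_le ?_
    filter_upwards [(memLp_mul hm hb v).coeFn_toLp] with x a1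
    rw [a1, norm_smul, Real.norm_eq_abs]
    calc |σ x| * ‖v x‖ ≤ 1 * ‖v x‖ := by gcongr; exact hb x
      _ = ‖v x‖ := one_mul _)

variable {σ : E3 → ℝ} {hm : Measurable σ} {hb : ∀ x, |σ x| ≤ 1}

theorem mulL_coe (v : Lp V 2 μ) : (mulL V μ σ hm hb v : E3 → V) =ᵐ[μ] fun x => σ x • v x :=
  (memLp_mul hm hb v).coeFn_toLp

theorem mulL_le (v : Lp V 2 μ) : ‖mulL V μ σ hm hb v‖ ≤ ‖v‖ := by
  refine Lp.norm_le_norm_of_ae_le ?_
  filter_upwards [mulL_coe (hm := hm) (hb := hb) v] with x a1
  rw [a1, norm_smul, Real.norm_eq_abs]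
  calc |σ x| * ‖v x‖ ≤ 1 * ‖v x‖ := by gcongr; exact hb x
    _ = ‖v x‖ := one_mul _

theorem mulL_sym (v w : Lp V 2 μ) : ⟪mulL V μ σ hm hb v, w⟫_ℝ = ⟪v, mulL V μ σ hm hb w⟫_ℝ := by
  rw [L2.inner_def, L2.inner_def]
  refine integral_congr_ae ?_
  filter_upwards [mulL_coe (hm := hm) (hb := hb) v, mulL_coe (hm := hm) (hb := hb) w] with x a b
  rw [a, b, real_inner_smul_left, real_inner_smul_right]

/-- comparison of two multiplication operators. -/
theorem mulL_mono {τ : E3 → ℝ} {hm' : Measurable τ} {hb' : ∀ x, |τ x| ≤ 1}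
    (h : ∀ x, |σ x| ≤ |τ x|) (v : Lp V 2 μ) :
    ‖mulL V μ σ hm hb v‖ ≤ ‖mulL V μ τ hm' hb' v‖ := by
  refine Lp.norm_le_norm_of_ae_le ?_
  filter_upwards [mulL_coe (hm := hm) (hb := hb) v, mulL_coe (hm := hm') (hb := hb') v] with x a b
  rw [a, b, norm_smul, norm_smul, Real.norm_eq_abs, Real.norm_eq_abs]
  exact mul_le_mul_of_nonneg_right (h x) (norm_nonneg _)

theorem mulL_comp (v : Lp V 2 μ) : (mulL V μ σ hm hb (mulL V μ σ hm hb v) : E3 → V)
    =ᵐ[μ] fun x => (σ x * σ x) • v x := by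
  refine (mulL_coe _).trans ?_
  filter_upwards [mulL_coe (hm := hm) (hb := hb) v] with x a
  rw [a, smul_smul]

/-- decomposition by an indicator. -/
theorem mulL_split {s : Set E3} (hs : MeasurableSet s) (v w : Lp V 2 μ) :
    ⟪v, w⟫_ℝ = ⟪mulL V μ (s.indicator 1) (measurable_one.indicator hs)
        (fun x => by by_cases h : x ∈ s <;> simp [h]) v,
        mulL V μ (s.indicator 1) (measurable_one.indicator hs)
        (fun x => by by_cases h : x ∈ s <;> simp [h]) w⟫_ℝ
      + ⟪mulL V μ (sᶜ.indicator 1) (measurable_one.indicator hs.compl)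
        (fun x => by by_cases h : x ∈ s <;> simp [h]) v, w⟫_ℝ := by
  set A := mulL V μ (s.indicator 1) (measurable_one.indicator hs)
        (fun x => by by_cases h : x ∈ s <;> simp [h]) with hA
  set B := mulL V μ (sᶜ.indicator 1) (measurable_one.indicator hs.compl)
        (fun x => by by_cases h : x ∈ s <;> simp [h]) with hB
  have e1 : ⟪A v, A w⟫_ℝ = ⟪A v, w⟫_ℝ := by
    rw [hA, ← mulL_sym]
    congr 1
    apply Lp.ext
    filter_upwards [mulL_comp (hm := measurable_one.indicator hs)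
      (hb := fun x => by by_cases h : x ∈ s <;> simp [h]) v,
      mulL_coe (hm := measurable_one.indicator hs)
      (hb := fun x => by by_cases h : x ∈ s <;> simp [h]) v] with x a b
    rw [a, b]
    congr 1
    by_cases h : x ∈ s <;> simp [h]
  rw [e1, ← inner_add_left]
  congr 1
  apply Lp.ext
  filter_upwards [Lp.coeFn_add (A v) (B v), mulL_coe (hm := measurable_one.indicator hs)
      (hb := fun x => by by_cases h : x ∈ s <;> simp [h]) v,
      mulL_coe (hm := measurable_one.indicator hs.compl)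
      (hb := fun x => by by_cases h : x ∈ s <;> simp [h]) v] with x a b c
  rw [a, Pi.add_apply, b, c, ← add_smul]
  by_cases h : x ∈ s <;> simp [h]

end H772R2.NAX
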