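import Mathlib
import Pool.Agent.H772R2.NAX.Avg
import Pool.Agent.H772R2.NAX.Mul

/-!
Rotation invariant elements; density of axisymmetric test fields.
-/

set_option linter.unusedSectionVars false

open MeasureTheory Set Filter Topology Metric
open scoped InnerProductSpace NNReal ENNReal ContDiff

namespace H772R2.NAX

open H772R2.NS

theorem mp_rot' (θ : ℝ) : MeasurePreserving (rotC θ) (volume.restrict (univ : Set E3)) (volume.restrict (univ : Set E3)) := by
  rw [Measure.restrict_univ]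
  exact mp_rot θ

section inv

variable {V : Type} [NormedAddCommGroup V] [InnerProductSpace ℝ V] [FiniteDimensional ℝ V]
  {ρ : ℝ → V →L[ℝ] V} {f : E3 → V}

/-- rotation on `L²` -/
noncomputable def UU (ρ : ℝ → V →L[ℝ] V) (θ : ℝ) : Lp V 2 (volume.restrict (univ : Set E3)) →L[ℝ] Lp V 2 (volume.restrict (univ : Set E3)) :=
  ((ρ (-θ)).compLpL 2 (volume.restrict (univ : Set E3))).comp
    (Lp.compMeasurePreservingₗᵢ ℝ (rotC θ) (mp_rot' θ)).toContinuousLinearMap

theorem UU_coe (θ : ℝ) (w : Lp V 2 (volume.restrict (univ : Set E3))) :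
    (UU ρ θ w : E3 → V) =ᵐ[volume.restrict (univ : Set E3)] fun x => ρ (-θ) (w (rotC θ x)) := by
  have h1 := ContinuousLinearMap.coeFn_compLpL (p := 2) (μ := (volume.restrict (univ : Set E3))) (ρ (-θ))
    (Lp.compMeasurePreserving (rotC θ) (mp_rot' θ) w)
  have h2 := Lp.coeFn_compMeasurePreserving w (mp_rot' θ)
  filter_upwards [h1, h2] with x a b
  show ((ρ (-θ)).compLpL 2 (volume.restrict (univ : Set E3)) (Lp.compMeasurePreserving (rotC θ) (mp_rot' θ) w) : E3 → V) x = _
  rw [a, b]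
  rfl

theorem UU_norm (R : Rep ρ) (θ : ℝ) (w : Lp V 2 (volume.restrict (univ : Set E3))) : ‖UU ρ θ w‖ = ‖w‖ := by
  rw [← Lp.norm_compMeasurePreserving w (mp_rot' θ)]
  apply le_antisymm
  · refine Lp.norm_le_norm_of_ae_le ?_
    filter_upwards [UU_coe (ρ := ρ) θ w, Lp.coeFn_compMeasurePreserving w (mp_rot' θ)] with x a b
    rw [a, b, R.norm]
    rfl
  · refine Lp.norm_le_norm_of_ae_le ?_
    filter_upwards [UU_coe (ρ := ρ) θ w, Lp.coeFn_compMeasurePreserving w (mp_rot' θ)] with x a b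
    rw [a, b, R.norm]
    rfl

theorem UU_inner (R : Rep ρ) (θ : ℝ) (v w : Lp V 2 (volume.restrict (univ : Set E3))) : ⟪UU ρ θ v, UU ρ θ w⟫_ℝ = ⟪v, w⟫_ℝ := by
  have h1 := real_inner_eq_norm_mul_self_add_norm_mul_self_sub_norm_sub_mul_self_div_two
    (UU ρ θ v) (UU ρ θ w)
  have h2 := real_inner_eq_norm_mul_self_add_norm_mul_self_sub_norm_sub_mul_self_div_two v w
  rw [h1, h2, ← map_sub, UU_norm R, UU_norm R, UU_norm R]

theorem UU_ae {θ : ℝ} {w : Lp V 2 (volume.restrict (univ : Set E3))} (h : (w : E3 → V) =ᵐ[volume.restrict (univ : Set E3)] f) :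
    (UU ρ θ w : E3 → V) =ᵐ[volume.restrict (univ : Set E3)] rotf ρ θ f := by
  refine (UU_coe θ w).trans ?_
  have h1 := (mp_rot' θ).quasiMeasurePreserving.ae_eq_comp h
  filter_upwards [h1] with x hx
  simp only [Function.comp] at hx
  rw [hx]
  rfl

/-- invariance -/
def InvL (ρ : ℝ → V →L[ℝ] V) (w : Lp V 2 (volume.restrict (univ : Set E3))) : Prop := ∀ θ, UU ρ θ w = w

theorem InvL.add {v w : Lp V 2 (volume.restrict (univ : Set E3))} (hv : InvL ρ v) (hw : InvL ρ w) : InvL ρ (v + w) := fun θ => by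
  rw [map_add, hv θ, hw θ]

theorem InvL.sub {v w : Lp V 2 (volume.restrict (univ : Set E3))} (hv : InvL ρ v) (hw : InvL ρ w) : InvL ρ (v - w) := fun θ => by
  rw [map_sub, hv θ, hw θ]

theorem InvL.smul {v : Lp V 2 (volume.restrict (univ : Set E3))} (c : ℝ) (hv : InvL ρ v) : InvL ρ (c • v) := fun θ => by
  rw [map_smul, hv θ]

theorem InvL.neg {v : Lp V 2 (volume.restrict (univ : Set E3))} (hv : InvL ρ v) : InvL ρ (-v) := fun θ => by
  rw [map_neg, hv θ]

/-- the basic formula for the average. -/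
theorem avg_L (R : Rep ρ) (hf : Continuous f) (hc : HasCompactSupport f) {q a : Lp V 2 (volume.restrict (univ : Set E3))}
    (hq : (q : E3 → V) =ᵐ[volume.restrict (univ : Set E3)] f) (ha : (a : E3 → V) =ᵐ[volume.restrict (univ : Set E3)] avg ρ f) (w : Lp V 2 (volume.restrict (univ : Set E3))) :
    ⟪a, w⟫_ℝ = (2 * Real.pi)⁻¹ * ∫ θ in (0 : ℝ)..(2 * Real.pi), ⟪UU ρ θ q, w⟫_ℝ := by
  have h1 := avg_fub R hf hc (μ := (volume.restrict (univ : Set E3))) (w := w) (Lp.memLp w)
  have e1 : ⟪a, w⟫_ℝ = ∫ x, ⟪avg ρ f x, w x⟫_ℝ ∂(volume.restrict (univ : Set E3)) := by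
    rw [L2.inner_def]
    refine integral_congr_ae ?_
    filter_upwards [ha] with x hx
    rw [hx]
  have e2 : ∀ θ, ∫ x, ⟪rotf ρ θ f x, w x⟫_ℝ ∂(volume.restrict (univ : Set E3)) = ⟪UU ρ θ q, w⟫_ℝ := by
    intro θ
    rw [L2.inner_def]
    refine integral_congr_ae ?_
    filter_upwards [UU_ae (ρ := ρ) (θ := θ) hq] with x hx
    rw [hx]
  rw [e1, h1]
  simp_rw [e2]

theorem avg_L_inv (R : Rep ρ) (hf : Continuous f) (hc : HasCompactSupport f) {q a : Lp V 2 (volume.restrict (univ : Set E3))}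
    (hq : (q : E3 → V) =ᵐ[volume.restrict (univ : Set E3)] f) (ha : (a : E3 → V) =ᵐ[volume.restrict (univ : Set E3)] avg ρ f) {w : Lp V 2 (volume.restrict (univ : Set E3))}
    (hw : InvL ρ w) : ⟪a, w⟫_ℝ = ⟪q, w⟫_ℝ := by
  rw [avg_L R hf hc hq ha w]
  have h1 : ∀ θ, ⟪UU ρ θ q, w⟫_ℝ = ⟪q, w⟫_ℝ := by
    intro θ
    conv_lhs => rw [← hw θ]
    rw [UU_inner R]
  simp_rw [h1]
  rw [intervalIntegral.integral_const, sub_zero, smul_eq_mul, ← mul_assoc,
    inv_mul_cancel₀ (by positivity), one_mul]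

/-- the rotations of the class of a continuous function with compact support depend continuously
on the angle. -/
theorem UU_cont (R : Rep ρ) (hf : Continuous f) (hc : HasCompactSupport f) {q : Lp V 2 (volume.restrict (univ : Set E3))}
    (hq : (q : E3 → V) =ᵐ[volume.restrict (univ : Set E3)] f) (w : Lp V 2 (volume.restrict (univ : Set E3))) : Continuous fun θ => ⟪UU ρ θ q, w⟫_ℝ := by
  obtain ⟨r, hr0, hr⟩ := exists_rad hc
  obtain ⟨M, hM⟩ := hf.bounded_above_of_compact_support hc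
  have hM0 : 0 ≤ M := (norm_nonneg _).trans (hM 0)
  have e2 : ∀ θ, ⟪UU ρ θ q, w⟫_ℝ = ∫ x, ⟪rotf ρ θ f x, w x⟫_ℝ ∂(volume.restrict (univ : Set E3)) := by
    intro θ
    rw [L2.inner_def]
    refine integral_congr_ae ?_
    filter_upwards [UU_ae (ρ := ρ) (θ := θ) hq] with x hx
    rw [hx]
  simp_rw [e2]
  have hb : Integrable (fun x => (closedBall (0 : E3) r).indicator (fun x => M * ‖w x‖) x) (volume.restrict (univ : Set E3)) := by
    rw [integrable_indicator_iff measurableSet_closedBall]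
    have : IsFiniteMeasure ((volume.restrict (univ : Set E3)).restrict (closedBall (0 : E3) r)) :=
      ⟨by rw [Measure.restrict_apply_univ]; exact (isCompact_closedBall _ _).measure_lt_top⟩
    exact (((Lp.memLp w).restrict _).integrable (by norm_num)).norm.const_mul M
  refine continuous_of_dominated (bound := fun x =>
    (closedBall (0 : E3) r).indicator (fun x => M * ‖w x‖) x) ?_ ?_ hb ?_
  · intro θ
    have h1 : Continuous (rotf ρ θ f) :=
      (ρ (-θ)).continuous.comp (hf.comp (rotC θ).continuous)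
    exact h1.aestronglyMeasurable.inner (Lp.aestronglyMeasurable w)
  · intro θ
    refine Eventually.of_forall fun x => ?_
    by_cases hp : x ∈ closedBall (0 : E3) r
    · rw [indicator_of_mem hp]
      refine (norm_inner_le_norm _ _).trans ?_
      gcongr
      simp only [rotf]
      rw [R.norm]
      exact hM _
    · have : rotf ρ θ f x = 0 := by
        simp only [rotf]
        rw [hr, map_zero]
        rw [norm_rotC]
        rw [mem_closedBall_zero_iff, not_le] at hp
        exact hp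
      rw [this, inner_zero_left, norm_zero, indicator_of_notMem hp]
  · refine Eventually.of_forall fun x => ?_
    exact (rotf_cont R hf x).inner continuous_const

/-- the average is closer to an invariant element. -/
theorem avg_near (R : Rep ρ) (hf : Continuous f) (hc : HasCompactSupport f) {q a : Lp V 2 (volume.restrict (univ : Set E3))}
    (hq : (q : E3 → V) =ᵐ[volume.restrict (univ : Set E3)] f) (ha : (a : E3 → V) =ᵐ[volume.restrict (univ : Set E3)] avg ρ f) {v : Lp V 2 (volume.restrict (univ : Set E3))}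
    (hv : InvL ρ v) : ‖a - v‖ ≤ ‖q - v‖ := by
  set w := a - v with hw
  have hpi : (0 : ℝ) < 2 * Real.pi := by positivity
  have h1 := avg_L R hf hc hq ha w
  have h2 : ∀ θ, ⟪UU ρ θ q, w⟫_ℝ ≤ ⟪v, w⟫_ℝ + ‖q - v‖ * ‖w‖ := by
    intro θ
    have e1 : UU ρ θ q = v + UU ρ θ (q - v) := by rw [map_sub, hv θ]; abel
    rw [e1, inner_add_left]
    have h3 := real_inner_le_norm (UU ρ θ (q - v)) w
    rw [UU_norm R] at h3
    linarith
  have h4 : ∫ θ in (0 : ℝ)..(2 * Real.pi), ⟪UU ρ θ q, w⟫_ℝ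
      ≤ ∫ _θ in (0 : ℝ)..(2 * Real.pi), (⟪v, w⟫_ℝ + ‖q - v‖ * ‖w‖) := by
    apply intervalIntegral.integral_mono_on hpi.le
    · exact (UU_cont R hf hc hq w).intervalIntegrable _ _
    · exact intervalIntegrable_const
    · intro θ _
      exact h2 θ
  rw [intervalIntegral.integral_const, sub_zero, smul_eq_mul] at h4
  have h5 : ⟪a, w⟫_ℝ ≤ ⟪v, w⟫_ℝ + ‖q - v‖ * ‖w‖ := by
    rw [h1]
    calc (2 * Real.pi)⁻¹ * ∫ θ in (0 : ℝ)..(2 * Real.pi), ⟪UU ρ θ q, w⟫_ℝ
        ≤ (2 * Real.pi)⁻¹ * ((2 * Real.pi) * (⟪v, w⟫_ℝ + ‖q - v‖ * ‖w‖)) := by gcongr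
      _ = _ := by rw [← mul_assoc, inv_mul_cancel₀ hpi.ne', one_mul]
  have h6 : ‖w‖ ^ 2 ≤ ‖q - v‖ * ‖w‖ := by
    rw [← real_inner_self_eq_norm_sq]
    conv_lhs => rw [hw]
    rw [inner_sub_left]
    linarith
  rcases eq_or_lt_of_le (norm_nonneg w) with h0 | h0
  · rw [← h0]; exact norm_nonneg _
  · have : ‖w‖ * ‖w‖ ≤ ‖q - v‖ * ‖w‖ := by rw [← sq]; exact h6
    exact le_of_mul_le_mul_right this h0

/-- multiplication by an invariant function. -/
theorem InvL.mul {σ : E3 → ℝ} {hm : Measurable σ} {hb : ∀ x, |σ x| ≤ 1}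
    (hσ : ∀ θ x, σ (rotC θ x) = σ x) {v : Lp V 2 (volume.restrict (univ : Set E3))} (hv : InvL ρ v) :
    InvL ρ (mulL V (volume.restrict (univ : Set E3)) σ hm hb v) := by
  intro θ
  apply Lp.ext
  have h1 := UU_coe (ρ := ρ) θ (mulL V (volume.restrict (univ : Set E3)) σ hm hb v)
  have h2 := mulL_coe (hm := hm) (hb := hb) v
  have h3 := (mp_rot' θ).quasiMeasurePreserving.ae_eq_comp h2
  have h4 := UU_coe (ρ := ρ) θ v
  rw [hv θ] at h4
  filter_upwards [h1, h2, h3, h4] with x a b c d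
  simp only [Function.comp] at c
  rw [a, b, c, map_smul, ← d, hσ]

end inv

theorem rotM_tens (θ : ℝ) (a : E3) : rotM θ (tens a) = tens (rotC θ a) := by
  ext ⟨i, j⟩
  rw [rotM_apply, lact_apply, tens_apply]
  fin_cases i <;> fin_cases j <;>
    simp only [Fin.zero_eta, Fin.mk_one, Fin.reduceFinMk, rotC_zero', rotC_one', rotC_two',
      ract_apply, tens_apply] <;> ring

/-- the graph is invariant under rotations. -/
theorem UU_graph {p : L2V univ × L2M univ} (hp : p ∈ graphW univ) (θ : ℝ) :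
    (UU rotC θ p.1, UU rotM θ p.2) ∈ graphW univ := by
  have hp' : p ∈ closure (preW univ : Set (L2V univ × L2M univ)) := by
    have := hp
    unfold graphW at this
    rwa [← SetLike.mem_coe, Submodule.topologicalClosure_coe] at this
  have hcont : Continuous fun p : L2V univ × L2M univ => (UU rotC θ p.1, UU rotM θ p.2) := by
    fun_prop
  have h1 := map_mem_closure (t := (preW univ : Set (L2V univ × L2M univ))) hcont hp' (by
    rintro q ⟨φ, h1, h2, h3⟩
    refine ⟨rotf rotC θ φ, rotf_test h1 θ, UU_ae h2, ?_⟩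
    refine (UU_ae (ρ := rotM) (θ := θ) h3).trans (Eventually.of_forall fun x => ?_)
    exact (jac_rot (h1.smooth.differentiable (by simp)) θ x).symm)
  unfold graphW
  rw [← SetLike.mem_coe, Submodule.topologicalClosure_coe]
  exact h1

theorem inv_grad {v : L2V univ} {z : L2M univ} (h : (v, z) ∈ graphW univ) (hv : InvL rotC v) :
    InvL rotM z := by
  intro θ
  have h1 := UU_graph h θ
  simp only at h1
  rw [hv θ] at h1
  have h2 : ((0 : L2V univ), UU rotM θ z - z) ∈ graphW univ := by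
    have := (graphW univ).sub_mem h1 h
    simpa using this
  exact sub_eq_zero.mp (graphW_uniq isOpen_univ _ h2)

theorem inv_tens {v : L2V univ} {z : L2M univ} (h : (v, z) ∈ graphW univ) (hv : InvL rotC v) :
    InvL rotM (tensL v) := by
  intro θ
  apply Lp.ext
  have h1 := UU_coe (ρ := rotM) θ (tensL v)
  have h2 := tensL_coe MeasurableSet.univ h
  have h3 := (mp_rot' θ).quasiMeasurePreserving.ae_eq_comp h2
  have h4 := UU_coe (ρ := rotC) θ v
  rw [hv θ] at h4
  filter_upwards [h1, h2, h3, h4] with x a b c d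
  simp only [Function.comp] at c
  rw [a, b, c, rotM_tens, ← d]

theorem AxTest.zero : AxTest (0 : E3 → E3) := ⟨IsTest.zero, fun θ x => by simp⟩

theorem AxTest.add {φ ψ : E3 → E3} (h1 : AxTest φ) (h2 : AxTest ψ) : AxTest (φ + ψ) :=
  ⟨h1.1.add h2.1, fun θ x => by
    rw [Pi.add_apply, Pi.add_apply, h1.2, h2.2, map_add]⟩

theorem AxTest.smul {φ : E3 → E3} (c : ℝ) (h1 : AxTest φ) : AxTest (c • φ) :=
  ⟨h1.1.smul c, fun θ x => by
    rw [Pi.smul_apply, Pi.smul_apply, h1.2, map_smul]⟩

/-- the submodule of pairs `(φ, ∇φ)`, `φ` an axisymmetric test field. -/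
noncomputable def preA : Submodule ℝ (L2V univ × L2M univ) where
  carrier := {p | ∃ φ, AxTest φ ∧ p.1 =ᵐ[volume.restrict (univ : Set E3)] φ ∧ p.2 =ᵐ[volume.restrict (univ : Set E3)] jac φ}
  zero_mem' := by
    refine ⟨0, AxTest.zero, ?_, ?_⟩
    · exact Lp.coeFn_zero _ _ _
    · refine (Lp.coeFn_zero _ _ _).trans ?_
      exact Eventually.of_forall (fun x => by simp [jac_zero])
  add_mem' := by
    rintro p q ⟨φ, h1, h2, h3⟩ ⟨ψ, g1, g2, g3⟩
    refine ⟨φ + ψ, h1.add g1, ?_, ?_⟩
    · exact (Lp.coeFn_add p.1 q.1).trans (h2.add g2)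
    · refine (Lp.coeFn_add p.2 q.2).trans ?_
      filter_upwards [h3, g3] with x a b
      simp only [Pi.add_apply]
      rw [a, b, jac_add h1.1.smooth g1.1.smooth]
  smul_mem' := by
    rintro c p ⟨φ, h1, h2, h3⟩
    refine ⟨c • φ, h1.smul c, ?_, ?_⟩
    · refine (Lp.coeFn_smul c p.1).trans ?_
      filter_upwards [h2] with x a
      simp [a]
    · refine (Lp.coeFn_smul c p.2).trans ?_
      filter_upwards [h3] with x a
      simp [a, jac_smul]

/-- axisymmetric `H¹_σ`. -/
noncomputable def axW : Submodule ℝ (L2V univ × L2M univ) := preA.topologicalClosure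

theorem axW_closed : IsClosed (axW : Set (L2V univ × L2M univ)) :=
  Submodule.isClosed_topologicalClosure _

theorem axW_coe : (axW : Set (L2V univ × L2M univ)) = closure (preA : Set _) := by
  unfold axW
  rw [Submodule.topologicalClosure_coe]

theorem axW_le {p : L2V univ × L2M univ} (hp : p ∈ axW) : p ∈ graphW univ := by
  have h1 : preA ≤ preW univ := by
    rintro q ⟨φ, h1, h2, h3⟩
    exact ⟨φ, h1.1, h2, h3⟩
  exact Submodule.topologicalClosure_mono h1 hp

/-- elements of `axW` are invariant. -/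
theorem axW_inv {p : L2V univ × L2M univ} (hp : p ∈ axW) : InvL rotC p.1 := by
  intro θ
  have hcl : IsClosed {p : L2V univ × L2M univ | UU rotC θ p.1 = p.1} :=
    isClosed_eq ((UU rotC θ).continuous.comp continuous_fst) continuous_fst
  have hp' : p ∈ closure (preA : Set (L2V univ × L2M univ)) := by
    rw [← axW_coe]; exact hp
  have h1 : (preA : Set (L2V univ × L2M univ)) ⊆ {p | UU rotC θ p.1 = p.1} := by
    rintro q ⟨φ, h1, h2, h3⟩
    apply Lp.ext
    refine (UU_ae (ρ := rotC) (θ := θ) h2).trans ?_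
    filter_upwards [h2] with x hx
    rw [hx]
    unfold rotf
    rw [h1.2, rep_rotC.neg_left]
  exact closure_minimal h1 hcl hp'

/-- an invariant element of the graph lies in `axW`. -/
theorem mem_axW {v : L2V univ} {z : L2M univ} (h : (v, z) ∈ graphW univ) (hv : InvL rotC v) :
    (v, z) ∈ axW := by
  have hz := inv_grad h hv
  have hp' : (v, z) ∈ closure (preW univ : Set (L2V univ × L2M univ)) := by
    have := h
    unfold graphW at this
    rwa [← SetLike.mem_coe, Submodule.topologicalClosure_coe] at this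
  rw [← SetLike.mem_coe, axW_coe, Metric.mem_closure_iff]
  intro ε hε
  rw [Metric.mem_closure_iff] at hp'
  obtain ⟨q, ⟨φ, h1, h2, h3⟩, hd⟩ := hp' ε hε
  rw [Prod.dist_eq, max_lt_iff] at hd
  have ht := avg_test h1
  have m1 : MemLp (avg rotC φ) 2 (volume.restrict (univ : Set E3)) := (ht.1.memLp 2).restrict _
  have m2 : MemLp (jac (avg rotC φ)) 2 (volume.restrict (univ : Set E3)) := (ht.1.jac_memLp 2).restrict _
  have k1 := m1.coeFn_toLp
  have k2 := m2.coeFn_toLp
  refine ⟨(m1.toLp _, m2.toLp _), ⟨avg rotC φ, ht, k1, k2⟩, ?_⟩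
  rw [Prod.dist_eq, max_lt_iff]
  have a1 := avg_near rep_rotC h1.smooth.continuous h1.compact h2 k1 hv
  have k2' : ((m2.toLp _ : L2M univ) : E3 → M3) =ᵐ[volume.restrict (univ : Set E3)] avg rotM (jac φ) := by
    refine k2.trans (Eventually.of_forall fun x => ?_)
    exact jac_avg h1.smooth x
  have a2 := avg_near rep_rotM (continuous_jac h1.smooth) (hasCompactSupport_jac h1.compact) h3 k2'
    hz
  constructor
  · rw [dist_comm, dist_eq_norm]
    refine a1.trans_lt ?_
    have := hd.1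
    rwa [dist_comm, dist_eq_norm] at this
  · rw [dist_comm, dist_eq_norm]
    refine a2.trans_lt ?_
    have := hd.2
    rwa [dist_comm, dist_eq_norm] at this

/-- every test pair has an average in `axW` with the same pairing with invariant elements. -/
theorem exists_avg {q : L2V univ × L2M univ} (hq : q ∈ preW univ) :
    ∃ a ∈ axW, (∀ w, InvL rotC w → ⟪w, a.1⟫_ℝ = ⟪w, q.1⟫_ℝ) ∧
      (∀ w, InvL rotM w → ⟪w, a.2⟫_ℝ = ⟪w, q.2⟫_ℝ) := by
  obtain ⟨φ, h1, h2, h3⟩ := hq
  have ht := avg_test h1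
  have m1 : MemLp (avg rotC φ) 2 (volume.restrict (univ : Set E3)) := (ht.1.memLp 2).restrict _
  have m2 : MemLp (jac (avg rotC φ)) 2 (volume.restrict (univ : Set E3)) := (ht.1.jac_memLp 2).restrict _
  have k1 := m1.coeFn_toLp
  have k2 := m2.coeFn_toLp
  have k2' : ((m2.toLp _ : L2M univ) : E3 → M3) =ᵐ[volume.restrict (univ : Set E3)] avg rotM (jac φ) := by
    refine k2.trans (Eventually.of_forall fun x => ?_)
    exact jac_avg h1.smooth x
  refine ⟨(m1.toLp _, m2.toLp _), ?_, ?_, ?_⟩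
  · exact Submodule.le_topologicalClosure _ ⟨avg rotC φ, ht, k1, k2⟩
  · intro w hw
    rw [real_inner_comm, real_inner_comm q.1]
    exact avg_L_inv rep_rotC h1.smooth.continuous h1.compact h2 k1 hw
  · intro w hw
    rw [real_inner_comm, real_inner_comm q.2]
    exact avg_L_inv rep_rotM (continuous_jac h1.smooth) (hasCompactSupport_jac h1.compact) h3 k2' hw

/-- extension of an inequality from the axisymmetric test pairs. -/
theorem axW_le_of {F : L2V univ × L2M univ → ℝ}
    (hF : ContinuousOn F (graphW univ : Set (L2V univ × L2M univ)))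
    (h0 : ∀ p ∈ preA, F p ≤ 0) {p : L2V univ × L2M univ} (hp : p ∈ axW) : F p ≤ 0 := by
  have hp' : p ∈ closure (preA : Set (L2V univ × L2M univ)) := by
    rw [← axW_coe]; exact hp
  obtain ⟨q, hq, hlim⟩ := mem_closure_iff_seq_limit.mp hp'
  have hqW : ∀ n, q n ∈ graphW univ := fun n =>
    axW_le (Submodule.le_topologicalClosure _ (hq n))
  have h1 : Tendsto q atTop (𝓝[(graphW univ : Set _)] p) :=
    tendsto_nhdsWithin_iff.mpr ⟨hlim, Eventually.of_forall hqW⟩
  have h2 : Tendsto (fun n => F (q n)) atTop (𝓝 (F p)) := (hF p (axW_le hp)).tendsto.comp h1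
  exact le_of_tendsto h2 (Eventually.of_forall fun n => h0 _ (hq n))

end H772R2.NAX
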