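import Mathlib
import Pool.Agent.H772R2.NAX.Inv
import Pool.Agent.H772R2.NAX.Cyl

/-!
The nonlinearity near the axis and away from the axis.
-/

set_option linter.unusedSectionVars false

open MeasureTheory Set Filter Topology Metric
open scoped InnerProductSpace NNReal ENNReal ContDiff

namespace H772R2.NAX

open H772R2.NS

/-- the projection to the horizontal plane -/
noncomputable def pr2 : E3 →L[ℝ] EuclideanSpace ℝ (Fin 2) :=
  LinearMap.toContinuousLinearMap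
    { toFun := fun x => WithLp.toLp 2 ![x 0, x 1]
      map_add' := fun x y => by ext i; fin_cases i <;> simp
      map_smul' := fun c x => by ext i; fin_cases i <;> simp }

theorem norm_pr2 (x : E3) : ‖pr2 x‖ = rad x := by
  unfold rad
  rw [EuclideanSpace.norm_eq, Fin.sum_univ_two]
  simp [pr2]

theorem exists_cut {δ : ℝ} (hδ : 0 < δ) : ∃ (χ : E3 → ℝ) (c : ℝ), ContDiff ℝ ∞ χ ∧ 0 ≤ c ∧
    (∀ x, |χ x| ≤ 1) ∧ (∀ x, rad x < δ / 2 → χ x = 1) ∧ (∀ x, δ ≤ rad x → χ x = 0) ∧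
    ∀ x, ‖fderiv ℝ χ x‖ ≤ c := by
  let b : ContDiffBump (0 : EuclideanSpace ℝ (Fin 2)) := ⟨δ / 2, δ, by positivity, by linarith⟩
  have hb : ContDiff ℝ ∞ b := b.contDiff
  obtain ⟨c, hc⟩ := (hb.continuous_fderiv (by simp)).bounded_above_of_compact_support
    (b.hasCompactSupport.fderiv ℝ)
  have hc0 : 0 ≤ c := (norm_nonneg _).trans (hc 0)
  refine ⟨fun x => b (pr2 x), c * ‖pr2‖, hb.comp pr2.contDiff, by positivity, ?_, ?_, ?_, ?_⟩
  · intro x
    rw [abs_of_nonneg b.nonneg]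
    exact b.le_one
  · intro x hx
    apply b.one_of_mem_closedBall
    rw [mem_closedBall_zero_iff, norm_pr2]
    exact hx.le
  · intro x hx
    apply b.zero_of_le_dist
    rw [dist_zero_right, norm_pr2]
    exact hx
  · intro x
    have h1 : HasFDerivAt (fun x => b (pr2 x)) ((fderiv ℝ b (pr2 x)).comp pr2) x :=
      ((hb.differentiable (by simp) _).hasFDerivAt).comp x pr2.hasFDerivAt
    rw [h1.fderiv]
    refine (ContinuousLinearMap.opNorm_comp_le _ _).trans ?_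
    gcongr
    exact hc _

theorem sq_eLpNorm {V : Type*} [NormedAddCommGroup V] (g : E3 → V) (μ : Measure E3) :
    eLpNorm g 2 μ ^ 2 = ∫⁻ x, ‖g x‖ₑ ^ 2 ∂μ := by
  rw [eLpNorm_eq_lintegral_rpow_enorm_toReal (by norm_num) (by norm_num)]
  rw [← ENNReal.rpow_natCast, ← ENNReal.rpow_mul]
  norm_num

theorem lint_univ (g : E3 → ℝ≥0∞) : ∫⁻ x, g x ∂(volume.restrict (univ : Set E3)) = ∫⁻ x, g x := by
  rw [Measure.restrict_univ]

theorem eLp_univ {V : Type*} [NormedAddCommGroup V] (g : E3 → V) (p : ℝ≥0∞) :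
    eLpNorm g p (volume.restrict (univ : Set E3)) = eLpNorm g p (volume : Measure E3) := by
  rw [Measure.restrict_univ]

/-- restriction to a neighbourhood of the axis -/
noncomputable def inA (δ : ℝ) : L2M univ →L[ℝ] L2M univ :=
  mulL M3 (volume.restrict (univ : Set E3)) ({x | rad x < δ / 2}.indicator 1) (measurable_one.indicator
    (isOpen_lt continuous_rad continuous_const).measurableSet)
    (fun x => by by_cases h : x ∈ {x | rad x < δ / 2} <;> simp [h])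

/-- restriction to the complement -/
noncomputable def outA (δ : ℝ) : L2M univ →L[ℝ] L2M univ :=
  mulL M3 (volume.restrict (univ : Set E3)) ({x | rad x < δ / 2}ᶜ.indicator 1) (measurable_one.indicator
    (isOpen_lt continuous_rad continuous_const).measurableSet.compl)
    (fun x => by by_cases h : x ∈ {x | rad x < δ / 2} <;> simp [h])

theorem inA_coe (δ : ℝ) (w : L2M univ) : (inA δ w : E3 → M3) =ᵐ[volume.restrict (univ : Set E3)]
    fun x => ({x | rad x < δ / 2}.indicator 1 x : ℝ) • w x := mulL_coe w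

theorem outA_coe (δ : ℝ) (w : L2M univ) : (outA δ w : E3 → M3) =ᵐ[volume.restrict (univ : Set E3)]
    fun x => ({x | rad x < δ / 2}ᶜ.indicator 1 x : ℝ) • w x := mulL_coe w

theorem split_A (δ : ℝ) (v w : L2M univ) : ⟪v, w⟫_ℝ = ⟪inA δ v, inA δ w⟫_ℝ + ⟪outA δ v, w⟫_ℝ :=
  mulL_split (isOpen_lt continuous_rad continuous_const).measurableSet v w

/-- near the axis. -/
theorem near_est {δ : ℝ} (hδ : 0 < δ) {σ : E3 → ℝ} (hm : Measurable σ) (hb : ∀ x, |σ x| ≤ 1)
    (h1 : ∀ x, rad x ≤ δ → σ x = 1) :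
    ∃ C : ℝ, 0 < C ∧ ∀ p ∈ preA,
      ‖inA δ (tensL p.1)‖ ^ 2
      ≤ C * (‖p.1‖ * (‖mulL M3 (volume.restrict (univ : Set E3)) σ hm hb p.2‖ + ‖p.1‖) ^ 3) := by
  obtain ⟨χ, c, hχ, hc0, hχ1, hχ2, hχ3, hχ4⟩ := exists_cut hδ
  refine ⟨((CS : ℝ) * (1 + c)) ^ 3 + 1, by positivity, ?_⟩
  intro p hp
  have hpW : p ∈ graphW univ := axW_le (Submodule.le_topologicalClosure _ hp)
  obtain ⟨φ, k1, k2, k3⟩ := hp
  set P := mulL M3 (volume.restrict (univ : Set E3)) σ hm hb with hP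
  have hφs := k1.1.smooth
  have hf : ContDiff ℝ 1 (fun x => χ x • φ x) := (hχ.smul hφs).of_le (by simp)
  have hfc : HasCompactSupport (fun x => χ x • φ x) :=
    (k1.1.compact.smul_left (f := χ) : HasCompactSupport (χ • φ))
  have e1 : ‖inA δ (tensL p.1)‖ₑ ≤ (eLpNorm (fun x => χ x • φ x) 4 (volume.restrict (univ : Set E3))) ^ 2 := by
    rw [← eLpNorm_tens, Lp.enorm_def]
    refine eLpNorm_mono_ae ?_
    have a1 := inA_coe δ (tensL p.1)
    filter_upwards [a1, tensL_coe MeasurableSet.univ hpW, k2] with x b1 b2 b3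
    rw [b1, b2, b3]
    by_cases hx : x ∈ {x | rad x < δ / 2}
    · rw [indicator_of_mem hx, hχ2 x hx, one_smul, Pi.one_apply, one_smul]
    · rw [indicator_of_notMem hx, zero_smul, norm_zero]
      exact norm_nonneg _
  have e2 : (eLpNorm (fun x => χ x • φ x) 4 (volume.restrict (univ : Set E3))) ^ 4
      ≤ eLpNorm φ 2 (volume.restrict (univ : Set E3)) * (CS * (‖P p.2‖ₑ + ENNReal.ofReal c * ‖p.1‖ₑ)) ^ 3 := by
    refine (eLpNorm_four_le _ hf.continuous.aestronglyMeasurable).trans ?_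
    have i1 : eLpNorm (fun x => χ x • φ x) 2 (volume.restrict (univ : Set E3)) ≤ eLpNorm φ 2 (volume.restrict (univ : Set E3)) := by
      refine eLpNorm_mono fun x => ?_
      rw [norm_smul, Real.norm_eq_abs]
      exact mul_le_of_le_one_left (norm_nonneg _) (hχ1 x)
    have i2 : eLpNorm (fun x => χ x • φ x) 6 (volume.restrict (univ : Set E3))
        ≤ CS * (‖P p.2‖ₑ + ENNReal.ofReal c * ‖p.1‖ₑ) := by
      rw [eLp_univ]
      refine (CS_spec _ hf hfc).trans ?_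
      gcongr
      have j1 : eLpNorm (fderiv ℝ (fun x => χ x • φ x)) 2 (volume : Measure E3)
          ≤ eLpNorm (fun x => ‖σ x • jac φ x‖ + c * ‖φ x‖) 2 (volume : Measure E3) := by
        refine eLpNorm_mono_real fun x => ?_
        have d1 : HasFDerivAt (fun x => χ x • φ x)
            (χ x • fderiv ℝ φ x + (fderiv ℝ χ x).smulRight (φ x)) x :=
          ((hχ.differentiable (by simp) x).hasFDerivAt).smul
            ((hφs.differentiable (by simp) x).hasFDerivAt)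
        rw [d1.fderiv]
        refine (norm_add_le _ _).trans ?_
        rw [norm_smul, norm_smul, ContinuousLinearMap.norm_smulRight_apply]
        have l1 : ‖χ x‖ ≤ ‖σ x‖ := by
          rcases le_or_gt (rad x) δ with h | h
          · rw [h1 x h, norm_one, Real.norm_eq_abs]; exact hχ1 x
          · rw [hχ3 x h.le, norm_zero]; exact norm_nonneg _
        have l2 := norm_fderiv_le_jac (φ := φ) x
        have l3 := hχ4 x
        gcongr
      refine j1.trans ?_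
      have m1 : AEStronglyMeasurable (fun x => ‖σ x • jac φ x‖) (volume : Measure E3) :=
        (hm.aestronglyMeasurable.smul (continuous_jac hφs).aestronglyMeasurable).norm
      have m2 : AEStronglyMeasurable (fun x => c * ‖φ x‖) (volume : Measure E3) :=
        (hφs.continuous.norm.aestronglyMeasurable).const_mul c
      refine (eLpNorm_add_le m1 m2 (by norm_num)).trans ?_
      have n1 : eLpNorm (fun x => ‖σ x • jac φ x‖) 2 (volume : Measure E3) = ‖P p.2‖ₑ := by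
        rw [Lp.enorm_def, eLpNorm_norm]
        have : eLpNorm (P p.2) 2 (volume.restrict (univ : Set E3)) = eLpNorm (fun x => σ x • jac φ x) 2 (volume.restrict (univ : Set E3)) := by
          refine eLpNorm_congr_ae ?_
          filter_upwards [mulL_coe (V := M3) (μ := (volume.restrict (univ : Set E3))) (hm := hm) (hb := hb) p.2, k3] with x b1 b2
          rw [b1, b2]
        rw [this, eLp_univ]
      have n2 : eLpNorm (fun x => c * ‖φ x‖) 2 (volume : Measure E3)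
          = ENNReal.ofReal c * ‖p.1‖ₑ := by
        rw [Lp.enorm_def, eLpNorm_congr_ae k2, eLp_univ]
        have : (fun x => c * ‖φ x‖) = c • fun x => ‖φ x‖ := by
          funext x; simp
        rw [this, eLpNorm_const_smul, eLpNorm_norm]
        congr 1
        rw [← ofReal_norm, Real.norm_of_nonneg hc0]
      rw [n1, n2]
    gcongr
  have e3 : ‖inA δ (tensL p.1)‖ₑ ^ 2
      ≤ ‖p.1‖ₑ * (CS * (‖P p.2‖ₑ + ENNReal.ofReal c * ‖p.1‖ₑ)) ^ 3 := by
    calc ‖inA δ (tensL p.1)‖ₑ ^ 2 ≤ ((eLpNorm (fun x => χ x • φ x) 4 (volume.restrict (univ : Set E3))) ^ 2) ^ 2 := by gcongr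
      _ = (eLpNorm (fun x => χ x • φ x) 4 (volume.restrict (univ : Set E3))) ^ 4 := by rw [← pow_mul]
      _ ≤ _ := e2
      _ = _ := by
          have ep : ‖p.1‖ₑ = eLpNorm φ 2 (volume.restrict (univ : Set E3)) := by rw [Lp.enorm_def, eLpNorm_congr_ae k2]
          rw [ep]
  have hfin : ‖p.1‖ₑ * (CS * (‖P p.2‖ₑ + ENNReal.ofReal c * ‖p.1‖ₑ)) ^ 3 ≠ ⊤ := by
    refine ENNReal.mul_ne_top enorm_ne_top (ENNReal.pow_ne_top (ENNReal.mul_ne_top (by simp) ?_))
    exact ENNReal.add_ne_top.mpr ⟨enorm_ne_top, ENNReal.mul_ne_top ENNReal.ofReal_ne_top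
      enorm_ne_top⟩
  have e4 := ENNReal.toReal_mono hfin e3
  rw [ENNReal.toReal_pow, toReal_enorm, ENNReal.toReal_mul, toReal_enorm, ENNReal.toReal_pow,
    ENNReal.toReal_mul, ENNReal.coe_toReal, ENNReal.toReal_add enorm_ne_top
      (ENNReal.mul_ne_top ENNReal.ofReal_ne_top enorm_ne_top), toReal_enorm, ENNReal.toReal_mul,
    ENNReal.toReal_ofReal hc0, toReal_enorm] at e4
  have e5 : ‖P p.2‖ + c * ‖p.1‖ ≤ (1 + c) * (‖P p.2‖ + ‖p.1‖) := by
    nlinarith [norm_nonneg (P p.2), norm_nonneg p.1, mul_nonneg hc0 (norm_nonneg (P p.2))]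
  calc ‖inA δ (tensL p.1)‖ ^ 2 ≤ ‖p.1‖ * (CS * (‖P p.2‖ + c * ‖p.1‖)) ^ 3 := e4
    _ ≤ ‖p.1‖ * (CS * ((1 + c) * (‖P p.2‖ + ‖p.1‖))) ^ 3 := by gcongr
    _ = ((CS : ℝ) * (1 + c)) ^ 3 * (‖p.1‖ * (‖P p.2‖ + ‖p.1‖) ^ 3) := by ring
    _ ≤ (((CS : ℝ) * (1 + c)) ^ 3 + 1) * (‖p.1‖ * (‖P p.2‖ + ‖p.1‖) ^ 3) := by
        gcongr; linarith

/-- away from the axis. -/
theorem far_est {δ : ℝ} (hδ : 0 < δ) : ∀ p ∈ preA,
      ‖outA δ (tensL p.1)‖ ^ 2
      ≤ 8 / δ * (‖p.1‖ * ‖p.2‖) ^ 2 := by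
  intro p hp
  have hpW : p ∈ graphW univ := axW_le (Submodule.le_topologicalClosure _ hp)
  obtain ⟨φ, k1, k2, k3⟩ := hp
  have hs : MeasurableSet ({x : E3 | rad x < δ / 2}) :=
    (isOpen_lt continuous_rad continuous_const).measurableSet
  have hφs := k1.1.smooth
  have hφ1 : ContDiff ℝ 1 φ := hφs.of_le (by simp)
  set f : E3 → ℝ := fun x => ‖φ x‖ ^ 2 with hf
  have hfs : ContDiff ℝ 1 f := hφ1.norm_sq ℝ
  have hfc : HasCompactSupport f := by
    refine k1.1.compact.mono fun x hx => ?_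
    intro h0
    apply hx
    simp [hf, h0]
  have hfi : ∀ θ x, f (rotC θ x) = f x := by
    intro θ x
    simp only [hf]
    rw [k1.2, norm_rotC]
  have e1 := far_scalar hfs hfc hfi (half_pos hδ)
  have e2 : ‖outA δ (tensL p.1)‖ₑ ^ 2 = ∫⁻ x in {x | δ / 2 ≤ rad x}, ‖f x‖ₑ ^ 2 := by
    rw [Lp.enorm_def, sq_eLpNorm]
    have hset : {x : E3 | δ / 2 ≤ rad x} = {x : E3 | rad x < δ / 2}ᶜ := by
      ext x; simp
    rw [hset, ← lintegral_indicator hs.compl]
    rw [← lint_univ]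
    have a1 := outA_coe δ (tensL p.1)
    have a2 := tensL_coe MeasurableSet.univ hpW
    refine lintegral_congr_ae ?_
    filter_upwards [a1, a2, k2] with x b1 b2 b3
    rw [b1, b2, b3]
    by_cases hx : x ∈ {x : E3 | rad x < δ / 2}ᶜ
    · rw [indicator_of_mem hx, indicator_of_mem hx, Pi.one_apply, one_smul]
      congr 1
      rw [← ofReal_norm, ← ofReal_norm, norm_tens, Real.norm_of_nonneg (by positivity)]
    · rw [indicator_of_notMem hx, indicator_of_notMem hx, zero_smul]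
      simp
  have e3 : ∫⁻ x, ‖fderiv ℝ f x‖ₑ ≤ 2 * (‖p.1‖ₑ * ‖p.2‖ₑ) := by
    have a1 : ∀ x, ‖fderiv ℝ f x‖ₑ ≤ 2 * (‖φ x‖ₑ * ‖jac φ x‖ₑ) := by
      intro x
      have d1 : HasFDerivAt f (2 • (innerSL ℝ (φ x)).comp (fderiv ℝ φ x)) x :=
        ((hφ1.differentiable one_ne_zero x).hasFDerivAt).norm_sq
      rw [d1.fderiv, ← ofReal_norm, ← ofReal_norm, ← ofReal_norm, ← ENNReal.ofReal_mul (by positivity)]
      have : (2 : ℝ≥0∞) * ENNReal.ofReal (‖φ x‖ * ‖jac φ x‖)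
          = ENNReal.ofReal (2 * (‖φ x‖ * ‖jac φ x‖)) := by
        rw [ENNReal.ofReal_mul (by norm_num : (0 : ℝ) ≤ 2)]; norm_num
      rw [this]
      apply ENNReal.ofReal_le_ofReal
      have l1 : ‖(2 : ℕ) • (innerSL ℝ (φ x)).comp (fderiv ℝ φ x)‖
          ≤ 2 * ‖(innerSL ℝ (φ x)).comp (fderiv ℝ φ x)‖ := by
        refine (norm_nsmul_le).trans ?_
        simp
      refine l1.trans ?_
      gcongr
      refine (ContinuousLinearMap.opNorm_comp_le _ _).trans ?_
      rw [innerSL_apply_norm]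
      gcongr
      exact norm_fderiv_le_jac x
    refine (lintegral_mono a1).trans ?_
    rw [lintegral_const_mul' _ _ (by simp)]
    gcongr
    have a2 := ENNReal.lintegral_mul_le_Lp_mul_Lq (volume : Measure E3)
      Real.HolderConjugate.two_two (f := fun x => ‖φ x‖ₑ) (g := fun x => ‖jac φ x‖ₑ)
      hφs.continuous.enorm.aemeasurable (continuous_jac hφs).enorm.aemeasurable
    refine a2.trans (le_of_eq ?_)
    rw [Lp.enorm_def, Lp.enorm_def, eLpNorm_congr_ae k2, eLpNorm_congr_ae k3,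
      Measure.restrict_univ,
      eLpNorm_eq_lintegral_rpow_enorm_toReal (by norm_num) (by norm_num),
      eLpNorm_eq_lintegral_rpow_enorm_toReal (by norm_num) (by norm_num)]
    norm_num
  have e4 : ‖outA δ (tensL p.1)‖ₑ ^ 2
      ≤ ENNReal.ofReal (δ / 2)⁻¹ * (2 * (‖p.1‖ₑ * ‖p.2‖ₑ)) ^ 2 := by
    rw [e2]
    refine e1.trans ?_
    gcongr
  have e5 := ENNReal.toReal_mono (ENNReal.mul_ne_top ENNReal.ofReal_ne_top
    (ENNReal.pow_ne_top (ENNReal.mul_ne_top (by simp) (ENNReal.mul_ne_top enorm_ne_top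
      enorm_ne_top)))) e4
  rw [ENNReal.toReal_pow, toReal_enorm, ENNReal.toReal_mul, ENNReal.toReal_pow,
    ENNReal.toReal_ofReal (by positivity), ENNReal.toReal_mul, ENNReal.toReal_mul, toReal_enorm,
    toReal_enorm] at e5
  refine e5.trans (le_of_eq ?_)
  simp only [ENNReal.toReal_ofNat]
  field_simp
  ring

/-- the decisive property. -/
theorem axis_all {δ : ℝ} (hδ : 0 < δ) {σ : E3 → ℝ} (hm : Measurable σ) (hb : ∀ x, |σ x| ≤ 1)
    (h1 : ∀ x, rad x ≤ δ → σ x = 1) :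
    ∃ C : ℝ, 0 < C ∧ ∀ p ∈ axW, ∀ y : L2M univ, |⟪tensL p.1, y⟫_ℝ|
      ≤ C * (‖mulL M3 (volume.restrict (univ : Set E3)) σ hm hb y‖ * Real.sqrt (‖p.1‖ * (‖mulL M3 (volume.restrict (univ : Set E3)) σ hm hb p.2‖ + ‖p.1‖) ^ 3)
        + ‖y‖ * (‖p.1‖ * ‖p.2‖)) := by
  obtain ⟨C, hC, hn⟩ := near_est hδ hm hb h1
  have hfar := far_est hδ
  set P := mulL M3 (volume.restrict (univ : Set E3)) σ hm hb with hP
  refine ⟨Real.sqrt C + Real.sqrt (8 / δ), by positivity, ?_⟩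
  intro p hp y
  set D := Real.sqrt C + Real.sqrt (8 / δ) with hD
  have hs : MeasurableSet ({x : E3 | rad x < δ / 2}) :=
    (isOpen_lt continuous_rad continuous_const).measurableSet
  have key := axW_le_of (F := fun p => |⟪tensL p.1, y⟫_ℝ|
      - D * (‖P y‖ * Real.sqrt (‖p.1‖ * (‖P p.2‖ + ‖p.1‖) ^ 3) + ‖y‖ * (‖p.1‖ * ‖p.2‖))) (by
    have h1 : ContinuousOn (fun p : L2V univ × L2M univ => |⟪tensL p.1, y⟫_ℝ|)
        (graphW univ : Set (L2V univ × L2M univ)) :=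
      ((tensL_continuousOn MeasurableSet.univ).inner continuousOn_const).abs
    have h2 : Continuous (fun p : L2V univ × L2M univ =>
        D * (‖P y‖ * Real.sqrt (‖p.1‖ * (‖P p.2‖ + ‖p.1‖) ^ 3) + ‖y‖ * (‖p.1‖ * ‖p.2‖))) := by
      fun_prop
    exact h1.sub h2.continuousOn) (by
    intro q hq
    rw [sub_nonpos]
    have a1 := hn q hq
    have a2 := hfar q hq
    rw [split_A δ (tensL q.1) y]
    set Ay := inA δ y with hAy
    set At := inA δ (tensL q.1) with hAt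
    set Bt := outA δ (tensL q.1) with hBt
    have b1 : ‖Ay‖ ≤ ‖P y‖ := by
      apply mulL_mono
      intro x
      by_cases hx : x ∈ {x | rad x < δ / 2}
      · have hx' : rad x < δ / 2 := hx
        rw [indicator_of_mem hx, h1 x (by linarith)]
        simp
      · rw [indicator_of_notMem hx]; simp
    have b2 : ‖At‖ ≤ Real.sqrt C * Real.sqrt (‖q.1‖ * (‖P q.2‖ + ‖q.1‖) ^ 3) := by
      rw [← Real.sqrt_mul hC.le]
      exact Real.le_sqrt_of_sq_le a1
    have b3 : ‖Bt‖ ≤ Real.sqrt (8 / δ) * (‖q.1‖ * ‖q.2‖) := by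
      have : Real.sqrt (8 / δ) * (‖q.1‖ * ‖q.2‖) = Real.sqrt (8 / δ * (‖q.1‖ * ‖q.2‖) ^ 2) := by
        rw [Real.sqrt_mul (by positivity), Real.sqrt_sq (by positivity)]
      rw [this]
      exact Real.le_sqrt_of_sq_le a2
    have s1 := Real.sqrt_nonneg C
    have s2 := Real.sqrt_nonneg (8 / δ)
    set Q := Real.sqrt (‖q.1‖ * (‖P q.2‖ + ‖q.1‖) ^ 3) with hQ
    have hQ0 : 0 ≤ Q := Real.sqrt_nonneg _
    calc |⟪At, Ay⟫_ℝ + ⟪Bt, y⟫_ℝ| ≤ |⟪At, Ay⟫_ℝ| + |⟪Bt, y⟫_ℝ| := abs_add_le _ _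
      _ ≤ ‖At‖ * ‖Ay‖ + ‖Bt‖ * ‖y‖ :=
          add_le_add (abs_real_inner_le_norm _ _) (abs_real_inner_le_norm _ _)
      _ ≤ (Real.sqrt C * Q) * ‖P y‖ + (Real.sqrt (8 / δ) * (‖q.1‖ * ‖q.2‖)) * ‖y‖ := by gcongr
      _ ≤ D * (‖P y‖ * Q + ‖y‖ * (‖q.1‖ * ‖q.2‖)) := by
          have t1 : 0 ≤ ‖P y‖ * Q := by positivity
          have t2 : 0 ≤ ‖y‖ * (‖q.1‖ * ‖q.2‖) := by positivity
          rw [hD]
          nlinarith [mul_nonneg s1 t2, mul_nonneg s2 t1]) hp
  exact sub_nonpos.mp key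

end H772R2.NAX
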