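import Mathlib
import Pool.Agent.H772R2.NAX.Near
import Pool.Agent.H772R2.NAX.Lim
import Pool.Agent.H772R2.NSR.Rell

/-!
Local compactness.
-/

set_option linter.unusedSectionVars false

open MeasureTheory Set Filter Topology Metric
open scoped InnerProductSpace NNReal ENNReal ContDiff

namespace H772R2.NAX

open H772R2.NS
open H772R2.NSR (vecOf vecOf_apply norm_le_sum)

/-- restriction to a ball -/
noncomputable def ballL (r : ℝ) : L2V univ →L[ℝ] L2V univ :=
  mulL E3 (volume.restrict (univ : Set E3)) ((closedBall (0 : E3) r).indicator 1) (measurable_one.indicator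
    measurableSet_closedBall) (fun x => by by_cases h : x ∈ closedBall (0 : E3) r <;> simp [h])

theorem ballL_coe (r : ℝ) (w : L2V univ) : (ballL r w : E3 → E3) =ᵐ[volume.restrict (univ : Set E3)]
    fun x => ((closedBall (0 : E3) r).indicator 1 x : ℝ) • w x := mulL_coe w

theorem ballL_le (r : ℝ) (w : L2V univ) : ‖ballL r w‖ ≤ ‖w‖ := mulL_le w

theorem coordχ_test {χ : E3 → ℝ} (hχ : ContDiff ℝ ∞ χ) {r : ℝ} (hχs : ∀ x, r ≤ ‖x‖ → χ x = 0)
    {φ : E3 → E3} (h : NS.IsTest univ φ) (i : Fin 3) :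
    Pool.Agent.Helper793.QEig.IsTest (ball (0 : E3) (r + 1)) (fun x => χ x * φ x i) := by
  refine ⟨hχ.mul (contDiff_coord h.smooth i), (hasCompactSupport_coord h.compact i).mul_left, ?_⟩
  have h1 : tsupport (fun x => χ x * φ x i) ⊆ closedBall (0 : E3) r := by
    refine closure_minimal ?_ isClosed_closedBall
    intro x hx
    by_contra hcon
    rw [mem_closedBall_zero_iff, not_le] at hcon
    apply hx
    simp only
    rw [hχs x hcon.le, zero_mul]
  exact h1.trans (closedBall_subset_ball (by linarith))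

theorem coordχ_fderiv {χ : E3 → ℝ} (hχ : ContDiff ℝ ∞ χ) {c : ℝ} (hχ1 : ∀ x, |χ x| ≤ 1)
    (hχ4 : ∀ x, ‖fderiv ℝ χ x‖ ≤ c) {φ : E3 → E3} (h : ContDiff ℝ ∞ φ) (i : Fin 3) :
    eLpNorm (fderiv ℝ (fun x => χ x * φ x i)) 2 (volume : Measure E3)
      ≤ eLpNorm (fun x => ‖jac φ x‖ + c * ‖φ x‖) 2 (volume : Measure E3) := by
  refine eLpNorm_mono_real fun x => ?_
  have d1 : HasFDerivAt (fun x => χ x * φ x i)
      (χ x • fderiv ℝ (fun x => φ x i) x + φ x i • fderiv ℝ χ x) x :=
    ((hχ.differentiable (by simp) x).hasFDerivAt).mul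
      (((contDiff_coord h i).differentiable (by simp) x).hasFDerivAt)
  rw [d1.fderiv]
  refine (norm_add_le _ _).trans ?_
  rw [norm_smul, norm_smul, Real.norm_eq_abs]
  have l1 : ‖fderiv ℝ (fun x => φ x i) x‖ ≤ ‖jac φ x‖ := by
    refine le_trans ?_ (norm_fderiv_le_jac x)
    refine ContinuousLinearMap.opNorm_le_bound _ (norm_nonneg _) fun v => ?_
    rw [fderiv_coord h]
    exact (PiLp.norm_apply_le (fderiv ℝ φ x v) i).trans (ContinuousLinearMap.le_opNorm _ _)
  have l2 : ‖φ x i‖ ≤ ‖φ x‖ := PiLp.norm_apply_le (φ x) i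
  have l3 := hχ1 x
  have l4 := hχ4 x
  calc |χ x| * ‖fderiv ℝ (fun x => φ x i) x‖ + ‖φ x i‖ * ‖fderiv ℝ χ x‖
      ≤ 1 * ‖jac φ x‖ + ‖φ x‖ * c := by gcongr
    _ = _ := by ring

open Classical in
/-- the class of a vector function in the ball. -/
noncomputable def clsB (r : ℝ) (ψ : Fin 3 → E3 → ℝ) : L2V univ :=
  if h : MemLp (fun x => ((closedBall (0 : E3) r).indicator 1 x : ℝ) • vecOf ψ x) 2 (volume.restrict (univ : Set E3))
    then h.toLp _ else 0

theorem exists_ballcut {r : ℝ} (hr : 0 < r) : ∃ (χ : E3 → ℝ) (c : ℝ), ContDiff ℝ ∞ χ ∧ 0 ≤ c ∧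
    (∀ x, |χ x| ≤ 1) ∧ (∀ x, ‖x‖ ≤ r → χ x = 1) ∧ (∀ x, r + 1 ≤ ‖x‖ → χ x = 0) ∧
    ∀ x, ‖fderiv ℝ χ x‖ ≤ c := by
  let b : ContDiffBump (0 : E3) := ⟨r, r + 1, hr, by linarith⟩
  have hb : ContDiff ℝ ∞ b := b.contDiff
  obtain ⟨c, hc⟩ := (hb.continuous_fderiv (by simp)).bounded_above_of_compact_support
    (b.hasCompactSupport.fderiv ℝ)
  have hc0 : 0 ≤ c := (norm_nonneg _).trans (hc 0)
  refine ⟨b, c, hb, hc0, ?_, ?_, ?_, hc⟩
  · intro x
    rw [abs_of_nonneg b.nonneg]
    exact b.le_one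
  · intro x hx
    apply b.one_of_mem_closedBall
    rw [mem_closedBall_zero_iff]
    exact hx
  · intro x hx
    apply b.zero_of_le_dist
    rw [dist_zero_right]
    exact hx

/-- local Rellich. -/
theorem rellich_loc {r : ℝ} (hr : 0 < r) (R : ℝ) :
    TotallyBounded (ballL r '' {v : L2V univ | ∃ z, (v, z) ∈ graphW univ ∧ ‖v‖ ≤ R ∧ ‖z‖ ≤ R}) := by
  obtain ⟨χ, c, hχ, hc0, hχ1, hχ2, hχ3, hχ4⟩ := exists_ballcut hr
  set M : ℝ≥0 := ((R + 1) * (1 + c)).toNNReal with hM
  set A : Set (L2V univ) := {v | ∃ φ, NS.IsTest univ φ ∧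
    v =ᵐ[volume.restrict (univ : Set E3)] (fun x => ((closedBall (0 : E3) r).indicator 1 x : ℝ) • φ x) ∧
    eLpNorm (fun x => ‖jac φ x‖ + c * ‖φ x‖) 2 (volume : Measure E3) ≤ M} with hA
  have hAtb : TotallyBounded A := by
    rw [Metric.totallyBounded_iff]
    intro ε hε
    obtain ⟨T, hTf, hT, hTc⟩ := Pool.Agent.Helper793.Sob.rellich (N := 3) (by norm_num)
      (Ω := ball (0 : E3) (r + 1 + 1)) isBounded_ball M (ε := ε / 4) (by positivity)
    refine ⟨clsB r '' (Set.pi univ (fun _ : Fin 3 => T)),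
      (Set.Finite.pi fun _ => hTf).image _, ?_⟩
    rintro v ⟨φ, h1, h2, h3⟩
    have hch : ∀ i : Fin 3, ∃ ψ ∈ T, eLpNorm (fun x => χ x * φ x i - ψ x) 2 (volume : Measure E3)
        ≤ ENNReal.ofReal (ε / 4) := fun i =>
      hTc _ (coordχ_test hχ hχ3 h1 i) ((coordχ_fderiv hχ hχ1 hχ4 h1.smooth i).trans h3)
    choose ψ hψT hψ using hch
    simp only [mem_iUnion]
    refine ⟨clsB r ψ, ⟨ψ, fun i _ => hψT i, rfl⟩, ?_⟩
    have hψm : ∀ i, MemLp (ψ i) 2 (volume : Measure E3) := fun i =>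
      (hT _ (hψT i)).1.1.continuous.memLp_of_hasCompactSupport
        (hT _ (hψT i)).1.2.1 (p := 2) (μ := (volume : Measure E3))
    have hvm0 : MemLp (vecOf ψ) 2 (volume.restrict (univ : Set E3)) := by
      have hc : Continuous (vecOf ψ) := by
        unfold vecOf
        refine (PiLp.continuous_toLp 2 _).comp ?_
        exact continuous_pi (fun i => (hT _ (hψT i)).1.1.continuous)
      have hcs : HasCompactSupport (vecOf ψ) := by
        have hK : IsCompact (⋃ i, tsupport (ψ i)) :=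
          isCompact_iUnion fun i => (hT _ (hψT i)).1.2.1
        refine HasCompactSupport.intro hK fun x hx => ?_
        ext i
        rw [vecOf_apply]
        have : x ∉ tsupport (ψ i) := fun h => hx (mem_iUnion.mpr ⟨i, h⟩)
        exact image_eq_zero_of_notMem_tsupport this
      exact (hc.memLp_of_hasCompactSupport hcs).restrict _
    have hind : Measurable ((closedBall (0 : E3) r).indicator (1 : E3 → ℝ)) :=
      measurable_one.indicator measurableSet_closedBall
    have hvm : MemLp (fun x => ((closedBall (0 : E3) r).indicator 1 x : ℝ) • vecOf ψ x) 2 (volume.restrict (univ : Set E3)) := by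
      refine hvm0.of_le (hind.aestronglyMeasurable.smul hvm0.1) (Eventually.of_forall fun x => ?_)
      rw [norm_smul]
      refine mul_le_of_le_one_left (norm_nonneg _) ?_
      by_cases h : x ∈ closedBall (0 : E3) r <;> simp [h]
    have hcoe : (clsB r ψ : E3 → E3) =ᵐ[volume.restrict (univ : Set E3)]
        fun x => ((closedBall (0 : E3) r).indicator 1 x : ℝ) • vecOf ψ x := by
      unfold clsB
      rw [dif_pos hvm]
      exact hvm.coeFn_toLp
    have hφm : ∀ i, AEStronglyMeasurable (fun x => χ x * φ x i) (volume : Measure E3) := fun i =>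
      (hχ.continuous.mul (contDiff_coord h1.smooth i).continuous).aestronglyMeasurable
    have key : ‖v - clsB r ψ‖ₑ ≤ ENNReal.ofReal (3 * (ε / 4)) := by
      rw [Lp.enorm_def]
      have e1 : eLpNorm (v - clsB r ψ : L2V univ) 2 (volume.restrict (univ : Set E3))
          = eLpNorm (fun x => ((closedBall (0 : E3) r).indicator 1 x : ℝ) • φ x
            - ((closedBall (0 : E3) r).indicator 1 x : ℝ) • vecOf ψ x) 2 (volume.restrict (univ : Set E3)) := by
        apply eLpNorm_congr_ae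
        refine (Lp.coeFn_sub _ _).trans ?_
        exact h2.sub hcoe
      rw [e1, eLp_univ]
      calc eLpNorm (fun x => ((closedBall (0 : E3) r).indicator 1 x : ℝ) • φ x
            - ((closedBall (0 : E3) r).indicator 1 x : ℝ) • vecOf ψ x) 2 volume
          ≤ eLpNorm (∑ i : Fin 3, fun x => ‖χ x * φ x i - ψ i x‖) 2 (volume : Measure E3) := by
            refine eLpNorm_mono_real fun x => ?_
            rw [Finset.sum_apply]
            by_cases hx : x ∈ closedBall (0 : E3) r
            · rw [indicator_of_mem hx, Pi.one_apply, one_smul, one_smul]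
              refine (norm_le_sum _).trans (le_of_eq ?_)
              refine Finset.sum_congr rfl fun i _ => ?_
              rw [hχ2 x (mem_closedBall_zero_iff.mp hx), one_mul]
              rfl
            · rw [indicator_of_notMem hx, zero_smul, zero_smul, sub_zero, norm_zero]
              exact Finset.sum_nonneg fun i _ => norm_nonneg _
        _ ≤ ∑ i : Fin 3, eLpNorm (fun x => ‖χ x * φ x i - ψ i x‖) 2 (volume : Measure E3) :=
            eLpNorm_sum_le (fun i _ => ((hφm i).sub (hψm i).1).norm) (by norm_num)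
        _ ≤ ∑ _i : Fin 3, ENNReal.ofReal (ε / 4) := by
            refine Finset.sum_le_sum fun i _ => ?_
            rw [eLpNorm_norm]
            exact hψ i
        _ = ENNReal.ofReal (3 * (ε / 4)) := by
            rw [Finset.sum_const, Finset.card_univ, Fintype.card_fin,
              ENNReal.ofReal_mul (by norm_num)]
            simp
    rw [mem_ball, dist_eq_norm]
    have h5 := ENNReal.toReal_mono ENNReal.ofReal_ne_top key
    rw [toReal_enorm, ENNReal.toReal_ofReal (by positivity)] at h5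
    linarith
  refine hAtb.closure.subset ?_
  rintro _ ⟨v, ⟨z, hz, hvR, hzR⟩, rfl⟩
  rw [Metric.mem_closure_iff]
  intro ε hε
  have hp' : (v, z) ∈ closure (preW univ : Set (L2V univ × L2M univ)) := by
    have := hz
    unfold graphW at this
    rwa [← SetLike.mem_coe, Submodule.topologicalClosure_coe] at this
  rw [Metric.mem_closure_iff] at hp'
  obtain ⟨q, hq, hd⟩ := hp' (min ε 1) (lt_min hε one_pos)
  rw [Prod.dist_eq, max_lt_iff] at hd
  obtain ⟨φ, h1, h2, h3⟩ := hq
  refine ⟨ballL r q.1, ⟨φ, h1, ?_, ?_⟩, ?_⟩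
  · filter_upwards [ballL_coe r q.1, h2] with x a b
    rw [a, b]
  · have hq2 : ‖q.2‖ ≤ R + 1 := by
      have h4 : dist z q.2 < 1 := hd.2.trans_le (min_le_right _ _)
      rw [dist_eq_norm] at h4
      have h5 : ‖q.2‖ ≤ ‖z‖ + ‖z - q.2‖ := by
        have := norm_sub_le z (z - q.2)
        simpa using this
      linarith
    have hq1 : ‖q.1‖ ≤ R + 1 := by
      have h4 : dist v q.1 < 1 := hd.1.trans_le (min_le_right _ _)
      rw [dist_eq_norm] at h4
      have h5 : ‖q.1‖ ≤ ‖v‖ + ‖v - q.1‖ := by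
        have := norm_sub_le v (v - q.1)
        simpa using this
      linarith
    have hR0 : 0 ≤ R := (norm_nonneg _).trans hzR
    have m1 : AEStronglyMeasurable (fun x => ‖jac φ x‖) (volume : Measure E3) :=
      (continuous_jac h1.smooth).norm.aestronglyMeasurable
    have m2 : AEStronglyMeasurable (fun x => c * ‖φ x‖) (volume : Measure E3) :=
      (h1.smooth.continuous.norm.aestronglyMeasurable).const_mul c
    refine (eLpNorm_add_le m1 m2 (by norm_num)).trans ?_
    have n1 : eLpNorm (fun x => ‖jac φ x‖) 2 (volume : Measure E3) = ‖q.2‖ₑ := by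
      rw [eLpNorm_norm, Lp.enorm_def, eLpNorm_congr_ae h3, eLp_univ]
    have n2 : eLpNorm (fun x => c * ‖φ x‖) 2 (volume : Measure E3)
        = ENNReal.ofReal c * ‖q.1‖ₑ := by
      rw [Lp.enorm_def, eLpNorm_congr_ae h2, eLp_univ]
      have : (fun x => c * ‖φ x‖) = c • fun x => ‖φ x‖ := by
        funext x; simp
      rw [this, eLpNorm_const_smul, eLpNorm_norm]
      congr 1
      rw [← ofReal_norm, Real.norm_of_nonneg hc0]
    rw [n1, n2, ← ofReal_norm, ← ofReal_norm, ← ENNReal.ofReal_mul hc0,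
      ← ENNReal.ofReal_add (norm_nonneg _) (by positivity), hM]
    show _ ≤ ENNReal.ofReal _
    apply ENNReal.ofReal_le_ofReal
    nlinarith [mul_le_mul_of_nonneg_left hq1 hc0]
  · refine lt_of_le_of_lt ?_ (hd.1.trans_le (min_le_left _ _))
    rw [dist_eq_norm, dist_eq_norm, ← map_sub]
    exact ballL_le r _

/-- the local bound on the nonlinearity. -/
theorem loc_bound {p : L2V univ × L2M univ} (hp : p ∈ preA) : ∃ (r c : ℝ), 0 < r ∧
    ∀ v w : L2V univ, ∀ z y : L2M univ, (v, z) ∈ graphW univ → (w, y) ∈ graphW univ →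
      |⟪tensL v - tensL w, p.2⟫_ℝ| ≤ c * ((‖v‖ + ‖w‖) * ‖ballL r (v - w)‖) := by
  obtain ⟨φ, h1, h2, h3⟩ := hp
  obtain ⟨r, hr0, hr⟩ := exists_rad (hasCompactSupport_jac h1.1.compact)
  obtain ⟨M, hM⟩ := (continuous_jac h1.1.smooth).bounded_above_of_compact_support
    (hasCompactSupport_jac h1.1.compact)
  have hM0 : 0 ≤ M := (norm_nonneg _).trans (hM 0)
  refine ⟨r + 1, M, by linarith, ?_⟩
  intro v w z y hv hw
  set B := ballL (r + 1) (v - w) with hB
  have e1 : ‖(⟪tensL v - tensL w, p.2⟫_ℝ : ℝ)‖ₑ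
      ≤ ∫⁻ x, ENNReal.ofReal M * (‖B x‖ₑ * ‖v x‖ₑ + ‖B x‖ₑ * ‖w x‖ₑ) ∂(volume.restrict (univ : Set E3)) := by
    rw [L2.inner_def]
    refine (enorm_integral_le_lintegral_enorm _).trans ?_
    refine lintegral_mono_ae ?_
    filter_upwards [Lp.coeFn_sub (tensL v) (tensL w), tensL_coe MeasurableSet.univ hv,
      tensL_coe MeasurableSet.univ hw, h3, ballL_coe (r + 1) (v - w), Lp.coeFn_sub v w]
      with x a1 a2 a3 a4 a5 a6
    rw [a1, Pi.sub_apply, a2, a3, a4]
    by_cases hx : ‖x‖ ≤ r + 1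
    · have b1 : B x = v x - w x := by
        rw [hB, a5, a6, indicator_of_mem (mem_closedBall_zero_iff.mpr hx), Pi.one_apply, one_smul]
        rfl
      rw [b1]
      simp only [← ofReal_norm]
      rw [← ENNReal.ofReal_mul (norm_nonneg _), ← ENNReal.ofReal_mul (norm_nonneg _),
        ← ENNReal.ofReal_add (by positivity) (by positivity), ← ENNReal.ofReal_mul hM0]
      apply ENNReal.ofReal_le_ofReal
      calc ‖(⟪tens (v x) - tens (w x), jac φ x⟫_ℝ : ℝ)‖
          ≤ ‖tens (v x) - tens (w x)‖ * ‖jac φ x‖ := norm_inner_le_norm _ _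
        _ ≤ (‖v x - w x‖ * (‖v x‖ + ‖w x‖)) * M := by
            gcongr
            · exact norm_tens_sub _ _
            · exact hM x
        _ = _ := by ring
    · have : jac φ x = 0 := hr x (by linarith [not_le.mp hx])
      rw [this, inner_zero_right]
      simp
  have e2 : ∀ a b : L2V univ, ∫⁻ x, ‖a x‖ₑ * ‖b x‖ₑ ∂(volume.restrict (univ : Set E3)) ≤ ‖a‖ₑ * ‖b‖ₑ := by
    intro a b
    have a2 := ENNReal.lintegral_mul_le_Lp_mul_Lq (volume.restrict (univ : Set E3))
      Real.HolderConjugate.two_two (f := fun x => ‖a x‖ₑ) (g := fun x => ‖b x‖ₑ)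
      (Lp.aestronglyMeasurable a).enorm (Lp.aestronglyMeasurable b).enorm
    refine a2.trans (le_of_eq ?_)
    rw [Lp.enorm_def, Lp.enorm_def,
      eLpNorm_eq_lintegral_rpow_enorm_toReal (by norm_num) (by norm_num),
      eLpNorm_eq_lintegral_rpow_enorm_toReal (by norm_num) (by norm_num)]
    norm_num
  have e3 : ‖(⟪tensL v - tensL w, p.2⟫_ℝ : ℝ)‖ₑ
      ≤ ENNReal.ofReal M * (‖B‖ₑ * ‖v‖ₑ + ‖B‖ₑ * ‖w‖ₑ) := by
    refine e1.trans ?_
    rw [lintegral_const_mul' _ _ ENNReal.ofReal_ne_top, lintegral_add_left']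
    · gcongr
      · exact e2 _ _
      · exact e2 _ _
    · exact (Lp.aestronglyMeasurable B).enorm.mul (Lp.aestronglyMeasurable v).enorm
  have e4 := ENNReal.toReal_mono (by
    refine ENNReal.mul_ne_top ENNReal.ofReal_ne_top (ENNReal.add_ne_top.mpr ⟨?_, ?_⟩)
    · exact ENNReal.mul_ne_top enorm_ne_top enorm_ne_top
    · exact ENNReal.mul_ne_top enorm_ne_top enorm_ne_top) e3
  rw [toReal_enorm, ENNReal.toReal_mul, ENNReal.toReal_ofReal hM0, ENNReal.toReal_add
    (ENNReal.mul_ne_top enorm_ne_top enorm_ne_top) (ENNReal.mul_ne_top enorm_ne_top enorm_ne_top),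
    ENNReal.toReal_mul, ENNReal.toReal_mul, toReal_enorm, toReal_enorm, toReal_enorm,
    Real.norm_eq_abs] at e4
  refine e4.trans (le_of_eq ?_)
  ring

/-- local compactness of the axisymmetric space. -/
theorem lc_axW : LC (axW : Submodule ℝ (L2V univ × L2M univ)) tensL
    (preA : Set (L2V univ × L2M univ)) := by
  refine ⟨Submodule.le_topologicalClosure _, ?_, ?_⟩
  · rw [axW_coe]
  · intro p hp
    obtain ⟨r, c, hr, hb⟩ := loc_bound hp
    refine ⟨ballL r, c, ?_, ?_⟩
    · intro R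
      refine (rellich_loc hr R).subset ?_
      refine image_mono ?_
      rintro v ⟨z, hz, h1, h2⟩
      exact ⟨z, axW_le hz, h1, h2⟩
    · intro v w z y hv hw
      exact hb v w z y (axW_le hv) (axW_le hw)

end H772R2.NAX
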