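import Mathlib
import Pool.Agent.H772R2.NAX.Loc
import Pool.Agent.H772R2.NSR.Conc

/-!
The concrete axisymmetric frame.
-/

set_option linter.unusedSectionVars false

open MeasureTheory Set Filter Topology Metric
open scoped InnerProductSpace NNReal ENNReal ContDiff

namespace H772R2.NAX

open H772R2.NS
open H772R2.NSR (tensL_para)

theorem tens_anti {p q : L2V univ × L2M univ} (hp : p ∈ graphW univ) (hq : q ∈ graphW univ) :
    ⟪tensL p.1 - tensL q.1, p.2 - q.2⟫_ℝ = -⟪tensL (p.1 - q.1), q.2⟫_ℝ := by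
  have hm : MeasurableSet (univ : Set E3) := MeasurableSet.univ
  have hort : ∀ p ∈ graphW (univ : Set E3), ⟪tensL p.1, p.2⟫_ℝ = 0 :=
    fun p hp => inner_tensL_zero hm hp
  have hw : p - q ∈ graphW univ := (graphW univ).sub_mem hp hq
  have h1 := hort _ ((graphW univ).add_mem hq hw)
  have h2 := hort _ ((graphW univ).sub_mem hq hw)
  have h3 := hort _ hq
  have h4 := hort _ hw
  have hpar := tensL_para hm hq hw
  have e1 : q.1 + (p - q).1 = p.1 := by simp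
  have e2 : (q + (p - q)) = p := by simp
  rw [e1] at hpar
  rw [e2] at h1
  have e3 : tensL (q - (p - q)).1 = (2 : ℝ) • tensL q.1 + (2 : ℝ) • tensL (p - q).1
      - tensL p.1 := by
    rw [← hpar]
    simp
  rw [e3] at h2
  have e4 : (q - (p - q)).2 = q.2 - (p.2 - q.2) := rfl
  have e5 : (p - q).2 = p.2 - q.2 := rfl
  have e6 : (p - q).1 = p.1 - q.1 := rfl
  rw [e5, e6] at h4
  rw [e4, e6] at h2
  simp only [inner_add_left, inner_sub_left, inner_sub_right, real_inner_smul_left] at h2 h4 ⊢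
  linarith

theorem tens_lips {p q : L2V univ × L2M univ} (hp : p ∈ graphW univ) (hq : q ∈ graphW univ) :
    ‖tensL p.1 - tensL q.1‖ ^ 4 ≤ 81 * ((CS : ℝ) ^ 3) ^ 2 * (‖p.1 - q.1‖ * ‖p.2 - q.2‖ ^ 3
      * ((‖p.1‖ + ‖q.1‖) * (‖p.2‖ + ‖q.2‖) ^ 3)) := by
  have hm : MeasurableSet (univ : Set E3) := MeasurableSet.univ
  set cS : ℝ := (CS : ℝ) ^ 3 with hcS
  have hcS0 : 0 ≤ cS := by positivity
  set D : ℝ := (‖p.1‖ + ‖q.1‖) * (‖p.2‖ + ‖q.2‖) ^ 3 with hD
  have hD0 : 0 ≤ D := by positivity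
  set k : ℝ := Real.sqrt (Real.sqrt (cS * D)) with hk
  have hk0 : 0 ≤ k := Real.sqrt_nonneg _
  have hk4 : k ^ 4 = cS * D := by
    have : k ^ 4 = (k ^ 2) ^ 2 := by ring
    rw [this, hk, Real.sq_sqrt (Real.sqrt_nonneg _), Real.sq_sqrt (by positivity)]
  have hn : ∀ r ∈ graphW (univ : Set E3), ‖r.1‖ ≤ ‖p.1‖ + ‖q.1‖ → ‖r.2‖ ≤ ‖p.2‖ + ‖q.2‖ →
      n4 r.1 ≤ k := by
    intro r hr h1 h2
    have h0 : 0 ≤ n4 r.1 := ENNReal.toReal_nonneg
    have h3 := n4_pow hm hr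
    have h4 : n4 r.1 ^ 4 ≤ k ^ 4 := by
      rw [hk4]
      calc n4 r.1 ^ 4 ≤ cS * (‖r.1‖ * ‖r.2‖ ^ 3) := h3
        _ ≤ cS * D := by rw [hD]; gcongr
    exact (pow_le_pow_iff_left₀ h0 hk0 (by norm_num)).mp h4
  have hpq : p - q ∈ graphW univ := (graphW univ).sub_mem hp hq
  have h1 := dist_tensL_le hm hq hp
  have h0 : 0 ≤ n4 (p - q).1 := ENNReal.toReal_nonneg
  have h0' : 0 ≤ n4 q.1 := ENNReal.toReal_nonneg
  have a1 : n4 q.1 ≤ k := hn q hq (by linarith [norm_nonneg p.1]) (by linarith [norm_nonneg p.2])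
  have a2 : n4 (p - q).1 ≤ k := hn _ hpq (norm_sub_le _ _) (norm_sub_le _ _)
  have h3 := n4_pow hm hpq
  calc ‖tensL p.1 - tensL q.1‖ ^ 4
      ≤ (n4 (p - q).1 * (3 * k)) ^ 4 := by
        refine pow_le_pow_left₀ (norm_nonneg _) (h1.trans ?_) 4
        gcongr
        linarith
    _ = n4 (p - q).1 ^ 4 * (81 * (cS * D)) := by rw [← hk4]; ring
    _ ≤ (cS * (‖(p - q).1‖ * ‖(p - q).2‖ ^ 3)) * (81 * (cS * D)) := by gcongr
    _ = _ := by
        rw [show (p - q).1 = p.1 - q.1 from rfl, show (p - q).2 = p.2 - q.2 from rfl]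
        ring

theorem exists_aframe {δ : ℝ} (hδ : 0 < δ) {σ : E3 → ℝ} (hm : Measurable σ)
    (hb : ∀ x, |σ x| ≤ 1) (h1 : ∀ x, rad x ≤ δ → σ x = 1) :
    ∃ C : ℝ, AFrame (axW : Submodule ℝ (L2V univ × L2M univ)) tensL (mulL M3 (volume.restrict (univ : Set E3)) σ hm hb) C := by
  obtain ⟨C1, hC1, hax⟩ := axis_all hδ hm hb h1
  set c2 : ℝ := 81 * ((CS : ℝ) ^ 3) ^ 2 with hc2
  have hc20 : 0 ≤ c2 := by positivity
  refine ⟨C1 + c2, ?_⟩
  constructor
  · linarith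
  · exact axW_closed
  · intro p hp h0
    refine graphW_uniq isOpen_univ p.2 ?_
    have hp' := axW_le hp
    have : p = (p.1, p.2) := rfl
    rw [this, h0] at hp'
    exact hp'
  · exact mulL_sym
  · exact mulL_le
  · intro p hp
    exact inner_tensL_zero MeasurableSet.univ (axW_le hp)
  · intro p hp q hq
    exact tens_anti (axW_le hp) (axW_le hq)
  · intro p hp q hq
    refine (tens_lips (axW_le hp) (axW_le hq)).trans ?_
    exact mul_le_mul_of_nonneg_right (by linarith) (by positivity)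
  · intro p hp y
    refine (hax p hp y).trans ?_
    exact mul_le_mul_of_nonneg_right (by linarith) (by positivity)

end H772R2.NAX
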