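import Mathlib
import Pool.Agent.H772R2.NSR.PubR

/-!
Public definitions: rotations about the axis, axisymmetric vector fields.
-/

open MeasureTheory Set
open scoped InnerProductSpace ENNReal ContDiff

namespace H772R2.NS.Pub

/-- The rotation by the angle `θ` about the third coordinate axis. -/
noncomputable def rot (θ : ℝ) (x : R3) : R3 :=
  (Real.cos θ * ⟪e 0, x⟫_ℝ - Real.sin θ * ⟪e 1, x⟫_ℝ) • e 0
    + (Real.sin θ * ⟪e 0, x⟫_ℝ + Real.cos θ * ⟪e 1, x⟫_ℝ) • e 1 + ⟪e 2, x⟫_ℝ • e 2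

/-- The distance `r` to the third coordinate axis. -/
noncomputable def axisDist (x : R3) : ℝ := Real.sqrt (⟪e 0, x⟫_ℝ ^ 2 + ⟪e 1, x⟫_ℝ ^ 2)

/-- `v ∈ L²(ℝ³)³` is axisymmetric: `v(R_θ x) = R_θ v(x)`, for every angle `θ` and almost every
`x`. -/
def IsAxi (v : L2 (univ : Set R3) R3) : Prop :=
  ∀ θ, (fun x => v.fn (rot θ x)) =ᵐ[volume] fun x => rot θ (v.fn x)

/-- The weighted norm `(∫ ρ |z|²)^(1/2)`. -/
noncomputable def tubeNorm (ρ : R3 → ℝ) (z : L2 (univ : Set R3) Mat) : ℝ :=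
  Real.sqrt (∫ x, ρ x * ‖z.fn x‖ ^ 2)

/-- The increment `κ (√(max n S) - √S)`: it vanishes for `n ≤ S` and is at most `κ √n`. -/
noncomputable def incr (κ S n : ℝ) : ℝ := κ * (Real.sqrt (max n S) - Real.sqrt S)

/-- `u` is a strong solution on `[0,T]` of the Navier-Stokes equations in the whole space with the
viscosity `ν + h(t) ρ(x)`, `h(t) = incr κ S (tubeNorm ρ (∇u(t)))`: a strong solution with
viscosity `ν` and force `⟨f(t), φ⟩ = (F(t), ∇φ)`, `F(t) = -h(t) ρ ∇u(t)`. -/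
structure IsModified (ν κ S : ℝ) (ρ : R3 → ℝ) (T : ℝ) (F : ℝ → L2 (univ : Set R3) Mat)
    (u u' : ℝ → L2 (univ : Set R3) R3) (G G' : ℝ → L2 (univ : Set R3) Mat) : Prop where
  strong : IsStrong univ ν T F u u' G G'
  law : ∀ t ∈ Icc 0 T, IsClass (F t) fun x => -(incr κ S (tubeNorm ρ (G t)) * ρ x) • (G t).fn x

end H772R2.NS.Pub
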