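import Mathlib
import Pool.Agent.H772R2.NAX.PubA
import Pool.Agent.H772R2.NAX.Frame
import Pool.Agent.H772R2.NAX.Abs
import Pool.Agent.H772R2.NSR.Final
import Pool.Agent.H772R2.NSR.Force

/-!
Strong solutions in the whole space: weak formulation for all test pairs, symmetry.
-/

set_option linter.unusedSectionVars false

open MeasureTheory Set Filter Topology Metric
open scoped InnerProductSpace NNReal ENNReal ContDiff

namespace H772R2.NAX

open H772R2.NS H772R2.NS.Pub H772R2.NSR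

theorem exists_gframe : ∃ C : ℝ, AFrame (graphW (univ : Set E3)) (tensL (Ω := (univ : Set E3)))
    (ContinuousLinearMap.id ℝ (L2M univ)) C := by
  set c2 : ℝ := 81 * ((CS : ℝ) ^ 3) ^ 2 with hc2
  have hc20 : 0 ≤ c2 := by positivity
  set c1 : ℝ := Real.sqrt ((CS : ℝ) ^ 3) with hc1
  have hc10 : 0 ≤ c1 := Real.sqrt_nonneg _
  refine ⟨c1 + c2 + 1, ?_⟩
  constructor
  · positivity
  · exact graphW_closed _
  · intro p hp h0
    refine graphW_uniq isOpen_univ p.2 ?_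
    have : p = (p.1, p.2) := rfl
    rw [this, h0] at hp
    exact hp
  · intro y w
    rfl
  · intro y
    exact le_rfl
  · intro p hp
    exact inner_tensL_zero MeasurableSet.univ hp
  · intro p hp q hq
    exact tens_anti hp hq
  · intro p hp q hq
    refine (tens_lips hp hq).trans ?_
    exact mul_le_mul_of_nonneg_right (by linarith) (by positivity)
  · intro p hp y
    simp only [ContinuousLinearMap.id_apply]
    have h1 : |⟪tensL p.1, y⟫_ℝ| ≤ ‖tensL p.1‖ * ‖y‖ := abs_real_inner_le_norm _ _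
    have h2 : ‖tensL p.1‖ ≤ c1 * Real.sqrt (‖p.1‖ * (‖p.2‖ + ‖p.1‖) ^ 3) := by
      rw [hc1, ← Real.sqrt_mul (by positivity)]
      refine Real.le_sqrt_of_sq_le ((norm_tensL_sq_le MeasurableSet.univ hp).trans ?_)
      have : ‖p.2‖ ≤ ‖p.2‖ + ‖p.1‖ := by linarith [norm_nonneg p.1]
      gcongr
    have h3 : 0 ≤ ‖y‖ * (‖p.1‖ * ‖p.2‖) := by positivity
    have h4 := Real.sqrt_nonneg (‖p.1‖ * (‖p.2‖ + ‖p.1‖) ^ 3)
    calc |⟪tensL p.1, y⟫_ℝ| ≤ ‖tensL p.1‖ * ‖y‖ := h1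
      _ ≤ (c1 * Real.sqrt (‖p.1‖ * (‖p.2‖ + ‖p.1‖) ^ 3)) * ‖y‖ := by gcongr
      _ = c1 * (‖y‖ * Real.sqrt (‖p.1‖ * (‖p.2‖ + ‖p.1‖) ^ 3)) := by ring
      _ ≤ (c1 + c2 + 1) * (‖y‖ * Real.sqrt (‖p.1‖ * (‖p.2‖ + ‖p.1‖) ^ 3)
          + ‖y‖ * (‖p.1‖ * ‖p.2‖)) := by
        gcongr
        · linarith
        · linarith

variable {ν T : ℝ} {v v' : ℝ → L2V univ} {Y Y' : ℝ → L2M univ}

/-- strong solutions, in internal terms. -/
theorem strong_data2 {F : ℝ → L2M univ} (hFc : ContinuousOn F (Icc 0 T))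
    (h : IsStrong (show Set R3 from (univ : Set E3)) ν T F v v' Y Y') :
    (∀ t ∈ Icc 0 T, (v t, Y t) ∈ graphW univ) ∧ ContinuousOn Y (Icc 0 T) ∧
    ContinuousOn (fun s => tensL (v s)) (Icc 0 T) ∧
    ∀ p ∈ graphW univ, ∀ a b, 0 ≤ a → a ≤ b → b ≤ T →
      ⟪v b - v a, p.1⟫_ℝ = ∫ s in a..b, ⟪F s - ν • Y s + tensL (v s), p.2⟫_ℝ := by
  have hmeas : MeasurableSet (univ : Set E3) := MeasurableSet.univ
  have hmem : ∀ t ∈ Icc 0 T, (v t, Y t) ∈ graphW univ := fun t ht => mem_pub.mpr (h.grad t ht)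
  have hYc : ContinuousOn Y (Icc 0 T) := prim_cont h.hG.memLp h.hG.prim
  have hvc : ContinuousOn v (Icc 0 T) := prim_cont h.hu.memLp h.hu.prim
  have hmc : ContinuousOn (fun s => tensL (v s)) (Icc 0 T) := by
    have h1 : ContinuousOn (fun s => (v s, Y s)) (Icc 0 T) := hvc.prodMk hYc
    exact (tensL_continuousOn hmeas).comp h1 hmem
  refine ⟨hmem, hYc, hmc, ?_⟩
  have hcc : ContinuousOn (fun s => F s - ν • Y s + tensL (v s)) (Icc 0 T) :=
    (hFc.sub (hYc.const_smul ν)).add hmc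
  have hw : ∀ p ∈ graphW univ, ∀ t ∈ Icc 0 T, ⟪v t - v 0, p.1⟫_ℝ
      = ∫ s in (0 : ℝ)..t, ⟪F s - ν • Y s + tensL (v s), p.2⟫_ℝ := by
    intro p hp t ht
    have hGi : IntegrableOn (fun s => F s - ν • Y s + tensL (v s)) (Ioc 0 t) :=
      ((hcc.mono (Icc_subset_Icc_right ht.2)).integrableOn_Icc).mono_set Ioc_subset_Icc_self
    have hrw : ∀ q : L2V univ × L2M univ, ∫ s in (0 : ℝ)..t, ⟪F s - ν • Y s + tensL (v s), q.2⟫_ℝ
        = ⟪q.2, ∫ s in Ioc 0 t, (F s - ν • Y s + tensL (v s))⟫_ℝ := by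
      intro q
      rw [intervalIntegral.integral_of_le ht.1, ← integral_inner hGi]
      exact integral_congr_ae (Eventually.of_forall fun s => real_inner_comm _ _)
    have hz := graphW_induction (fun q : L2V univ × L2M univ => ⟪v t - v 0, q.1⟫_ℝ
        - ⟪q.2, ∫ s in Ioc 0 t, (F s - ν • Y s + tensL (v s))⟫_ℝ)
      (by fun_prop) (fun q hq => by
        obtain ⟨φ, k1, k2, k3⟩ := hq
        have h1 := h.eqn φ ((isTest_iff φ).mpr k1) t ht
        have e1 := pub_inner (Ω := (univ : Set E3)) (v t) k2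
        have e2 := pub_inner (Ω := (univ : Set E3)) (v 0) k2
        have e3 : ∫ s in (0 : ℝ)..t, Pub.rhs (Ω := (univ : Set E3)) ν (v s) (Y s) (F s) φ
            = ∫ s in (0 : ℝ)..t, ⟪F s - ν • Y s + tensL (v s), q.2⟫_ℝ := by
          refine intervalIntegral.integral_congr fun s hs => ?_
          rw [uIcc_of_le ht.1] at hs
          exact pub_rhs (Ω := (univ : Set E3)) hmeas ν (F s) (hmem s ⟨hs.1, hs.2.trans ht.2⟩) k3
        have h2 : ⟪v t, q.1⟫_ℝ - ⟪v 0, q.1⟫_ℝ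
            = ∫ s in (0 : ℝ)..t, ⟪F s - ν • Y s + tensL (v s), q.2⟫_ℝ := by
          refine Eq.trans ?_ e3
          refine Eq.trans ?_ h1
          exact (congrArg₂ (· - ·) e1 e2).symm
        show ⟪v t - v 0, q.1⟫_ℝ - ⟪q.2, ∫ s in Ioc 0 t, (F s - ν • Y s + tensL (v s))⟫_ℝ = 0
        rw [← hrw q, ← h2, inner_sub_left, sub_self]) hp
    rw [hrw]
    exact sub_eq_zero.mp hz
  intro p hp a b ha hab hb
  have hGc : ContinuousOn (fun s => ⟪F s - ν • Y s + tensL (v s), p.2⟫_ℝ) (Icc 0 T) :=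
    hcc.inner continuousOn_const
  have h1 := hw p hp b ⟨ha.trans hab, hb⟩
  have h2 := hw p hp a ⟨ha, hab.trans hb⟩
  have h3 : ∫ s in (0 : ℝ)..b, ⟪F s - ν • Y s + tensL (v s), p.2⟫_ℝ
      = (∫ s in (0 : ℝ)..a, ⟪F s - ν • Y s + tensL (v s), p.2⟫_ℝ)
        + ∫ s in a..b, ⟪F s - ν • Y s + tensL (v s), p.2⟫_ℝ :=
    (intervalIntegral.integral_add_adjacent_intervals
      (ii_of_cont hGc le_rfl ha (hab.trans hb)) (ii_of_cont hGc ha hab hb)).symm
  have e : v b - v a = (v b - v 0) - (v a - v 0) := by abel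
  rw [e, inner_sub_left, h1, h2, h3]
  ring

/-- strong solutions of the unforced equations, in internal terms. -/
theorem strong_data (h : IsStrong (show Set R3 from (univ : Set E3)) ν T (fun _ => 0) v v' Y Y') :
    (∀ t ∈ Icc 0 T, (v t, Y t) ∈ graphW univ) ∧ ContinuousOn Y (Icc 0 T) ∧
    ContinuousOn (fun s => tensL (v s)) (Icc 0 T) ∧
    ∀ p ∈ graphW univ, ∀ a b, 0 ≤ a → a ≤ b → b ≤ T →
      ⟪v b - v a, p.1⟫_ℝ = ∫ s in a..b, ⟪-(ν • Y s) + tensL (v s), p.2⟫_ℝ := by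
  obtain ⟨h1, h2, h3, h4⟩ := strong_data2 (F := fun _ => (0 : L2M univ)) continuousOn_const h
  refine ⟨h1, h2, h3, fun p hp a b ha hab hb => ?_⟩
  rw [h4 p hp a b ha hab hb]
  refine intervalIntegral.integral_congr fun s _ => ?_
  rw [zero_sub]

/-- the force given by the law. -/
theorem law_force {ρ σ : E3 → ℝ} (hm : Measurable σ) (hb : ∀ x, |σ x| ≤ 1)
    (hσσ : ∀ x, σ x * σ x = ρ x) {c : ℝ} {f z : L2M univ}
    (h : (f : E3 → M3) =ᵐ[volume.restrict (univ : Set E3)] fun x => -(c * ρ x) • z x) :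
    f = -(c • mulL M3 (volume.restrict (univ : Set E3)) σ hm hb
      (mulL M3 (volume.restrict (univ : Set E3)) σ hm hb z)) := by
  apply Lp.ext
  have k1 := mulL_comp (hm := hm) (hb := hb) z
  have k2 := Lp.coeFn_neg (c • mulL M3 (volume.restrict (univ : Set E3)) σ hm hb
      (mulL M3 (volume.restrict (univ : Set E3)) σ hm hb z))
  have k3 := Lp.coeFn_smul c (mulL M3 (volume.restrict (univ : Set E3)) σ hm hb
      (mulL M3 (volume.restrict (univ : Set E3)) σ hm hb z))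
  filter_upwards [h, k1, k2, k3] with x a b1 b2 b3
  rw [a, b2, Pi.neg_apply, b3, Pi.smul_apply, b1, hσσ, smul_smul, neg_smul]

/-- uniqueness of strong solutions of the closed loop system. -/
theorem strong_uniq (hν : 0 < ν) {κ S : ℝ} (hκ : 0 < κ) (hS : 0 < S) (hT : 0 ≤ T)
    {σ : E3 → ℝ} (hm : Measurable σ) (hb : ∀ x, |σ x| ≤ 1)
    {P : L2M univ →L[ℝ] L2M univ} (hP : P = mulL M3 (volume.restrict (univ : Set E3)) σ hm hb)
    {F Φ : ℝ → L2M univ} {w w' : ℝ → L2V univ} {X X' : ℝ → L2M univ}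
    (h1 : IsStrong (show Set R3 from (univ : Set E3)) ν T F v v' Y Y')
    (h2 : IsStrong (show Set R3 from (univ : Set E3)) ν T Φ w w' X X')
    (e1 : ∀ t ∈ Icc 0 T, F t = -(muf κ S ‖P (Y t)‖ • P (P (Y t))))
    (e2 : ∀ t ∈ Icc 0 T, Φ t = -(muf κ S ‖P (X t)‖ • P (P (X t))))
    (h0 : v 0 = w 0) : ∀ t ∈ Icc 0 T, v t = w t := by
  obtain ⟨C, Fr⟩ := exists_gframe
  have V := visc_muf (ν := ν) hκ hS hν
  have hsym : ∀ y w : L2M univ, ⟪P y, w⟫_ℝ = ⟪y, P w⟫_ℝ := by
    intro y w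
    rw [hP]
    exact mulL_sym y w
  have hmu : Continuous (fun s : ℝ => muf κ S s) := by
    unfold muf
    fun_prop
  have hc : ∀ {Z : ℝ → L2M univ}, ContinuousOn Z (Icc 0 T) →
      ContinuousOn (fun t => -(muf κ S ‖P (Z t)‖ • P (P (Z t)))) (Icc 0 T) := by
    intro Z hZ
    have c1 := P.continuous.comp_continuousOn hZ
    exact ((hmu.comp_continuousOn c1.norm).smul (P.continuous.comp_continuousOn c1)).neg
  have hYc : ContinuousOn Y (Icc 0 T) := prim_cont h1.hG.memLp h1.hG.prim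
  have hXc : ContinuousOn X (Icc 0 T) := prim_cont h2.hG.memLp h2.hG.prim
  obtain ⟨p1, p2, p3, p4⟩ := strong_data2 ((hc hYc).congr e1) h1
  obtain ⟨q1, q2, q3, q4⟩ := strong_data2 ((hc hXc).congr e2) h2
  refine law_uniq Fr hν V hsym hT h0 p1 q1 q2 p2 ?_ ?_ ?_ ?_
  · have h : ContinuousOn (fun s => -(muf κ S ‖P (Y s)‖ • P (P (Y s))) - ν • Y s + tensL (v s))
        (Icc 0 T) := ((hc hYc).sub (hYc.const_smul ν)).add p3
    refine h.congr fun t _ => ?_
    simp only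
    abel
  · have h : ContinuousOn (fun s => -(muf κ S ‖P (X s)‖ • P (P (X s))) - ν • X s + tensL (w s))
        (Icc 0 T) := ((hc hXc).sub (hXc.const_smul ν)).add q3
    refine h.congr fun t _ => ?_
    simp only
    abel
  · intro p hp a b ha hab hb'
    rw [p4 p hp a b ha hab hb']
    refine intervalIntegral.integral_congr fun s hs => ?_
    rw [uIcc_of_le hab] at hs
    rw [e1 s ⟨ha.trans hs.1, hs.2.trans hb'⟩]
    congr 2
    abel
  · intro p hp a b ha hab hb'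
    rw [q4 p hp a b ha hab hb']
    refine intervalIntegral.integral_congr fun s hs => ?_
    rw [uIcc_of_le hab] at hs
    rw [e2 s ⟨ha.trans hs.1, hs.2.trans hb'⟩]
    congr 2
    abel

section UU

variable {V : Type} [NormedAddCommGroup V] [InnerProductSpace ℝ V] [FiniteDimensional ℝ V]
  {ρ : ℝ → V →L[ℝ] V}

theorem UU_cancel (R : Rep ρ) (θ : ℝ) (w : Lp V 2 (volume.restrict (univ : Set E3))) :
    UU ρ θ (UU ρ (-θ) w) = w := by
  apply Lp.ext
  have h1 := UU_coe (ρ := ρ) θ (UU ρ (-θ) w)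
  have h2 := (mp_rot' θ).quasiMeasurePreserving.ae_eq_comp (UU_coe (ρ := ρ) (-θ) w)
  filter_upwards [h1, h2] with x a b
  simp only [Function.comp] at b
  rw [a, b, neg_neg, R.neg_left, rep_rotC.neg_left]

theorem UU_adj (R : Rep ρ) (θ : ℝ) (v w : Lp V 2 (volume.restrict (univ : Set E3))) :
    ⟪UU ρ θ v, w⟫_ℝ = ⟪v, UU ρ (-θ) w⟫_ℝ := by
  conv_lhs => rw [← UU_cancel R θ w]
  rw [UU_inner R]

end UU

theorem UU_tens {v : L2V univ} {z : L2M univ} (h : (v, z) ∈ graphW univ) (θ : ℝ) :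
    tensL (UU rotC θ v) = UU rotM θ (tensL v) := by
  apply Lp.ext
  have h1 := UU_coe (ρ := rotM) θ (tensL v)
  have h2 := tensL_coe MeasurableSet.univ h
  have h3 := (mp_rot' θ).quasiMeasurePreserving.ae_eq_comp h2
  have h4 := UU_coe (ρ := rotC) θ v
  have h5 := tensL_coe MeasurableSet.univ (UU_graph h θ)
  filter_upwards [h1, h3, h4, h5] with x a c d e
  simp only [Function.comp] at c
  have e' : (tensL (UU rotC θ v)) x = tens ((UU rotC θ v) x) := e
  rw [e', a, c, rotM_tens, d]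

/-- strong solutions with axisymmetric initial value are axisymmetric. -/
theorem strong_axi (hν : 0 < ν) (hT : 0 ≤ T)
    (h : IsStrong (show Set R3 from (univ : Set E3)) ν T (fun _ => 0) v v' Y Y')
    (h0 : InvL rotC (v 0)) : ∀ t ∈ Icc 0 T, InvL rotC (v t) := by
  obtain ⟨C, Fr⟩ := exists_gframe
  obtain ⟨hmem, hYc, hmc, hw⟩ := strong_data h
  intro t ht θ
  have hc : ContinuousOn (fun s => tensL (UU rotC θ (v s))) (Icc 0 T) := by
    refine ((UU rotM θ).continuous.comp_continuousOn hmc).congr fun s hs => ?_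
    exact UU_tens (hmem s hs) θ
  exact ax_uniq Fr hν hT (u := fun t => UU rotC θ (v t)) (z := fun t => UU rotM θ (Y t))
    (v := v) (y := Y) (h0 θ) (fun t ht => UU_graph (hmem t ht) θ) hmem
    ((UU rotM θ).continuous.comp_continuousOn hYc) hYc hc hmc (by
      intro p hp a b ha hab hb
      have h1 := hw _ (UU_graph hp (-θ)) a b ha hab hb
      simp only at h1
      rw [← map_sub, UU_adj rep_rotC, h1]
      refine intervalIntegral.integral_congr fun s hs => ?_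
      rw [uIcc_of_le hab] at hs
      rw [← UU_adj rep_rotM, map_add, map_neg, map_smul,
        UU_tens (hmem s ⟨ha.trans hs.1, hs.2.trans hb⟩)]) hw t ht

end H772R2.NAX
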