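import Mathlib
import Pool.Agent.H772R2.NAX.Coin

/-!
Projections off the span of finitely many gradients of test fields.
-/

set_option linter.unusedSectionVars false

open MeasureTheory Set Filter Topology Metric
open scoped InnerProductSpace NNReal ENNReal ContDiff

namespace H772R2.NAX

open H772R2.NS H772R2.NSR

/-- the Laplacian of a test field, by components. -/
noncomputable def lapE (ψ : E3 → E3) (x : E3) : E3 :=
  WithLp.toLp 2 fun i => ∑ j, fderiv ℝ (fun y => fderiv ℝ (fun y => ψ y i) y (ev j)) x (ev j)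

theorem d1_smooth {ψ : E3 → E3} (h : ContDiff ℝ ∞ ψ) (i j : Fin 3) :
    ContDiff ℝ ∞ (fun y => fderiv ℝ (fun y => ψ y i) y (ev j)) :=
  ((contDiff_coord h i).fderiv_right (m := ∞) (by simp)).clm_apply contDiff_const

theorem d1_compact {ψ : E3 → E3} (h : HasCompactSupport ψ) (i j : Fin 3) :
    HasCompactSupport (fun y => fderiv ℝ (fun y => ψ y i) y (ev j)) := by
  have h1 := (hasCompactSupport_coord h i).fderiv (𝕜 := ℝ)
  refine h1.mono (fun x hx => ?_)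
  intro h0
  apply hx
  simp only
  rw [h0]
  rfl

theorem d2_cont {ψ : E3 → E3} (h : ContDiff ℝ ∞ ψ) (i j : Fin 3) :
    Continuous (fun x => fderiv ℝ (fun y => fderiv ℝ (fun y => ψ y i) y (ev j)) x (ev j)) :=
  ((d1_smooth h i j).continuous_fderiv (by simp)).clm_apply continuous_const

theorem d2_compact {ψ : E3 → E3} (h : HasCompactSupport ψ) (i j : Fin 3) :
    HasCompactSupport
      (fun x => fderiv ℝ (fun y => fderiv ℝ (fun y => ψ y i) y (ev j)) x (ev j)) := by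
  have h1 := (d1_compact h i j).fderiv (𝕜 := ℝ)
  refine h1.mono (fun x hx => ?_)
  intro h0
  apply hx
  simp only
  rw [h0]
  rfl

theorem lapE_cont {ψ : E3 → E3} (h : ContDiff ℝ ∞ ψ) : Continuous (lapE ψ) := by
  refine (PiLp.continuous_toLp 2 _).comp (continuous_pi fun i => ?_)
  exact continuous_finset_sum _ fun j _ => d2_cont h i j

theorem lapE_compact {ψ : E3 → E3} (h : HasCompactSupport ψ) : HasCompactSupport (lapE ψ) := by
  obtain ⟨R, hR0, hR⟩ : ∃ R : ℝ, 0 ≤ R ∧ ∀ i j x, R < ‖x‖ →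
      fderiv ℝ (fun y => fderiv ℝ (fun y => ψ y i) y (ev j)) x (ev j) = 0 := by
    have h1 : ∀ i j : Fin 3, ∃ R : ℝ, 0 ≤ R ∧ ∀ x : E3, R < ‖x‖ →
        fderiv ℝ (fun y => fderiv ℝ (fun y => ψ y i) y (ev j)) x (ev j) = 0 :=
      fun i j => exists_rad (d2_compact h i j)
    choose R hR0 hR using h1
    refine ⟨∑ i, ∑ j, R i j, Finset.sum_nonneg fun i _ => Finset.sum_nonneg fun j _ => hR0 i j,
      fun i j x hx => hR i j x (lt_of_le_of_lt ?_ hx)⟩
    calc R i j ≤ ∑ j, R i j := Finset.single_le_sum (fun j _ => hR0 i j) (Finset.mem_univ j)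
      _ ≤ ∑ i, ∑ j, R i j := Finset.single_le_sum
        (f := fun i => ∑ j, R i j) (fun i _ => Finset.sum_nonneg fun j _ => hR0 i j)
        (Finset.mem_univ i)
  refine HasCompactSupport.intro (isCompact_closedBall (0 : E3) R) fun x hx => ?_
  rw [mem_closedBall_zero_iff, not_le] at hx
  ext i
  show ∑ j, fderiv ℝ (fun y => fderiv ℝ (fun y => ψ y i) y (ev j)) x (ev j) = 0
  exact Finset.sum_eq_zero fun j _ => hR i j x hx

/-- Green's formula for test fields. -/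
theorem green {Ω : Set E3} {φ ψ : E3 → E3} (h : IsTest Ω φ) (g : IsTest Ω ψ) :
    ∫ x, ⟪jac φ x, jac ψ x⟫_ℝ = -∫ x, ⟪φ x, lapE ψ x⟫_ℝ := by
  have hφs : ∀ i, ContDiff ℝ ∞ (fun x => φ x i) := fun i => contDiff_coord h.smooth i
  have hφc : ∀ i, HasCompactSupport (fun x => φ x i) := fun i => hasCompactSupport_coord h.compact i
  have hdφ : ∀ i j, Continuous (fun x => fderiv ℝ (fun y => φ y i) x (ev j)) := fun i j =>
    (d1_smooth h.smooth i j).continuous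
  have hdψ : ∀ i j, Continuous (fun x => fderiv ℝ (fun y => ψ y i) x (ev j)) := fun i j =>
    (d1_smooth g.smooth i j).continuous
  have hi1 : ∀ i j, Integrable (fun x => fderiv ℝ (fun y => φ y i) x (ev j)
      * fderiv ℝ (fun y => ψ y i) x (ev j)) := fun i j =>
    ((hdφ i j).mul (hdψ i j)).integrable_of_hasCompactSupport ((d1_compact h.compact i j).mul_right)
  have hi2 : ∀ i j, Integrable (fun x => φ x i
      * fderiv ℝ (fun y => fderiv ℝ (fun y => ψ y i) y (ev j)) x (ev j)) := fun i j =>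
    ((hφs i).continuous.mul (d2_cont g.smooth i j)).integrable_of_hasCompactSupport
      ((hφc i).mul_right)
  have hibp : ∀ i j, ∫ x, φ x i * fderiv ℝ (fun y => fderiv ℝ (fun y => ψ y i) y (ev j)) x (ev j)
      = -∫ x, fderiv ℝ (fun y => φ y i) x (ev j) * fderiv ℝ (fun y => ψ y i) x (ev j) := by
    intro i j
    apply integral_mul_fderiv_eq_neg_fderiv_mul_of_integrable
    · exact hi1 i j
    · exact hi2 i j
    · exact ((hφs i).continuous.mul (hdψ i j)).integrable_of_hasCompactSupport ((hφc i).mul_right)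
    · intro x _; exact ((hφs i).differentiable (by simp)) x
    · intro x _; exact ((d1_smooth g.smooth i j).differentiable (by simp)) x
  have e1 : ∀ x, ⟪jac φ x, jac ψ x⟫_ℝ = ∑ i, ∑ j, fderiv ℝ (fun y => φ y i) x (ev j)
      * fderiv ℝ (fun y => ψ y i) x (ev j) := by
    intro x
    rw [inner_M3]
    refine Finset.sum_congr rfl fun i _ => Finset.sum_congr rfl fun j _ => ?_
    rw [jac_apply, jac_apply, fderiv_coord h.smooth, fderiv_coord g.smooth]
  have e2 : ∀ x, ⟪φ x, lapE ψ x⟫_ℝ = ∑ i, ∑ j, φ x i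
      * fderiv ℝ (fun y => fderiv ℝ (fun y => ψ y i) y (ev j)) x (ev j) := by
    intro x
    rw [inner_E3]
    refine Finset.sum_congr rfl fun i _ => ?_
    show φ x i * ∑ j, fderiv ℝ (fun y => fderiv ℝ (fun y => ψ y i) y (ev j)) x (ev j) = _
    rw [Finset.mul_sum]
  simp_rw [e1, e2]
  rw [integral_finsetSum _ fun i _ => integrable_finset_sum _ fun j _ => hi1 i j,
    integral_finsetSum _ fun i _ => integrable_finset_sum _ fun j _ => hi2 i j,
    ← Finset.sum_neg_distrib]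
  refine Finset.sum_congr rfl fun i _ => ?_
  rw [integral_finsetSum _ fun j _ => hi1 i j, integral_finsetSum _ fun j _ => hi2 i j,
    ← Finset.sum_neg_distrib]
  refine Finset.sum_congr rfl fun j _ => ?_
  rw [hibp, neg_neg]

/-- pairing of a gradient with the gradient of a test field. -/
theorem exists_lap {q : L2V univ × L2M univ} (hq : q ∈ preW univ) :
    ∃ L : L2V univ, ∀ p ∈ graphW univ, ⟪p.2, q.2⟫_ℝ = -⟪p.1, L⟫_ℝ := by
  obtain ⟨ψ, g1, g2, g3⟩ := hq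
  have hL : MemLp (lapE ψ) 2 (volume.restrict (univ : Set E3)) :=
    ((lapE_cont g1.smooth).memLp_of_hasCompactSupport (lapE_compact g1.compact)).restrict _
  refine ⟨hL.toLp _, fun p hp => ?_⟩
  have hz := graphW_induction (fun p : L2V univ × L2M univ => ⟪p.2, q.2⟫_ℝ + ⟪p.1, hL.toLp _⟫_ℝ)
    (by fun_prop) (fun p hp => by
      obtain ⟨φ, k1, k2, k3⟩ := hp
      have e1 : ⟪p.2, q.2⟫_ℝ = ∫ x, ⟪jac φ x, jac ψ x⟫_ℝ := by
        rw [L2.inner_def]
        refine (integral_congr_ae (g := fun x => ⟪jac φ x, jac ψ x⟫_ℝ) ?_).trans ?_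
        · filter_upwards [k3, g3] with x a b
          rw [a, b]
        · rw [Measure.restrict_univ]
      have e2 : ⟪p.1, hL.toLp _⟫_ℝ = ∫ x, ⟪φ x, lapE ψ x⟫_ℝ := by
        have h2 := hL.coeFn_toLp
        rw [L2.inner_def]
        refine (integral_congr_ae (g := fun x => ⟪φ x, lapE ψ x⟫_ℝ) ?_).trans ?_
        · filter_upwards [k2, h2] with x a b
          rw [a, b]
        · rw [Measure.restrict_univ]
      show ⟪p.2, q.2⟫_ℝ + ⟪p.1, hL.toLp _⟫_ℝ = 0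
      rw [e1, e2, green k1 g1, neg_add_cancel]) hp
  linarith

theorem tens_cross (a b : E3) : ‖tens (a + b) - tens b - tens a‖ ≤ 2 * ‖b‖ * ‖a‖ := by
  let p : M3 := WithLp.toLp 2 fun p => a p.1 * b p.2
  let q : M3 := WithLp.toLp 2 fun p => b p.1 * a p.2
  have hpq : ∀ c d : E3, ‖(WithLp.toLp 2 (fun p : Fin 3 × Fin 3 => c p.1 * d p.2) : M3)‖
      = ‖c‖ * ‖d‖ := by
    intro c d
    have h : ‖(WithLp.toLp 2 (fun p : Fin 3 × Fin 3 => c p.1 * d p.2) : M3)‖ ^ 2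
        = (‖c‖ * ‖d‖) ^ 2 := by
      rw [norm_sq_M3, mul_pow, norm_sq_E3, norm_sq_E3]
      simp only [mul_pow]
      rw [Finset.sum_mul_sum]
    have h1 : 0 ≤ ‖c‖ * ‖d‖ := by positivity
    exact (pow_left_inj₀ (norm_nonneg _) h1 two_ne_zero).mp h
  have e : tens (a + b) - tens b - tens a = p + q := by
    ext i
    show (a + b) i.1 * (a + b) i.2 - b i.1 * b i.2 - a i.1 * a i.2
      = a i.1 * b i.2 + b i.1 * a i.2
    simp only [PiLp.add_apply]
    ring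
  rw [e]
  calc ‖p + q‖ ≤ ‖p‖ + ‖q‖ := norm_add_le _ _
    _ = ‖a‖ * ‖b‖ + ‖b‖ * ‖a‖ := by rw [hpq a b, hpq b a]
    _ = 2 * ‖b‖ * ‖a‖ := by ring

/-- pairing of a tensor square with the gradient of a test field. -/
theorem exists_tens {q : L2V univ × L2M univ} (hq : q ∈ preW univ) :
    ∃ c : ℝ, 0 ≤ c ∧ ∀ p ∈ graphW univ, |⟪tensL p.1, q.2⟫_ℝ| ≤ c * (‖p.1‖ * ‖p.2‖) := by
  have hqW : q ∈ graphW univ := Submodule.le_topologicalClosure _ hq
  obtain ⟨ψ, g1, g2, g3⟩ := hq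
  obtain ⟨M, hM⟩ := g1.smooth.continuous.bounded_above_of_compact_support g1.compact
  have hM0 : 0 ≤ M := (norm_nonneg _).trans (hM 0)
  have hm : MeasurableSet (univ : Set E3) := MeasurableSet.univ
  refine ⟨2 * M, by positivity, fun p hp => ?_⟩
  have hpq : p + q ∈ graphW univ := (graphW univ).add_mem hp hqW
  have h1 := tens_anti hpq hqW
  have e1 : (p + q).1 - q.1 = p.1 := by simp
  have e2 : (p + q).2 - q.2 = p.2 := by simp
  have e3 : (p + q).1 = p.1 + q.1 := rfl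
  rw [e1, e2, e3] at h1
  have h2 : ⟪tensL p.1, p.2⟫_ℝ = 0 := inner_tensL_zero hm hp
  set D : L2M univ := tensL (p.1 + q.1) - tensL q.1 - tensL p.1 with hD
  have h3 : ⟪tensL p.1, q.2⟫_ℝ = -⟪D, p.2⟫_ℝ := by
    rw [hD, inner_sub_left, h2, h1]
    ring
  have h4 : ‖D‖ ≤ 2 * M * ‖p.1‖ := by
    refine Lp.norm_le_mul_norm_of_ae_le_mul ?_
    have k1 := tensL_coe hm hpq
    have k2 := tensL_coe hm hqW
    have k3 := tensL_coe hm hp
    have k4 := Lp.coeFn_sub (tensL (p.1 + q.1) - tensL q.1) (tensL p.1)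
    have k5 := Lp.coeFn_sub (tensL (p.1 + q.1)) (tensL q.1)
    have k6 := Lp.coeFn_add p.1 q.1
    filter_upwards [k1, k2, k3, k4, k5, k6, g2] with x a1 a2 a3 a4 a5 a6 a7
    have a1' : (tensL (p.1 + q.1)) x = tens ((p.1 + q.1 : L2V univ) x) := a1
    rw [hD, a4, Pi.sub_apply, a5, Pi.sub_apply, a1', a2, a3, a6, Pi.add_apply]
    refine (tens_cross _ _).trans ?_
    have : ‖q.1 x‖ ≤ M := by rw [a7]; exact hM x
    gcongr
  rw [h3, abs_neg]
  calc |⟪D, p.2⟫_ℝ| ≤ ‖D‖ * ‖p.2‖ := abs_real_inner_le_norm _ _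
    _ ≤ (2 * M * ‖p.1‖) * ‖p.2‖ := by gcongr
    _ = 2 * M * (‖p.1‖ * ‖p.2‖) := by ring

section abs

variable {H K : Type*} [NormedAddCommGroup H] [InnerProductSpace ℝ H] [CompleteSpace H]
  [NormedAddCommGroup K] [InnerProductSpace ℝ K] [CompleteSpace K]

/-- a uniform bound for a projection onto a finite dimensional space. -/
theorem proj_bound {X : Type*} (E : Submodule ℝ K) [FiniteDimensional ℝ E] {f : X → K} {g : X → ℝ}
    {A : Set X} (h : ∀ e ∈ E, ∃ c : ℝ, 0 ≤ c ∧ ∀ p ∈ A, |⟪f p, e⟫_ℝ| ≤ c * g p) :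
    ∃ c : ℝ, 0 ≤ c ∧ ∀ p ∈ A, ‖E.starProjection (f p)‖ ≤ c * g p := by
  set b := stdOrthonormalBasis ℝ E with hb
  have h1 : ∀ i, ∃ c : ℝ, 0 ≤ c ∧ ∀ p ∈ A, |⟪f p, (b i : K)⟫_ℝ| ≤ c * g p :=
    fun i => h _ (b i).2
  choose c hc0 hc using h1
  refine ⟨∑ i, c i, Finset.sum_nonneg fun i _ => hc0 i, fun p hp => ?_⟩
  have h2 : E.starProjection (f p) = ∑ i, ⟪(b i : K), f p⟫_ℝ • (b i : K) := by
    rw [Submodule.starProjection_apply, b.orthogonalProjectionOnto_apply_eq_sum]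
    simp
  rw [h2, Finset.sum_mul]
  refine (norm_sum_le _ _).trans (Finset.sum_le_sum fun i _ => ?_)
  have h3 : ‖(b i : K)‖ = 1 := by
    have := b.orthonormal.1 i
    rwa [Submodule.coe_norm] at this
  rw [norm_smul, h3, mul_one, Real.norm_eq_abs, real_inner_comm]
  exact hc i p hp

/-- the decisive inequality for a projection. -/
theorem proj_axis {W : Submodule ℝ (H × K)} {m : H → K} (E : Submodule ℝ K)
    [FiniteDimensional ℝ E] {C0 : ℝ} (hC0 : 0 ≤ C0)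
    (hE1 : ∀ e ∈ E, ∃ c : ℝ, 0 ≤ c ∧ ∀ p ∈ W, |⟪p.2, e⟫_ℝ| ≤ c * ‖p.1‖)
    (hE2 : ∀ e ∈ E, ∃ c : ℝ, 0 ≤ c ∧ ∀ p ∈ W, |⟪m p.1, e⟫_ℝ| ≤ c * (‖p.1‖ * ‖p.2‖))
    (hm : ∀ p ∈ W, ‖m p.1‖ ≤ C0 * Real.sqrt (‖p.1‖ * ‖p.2‖ ^ 3)) :
    ∃ C : ℝ, 0 < C ∧ ∀ p ∈ W, ∀ y : K, |⟪m p.1, y⟫_ℝ|
      ≤ C * (‖(ContinuousLinearMap.id ℝ K - E.starProjection) y‖
        * Real.sqrt (‖p.1‖ * (‖(ContinuousLinearMap.id ℝ K - E.starProjection) p.2‖ + ‖p.1‖) ^ 3)
        + ‖y‖ * (‖p.1‖ * ‖p.2‖)) := by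
  obtain ⟨c1, hc1, h1⟩ := proj_bound E (A := (W : Set (H × K))) (f := fun p => p.2)
    (g := fun p => ‖p.1‖) hE1
  obtain ⟨c2, hc2, h2⟩ := proj_bound E (A := (W : Set (H × K))) (f := fun p => m p.1)
    (g := fun p => ‖p.1‖ * ‖p.2‖) hE2
  refine ⟨C0 * Real.sqrt ((1 + c1) ^ 3) + c2 + 1, by positivity, fun p hp y => ?_⟩
  set P : K →L[ℝ] K := ContinuousLinearMap.id ℝ K - E.starProjection with hP
  have hPy : ∀ y, y = P y + E.starProjection y := by
    intro y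
    rw [hP]
    simp
  have k1 := h1 p hp
  have k2 := h2 p hp
  have k3 := hm p hp
  have e1 : ⟪m p.1, y⟫_ℝ = ⟪m p.1, P y⟫_ℝ + ⟪E.starProjection (m p.1), y⟫_ℝ := by
    conv_lhs => rw [hPy y]
    rw [inner_add_right, Submodule.inner_starProjection_left_eq_right]
  have k4 : ‖p.2‖ ≤ (1 + c1) * (‖P p.2‖ + ‖p.1‖) := by
    have a1 : ‖p.2‖ ≤ ‖P p.2‖ + ‖E.starProjection p.2‖ := by
      conv_lhs => rw [hPy p.2]
      exact norm_add_le _ _
    have a2 := norm_nonneg (P p.2)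
    have a3 := norm_nonneg p.1
    nlinarith [mul_nonneg hc1 a2]
  have k5 : Real.sqrt (‖p.1‖ * ‖p.2‖ ^ 3)
      ≤ Real.sqrt ((1 + c1) ^ 3) * Real.sqrt (‖p.1‖ * (‖P p.2‖ + ‖p.1‖) ^ 3) := by
    rw [← Real.sqrt_mul (by positivity)]
    refine Real.sqrt_le_sqrt ?_
    calc ‖p.1‖ * ‖p.2‖ ^ 3 ≤ ‖p.1‖ * ((1 + c1) * (‖P p.2‖ + ‖p.1‖)) ^ 3 := by gcongr
      _ = _ := by ring
  have k6 : |⟪m p.1, P y⟫_ℝ| ≤ ‖m p.1‖ * ‖P y‖ := abs_real_inner_le_norm _ _
  have k7 : |⟪E.starProjection (m p.1), y⟫_ℝ| ≤ ‖E.starProjection (m p.1)‖ * ‖y‖ :=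
    abs_real_inner_le_norm _ _
  set Q := Real.sqrt (‖p.1‖ * (‖P p.2‖ + ‖p.1‖) ^ 3) with hQ
  have hQ0 : 0 ≤ Q := Real.sqrt_nonneg _
  have hs0 : 0 ≤ Real.sqrt ((1 + c1) ^ 3) := Real.sqrt_nonneg _
  rw [e1]
  calc |⟪m p.1, P y⟫_ℝ + ⟪E.starProjection (m p.1), y⟫_ℝ|
      ≤ |⟪m p.1, P y⟫_ℝ| + |⟪E.starProjection (m p.1), y⟫_ℝ| := abs_add_le _ _
    _ ≤ ‖m p.1‖ * ‖P y‖ + ‖E.starProjection (m p.1)‖ * ‖y‖ := add_le_add k6 k7
    _ ≤ (C0 * (Real.sqrt ((1 + c1) ^ 3) * Q)) * ‖P y‖ + (c2 * (‖p.1‖ * ‖p.2‖)) * ‖y‖ := by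
        have : ‖m p.1‖ ≤ C0 * (Real.sqrt ((1 + c1) ^ 3) * Q) :=
          k3.trans (mul_le_mul_of_nonneg_left k5 hC0)
        gcongr
    _ = (C0 * Real.sqrt ((1 + c1) ^ 3)) * (‖P y‖ * Q) + c2 * (‖y‖ * (‖p.1‖ * ‖p.2‖)) := by ring
    _ ≤ (C0 * Real.sqrt ((1 + c1) ^ 3) + c2 + 1) * (‖P y‖ * Q)
        + (C0 * Real.sqrt ((1 + c1) ^ 3) + c2 + 1) * (‖y‖ * (‖p.1‖ * ‖p.2‖)) := by
        have b1 : 0 ≤ C0 * Real.sqrt ((1 + c1) ^ 3) := by positivity
        gcongr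
        · linarith
        · linarith
    _ = _ := by ring

theorem proj_sym (E : Submodule ℝ K) [FiniteDimensional ℝ E] (y w : K) :
    ⟪(ContinuousLinearMap.id ℝ K - E.starProjection) y, w⟫_ℝ
      = ⟪y, (ContinuousLinearMap.id ℝ K - E.starProjection) w⟫_ℝ := by
  simp only [ContinuousLinearMap.sub_apply, ContinuousLinearMap.id_apply, inner_sub_left,
    inner_sub_right]
  rw [Submodule.inner_starProjection_left_eq_right]

theorem proj_idem (E : Submodule ℝ K) [FiniteDimensional ℝ E] (y : K) :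
    (ContinuousLinearMap.id ℝ K - E.starProjection)
      ((ContinuousLinearMap.id ℝ K - E.starProjection) y)
      = (ContinuousLinearMap.id ℝ K - E.starProjection) y := by
  have h : E.starProjection (E.starProjection y) = E.starProjection y :=
    Submodule.starProjection_eq_self_iff.mpr (Submodule.starProjection_apply_mem _ _)
  simp only [ContinuousLinearMap.sub_apply, ContinuousLinearMap.id_apply, map_sub]
  rw [h, sub_self, sub_zero]

theorem proj_le (E : Submodule ℝ K) [FiniteDimensional ℝ E] (y : K) :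
    ‖(ContinuousLinearMap.id ℝ K - E.starProjection) y‖ ≤ ‖y‖ := by
  set P : K →L[ℝ] K := ContinuousLinearMap.id ℝ K - E.starProjection with hP
  have h1 : ‖P y‖ ^ 2 = ⟪y, P y⟫_ℝ := by
    rw [← real_inner_self_eq_norm_sq, hP, proj_sym, proj_idem]
  have h2 : ⟪y, P y⟫_ℝ ≤ ‖y‖ * ‖P y‖ := real_inner_le_norm _ _
  by_contra hcon
  rw [not_le] at hcon
  have h3 : 0 < ‖P y‖ := (norm_nonneg _).trans_lt hcon
  nlinarith

end abs

end H772R2.NAX
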