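import Mathlib
import Pool.Agent.H772R2.NAX.PubA
import Pool.Agent.H772R2.NAX.Frame
import Pool.Agent.H772R2.NAX.Abs
import Pool.Agent.H772R2.NAX.Coin
import Pool.Agent.H772R2.NSR.Final

/-!
Axisymmetric flows with viscosity increased near the axis, in terms of the public definitions.
-/

set_option linter.unusedSectionVars false

open MeasureTheory Set Filter Topology Metric
open scoped InnerProductSpace NNReal ENNReal ContDiff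

namespace H772R2.NAX

open H772R2.NS H772R2.NS.Pub H772R2.NSR

theorem rot_eq (θ : ℝ) (x : E3) : (Pub.rot θ x : E3) = rotC θ x := by
  have h : ∀ i, ⟪(e i : E3), x⟫_ℝ = x i := fun i => Pub.inner_e i x
  show (Real.cos θ * ⟪(e 0 : E3), x⟫_ℝ - Real.sin θ * ⟪(e 1 : E3), x⟫_ℝ) • (ev 0 : E3)
    + (Real.sin θ * ⟪(e 0 : E3), x⟫_ℝ + Real.cos θ * ⟪(e 1 : E3), x⟫_ℝ) • (ev 1 : E3)
    + ⟪(e 2 : E3), x⟫_ℝ • (ev 2 : E3) = _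
  rw [h, h, h]
  refine ext3 ?_ ?_ ?_
  · rw [rotC_zero']; simp
  · rw [rotC_one']; simp
  · rw [rotC_two']; simp

theorem dist_eq' (x : E3) : Pub.axisDist x = rad x := by
  have h : ∀ i, ⟪(e i : E3), x⟫_ℝ = x i := fun i => Pub.inner_e i x
  show Real.sqrt (⟪(e 0 : E3), x⟫_ℝ ^ 2 + ⟪(e 1 : E3), x⟫_ℝ ^ 2) = _
  rw [h, h]
  rfl

theorem ae_univ {V : Type*} {f g : E3 → V} : f =ᵐ[volume.restrict (univ : Set E3)] g ↔ f =ᵐ[(volume : Measure E3)] g := by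
  rw [Measure.restrict_univ]

theorem axi_iff (v : L2V univ) : Pub.IsAxi v ↔ InvL rotC v := by
  have h0 : Pub.IsAxi v ↔ ∀ θ : ℝ, (fun x : E3 => (v (rotC θ x) : E3)) =ᵐ[(volume : Measure E3)]
      fun x => rotC θ (v x) := by
    constructor
    · intro h θ
      have h1 : (fun x : E3 => (v (Pub.rot θ x : E3) : E3)) =ᵐ[(volume : Measure E3)]
        fun x => (Pub.rot θ (v x) : E3) := h θ
      filter_upwards [h1] with x hx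
      rwa [rot_eq, rot_eq] at hx
    · intro h θ
      show (fun x : E3 => (v (Pub.rot θ x : E3) : E3)) =ᵐ[(volume : Measure E3)]
        fun x => (Pub.rot θ (v x) : E3)
      filter_upwards [h θ] with x hx
      rw [rot_eq, rot_eq]
      exact hx
  rw [h0]
  constructor
  · intro h θ
    apply Lp.ext
    refine (UU_coe (ρ := rotC) θ v).trans ?_
    filter_upwards [ae_univ.mpr (h θ)] with x hx
    rw [hx, rep_rotC.neg_left]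
  · intro h θ
    have h1 := UU_coe (ρ := rotC) θ v
    rw [h θ] at h1
    filter_upwards [ae_univ.mp h1] with x hx
    rw [hx, rep_rotC.neg_right]

theorem weak_ext {ν : ℝ} {u0 : L2V univ} {P : L2M univ →L[ℝ] L2M univ}
    (hP : ∀ w, InvL rotM w → InvL rotM (P w)) {u : ℝ → L2V univ} {z : ℝ → L2M univ} {h : ℝ → ℝ}
    (hmem : ∀ t, 0 ≤ t → (u t, z t) ∈ axW) (h0 : u 0 = u0)
    (hw : ∀ p ∈ axW, ∀ t, 0 ≤ t → ⟪u t, p.1⟫_ℝ - ⟪u0, p.1⟫_ℝ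
      = ∫ s in (0 : ℝ)..t, ⟪-(ν • z s) - h s • P (P (z s)) + tensL (u s), p.2⟫_ℝ) :
    ∀ q ∈ preW univ, ∀ t, 0 ≤ t → ⟪u t, q.1⟫_ℝ - ⟪u 0, q.1⟫_ℝ
      = ∫ s in (0 : ℝ)..t, ⟪-(ν • z s) - h s • P (P (z s)) + tensL (u s), q.2⟫_ℝ := by
  intro q hq t ht
  obtain ⟨a, ha, h1, h2⟩ := exists_avg hq
  have iu : ∀ s, 0 ≤ s → InvL rotC (u s) := fun s hs => axW_inv (hmem s hs)
  have iz : ∀ s, 0 ≤ s → InvL rotM (z s) := fun s hs => inv_grad (axW_le (hmem s hs)) (iu s hs)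
  have it : ∀ s, 0 ≤ s → InvL rotM (tensL (u s)) := fun s hs =>
    inv_tens (axW_le (hmem s hs)) (iu s hs)
  rw [← h1 _ (iu t ht), ← h1 _ (iu 0 le_rfl), h0, hw a ha t ht]
  refine intervalIntegral.integral_congr ?_
  intro s hs
  rw [uIcc_of_le ht] at hs
  refine h2 _ ?_
  exact (((iz s hs.1).smul ν).neg.sub ((hP _ (hP _ (iz s hs.1))).smul (h s))).add (it s hs.1)

/-- the intermediate form. -/
theorem ax_mid {ν : ℝ} (hν : 0 < ν) {κ S : ℝ} (hκ : 0 < κ) (hS : 0 < S)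
    {u0 : L2V univ} {z0 : L2M univ}
    (h0 : (u0, z0) ∈ graphW univ) (hax : InvL rotC u0)
    (hc : ∃ g : L2V univ, ∀ φ : E3 → E3, NS.IsTest univ φ →
      Pub.rhs (Ω := (univ : Set E3)) ν u0 z0 0 φ
        = ∫ x in (show Set R3 from (univ : Set E3)),
          ⟪L2.fn (Ω := (univ : Set E3)) (E := R3) g x, (φ : R3 → R3) x⟫_ℝ)
    {σ : E3 → ℝ} (hm : Measurable σ) (hb : ∀ x, |σ x| ≤ 1) (hσ : ∀ θ x, σ (rotC θ x) = σ x)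
    {δ : ℝ} (hδ : 0 < δ) (h1 : ∀ x, rad x ≤ δ → σ x = 1)
    {P : L2M univ →L[ℝ] L2M univ} (hP : P = mulL M3 (volume.restrict (univ : Set E3)) σ hm hb)
    (hSz : ‖P z0‖ ≤ S) :
    ∃ (u : ℝ → L2V univ) (z : ℝ → L2M univ), u 0 = u0 ∧
      (∀ t, 0 ≤ t → (u t, z t) ∈ axW) ∧
      (∀ T, 0 ≤ T → ContinuousOn z (Icc 0 T)) ∧
      (∀ T, 0 ≤ T → ContinuousOn (fun t => muf κ S ‖P (z t)‖) (Icc 0 T)) ∧
      (∃ T2, ∀ t, T2 ≤ t → muf κ S ‖P (z t)‖ = 0) ∧ (∃ c, ∀ t, 0 ≤ t → ‖z t‖ ≤ c) ∧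
      (∀ r : ℝ, 0 < r → ∃ T2, ∀ t, T2 ≤ t → ‖z t‖ < r) ∧
      (∀ q ∈ preW univ, ∀ t, 0 ≤ t → ⟪u t, q.1⟫_ℝ - ⟪u 0, q.1⟫_ℝ
        = ∫ s in (0 : ℝ)..t, ⟪-(ν • z s) - muf κ S ‖P (z s)‖ • P (P (z s)) + tensL (u s),
          q.2⟫_ℝ) ∧
      (∀ t, 0 ≤ t → ‖u t‖ ^ 2 / 2 + ∫ s in (0 : ℝ)..t,
        (ν * ‖z s‖ ^ 2 + muf κ S ‖P (z s)‖ * ‖P (z s)‖ ^ 2) = ‖u0‖ ^ 2 / 2) ∧
      volume {t | 0 ≤ t ∧ muf κ S ‖P (z t)‖ ≠ 0} ≤ ENNReal.ofReal (‖u0‖ ^ 2 / (2 * ν * S ^ 2)) ∧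
      (∀ T, 0 ≤ T → ∫ t in (0 : ℝ)..T, muf κ S ‖P (z t)‖ ^ 5 ≤ κ ^ 4 * (‖u0‖ ^ 2 / 2)) ∧
      (∀ T, 0 ≤ T → ∫ t in (0 : ℝ)..T,
        ‖muf κ S ‖P (z t)‖ • P (P (z t))‖ ^ (5 / 3 : ℝ) ≤ κ ^ (2 / 3 : ℝ) * (‖u0‖ ^ 2 / 2)) ∧
      ∃ c, ∀ T, 0 < T → ∃ (u1 : ℝ → L2V univ) (z1 : ℝ → L2M univ),
        MemLp u1 2 (volume.restrict (Ioc 0 T)) ∧ MemLp z1 2 (volume.restrict (Ioc 0 T)) ∧
        (∀ a b, 0 ≤ a → a ≤ b → b ≤ T → u b - u a = ∫ s in a..b, u1 s) ∧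
        (∀ a b, 0 ≤ a → a ≤ b → b ≤ T → z b - z a = ∫ s in a..b, z1 s) ∧
        ∀ᵐ s ∂(volume.restrict (Ioc 0 T)), (u1 s, z1 s) ∈ axW ∧ ‖u1 s‖ ≤ c := by
  subst hP
  obtain ⟨C, Fr⟩ := exists_aframe hδ hm hb h1
  obtain ⟨g0, hg0⟩ := hc
  have hcomp : ∀ p ∈ graphW (univ : Set E3), ⟪(0 : L2M univ) - ν • z0 + tensL u0, p.2⟫_ℝ
      = ⟪g0, p.1⟫_ℝ := by
    refine compat_ext (Ω := (univ : Set E3)) ?_
    rintro p ⟨φ, k1, k2, k3⟩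
    rw [← pub_rhs (Ω := (univ : Set E3)) MeasurableSet.univ ν 0 h0 k3,
      ← pub_inner (Ω := (univ : Set E3)) g0 k2]
    exact hg0 φ k1
  obtain ⟨u, z, a1, a2, a3, a4, a6, a7, a7', a8, a9, a10, a11, a12, a13⟩ :=
    ax_abs Fr hν lc_axW (mem_axW h0 hax) (g0 := g0) (fun p hp => by
      have := hcomp p (axW_le hp)
      rwa [zero_sub] at this) hκ hS hSz
  refine ⟨u, z, a1, a2, a3, a4, a6, a7, a7', ?_, a9, a10, a11, a12, a13⟩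
  exact weak_ext (h := fun s => muf κ S ‖mulL M3 (volume.restrict (univ : Set E3)) σ hm hb (z s)‖)
    (fun w hw => hw.mul hσ) a2 a1 a8

theorem ax_eqn {ν : ℝ} {u : ℝ → L2V univ} {z Φ : ℝ → L2M univ}
    (hmem : ∀ t, 0 ≤ t → (u t, z t) ∈ graphW univ)
    (hw : ∀ q ∈ preW univ, ∀ t, 0 ≤ t → ⟪u t, q.1⟫_ℝ - ⟪u 0, q.1⟫_ℝ
      = ∫ s in (0 : ℝ)..t, ⟪Φ s - ν • z s + tensL (u s), q.2⟫_ℝ)
    (φ : E3 → E3) (hφ : NS.IsTest univ φ) {t : ℝ} (ht : 0 ≤ t) :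
    (∫ x in (show Set R3 from (univ : Set E3)),
        ⟪L2.fn (Ω := (univ : Set E3)) (E := R3) (u t) x, (φ : R3 → R3) x⟫_ℝ)
      - (∫ x in (show Set R3 from (univ : Set E3)),
        ⟪L2.fn (Ω := (univ : Set E3)) (E := R3) (u 0) x, (φ : R3 → R3) x⟫_ℝ)
    = ∫ s in (0 : ℝ)..t, Pub.rhs (Ω := (univ : Set E3)) ν (u s) (z s) (Φ s) φ := by
  have h1 : MemLp φ 2 (volume.restrict (univ : Set E3)) := (hφ.memLp 2).restrict _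
  have h2 : MemLp (NS.jac φ) 2 (volume.restrict (univ : Set E3)) := (hφ.jac_memLp 2).restrict _
  have hp1 := h1.coeFn_toLp
  have hp2 := h2.coeFn_toLp
  have hw' := hw (h1.toLp φ, h2.toLp _) ⟨φ, hφ, hp1, hp2⟩ t ht
  have e1 := pub_inner (Ω := (univ : Set E3)) (u t) hp1
  have e2 := pub_inner (Ω := (univ : Set E3)) (u 0) hp1
  have e3 : ∫ s in (0 : ℝ)..t, Pub.rhs (Ω := (univ : Set E3)) ν (u s) (z s) (Φ s) φ
      = ∫ s in (0 : ℝ)..t, ⟪Φ s - ν • z s + tensL (u s), h2.toLp _⟫_ℝ := by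
    refine intervalIntegral.integral_congr ?_
    intro s hs
    rw [uIcc_of_le ht] at hs
    exact pub_rhs (Ω := (univ : Set E3)) MeasurableSet.univ ν (Φ s) (hmem s hs.1) hp2
  refine (congrArg₂ (· - ·) e1 e2).trans ?_
  exact hw'.trans e3.symm

end H772R2.NAX
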