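import Mathlib
import Pool.Agent.H772R2.NAX.Fin
import Pool.Agent.H772R2.NAX.FinalA

/-!
Axisymmetric flows with a change that is orthogonal to finitely many test fields.
-/

set_option linter.unusedSectionVars false

open MeasureTheory Set Filter Topology Metric
open scoped InnerProductSpace NNReal ENNReal ContDiff

namespace H772R2.NAX

open H772R2.NS H772R2.NS.Pub H772R2.NSR

/-- gradients of axisymmetric test fields. -/
noncomputable def gradA : Submodule ℝ (L2M univ) :=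
  preA.map (LinearMap.snd ℝ (L2V univ) (L2M univ))

theorem exists_fframe (E : Submodule ℝ (L2M univ)) [FiniteDimensional ℝ E] (hE : E ≤ gradA) :
    ∃ C : ℝ, AFrame (axW : Submodule ℝ (L2V univ × L2M univ)) tensL
      (ContinuousLinearMap.id ℝ (L2M univ) - E.starProjection) C := by
  have hpre : ∀ e ∈ E, ∃ a ∈ preW univ, a.2 = e := by
    intro e he
    obtain ⟨a, ⟨φ, h1, h2, h3⟩, rfl⟩ := hE he
    exact ⟨a, ⟨φ, h1.1, h2, h3⟩, rfl⟩
  obtain ⟨C1, hC1, hax⟩ := proj_axis (W := axW) (m := tensL) E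
    (C0 := Real.sqrt ((CS : ℝ) ^ 3)) (Real.sqrt_nonneg _)
    (by
      intro e he
      obtain ⟨a, ha, rfl⟩ := hpre e he
      obtain ⟨L, hL⟩ := exists_lap ha
      refine ⟨‖L‖, norm_nonneg _, fun p hp => ?_⟩
      rw [hL p (axW_le hp), abs_neg, mul_comm]
      exact abs_real_inner_le_norm _ _)
    (by
      intro e he
      obtain ⟨a, ha, rfl⟩ := hpre e he
      obtain ⟨c, hc0, hc⟩ := exists_tens ha
      exact ⟨c, hc0, fun p hp => hc p (axW_le hp)⟩)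
    (by
      intro p hp
      rw [← Real.sqrt_mul (by positivity)]
      refine Real.le_sqrt_of_sq_le ((norm_tensL_sq_le MeasurableSet.univ (axW_le hp)).trans ?_)
      exact le_of_eq (by ring))
  set c2 : ℝ := 81 * ((CS : ℝ) ^ 3) ^ 2 with hc2
  have hc20 : 0 ≤ c2 := by positivity
  refine ⟨C1 + c2, ?_⟩
  constructor
  · linarith
  · exact axW_closed
  · intro p hp h0
    refine graphW_uniq isOpen_univ p.2 ?_
    have hp' := axW_le hp
    have : p = (p.1, p.2) := rfl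
    rw [this, h0] at hp'
    exact hp'
  · exact proj_sym E
  · exact proj_le E
  · intro p hp
    exact inner_tensL_zero MeasurableSet.univ (axW_le hp)
  · intro p hp q hq
    exact tens_anti (axW_le hp) (axW_le hq)
  · intro p hp q hq
    refine (tens_lips (axW_le hp) (axW_le hq)).trans ?_
    exact mul_le_mul_of_nonneg_right (by linarith) (by positivity)
  · intro p hp y
    refine (hax p hp y).trans ?_
    exact mul_le_mul_of_nonneg_right (by linarith) (by positivity)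

theorem gradA_inv {e : L2M univ} (he : e ∈ gradA) : InvL rotM e := by
  obtain ⟨a, ha, rfl⟩ := he
  have h1 : a ∈ axW := Submodule.le_topologicalClosure _ ha
  exact inv_grad (axW_le h1) (axW_inv h1)

/-- every test pair has an average among the axisymmetric test pairs. -/
theorem exists_avg' {q : L2V univ × L2M univ} (hq : q ∈ preW univ) :
    ∃ a ∈ preA, ∀ w, InvL rotM w → ⟪w, a.2⟫_ℝ = ⟪w, q.2⟫_ℝ := by
  obtain ⟨φ, h1, h2, h3⟩ := hq
  have ht := avg_test h1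
  have m1 : MemLp (avg rotC φ) 2 (volume.restrict (univ : Set E3)) := (ht.1.memLp 2).restrict _
  have m2 : MemLp (NS.jac (avg rotC φ)) 2 (volume.restrict (univ : Set E3)) :=
    (ht.1.jac_memLp 2).restrict _
  have k1 := m1.coeFn_toLp
  have k2 := m2.coeFn_toLp
  have k2' : ((m2.toLp _ : L2M univ) : E3 → M3) =ᵐ[volume.restrict (univ : Set E3)]
      avg rotM (NS.jac φ) := by
    refine k2.trans (Eventually.of_forall fun x => ?_)
    exact jac_avg h1.smooth x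
  refine ⟨(m1.toLp _, m2.toLp _), ⟨avg rotC φ, ht, k1, k2⟩, ?_⟩
  intro w hw
  rw [real_inner_comm, real_inner_comm q.2]
  exact avg_L_inv rep_rotM (continuous_jac h1.smooth) (hasCompactSupport_jac h1.compact) h3 k2' hw

variable {ν T : ℝ} {v v' : ℝ → L2V univ} {Y Y' : ℝ → L2M univ}

/-- uniqueness of strong solutions of the closed loop system. -/
theorem strong_uniq2 (hν : 0 < ν) {κ S : ℝ} (hκ : 0 < κ) (hS : 0 < S) (hT : 0 ≤ T)
    {P : L2M univ →L[ℝ] L2M univ} (hsym : ∀ y w : L2M univ, ⟪P y, w⟫_ℝ = ⟪y, P w⟫_ℝ)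
    {F Φ : ℝ → L2M univ} {w w' : ℝ → L2V univ} {X X' : ℝ → L2M univ}
    (h1 : IsStrong (show Set R3 from (univ : Set E3)) ν T F v v' Y Y')
    (h2 : IsStrong (show Set R3 from (univ : Set E3)) ν T Φ w w' X X')
    (e1 : ∀ t ∈ Icc 0 T, F t = -(muf κ S ‖P (Y t)‖ • P (P (Y t))))
    (e2 : ∀ t ∈ Icc 0 T, Φ t = -(muf κ S ‖P (X t)‖ • P (P (X t))))
    (h0 : v 0 = w 0) : ∀ t ∈ Icc 0 T, v t = w t := by
  obtain ⟨C, Fr⟩ := exists_gframe
  have V := visc_muf (ν := ν) hκ hS hν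
  have hmu : Continuous (fun s : ℝ => muf κ S s) := by
    unfold muf
    fun_prop
  have hc : ∀ {Z : ℝ → L2M univ}, ContinuousOn Z (Icc 0 T) →
      ContinuousOn (fun t => -(muf κ S ‖P (Z t)‖ • P (P (Z t)))) (Icc 0 T) := by
    intro Z hZ
    have c1 := P.continuous.comp_continuousOn hZ
    exact ((hmu.comp_continuousOn c1.norm).smul (P.continuous.comp_continuousOn c1)).neg
  have hYc : ContinuousOn Y (Icc 0 T) := prim_cont h1.hG.memLp h1.hG.prim
  have hXc : ContinuousOn X (Icc 0 T) := prim_cont h2.hG.memLp h2.hG.prim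
  obtain ⟨p1, p2, p3, p4⟩ := strong_data2 ((hc hYc).congr e1) h1
  obtain ⟨q1, q2, q3, q4⟩ := strong_data2 ((hc hXc).congr e2) h2
  refine law_uniq Fr hν V hsym hT h0 p1 q1 q2 p2 ?_ ?_ ?_ ?_
  · have h : ContinuousOn (fun s => -(muf κ S ‖P (Y s)‖ • P (P (Y s))) - ν • Y s + tensL (v s))
        (Icc 0 T) := ((hc hYc).sub (hYc.const_smul ν)).add p3
    refine h.congr fun t _ => ?_
    simp only
    abel
  · have h : ContinuousOn (fun s => -(muf κ S ‖P (X s)‖ • P (P (X s))) - ν • X s + tensL (w s))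
        (Icc 0 T) := ((hc hXc).sub (hXc.const_smul ν)).add q3
    refine h.congr fun t _ => ?_
    simp only
    abel
  · intro p hp a b ha hab hb'
    rw [p4 p hp a b ha hab hb']
    refine intervalIntegral.integral_congr fun s hs => ?_
    rw [uIcc_of_le hab] at hs
    rw [e1 s ⟨ha.trans hs.1, hs.2.trans hb'⟩]
    congr 2
    abel
  · intro p hp a b ha hab hb'
    rw [q4 p hp a b ha hab hb']
    refine intervalIntegral.integral_congr fun s hs => ?_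
    rw [uIcc_of_le hab] at hs
    rw [e2 s ⟨ha.trans hs.1, hs.2.trans hb'⟩]
    congr 2
    abel

/-- the projection off finitely many test fields. -/
theorem exists_proj {k : ℕ} {ψ : Fin k → E3 → E3} (hψ : ∀ j, NS.IsTest univ (ψ j)) :
    ∃ (P : L2M univ →L[ℝ] L2M univ) (C : ℝ),
      AFrame (axW : Submodule ℝ (L2V univ × L2M univ)) tensL P C ∧
      (∀ y : L2M univ, P (P y) = P y) ∧ (∀ w, InvL rotM w → InvL rotM (P w)) ∧
      (∀ j (q : L2M univ), (q : E3 → M3) =ᵐ[volume.restrict (univ : Set E3)] NS.jac (ψ j) →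
        ∀ w, InvL rotM w → ⟪P w, q⟫_ℝ = 0) ∧
      ∀ y : L2M univ, ∃ φ, NS.IsTest univ φ ∧
        ((y - P y : L2M univ) : E3 → M3) =ᵐ[volume.restrict (univ : Set E3)] NS.jac φ := by
  have hq : ∀ j, ∃ q ∈ preW univ, (q.2 : E3 → M3) =ᵐ[volume.restrict (univ : Set E3)]
      NS.jac (ψ j) := by
    intro j
    have m1 : MemLp (ψ j) 2 (volume.restrict (univ : Set E3)) := ((hψ j).memLp 2).restrict _
    have m2 : MemLp (NS.jac (ψ j)) 2 (volume.restrict (univ : Set E3)) :=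
      ((hψ j).jac_memLp 2).restrict _
    exact ⟨(m1.toLp _, m2.toLp _), ⟨ψ j, hψ j, m1.coeFn_toLp, m2.coeFn_toLp⟩, m2.coeFn_toLp⟩
  choose q hqW hqj using hq
  have ha : ∀ j, ∃ a ∈ preA, ∀ w, InvL rotM w → ⟪w, a.2⟫_ℝ = ⟪w, (q j).2⟫_ℝ := fun j =>
    exists_avg' (hqW j)
  choose a haA haq using ha
  set E : Submodule ℝ (L2M univ) := Submodule.span ℝ (range fun j => (a j).2) with hEdef
  have hfin : FiniteDimensional ℝ E := FiniteDimensional.span_of_finite ℝ (finite_range _)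
  have hE : E ≤ gradA := by
    rw [hEdef, Submodule.span_le]
    rintro _ ⟨j, rfl⟩
    exact ⟨a j, haA j, rfl⟩
  obtain ⟨C, Fr⟩ := exists_fframe E hE
  refine ⟨ContinuousLinearMap.id ℝ (L2M univ) - E.starProjection, C, Fr, proj_idem E, ?_, ?_, ?_⟩
  · intro w hw
    have h1 : InvL rotM (E.starProjection w) :=
      gradA_inv (hE (Submodule.starProjection_apply_mem _ _))
    exact hw.sub h1
  · intro j q' hq' w hw
    have e1 : q' = (q j).2 := Lp.ext (hq'.trans (hqj j).symm)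
    have h1 : InvL rotM (E.starProjection w) :=
      gradA_inv (hE (Submodule.starProjection_apply_mem _ _))
    have h2 : InvL rotM ((ContinuousLinearMap.id ℝ (L2M univ) - E.starProjection) w) := hw.sub h1
    have h3 : (a j).2 ∈ E := Submodule.subset_span ⟨j, rfl⟩
    have h4 : E.starProjection (a j).2 = (a j).2 := Submodule.starProjection_eq_self_iff.mpr h3
    rw [e1, ← haq j _ h2, proj_sym]
    have h5 : (ContinuousLinearMap.id ℝ (L2M univ) - E.starProjection) (a j).2 = 0 := by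
      rw [ContinuousLinearMap.sub_apply, h4, ContinuousLinearMap.id_apply, sub_self]
    rw [h5, inner_zero_right]
  · intro y
    have h1 : y - (ContinuousLinearMap.id ℝ (L2M univ) - E.starProjection) y
        = E.starProjection y := by
      rw [ContinuousLinearMap.sub_apply, ContinuousLinearMap.id_apply, sub_sub_cancel]
    obtain ⟨b, ⟨φ, h2, h3, h4⟩, h5⟩ := hE (Submodule.starProjection_apply_mem E y)
    refine ⟨φ, h2.1, ?_⟩
    rw [h1, ← h5]
    exact h4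

/-- the intermediate form. -/
theorem ax_mid2 {ν : ℝ} (hν : 0 < ν) {κ S : ℝ} (hκ : 0 < κ) (hS : 0 < S)
    {u0 : L2V univ} {z0 : L2M univ}
    (h0 : (u0, z0) ∈ graphW univ) (hax : InvL rotC u0)
    (hc : ∃ g : L2V univ, ∀ φ : E3 → E3, NS.IsTest univ φ →
      Pub.rhs (Ω := (univ : Set E3)) ν u0 z0 0 φ
        = ∫ x in (show Set R3 from (univ : Set E3)),
          ⟪L2.fn (Ω := (univ : Set E3)) (E := R3) g x, (φ : R3 → R3) x⟫_ℝ)
    {P : L2M univ →L[ℝ] L2M univ} {C : ℝ}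
    (Fr : AFrame (axW : Submodule ℝ (L2V univ × L2M univ)) tensL P C)
    (hPinv : ∀ w, InvL rotM w → InvL rotM (P w)) (hSz : ‖P z0‖ ≤ S) :
    ∃ (u : ℝ → L2V univ) (z : ℝ → L2M univ), u 0 = u0 ∧
      (∀ t, 0 ≤ t → (u t, z t) ∈ axW) ∧
      (∀ T, 0 ≤ T → ContinuousOn z (Icc 0 T)) ∧
      (∀ T, 0 ≤ T → ContinuousOn (fun t => muf κ S ‖P (z t)‖) (Icc 0 T)) ∧
      (∃ T2, ∀ t, T2 ≤ t → muf κ S ‖P (z t)‖ = 0) ∧ (∃ c, ∀ t, 0 ≤ t → ‖z t‖ ≤ c) ∧
      (∀ r : ℝ, 0 < r → ∃ T2, ∀ t, T2 ≤ t → ‖z t‖ < r) ∧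
      (∀ q ∈ preW univ, ∀ t, 0 ≤ t → ⟪u t, q.1⟫_ℝ - ⟪u 0, q.1⟫_ℝ
        = ∫ s in (0 : ℝ)..t, ⟪-(ν • z s) - muf κ S ‖P (z s)‖ • P (P (z s)) + tensL (u s),
          q.2⟫_ℝ) ∧
      (∀ t, 0 ≤ t → ‖u t‖ ^ 2 / 2 + ∫ s in (0 : ℝ)..t,
        (ν * ‖z s‖ ^ 2 + muf κ S ‖P (z s)‖ * ‖P (z s)‖ ^ 2) = ‖u0‖ ^ 2 / 2) ∧
      volume {t | 0 ≤ t ∧ muf κ S ‖P (z t)‖ ≠ 0} ≤ ENNReal.ofReal (‖u0‖ ^ 2 / (2 * ν * S ^ 2)) ∧
      (∀ T, 0 ≤ T → ∫ t in (0 : ℝ)..T, muf κ S ‖P (z t)‖ ^ 5 ≤ κ ^ 4 * (‖u0‖ ^ 2 / 2)) ∧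
      (∀ T, 0 ≤ T → ∫ t in (0 : ℝ)..T,
        ‖muf κ S ‖P (z t)‖ • P (P (z t))‖ ^ (5 / 3 : ℝ) ≤ κ ^ (2 / 3 : ℝ) * (‖u0‖ ^ 2 / 2)) ∧
      ∃ c, ∀ T, 0 < T → ∃ (u1 : ℝ → L2V univ) (z1 : ℝ → L2M univ),
        MemLp u1 2 (volume.restrict (Ioc 0 T)) ∧ MemLp z1 2 (volume.restrict (Ioc 0 T)) ∧
        (∀ a b, 0 ≤ a → a ≤ b → b ≤ T → u b - u a = ∫ s in a..b, u1 s) ∧
        (∀ a b, 0 ≤ a → a ≤ b → b ≤ T → z b - z a = ∫ s in a..b, z1 s) ∧
        ∀ᵐ s ∂(volume.restrict (Ioc 0 T)), (u1 s, z1 s) ∈ axW ∧ ‖u1 s‖ ≤ c := by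
  obtain ⟨g0, hg0⟩ := hc
  have hcomp : ∀ p ∈ graphW (univ : Set E3), ⟪(0 : L2M univ) - ν • z0 + tensL u0, p.2⟫_ℝ
      = ⟪g0, p.1⟫_ℝ := by
    refine compat_ext (Ω := (univ : Set E3)) ?_
    rintro p ⟨φ, k1, k2, k3⟩
    rw [← pub_rhs (Ω := (univ : Set E3)) MeasurableSet.univ ν 0 h0 k3,
      ← pub_inner (Ω := (univ : Set E3)) g0 k2]
    exact hg0 φ k1
  obtain ⟨u, z, a1, a2, a3, a4, a6, a7, a7', a8, a9, a10, a11, a12, a13⟩ :=
    ax_abs Fr hν lc_axW (mem_axW h0 hax) (g0 := g0) (fun p hp => by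
      have := hcomp p (axW_le hp)
      rwa [zero_sub] at this) hκ hS hSz
  refine ⟨u, z, a1, a2, a3, a4, a6, a7, a7', ?_, a9, a10, a11, a12, a13⟩
  exact weak_ext (h := fun s => muf κ S ‖P (z s)‖) hPinv a2 a1 a8

end H772R2.NAX
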