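import Mathlib
import Pool.Agent.H772R2.NAX.FinC

/-!
Axisymmetric flows with a change that is orthogonal to finitely many test fields: the public
theorem.
-/

set_option linter.unusedSectionVars false

open MeasureTheory Set Filter Topology Metric
open scoped InnerProductSpace NNReal ENNReal ContDiff

namespace H772R2.NAX

open H772R2.NS H772R2.NS.Pub H772R2.NSR

theorem fin_pub {ν κ S : ℝ} (hν : 0 < ν) (hκ : 0 < κ) (hS : 0 < S)
    {u0 : L2 (univ : Set R3) R3} {z0 : L2 (univ : Set R3) Mat}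
    (h0 : (u0, z0) ∈ Pub.H1graph univ) (hax : IsAxi u0)
    (hc : ∃ g : L2 (univ : Set R3) R3, ∀ φ, Pub.IsTest univ φ →
        Pub.rhs ν u0 z0 0 φ = ∫ x in univ, ⟪g.fn x, φ x⟫_ℝ) (hSz : ‖z0‖ ≤ S)
    {k : ℕ} {ψ : Fin k → R3 → R3} (hψ : ∀ j, Pub.IsTest univ (ψ j)) :
    ∃ (T2 M : ℝ) (h : ℝ → ℝ) (u : ℝ → L2 (univ : Set R3) R3)
      (G B : ℝ → L2 (univ : Set R3) Mat),
      (∀ t, h t = incr κ S ‖G t - B t‖) ∧
      (∀ t, ∃ w, Pub.IsTest univ w ∧ IsClass (B t) (Pub.jac w)) ∧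
      (∀ t, ⟪B t, G t - B t⟫_ℝ = 0) ∧
      (∀ j t, 0 ≤ t → ∫ x in univ, ⟪(G t - B t).fn x, Pub.jac (ψ j) x⟫_ℝ = 0) ∧
      u 0 = u0 ∧ (∀ t, 0 ≤ t → IsAxi (u t) ∧ ‖G t‖ ≤ M) ∧
      Tendsto (fun t => ‖G t‖) atTop (𝓝 0) ∧ (∀ t, T2 ≤ t → h t = 0) ∧
      volume {t | 0 ≤ t ∧ h t ≠ 0} ≤ ENNReal.ofReal (‖u0‖ ^ 2 / (2 * ν * S ^ 2)) ∧
      ∀ T, 0 < T → (∃ (u' : ℝ → L2 (univ : Set R3) R3) (G' : ℝ → L2 (univ : Set R3) Mat),
          IsStrong univ ν T (fun t => -(h t • (G t - B t))) u u' G G') ∧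
        (∀ {v v' : ℝ → L2 (univ : Set R3) R3} {Y Y' : ℝ → L2 (univ : Set R3) Mat},
          IsStrong univ ν T (fun _ => 0) v v' Y Y' → v 0 = u0 →
          (∀ t ∈ Icc 0 T, ‖Y t‖ ≤ S) → ∀ t ∈ Icc 0 T, u t = v t ∧ h t = 0) ∧
        ContinuousOn h (Icc 0 T) ∧ ∫ t in (0 : ℝ)..T, h t ^ 5 ≤ κ ^ 4 * (‖u0‖ ^ 2 / 2) ∧
        ∫ t in (0 : ℝ)..T, ‖h t • (G t - B t)‖ ^ (5 / 3 : ℝ)
          ≤ κ ^ (2 / 3 : ℝ) * (‖u0‖ ^ 2 / 2) ∧
        ‖u T‖ ^ 2 / 2 + ∫ s in (0 : ℝ)..T, (ν * ‖G s‖ ^ 2 + h s * ‖G s - B s‖ ^ 2)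
          = ‖u0‖ ^ 2 / 2 := by
  obtain ⟨P, C, Fr, hidem, hPinv, hPperp, hPtest⟩ := exists_proj (ψ := (ψ : Fin k → E3 → E3))
    (fun j => (isTest_iff _).mp (hψ j))
  obtain ⟨g0, hg0⟩ := hc
  obtain ⟨u, z, a1, a2, a3, a4, ⟨T2, a6⟩, ⟨M, a7⟩, a7', a8, a9, a10, a11, a12, ⟨c, a13⟩⟩ :=
    ax_mid2 hν hκ hS (u0 := u0) (z0 := z0) (mem_pub.mpr h0) ((axi_iff u0).mp hax)
      ⟨g0, fun φ hφ => hg0 φ ((isTest_iff φ).mpr hφ)⟩ Fr hPinv ((Fr.le z0).trans hSz)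
  set h : ℝ → ℝ := fun t => muf κ S ‖P (z t)‖ with hh
  have hzinv : ∀ t, 0 ≤ t → InvL rotM (z t) := fun t ht =>
    inv_grad (axW_le (a2 t ht)) (axW_inv (a2 t ht))
  have hGB : ∀ t, z t - (z t - P (z t)) = P (z t) := fun t => sub_sub_cancel _ _
  set F : ℝ → L2M univ := fun t => -(h t • P (z t)) with hF
  have hFe : ∀ t, F t = -(muf κ S ‖P (z t)‖ • P (P (z t))) := by
    intro t
    show -(h t • P (z t)) = _
    rw [hidem]
  have hFB : (fun t => -(h t • (z t - (z t - P (z t))))) = F := by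
    funext t
    rw [hGB]
  have hstr : ∀ T, 0 < T → ∃ (u' : ℝ → L2V univ) (G' : ℝ → L2M univ),
      IsStrong (show Set R3 from (univ : Set E3)) ν T F u u' z G' := by
    intro T hT
    obtain ⟨u1, z1, c1, c2, c3, c4, c5⟩ := a13 T hT
    refine ⟨u1, z1, ?_, ?_, ⟨c1, c3⟩, ⟨c2, c4⟩, ?_, ?_⟩
    · intro t ht
      exact mem_pub.mp (axW_le (a2 t ht.1))
    · filter_upwards [c5] with t ht
      exact mem_pub.mp (axW_le ht.1)
    · refine ⟨c, ?_⟩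
      filter_upwards [c5] with t ht
      exact ht.2
    · intro φ hφ t ht
      refine ax_eqn (Φ := F) (fun s hs => axW_le (a2 s hs)) ?_ φ ((isTest_iff φ).mp hφ) ht.1
      intro q hq s hs
      rw [a8 q hq s hs]
      refine intervalIntegral.integral_congr fun r _ => ?_
      simp only [hFe]
      congr 2
      abel
  have b1 : ∀ t, h t = incr κ S ‖z t - (z t - P (z t))‖ := by
    intro t
    rw [hGB]
    rfl
  have b2 : ∀ t, ∃ w : R3 → R3, Pub.IsTest univ w ∧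
      IsClass (Ω := (univ : Set R3)) (E := Mat) (z t - P (z t)) (Pub.jac w) := by
    intro t
    obtain ⟨φ, h1, h2⟩ := hPtest (z t)
    refine ⟨φ, (isTest_iff φ).mpr h1, ?_⟩
    have h6 : ((z t - P (z t) : L2M univ) : E3 → M3) =ᵐ[volume.restrict (univ : Set E3)]
        fun x => Pub.jac φ x := by
      filter_upwards [h2] with x hx
      rw [hx]
      exact (H772R2.NS.Pub.jac_eq φ x).symm
    exact h6
  have b3 : ∀ t, ⟪z t - P (z t), z t - (z t - P (z t))⟫_ℝ = 0 := by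
    intro t
    rw [hGB, inner_sub_left, Fr.sym, hidem, sub_self]
  have b4 : ∀ j t, 0 ≤ t → ∫ x in (show Set R3 from (univ : Set E3)),
      ⟪L2.fn (Ω := (univ : Set E3)) (E := Mat) (z t - (z t - P (z t))) x,
        Pub.jac (ψ j) x⟫_ℝ = 0 := by
    intro j t ht
    have ht' : NS.IsTest univ (ψ j : E3 → E3) := (isTest_iff _).mp (hψ j)
    have m2 : MemLp (NS.jac (ψ j : E3 → E3)) 2 (volume.restrict (univ : Set E3)) :=
      (ht'.jac_memLp 2).restrict _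
    have h1 := pub_inner_jac (Ω := (univ : Set E3)) (z t - (z t - P (z t))) m2.coeFn_toLp
    refine h1.trans ?_
    rw [hGB]
    exact hPperp j _ m2.coeFn_toLp _ (hzinv t ht)
  have b5 : Tendsto (fun t => ‖z t‖) atTop (𝓝 0) := by
    rw [Metric.tendsto_atTop]
    intro r hr
    obtain ⟨N, hN⟩ := a7' r hr
    refine ⟨N, fun t ht => ?_⟩
    rw [Real.dist_eq, sub_zero, abs_of_nonneg (norm_nonneg _)]
    exact hN t ht
  have b6 : ∀ T, 0 < T → ∀ {v v' : ℝ → L2V univ} {Y Y' : ℝ → L2M univ},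
      IsStrong (show Set R3 from (univ : Set E3)) ν T (fun _ => 0) v v' Y Y' → v 0 = u0 →
      (∀ t ∈ Icc 0 T, ‖Y t‖ ≤ S) → ∀ t ∈ Icc 0 T, u t = v t ∧ h t = 0 := by
    intro T hT v v' Y Y' hv hv0 hvS t ht
    obtain ⟨u1, z1, hu1⟩ := hstr T hT
    have hvt : ∀ t ∈ Icc 0 T, v t = u t := by
      refine strong_uniq2 hν hκ hS hT.le Fr.sym (F := fun _ => (0 : L2M univ)) (Φ := F)
        (v := v) (v' := v') (Y := Y)
        (Y' := Y') (w := u) (w' := u1) (X := z) (X' := z1) hv hu1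
        (fun t ht => ?_) (fun t _ => hFe t) ?_
      · have h1 : ‖P (Y t)‖ ≤ S := (Fr.le _).trans (hvS t ht)
        rw [muf_zero h1, zero_smul, neg_zero]
      · rw [hv0, a1]
    have h3 : u t = v t := (hvt t ht).symm
    refine ⟨h3, ?_⟩
    have h4 : (v t, Y t) ∈ graphW univ := mem_pub.mpr (hv.grad t ht)
    have h5 : (u t, z t) ∈ graphW univ := axW_le (a2 t ht.1)
    have h6 : z t = Y t := by
      obtain ⟨C, Fr'⟩ := exists_gframe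
      refine agrad_unique Fr' h5 ?_
      rw [h3]
      exact h4
    have h7 : ‖P (z t)‖ ≤ S := by
      rw [h6]
      exact (Fr.le _).trans (hvS t ht)
    exact muf_zero h7
  have b7 : ∀ T, 0 < T → ∫ t in (0 : ℝ)..T, ‖h t • (z t - (z t - P (z t)))‖ ^ (5 / 3 : ℝ)
      ≤ κ ^ (2 / 3 : ℝ) * (‖u0‖ ^ 2 / 2) := by
    intro T hT
    refine le_trans (le_of_eq ?_) (a12 T hT.le)
    refine intervalIntegral.integral_congr fun r _ => ?_
    show ‖h r • (z r - (z r - P (z r)))‖ ^ (5 / 3 : ℝ)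
      = ‖muf κ S ‖P (z r)‖ • P (P (z r))‖ ^ (5 / 3 : ℝ)
    rw [hGB, hidem]
  have b8 : ∀ T, 0 < T → ‖u T‖ ^ 2 / 2 + ∫ s in (0 : ℝ)..T,
      (ν * ‖z s‖ ^ 2 + h s * ‖z s - (z s - P (z s))‖ ^ 2) = ‖u0‖ ^ 2 / 2 := by
    intro T hT
    refine Eq.trans ?_ (a9 T hT.le)
    congr 1
    refine intervalIntegral.integral_congr fun r _ => ?_
    show ν * ‖z r‖ ^ 2 + h r * ‖z r - (z r - P (z r))‖ ^ 2
      = ν * ‖z r‖ ^ 2 + h r * ‖P (z r)‖ ^ 2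
    rw [hGB]
  have b9 : ∀ T, 0 < T → ∃ (u' : ℝ → L2V univ) (G' : ℝ → L2M univ),
      IsStrong (show Set R3 from (univ : Set E3)) ν T
        (fun t => -(h t • (z t - (z t - P (z t))))) u u' z G' := by
    intro T hT
    rw [hFB]
    exact hstr T hT
  exact ⟨T2, M, h, u, z, fun t => z t - P (z t), b1, b2, b3, b4, a1,
    fun t ht => ⟨(axi_iff (u t)).mpr (axW_inv (a2 t ht)), a7 t ht⟩, b5, a6, a10,
    fun T hT => ⟨b9 T hT, b6 T hT, a4 T hT.le, a11 T hT.le, b7 T hT, b8 T hT⟩⟩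

end H772R2.NAX
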