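import Mathlib
import Pool.Agent.H772R2.NAX.FinalA

/-!
Axisymmetric flows with viscosity increased near the axis: the public theorem.
-/

set_option linter.unusedSectionVars false

open MeasureTheory Set Filter Topology Metric
open scoped InnerProductSpace NNReal ENNReal ContDiff

namespace H772R2.NAX

open H772R2.NS H772R2.NS.Pub H772R2.NSR

theorem int_univ (g : E3 → ℝ) : ∫ x, g x ∂(volume.restrict (univ : Set E3)) = ∫ x, g x := by
  rw [Measure.restrict_univ]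

theorem tube_eq {ρ σ : E3 → ℝ} (hm : Measurable σ) (hb : ∀ x, |σ x| ≤ 1)
    (hσσ : ∀ x, σ x * σ x = ρ x) (z : L2M univ) :
    Pub.tubeNorm ρ z = ‖mulL M3 (volume.restrict (univ : Set E3)) σ hm hb z‖ := by
  set P := mulL M3 (volume.restrict (univ : Set E3)) σ hm hb with hP
  have h1 : ∫ x : E3, ρ x * ‖z x‖ ^ 2 = ‖P z‖ ^ 2 := by
    rw [← int_univ, ← real_inner_self_eq_norm_sq, L2.inner_def]
    refine integral_congr_ae ?_
    filter_upwards [mulL_coe (V := M3) (μ := volume.restrict (univ : Set E3)) (hm := hm)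
      (hb := hb) z] with x hx
    rw [hP, hx, real_inner_smul_left, real_inner_smul_right, real_inner_self_eq_norm_sq, ← hσσ]
    ring
  show Real.sqrt (∫ x : E3, ρ x * ‖z x‖ ^ 2) = _
  rw [h1, Real.sqrt_sq (norm_nonneg _)]

theorem axis_pub {ν κ S : ℝ} (hν : 0 < ν) (hκ : 0 < κ) (hS : 0 < S)
    {δ : ℝ} (hδ : 0 < δ) {ρ : R3 → ℝ} (hρm : Measurable ρ) (hρ : ∀ x, ρ x ∈ Icc (0 : ℝ) 1)
    (hρr : ∀ θ x, ρ (rot θ x) = ρ x) (hρ1 : ∀ x, axisDist x ≤ δ → ρ x = 1)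
    {u0 : L2 (univ : Set R3) R3} {z0 : L2 (univ : Set R3) Mat}
    (h0 : (u0, z0) ∈ Pub.H1graph univ) (hax : IsAxi u0)
    (hc : ∃ g : L2 (univ : Set R3) R3, ∀ φ, Pub.IsTest univ φ →
        Pub.rhs ν u0 z0 0 φ = ∫ x in univ, ⟪g.fn x, φ x⟫_ℝ) (hSz : tubeNorm ρ z0 ≤ S) :
    ∃ (T2 M : ℝ) (h : ℝ → ℝ) (u : ℝ → L2 (univ : Set R3) R3)
      (G F : ℝ → L2 (univ : Set R3) Mat),
      (∀ t, h t = incr κ S (tubeNorm ρ (G t))) ∧ u 0 = u0 ∧
      (∀ t, 0 ≤ t → IsAxi (u t) ∧ ‖G t‖ ≤ M) ∧ Tendsto (fun t => ‖G t‖) atTop (𝓝 0) ∧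
      (∀ t, T2 ≤ t → h t = 0) ∧
      volume {t | 0 ≤ t ∧ h t ≠ 0} ≤ ENNReal.ofReal (‖u0‖ ^ 2 / (2 * ν * S ^ 2)) ∧
      ∀ T, 0 < T → (∃ (u' : ℝ → L2 (univ : Set R3) R3) (G' : ℝ → L2 (univ : Set R3) Mat),
          IsModified ν κ S ρ T F u u' G G') ∧
        (∀ {Φ : ℝ → L2 (univ : Set R3) Mat} {w w' : ℝ → L2 (univ : Set R3) R3}
          {H H' : ℝ → L2 (univ : Set R3) Mat}, IsModified ν κ S ρ T Φ w w' H H' → w 0 = u0 →
          ∀ t ∈ Icc 0 T, w t = u t) ∧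
        (∀ {v v' : ℝ → L2 (univ : Set R3) R3} {Y Y' : ℝ → L2 (univ : Set R3) Mat},
          IsStrong univ ν T (fun _ => 0) v v' Y Y' → v 0 = u0 →
          (∀ t ∈ Icc 0 T, tubeNorm ρ (Y t) ≤ S) → ∀ t ∈ Icc 0 T, u t = v t ∧ h t = 0) ∧
        ContinuousOn h (Icc 0 T) ∧ ∫ t in (0 : ℝ)..T, h t ^ 5 ≤ κ ^ 4 * (‖u0‖ ^ 2 / 2) ∧
        ∫ t in (0 : ℝ)..T, ‖F t‖ ^ (5 / 3 : ℝ) ≤ κ ^ (2 / 3 : ℝ) * (‖u0‖ ^ 2 / 2) ∧
        ‖u T‖ ^ 2 / 2 + ∫ s in (0 : ℝ)..T, (ν * ‖G s‖ ^ 2 - ⟪F s, G s⟫_ℝ) = ‖u0‖ ^ 2 / 2 := by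
  set σ : E3 → ℝ := fun x => Real.sqrt (ρ x) with hσ
  have hm : Measurable σ := (show Measurable (ρ : E3 → ℝ) from hρm).sqrt
  have hb : ∀ x, |σ x| ≤ 1 := by
    intro x
    rw [hσ, abs_of_nonneg (Real.sqrt_nonneg _)]
    exact Real.sqrt_le_one.mpr (hρ x).2
  have hσσ : ∀ x, σ x * σ x = ρ x := fun x => Real.mul_self_sqrt (hρ x).1
  have hσr : ∀ θ x, σ (rotC θ x) = σ x := by
    intro θ x
    show Real.sqrt (ρ (rotC θ x)) = Real.sqrt (ρ x)
    rw [← rot_eq]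
    congr 1
    exact hρr θ x
  have hσ1 : ∀ x, rad x ≤ δ → σ x = 1 := by
    intro x hx
    rw [← dist_eq'] at hx
    show Real.sqrt (ρ x) = 1
    rw [hρ1 x hx, Real.sqrt_one]
  obtain ⟨g0, hg0⟩ := hc
  set P := mulL M3 (volume.restrict (univ : Set E3)) σ hm hb with hP
  have hPn : ∀ z : L2M univ, tubeNorm ρ z = ‖P z‖ := fun z => tube_eq (ρ := ρ) hm hb hσσ z
  obtain ⟨u, z, a1, a2, a3, a4, ⟨T2, a6⟩, ⟨M, a7⟩, a7', a8, a9, a10, a11, a12,
    ⟨c, a13⟩⟩ := ax_mid hν hκ hS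
    (u0 := u0) (z0 := z0) (mem_pub.mpr h0) ((axi_iff u0).mp hax)
    ⟨g0, fun φ hφ => hg0 φ ((isTest_iff φ).mpr hφ)⟩ hm hb hσr hδ hσ1 hP
    (by rw [← hPn z0]; exact hSz)
  set h : ℝ → ℝ := fun t => muf κ S ‖P (z t)‖ with hh
  have hhe : ∀ t, h t = incr κ S (tubeNorm ρ (z t)) := by
    intro t
    rw [hPn (z t)]
    rfl
  set F : ℝ → L2M univ := fun t => -(h t • P (P (z t))) with hF
  have hFz : ∀ s, ⟪F s, z s⟫_ℝ = -(h s * ‖P (z s)‖ ^ 2) := by
    intro s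
    simp only [hF]
    rw [inner_neg_left, real_inner_smul_left, hP, mulL_sym, real_inner_self_eq_norm_sq]
  have hFlaw : ∀ t, IsClass (Ω := (univ : Set R3)) (E := Mat) (F t)
      fun x => -(incr κ S (tubeNorm ρ (z t)) * ρ x) • (L2.fn (Ω := (univ : Set R3)) (E := Mat)
        (z t)) x := by
    intro t
    rw [← hhe t]
    have k1 := mulL_comp (hm := hm) (hb := hb) (z t)
    have k2 := Lp.coeFn_neg (h t • P (P (z t)))
    have k3 := Lp.coeFn_smul (h t) (P (P (z t)))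
    have key : (F t : E3 → M3) =ᵐ[volume.restrict (univ : Set E3)]
        fun x => -(h t * ρ x) • (z t) x := by
      filter_upwards [k1, k2, k3] with x b1 b2 b3
      rw [hF]
      simp only
      rw [b2, Pi.neg_apply, b3, Pi.smul_apply]
      rw [hP, b1, hσσ, smul_smul, neg_smul]
    exact key
  have hmod : ∀ T, 0 < T → ∃ (u' : ℝ → L2 (univ : Set R3) R3)
      (G' : ℝ → L2 (univ : Set R3) Mat), IsModified ν κ S ρ T F u u' z G' := by
    intro T hT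
    obtain ⟨u1, z1, c1, c2, c3, c4, c5⟩ := a13 T hT
    refine ⟨u1, z1, ⟨?_, ?_, ⟨c1, c3⟩, ⟨c2, c4⟩, ?_, ?_⟩, fun t _ => hFlaw t⟩
    · intro t ht
      exact mem_pub.mp (axW_le (a2 t ht.1))
    · filter_upwards [c5] with t ht
      exact mem_pub.mp (axW_le ht.1)
    · refine ⟨c, ?_⟩
      filter_upwards [c5] with t ht
      exact ht.2
    · intro φ hφ t ht
      refine ax_eqn (Φ := F) (fun s hs => axW_le (a2 s hs)) ?_ φ ((isTest_iff φ).mp hφ) ht.1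
      intro q hq s hs
      rw [a8 q hq s hs]
      refine intervalIntegral.integral_congr fun r _ => ?_
      simp only [hF]
      congr 2
      abel
  have hl : ∀ (f x : L2M univ), IsClass (Ω := (univ : Set R3)) (E := Mat) f
      (fun y => -(incr κ S (tubeNorm ρ x) * ρ y) • (L2.fn (Ω := (univ : Set R3)) (E := Mat)
      x) y) → f = -(muf κ S ‖P x‖ • P (P x)) := by
    intro f x hfx
    have h1 := law_force hm hb hσσ (c := incr κ S (tubeNorm ρ x)) (f := f) (z := x) hfx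
    rw [h1, hPn x]
    rfl
  refine ⟨T2, M, h, u, z, F, hhe, a1, ?_, ?_, a6, a10, ?_⟩
  · intro t ht
    exact ⟨(axi_iff (u t)).mpr (axW_inv (a2 t ht)), a7 t ht⟩
  · rw [Metric.tendsto_atTop]
    intro r hr
    obtain ⟨N, hN⟩ := a7' r hr
    refine ⟨N, fun t ht => ?_⟩
    rw [Real.dist_eq, sub_zero, abs_of_nonneg (norm_nonneg _)]
    exact hN t ht
  · intro T hT
    refine ⟨hmod T hT, ?_, ?_, a4 T hT.le, a11 T hT.le, ?_, ?_⟩
    · intro Φ w w' H H' hw hw0 t ht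
      obtain ⟨u1, z1, hu1⟩ := hmod T hT
      refine strong_uniq hν hκ hS hT.le hm hb hP (F := Φ) (Φ := F) (v := w) (v' := w') (Y := H)
        (Y' := H') (w := u) (w' := u1) (X := z) (X' := z1) hw.strong hu1.strong
        (fun t ht => hl _ _ (hw.law t ht)) (fun t _ => hl _ _ (hFlaw t)) ?_ t ht
      rw [hw0, a1]
    · intro v v' Y Y' hv hv0 hvS t ht
      obtain ⟨u1, z1, hu1⟩ := hmod T hT
      have hvt : ∀ t ∈ Icc 0 T, v t = u t := by
        refine strong_uniq hν hκ hS hT.le hm hb hP (F := fun _ => (0 : L2M univ)) (Φ := F)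
          (v := v) (v' := v') (Y := Y)
          (Y' := Y') (w := u) (w' := u1) (X := z) (X' := z1) hv hu1.strong
          (fun t ht => ?_) (fun t _ => hl _ _ (hFlaw t)) ?_
        · have h1 : ‖P (Y t)‖ ≤ S := by
            have h2 := hvS t ht
            rwa [hPn (Y t)] at h2
          rw [muf_zero h1, zero_smul, neg_zero]
        · rw [hv0, a1]
      have h3 : u t = v t := (hvt t ht).symm
      refine ⟨h3, ?_⟩
      have h4 : (v t, Y t) ∈ graphW univ := mem_pub.mpr (hv.grad t ht)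
      have h5 : (u t, z t) ∈ graphW univ := axW_le (a2 t ht.1)
      have h6 : z t = Y t := by
        obtain ⟨C, Fr⟩ := exists_gframe
        refine agrad_unique Fr h5 ?_
        rw [h3]
        exact h4
      have h7 : ‖P (z t)‖ ≤ S := by
        have h2 := hvS t ht
        rw [h6]
        rwa [hPn (Y t)] at h2
      exact muf_zero h7
    · refine le_trans (le_of_eq ?_) (a12 T hT.le)
      refine intervalIntegral.integral_congr fun r _ => ?_
      simp only [hF]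
      show ‖-(h r • P (P (z r)))‖ ^ (5 / 3 : ℝ) = _
      rw [norm_neg]
    · refine Eq.trans ?_ (a9 T hT.le)
      show ‖u T‖ ^ 2 / 2 + ∫ s in (0 : ℝ)..T, (ν * ‖z s‖ ^ 2 - ⟪F s, z s⟫_ℝ) = _
      congr 1
      refine intervalIntegral.integral_congr fun r _ => ?_
      show ν * ‖z r‖ ^ 2 - ⟪F r, z r⟫_ℝ = ν * ‖z r‖ ^ 2 + h r * ‖P (z r)‖ ^ 2
      rw [hFz]
      ring

end H772R2.NAX
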